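import Pool.Graph.R_pool_sql_team_seeded_b0a926ef.R903.PermDefs

/-!
# Antisymmetrized exterior products of cycles: definitions
-/

open CategoryTheory CategoryTheory.Limits AlgebraicGeometry
open Pool.Agent.H914 Pool.Agent.H914.VarClass Pool.Agent.H914.VarClass.Obj
open Pool.Agent.R903

universe u v w

namespace Pool.Agent.H836

variable {k : Type u} [Field k] {𝒱 : VarClass k}

/-- The antisymmetrized exterior product: the alternating sum of the cycles `∏ i, pr_{σ(i)}^* a_i`
on `X × (X × ⋯)` (`n + 1` factors) over all permutations `σ`. -/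
noncomputable def altProd (C : ChowTheory.{u, v} 𝒱) {X : 𝒱.Obj} {n : ℕ}
    (a : Fin (n + 1) → C.CH X) : C.CH (pw X n) :=
  ∑ σ : Equiv.Perm (Fin (n + 1)),
    ((Equiv.Perm.sign σ : ℤ) : ℚ) • ∏ i, C.pull (pr X n (σ i)) (a i)

/-- The exterior product `a × b` of two cycles. -/
noncomputable def extProd (C : ChowTheory.{u, v} 𝒱) {X Y : 𝒱.Obj} (a : C.CH X) (b : C.CH Y) :
    C.CH (X.prod Y) :=
  C.pull (fst X Y) a * C.pull (snd X Y) b

/-- The families `x` and `y` of cycles are dual for the intersection pairing. -/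
def IsDual (C : ChowTheory.{u, v} 𝒱) {X : 𝒱.Obj} {r : ℕ} (x y : Fin r → C.CH X) : Prop :=
  ∀ i j, C.deg X (x i * y j) = if i = j then 1 else 0

end Pool.Agent.H836
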