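import Pool.Graph.R_seed8.R903.Chow

/-!
# The Betti numbers
-/

open Pool.Agent.H914 Pool.Agent.R903

universe u v w

namespace Pool.Agent.H836

variable {k : Type u} [Field k] {𝒱 : VarClass k} {C : ChowTheory.{u, v} 𝒱}

/-- The Betti number `b_j(X)`. -/
noncomputable def betti (W : WeilTheory.{u, v, w} C) (X : 𝒱.Obj) (j : ℕ) : ℕ :=
  Module.finrank W.K (W.gr X j)

/-- The sum of the odd Betti numbers. -/
noncomputable def oddBetti (W : WeilTheory.{u, v, w} C) (X : 𝒱.Obj) : ℕ :=
  ∑ j ∈ Finset.range (2 * X.dim + 1), if Odd j then betti W X j else 0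

/-- The sum of the even Betti numbers. -/
noncomputable def evenBetti (W : WeilTheory.{u, v, w} C) (X : 𝒱.Obj) : ℕ :=
  ∑ j ∈ Finset.range (2 * X.dim + 1), if Even j then betti W X j else 0

end Pool.Agent.H836
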