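import Pool.Agent.H836.ParityMain
import Pool.Agent.H836.BettiDefs

/-!
# Betti numbers and the dimensions of direct summands of motives
-/

open CategoryTheory CategoryTheory.Limits AlgebraicGeometry
open Pool.Agent.H914 Pool.Agent.H914.VarClass Pool.Agent.H914.VarClass.Obj
open Pool.Agent.R903 Equiv Equiv.Perm Pool.Agent.R903.PermCore

universe u v w

namespace Pool.Agent.H836

variable {k : Type u} [Field k] {𝒱 : VarClass k} {C : ChowTheory.{u, v} 𝒱}
variable (W : WeilTheory.{u, v, w} C) {X Y : 𝒱.Obj}

lemma one_ne_zero_H (hP : C.Polarized) (X : 𝒱.Obj) : (1 : W.H X) ≠ 0 := by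
  intro h
  obtain ⟨D, -, hD⟩ := hP X
  apply hD
  have h1 : W.tr X (W.cl X (D ^ X.dim)) = 0 := by
    rw [← one_mul (W.cl X (D ^ X.dim)), h, zero_mul, map_zero]
  rw [W.tr_cl] at h1
  exact_mod_cast h1

/-- The dimension of a motive whose projector acts as a scalar on each `H^j`. -/
lemma motDim_of_scal {γ : C.CH (X.prod X)} (f : ℕ → W.K)
    (h : ∀ j, ∀ a ∈ W.gr X j, W.act γ a = f j • a) :
    (C.motDim γ : W.K) = ∑ j ∈ Finset.range (2 * X.dim + 1), (-1) ^ j * f j * betti W X j := by
  have h1 : sgnOp W X ∘ₗ W.act γ = scal (W.isInternal X) fun j => (-1) ^ j * f j := by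
    refine gr_ext (W.isInternal X) fun j a ha => ?_
    rw [LinearMap.comp_apply, h j a ha, map_smul, sgnOp, scal_apply _ _ ha, scal_apply _ _ ha,
      smul_smul, mul_comm]
  rw [← trace_act, h1, trace_scal (W.isInternal X) (N := 2 * X.dim + 1)
    (fun i hi => W.gr_eq_bot X i (by omega))]
  rfl

/-- The dimension of the motive `h^j(X)`. -/
lemma motDim_of_isProjector {γ : C.CH (X.prod X)} {j : ℕ}
    (h : IsProjector (W.gr X) j (W.act γ)) : C.motDim γ = (-1) ^ j * betti W X j := by
  have h1 := motDim_of_scal W (γ := γ) (fun l => if l = j then 1 else 0) (fun l a ha => by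
    rw [h l a ha]; split_ifs <;> simp)
  have h2 : (C.motDim γ : W.K) = (((-1) ^ j * betti W X j : ℚ) : W.K) := by
    rw [h1]
    push_cast
    by_cases hj : j ∈ Finset.range (2 * X.dim + 1)
    · rw [Finset.sum_eq_single j]
      · simp
      · intro l _ hl; simp [hl]
      · intro h; exact absurd hj h
    · have h3 : betti W X j = 0 := by
        rw [betti, W.gr_eq_bot X j (by simpa using hj)]
        exact finrank_bot _ _
      rw [h3, Finset.sum_eq_zero]
      · simp
      · intro l hl
        have : l ≠ j := by rintro rfl; exact hj hl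
        simp [this]
  exact_mod_cast h2

/-- An oddly finite-dimensional direct summand of the motive of `X` such that the complementary
correspondence is trivial on odd cohomology has minus the dimension of the odd cohomology. -/
lemma motDim_of_odd {γ : C.CH (X.prod X)}
    (h0 : ∀ j, Even j → ∀ a ∈ W.gr X j, W.act γ a = 0)
    (h1 : ∀ j, Odd j → ∀ a ∈ W.gr X j, W.act γ a = a) :
    C.motDim γ = -(oddBetti W X : ℚ) := by
  have h2 := motDim_of_scal W (γ := γ) (fun l => if Odd l then 1 else 0) (fun l a ha => by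
    split_ifs with h
    · rw [h1 l h a ha, one_smul]
    · rw [h0 l (Nat.not_odd_iff_even.1 h) a ha, zero_smul])
  have h3 : (C.motDim γ : W.K) = ((-(oddBetti W X : ℚ) : ℚ) : W.K) := by
    rw [h2, oddBetti]
    push_cast
    rw [← Finset.sum_neg_distrib]
    refine Finset.sum_congr rfl fun j _ => ?_
    by_cases h : Odd j
    · rw [if_pos h, if_pos h, h.neg_one_pow, Rat.cast_natCast]; ring
    · rw [if_neg h, if_neg h]; simp
  exact_mod_cast h3

lemma motDim_of_even {γ : C.CH (X.prod X)}
    (h0 : ∀ j, Odd j → ∀ a ∈ W.gr X j, W.act γ a = 0)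
    (h1 : ∀ j, Even j → ∀ a ∈ W.gr X j, W.act γ a = a) :
    C.motDim γ = evenBetti W X := by
  have h2 := motDim_of_scal W (γ := γ) (fun l => if Even l then 1 else 0) (fun l a ha => by
    split_ifs with h
    · rw [h1 l h a ha, one_smul]
    · rw [h0 l (Nat.not_even_iff_odd.1 h) a ha, zero_smul])
  have h3 : (C.motDim γ : W.K) = ((evenBetti W X : ℚ) : W.K) := by
    rw [h2, evenBetti]
    push_cast
    refine Finset.sum_congr rfl fun j _ => ?_
    by_cases h : Even j
    · rw [if_pos h, if_pos h, h.neg_one_pow, Rat.cast_natCast]; ring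
    · rw [if_neg h, if_neg h]; simp
  exact_mod_cast h3

/-- A motive with a vanishing symmetric power has no even cohomology. -/
lemma act_even_of_symVanishes (hP : C.Polarized) {γ : C.CH (X.prod X)} {m : ℕ}
    (h : C.SymVanishes γ m) {j : ℕ} (hj : Even j) {a : W.H X} (ha : a ∈ W.gr X j) :
    W.act γ a = 0 := by
  refine act_eq_zero_of_permRel (one_ne_zero_H W hP X) (ChowTheory.symVanishes_iff.1 h).2 ?_ ha
  rw [hj.neg_one_pow]; rfl

/-- A motive with a vanishing exterior power has no odd cohomology. -/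
lemma act_odd_of_extVanishes (hP : C.Polarized) {γ : C.CH (X.prod X)} {m : ℕ}
    (h : C.ExtVanishes γ m) {j : ℕ} (hj : Odd j) {a : W.H X} (ha : a ∈ W.gr X j) :
    W.act γ a = 0 := by
  refine act_eq_zero_of_permRel (one_ne_zero_H W hP X) (ChowTheory.extVanishes_iff.1 h).2 ?_ ha
  rw [hj.neg_one_pow]

/-- Decomposable correspondences act as zero on the odd cohomology. -/
lemma act_ext_odd (x y : C.CH X) {j : ℕ} (hj : Odd j) {a : W.H X} (ha : a ∈ W.gr X j) :
    W.act (C.ext x y) a = 0 := by
  have h1 : W.act (C.ext x y) a = W.tr X (W.cl X x * a) • W.cl X y := by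
    rw [WeilTheory.act_apply, ChowTheory.ext, W.cl_mul, W.cl_pull, W.cl_pull]
    have h2 := Subalgebra.mem_center_iff.1
      (Cen.mem_center ((cen_cl (W := W) y).map (snd X X))) (W.map (fst X X) (W.cl X x))
    have h3 := Subalgebra.mem_center_iff.1
      (Cen.mem_center ((cen_cl (W := W) y).map (snd X X))) (W.map (fst X X) (W.cl X x * a))
    rw [h2, mul_assoc, ← W.map_mul', ← h3, W.push_snd]
  rw [h1]
  have h4 : W.tr X (W.cl X x * a) = 0 := by
    refine gr_induction (C.isChowRing X).isInternal
      (p := fun x => W.tr X (W.cl X x * a) = 0) ?_ ?_ x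
    · intro i x hx
      refine W.tr_eq_zero (W.mul_mem (W.cl_mem hx) ha) ?_
      obtain ⟨r, hr⟩ := hj
      omega
    · intro x x' hx hx'
      rw [map_add, add_mul, map_add, hx, hx', add_zero]
  rw [h4, zero_smul]

/-- If the sum of `γ` and of a decomposable correspondence is the diagonal and a symmetric power of
`γ` vanishes, then the dimension is minus the sum of the odd Betti numbers. -/
theorem motDim_eq_neg_oddBetti (hP : C.Polarized) {γ : C.CH (X.prod X)} {m : ℕ}
    (h : C.SymVanishes γ m) {r : ℕ} (x y : Fin r → C.CH X)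
    (hγ : γ + ∑ j, C.ext (x j) (y j) = C.diagC X) : C.motDim γ = -(oddBetti W X : ℚ) := by
  refine motDim_of_odd W (fun j hj a ha => act_even_of_symVanishes W hP h hj ha) ?_
  intro j hj a ha
  have h1 : W.act (C.diagC X) a = a := W.act_diagC a
  rw [← hγ, W.act_add, LinearMap.add_apply, W.act_sum, LinearMap.sum_apply] at h1
  rw [Finset.sum_eq_zero (fun i _ => act_ext_odd W (x i) (y i) hj ha), add_zero] at h1
  exact h1

/-- Homologically trivial cycles are numerically trivial. -/
lemma deg_eq_zero_of_cl {a : C.CH X} (h : W.cl X a = 0) (b : C.CH X) : C.deg X (a * b) = 0 := by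
  have h1 := W.tr_cl (a * b)
  rw [W.cl_mul, h, zero_mul, map_zero] at h1
  exact_mod_cast h1.symm

end Pool.Agent.H836
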