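import Pool.Agent.H836.CayDefs

/-!
# Correspondences on surfaces and the transcendental part of the motive: definitions
-/

open CategoryTheory CategoryTheory.Limits AlgebraicGeometry
open Pool.Agent.H914 Pool.Agent.H914.VarClass Pool.Agent.H914.VarClass.Obj
open Pool.Agent.R903

universe u v w

namespace Pool.Agent.H836.Bloch

section gen

/-- All complex roots of `P` have multiplicity at most `e`. -/
def MultLE (P : Polynomial ℚ) (e : ℕ) : Prop :=
  ∀ z : ℂ, (P.map (algebraMap ℚ ℂ)).rootMultiplicity z ≤ e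

variable {V : Type v} [AddCommGroup V] [Module ℚ V]

/-- For `P = ∑ c_n T^n`, a map `B : V × U → V` and maps `S`, `T`: the sum
`∑ c_n ∑_{i < n} B(S^(n - 1 - i) z, T^i w)`. -/
noncomputable def divSum {U : Type v} (P : Polynomial ℚ) (S T : U → U) (B : U → U → V)
    (z w : U) : V :=
  P.sum fun n c => c • ∑ i ∈ Finset.range n, B (S^[n - 1 - i] z) (T^[i] w)

/-- For `P = ∑ c_n T^n` and maps `G`, `Γ`: the sum `∑ c_n ∑_{i < n} G^i Γ G^(n - 1 - i) a`. -/
noncomputable def linSum (P : Polynomial ℚ) (G Γ : V → V) (a : V) : V :=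
  P.sum fun n c => c • ∑ i ∈ Finset.range n, G^[i] (Γ (G^[n - 1 - i] a))

/-- `g` is a linear combination of the `u h`. -/
def InSpan {G : Type} (u : G → V) (g : V) : Prop :=
  g ∈ Submodule.span ℚ (Set.range u)

/-- The value of the linear map `f` at `a`. -/
def ap {K : Type w} [Field K] {A : Type v} [AddCommGroup A] [Module K A] (f : A →ₗ[K] A) (a : A) :
    A :=
  f a

/-- The homogeneous elements of degree `i`. -/
def piece {K : Type w} [Field K] {A : Type v} [AddCommGroup A] [Module K A]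
    (gr : ℕ → Submodule K A) (i : ℕ) : Set A :=
  {x | x ∈ gr i}

/-- The linear map `f` vanishes on the subset `S`. -/
def KillsSet {K : Type w} [Field K] {A : Type v} [AddCommGroup A] [Module K A] (f : A →ₗ[K] A)
    (S : Set A) : Prop :=
  ∀ x ∈ S, f x = 0

end gen

variable {k : Type u} [Field k] {𝒱 : VarClass k} {C : ChowTheory.{u, v} 𝒱}

/-- `x` is a class of codimension `i`. -/
def InCodim (C : ChowTheory.{u, v} 𝒱) {Y : 𝒱.Obj} (i : ℕ) (x : C.CH Y) : Prop :=
  x ∈ piece (C.gr Y) i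

/-- The action `a ↦ pr_{2*}(Γ · pr_1^* a)` of a correspondence `Γ` on the Chow group. -/
noncomputable def op (C : ChowTheory.{u, v} 𝒱) {X : 𝒱.Obj} (Γ : C.CH (X.prod X)) (a : C.CH X) :
    C.CH X :=
  ap (C.act Γ) a

/-- The pull-back `f^* a`. -/
noncomputable def pb (C : ChowTheory.{u, v} 𝒱) {X Y : 𝒱.Obj} (f : Y ⟶ X) (a : C.CH X) : C.CH Y :=
  C.pull f a

/-- The transpose of the correspondence `Γ`. -/
noncomputable def tr (C : ChowTheory.{u, v} 𝒱) {X : 𝒱.Obj} (Γ : C.CH (X.prod X)) :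
    C.CH (X.prod X) :=
  pb C (lift (snd X X) (fst X X)) Γ

/-- The exterior product `a × b` of two cycles on `X`. -/
noncomputable def cross (C : ChowTheory.{u, v} 𝒱) {X : 𝒱.Obj} (a b : C.CH X) :
    C.CH (X.prod X) :=
  pb C (fst X X) a * pb C (snd X X) b

/-- The endomorphism `ω ∘ Γ ∘ ω` of the motive `(X, ω)` which is given by `Γ`. -/
noncomputable def cut (C : ChowTheory.{u, v} 𝒱) {X : 𝒱.Obj} (ω Γ : C.CH (X.prod X)) :
    C.CH (X.prod X) :=
  C.comp (C.comp ω Γ) ω

/-- `Γ` acts as zero on the subset `S` of the cohomology of `X`. -/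
def Kills (W : WeilTheory.{u, v, w} C) {X : 𝒱.Obj} (Γ : C.CH (X.prod X)) (S : Set (W.H X)) :
    Prop :=
  KillsSet (W.act Γ) S

/-- Known properties of the transcendental motive `t_2(X) = (X, ω)` of a surface `X`, where `H20`
stands for `H^{2,0}(X)`: `ω` is a symmetric idempotent in `CH^2(X × X)` which acts as zero on
`H^j(X)` for `j ≠ 2`; `Γ ↦ ω ∘ Γ ∘ ω` is compatible with the composition of correspondences `Γ` in
`CH^2(X × X)`; these `Γ` preserve the image of `ω` in the Chow group of `X` (the kernel of the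
Albanese map); and `ω ∘ Γ ∘ ω` is homologically trivial if `Γ` acts as zero on `H^{2,0}(X)`
(Lefschetz). -/
structure IsTranscendental (W : WeilTheory.{u, v, w} C) {X : 𝒱.Obj} (H20 : Set (W.H X))
    (ω : C.CH (X.prod X)) : Prop where
  dim : X.dim = 2
  mem : InCodim C 2 ω
  idem : C.comp ω ω = ω
  symm : tr C ω = ω
  coh : ∀ j, j ≠ 2 → Kills W ω (piece (W.gr X) j)
  mul : ∀ Γ Γ', InCodim C 2 Γ → InCodim C 2 Γ' →
    C.comp (cut C ω Γ) (cut C ω Γ') = cut C ω (C.comp Γ Γ')
  stable : ∀ Γ, InCodim C 2 Γ → ∀ a, op C ω (op C Γ (op C ω a)) = op C Γ (op C ω a)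
  lefschetz : ∀ Γ, InCodim C 2 Γ → Kills W Γ H20 → Kills W (cut C ω Γ) Set.univ

/-- `a` is a zero-cycle of `t_2(X) = (X, ω)`, that is, it lies in the kernel of the Albanese map. -/
def InAlbaneseKernel (C : ChowTheory.{u, v} 𝒱) {X : 𝒱.Obj} (ω : C.CH (X.prod X)) (a : C.CH X) :
    Prop :=
  InCodim C 2 a ∧ op C ω a = a

/-- The group `G` acts on the motive `(X, ω)` by the correspondences `u h`. -/
def GroupActs (C : ChowTheory.{u, v} 𝒱) {X : 𝒱.Obj} (ω : C.CH (X.prod X)) {G : Type} [Group G]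
    (u : G → C.CH (X.prod X)) : Prop :=
  ∀ h h', InCodim C 2 (u h) ∧ cut C ω (C.comp (u h) (u h')) = cut C ω (u (h * h'))

end Pool.Agent.H836.Bloch
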