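import Pool.Graph.R_pool_sql_team_seeded_b0a926ef.R903.KimDefs

/-!
# Polynomials in a correspondence: definitions
-/

open CategoryTheory CategoryTheory.Limits AlgebraicGeometry
open Pool.Agent.H914 Pool.Agent.H914.VarClass Pool.Agent.H914.VarClass.Obj
open Pool.Agent.R903

universe u v w

namespace Pool.Agent.H836

/-- The subspace `S` is finite-dimensional and stable under `T`, and the polynomial `P` with
rational coefficients is the characteristic polynomial of the restriction of `T` to `S`. -/
def IsCharpoly {K : Type w} [Field K] [CharZero K] {V : Type w} [AddCommGroup V] [Module K V]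
    (P : Polynomial ℚ) (T : V →ₗ[K] V) (S : Submodule K V) : Prop :=
  ∃ (h : ∀ x ∈ S, T x ∈ S) (_ : Module.Finite K S),
    P.map (algebraMap ℚ K) = (T.restrict h).charpoly

variable {k : Type u} [Field k] {𝒱 : VarClass k} {C : ChowTheory.{u, v} 𝒱}

/-- The cohomology of the motive `(X, ω)`: the image of `ω_*` on `H(X)`. -/
noncomputable def motCoh (W : WeilTheory.{u, v, w} C) {X : 𝒱.Obj} (ω : C.CH (X.prod X)) :
    Submodule W.K (W.H X) :=
  LinearMap.range (W.act ω)

/-- The power `f^n = f ∘ ⋯ ∘ f` of an endomorphism `f` of the motive `(X, ω)`; here `f^0 = ω` is the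
identity of the motive. -/
noncomputable def corrPow (C : ChowTheory.{u, v} 𝒱) {X : 𝒱.Obj} (ω f : C.CH (X.prod X)) :
    ℕ → C.CH (X.prod X)
  | 0 => ω
  | n + 1 => C.comp (corrPow C ω f n) f

/-- The value `P(f) = ∑ c_n f^n` of the polynomial `P = ∑ c_n T^n` for an endomorphism `f` of the
motive `(X, ω)`. -/
noncomputable def corrEval (C : ChowTheory.{u, v} 𝒱) {X : 𝒱.Obj} (P : Polynomial ℚ)
    (ω f : C.CH (X.prod X)) : C.CH (X.prod X) :=
  P.sum fun n c => c • corrPow C ω f n

end Pool.Agent.H836
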