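import Pool.Agent.H836.Newton

/-!
# The characteristic polynomial and the traces of the powers
-/

open Finset Polynomial Matrix

namespace Pool.Agent.H836

variable {R : Type*} [CommRing R] {n : Type*} [Fintype n] [DecidableEq n]

lemma det_updateCol_derivative (A : Matrix n n R[X]) (i : n) :
    (A.updateCol i fun j => derivative (A j i)).det =
      ∑ σ : Equiv.Perm n, Equiv.Perm.sign σ •
        ((∏ j ∈ univ.erase i, A (σ j) j) * derivative (A (σ i) i)) := by
  rw [Matrix.det_apply]
  refine Finset.sum_congr rfl fun σ _ => ?_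
  rw [← Finset.prod_erase_mul univ _ (Finset.mem_univ i)]
  congr 2
  · refine Finset.prod_congr rfl fun j hj => ?_
    rw [Matrix.updateCol_ne (Finset.ne_of_mem_erase hj)]
  · rw [Matrix.updateCol_self]

/-- **Jacobi's formula.** -/
lemma derivative_det (A : Matrix n n R[X]) :
    derivative A.det = ∑ i, ∑ j, A.adjugate i j * derivative (A j i) := by
  have h1 : ∀ i, ∑ j, A.adjugate i j * derivative (A j i) =
      (A.updateCol i fun j => derivative (A j i)).det := by
    intro i
    rw [← Matrix.cramer_apply, Matrix.cramer_eq_adjugate_mulVec]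
    rfl
  rw [Finset.sum_congr rfl fun i _ => h1 i,
    Finset.sum_congr rfl fun i _ => det_updateCol_derivative A i, Finset.sum_comm,
    Matrix.det_apply, derivative_sum]
  refine Finset.sum_congr rfl fun σ _ => ?_
  rw [← Finset.smul_sum, derivative_smul, Polynomial.derivative_prod_finset]

/-- The recursion for the coefficients of the reversed characteristic polynomial. -/
lemma coeff_charpolyRev (M : Matrix n n R) (m : ℕ) :
    ((m : R) + 1) * M.charpolyRev.coeff (m + 1) =
      -∑ x ∈ Finset.HasAntidiagonal.antidiagonal m,
        (M ^ (x.1 + 1)).trace * M.charpolyRev.coeff x.2 := by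
  set A : Matrix n n R[X] := 1 - (X : R[X]) • M.map C with hA
  set D : R[X] := M.charpolyRev with hD
  have hDA : D = A.det := rfl
  -- the coefficients of the adjugate matrix
  set P : ℕ → Matrix n n R := fun m => A.adjugate.map fun p => p.coeff m with hP
  have h1 : ∀ i j, A.adjugate i j - X * ∑ l, A.adjugate i l * C (M l j) =
      if i = j then D else 0 := by
    intro i j
    have h := congrFun (congrFun (Matrix.adjugate_mul A) i) j
    rw [← hDA, Matrix.smul_apply, Matrix.one_apply, smul_eq_mul, mul_ite, mul_one, mul_zero] at h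
    rw [← h]
    conv_rhs => rw [hA]
    rw [mul_sub, mul_one, Matrix.sub_apply, ← hA, Matrix.mul_smul, Matrix.smul_apply, smul_eq_mul,
      Matrix.mul_apply]
    rfl
  have hPa : ∀ m i j, P m i j = (A.adjugate i j).coeff m := fun _ _ _ => rfl
  have hP0 : P 0 = D.coeff 0 • (1 : Matrix n n R) := by
    ext i j
    have h := congrArg (fun p => p.coeff 0) (h1 i j)
    simp only [coeff_sub, coeff_X_mul_zero, sub_zero] at h
    rw [hPa, h, Matrix.smul_apply, Matrix.one_apply]
    split_ifs <;> simp
  have hPs : ∀ m, P (m + 1) = P m * M + D.coeff (m + 1) • (1 : Matrix n n R) := by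
    intro m
    ext i j
    have h := congrArg (fun p => p.coeff (m + 1)) (h1 i j)
    simp only [coeff_sub, coeff_X_mul, finsetSum_coeff, coeff_mul_C] at h
    rw [sub_eq_iff_eq_add'] at h
    rw [hPa, h, Matrix.add_apply, Matrix.mul_apply, Matrix.smul_apply,
      Matrix.one_apply]
    congr 1
    split_ifs <;> simp
  have hPm : ∀ m, P m = ∑ x ∈ Finset.HasAntidiagonal.antidiagonal m, D.coeff x.2 • M ^ x.1 := by
    intro m
    induction m with
    | zero => simp [hP0]
    | succ m ih =>
      rw [hPs, ih, Finset.Nat.sum_antidiagonal_succ, Finset.sum_mul, pow_zero, add_comm]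
      congr 1
      refine Finset.sum_congr rfl fun x _ => ?_
      rw [smul_mul_assoc, ← pow_succ]
  -- the derivative
  have h2 := congrArg (fun p => p.coeff m) (derivative_det A)
  simp only [coeff_derivative, finsetSum_coeff] at h2
  rw [← hDA] at h2
  rw [mul_comm, h2]
  have h3 : ∀ i j, (A.adjugate i j * derivative (A j i)).coeff m = -(P m i j * M j i) := by
    intro i j
    have : derivative (A j i) = -C (M j i) := by
      rw [hA, Matrix.sub_apply, Matrix.smul_apply, Matrix.map_apply, smul_eq_mul, derivative_sub,
        derivative_mul, derivative_X, derivative_C, mul_zero, add_zero, one_mul, Matrix.one_apply]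
      split_ifs <;> simp
    rw [this, mul_neg, coeff_neg, coeff_mul_C]
    rfl
  have h4 : ∑ i, ∑ j, (A.adjugate i j * derivative (A j i)).coeff m = -(P m * M).trace := by
    rw [Matrix.trace, ← Finset.sum_neg_distrib]
    refine Finset.sum_congr rfl fun i _ => ?_
    rw [Matrix.diag_apply, Matrix.mul_apply, ← Finset.sum_neg_distrib]
    exact Finset.sum_congr rfl fun j _ => h3 i j
  rw [h4, hPm, Finset.sum_mul, Matrix.trace_sum]
  congr 1
  refine Finset.sum_congr rfl fun x _ => ?_
  rw [smul_mul_assoc, Matrix.trace_smul, ← pow_succ, smul_eq_mul, mul_comm]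

section field

variable {K : Type*} [Field K] [CharZero K]

theorem charpolyRev_coeff (M : Matrix n n K) :
    (fun j => M.charpolyRev.coeff j) = newt fun k => (M ^ k).trace :=
  eq_newt (by rw [coeff_zero_eq_eval_zero, Matrix.eval_charpolyRev]) fun m =>
    coeff_charpolyRev M m

/-- The characteristic polynomial is determined by the traces of the powers. -/
theorem charpoly_eq_npoly (M : Matrix n n K) :
    M.charpoly = npoly (newt fun k => (M ^ k).trace) (Fintype.card n) := by
  have hd : M.charpoly.natDegree = Fintype.card n := M.charpoly_natDegree_eq_dim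
  rw [← charpolyRev_coeff, npoly]
  conv_lhs => rw [M.charpoly.as_sum_range_C_mul_X_pow, hd, ← Finset.sum_range_reflect]
  refine Finset.sum_congr rfl fun j hj => ?_
  have hj' : j ≤ Fintype.card n := by
    have := Finset.mem_range.1 hj
    omega
  have h1 : Fintype.card n + 1 - 1 - j = Fintype.card n - j := by omega
  simp only [h1]
  rw [← Matrix.reverse_charpoly, coeff_reverse, hd, revAt_le hj']

open Module in
/-- The characteristic polynomial of an endomorphism is determined by the traces of its powers. -/
theorem endCharpoly_eq_npoly {V : Type*} [AddCommGroup V] [Module K V] [Module.Finite K V]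
    (φ : Module.End K V) : φ.charpoly =
      npoly (newt fun k => LinearMap.trace K V (φ ^ k)) (Module.finrank K V) := by
  classical
  set b := Module.Free.chooseBasis K V
  rw [← LinearMap.charpoly_toMatrix φ b, Pool.Agent.H836.charpoly_eq_npoly,
    Module.finrank_eq_card_chooseBasisIndex]
  congr 2
  funext k
  rw [LinearMap.trace_eq_matrix_trace K b, ← LinearMap.toMatrix_pow]

omit [CharZero K] in
/-- The trace of the powers of the restriction to the image of an idempotent. -/
lemma trace_restrict_pow {V : Type*} [AddCommGroup V] [Module K V] [Module.Finite K V]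
    (E T : Module.End K V) (hE : E * E = E) (hT : ∀ x ∈ LinearMap.range E, T x ∈ LinearMap.range E)
    (k : ℕ) : LinearMap.trace K _ (T.restrict hT ^ k) = LinearMap.trace K V (T ^ k * E) := by
  have h1 : T ^ k * E = (LinearMap.range E).subtype ∘ₗ (T.restrict hT ^ k) ∘ₗ E.rangeRestrict := by
    ext x
    have h2 : ∀ y : LinearMap.range E, ((T.restrict hT ^ k) y : V) = (T ^ k) y := by
      intro y
      induction k with
      | zero => rfl
      | succ k ih =>
        rw [pow_succ', pow_succ', Module.End.mul_apply, Module.End.mul_apply, ← ih]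
        rfl
    rw [LinearMap.comp_apply, LinearMap.comp_apply, Submodule.subtype_apply, h2]
    rfl
  have h3 : E.rangeRestrict ∘ₗ (LinearMap.range E).subtype = LinearMap.id := by
    ext x
    obtain ⟨y, hy⟩ := x.2
    rw [LinearMap.comp_apply, Submodule.subtype_apply, LinearMap.id_apply]
    change E x = x
    rw [← hy, ← Module.End.mul_apply, hE]
  rw [h1, LinearMap.trace_comp_comm', LinearMap.comp_assoc, h3, LinearMap.comp_id]

/-- The characteristic polynomial of an endomorphism which commutes with an idempotent. -/
theorem charpoly_of_idem {V : Type*} [AddCommGroup V] [Module K V] [Module.Finite K V]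
    (E E' T : Module.End K V) (hE : E * E = E) (hE' : E' * E' = E') (h1 : E + E' = 1)
    (hc : E * T = T * E) {m n : ℕ} (hm : (m : K) = LinearMap.trace K V E)
    (hn : (n : K) = LinearMap.trace K V E') : T.charpoly =
      npoly (newt fun k => LinearMap.trace K V (T ^ k * E)) m *
        npoly (newt fun k => LinearMap.trace K V (T ^ k * E')) n := by
  have hc' : E' * T = T * E' := by
    rw [← sub_eq_iff_eq_add'.2 h1.symm, sub_mul, mul_sub, one_mul, mul_one, hc]
  have hEE : E * E' = 0 := by
    rw [← sub_eq_iff_eq_add'.2 h1.symm, mul_sub, mul_one, hE, sub_self]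
  have hEE' : E' * E = 0 := by
    rw [← sub_eq_iff_eq_add'.2 h1.symm, sub_mul, one_mul, hE, sub_self]
  have hT : ∀ x ∈ LinearMap.range E, T x ∈ LinearMap.range E := by
    rintro _ ⟨x, rfl⟩
    exact ⟨T x, congrArg (fun φ : Module.End K V => φ x) hc⟩
  have hT' : ∀ x ∈ LinearMap.range E', T x ∈ LinearMap.range E' := by
    rintro _ ⟨x, rfl⟩
    exact ⟨T x, congrArg (fun φ : Module.End K V => φ x) hc'⟩
  have hcompl : IsCompl (LinearMap.range E) (LinearMap.range E') := by
    refine IsCompl.of_eq ?_ ?_
    · rw [eq_bot_iff]
      rintro x ⟨⟨y, hy⟩, z, hz⟩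
      have h2 : E x = x := by rw [← hy, ← Module.End.mul_apply, hE]
      have h3 : E x = 0 := by rw [← hz, ← Module.End.mul_apply, hEE]; rfl
      rw [Submodule.mem_bot, ← h2, h3]
    · rw [eq_top_iff]
      intro x _
      have h2 : x = E x + E' x := by rw [← LinearMap.add_apply, h1]; rfl
      rw [h2]
      exact Submodule.add_mem_sup ⟨x, rfl⟩ ⟨x, rfl⟩
  have hrank : ∀ (F : Module.End K V), F * F = F → ∀ m : ℕ, (m : K) = LinearMap.trace K V F →
      m = Module.finrank K (LinearMap.range F) := by
    intro F hF m hm
    have h2 : LinearMap.trace K V F = Module.finrank K (LinearMap.range F) :=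
      LinearMap.IsProj.trace ⟨fun x => ⟨x, rfl⟩, by
        rintro _ ⟨x, rfl⟩
        rw [← Module.End.mul_apply, hF]⟩
    rw [h2] at hm
    exact_mod_cast hm
  set e := Submodule.prodEquivOfIsCompl _ _ hcompl with he
  have h2 : T = e.conj ((T.restrict hT).prodMap (T.restrict hT')) := by
    rw [LinearEquiv.conj_apply]
    symm
    rw [LinearEquiv.comp_toLinearMap_symm_eq]
    ext x
    · simp [he]
    · simp [he]
  rw [h2, LinearEquiv.charpoly_conj, LinearMap.charpoly_prodMap, ← h2, endCharpoly_eq_npoly,
    endCharpoly_eq_npoly, hrank E hE m hm, hrank E' hE' n hn]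
  simp only [trace_restrict_pow _ _ hE hT, trace_restrict_pow _ _ hE' hT']

/-- The characteristic polynomial of an endomorphism of the image of a sum of two orthogonal
idempotents. -/
theorem charpoly_corner {V : Type*} [AddCommGroup V] [Module K V] [Module.Finite K V]
    (E O T : Module.End K V) (hE : E * E = E) (hO : O * O = O) (hEO : E * O = 0) (hOE : O * E = 0)
    (hET : E * T = T * E) (hOT : O * T = T * O) {m n : ℕ} (hm : (m : K) = LinearMap.trace K V E)
    (hn : (n : K) = LinearMap.trace K V O)
    (h : ∀ x ∈ LinearMap.range (E + O), T x ∈ LinearMap.range (E + O)) :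
    (T.restrict h).charpoly =
      npoly (newt fun k => LinearMap.trace K V (T ^ k * E)) m *
        npoly (newt fun k => LinearMap.trace K V (T ^ k * O)) n := by
  have hE1 : (E + O) * E = E := by rw [add_mul, hE, hOE, add_zero]
  have hO1 : (E + O) * O = O := by rw [add_mul, hO, hEO, zero_add]
  have hE2 : ∀ x, E x ∈ LinearMap.range (E + O) := fun x =>
    ⟨E x, congrArg (fun φ : Module.End K V => φ x) hE1⟩
  have hO2 : ∀ x, O x ∈ LinearMap.range (E + O) := fun x =>
    ⟨O x, congrArg (fun φ : Module.End K V => φ x) hO1⟩
  have htr : ∀ (F : Module.End K V) (hF : ∀ x, F x ∈ LinearMap.range (E + O)) (hFT : F * T = T * F)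
      (k : ℕ), LinearMap.trace K _ (T.restrict h ^ k * F.restrict fun x _ => hF x) =
        LinearMap.trace K V (T ^ k * F) := by
    intro F hF hFT k
    have h1 : T ^ k * F = F * T ^ k := by
      have : Commute F T := hFT
      exact (this.pow_right k).eq.symm
    have h2 : ∀ x, (T ^ k * F) x ∈ LinearMap.range (E + O) := fun x => by
      rw [h1]; exact hF _
    rw [← LinearMap.trace_restrict_eq_of_forall_mem _ (T ^ k * F) h2]
    congr 1
    ext x
    have h3 : ∀ y : LinearMap.range (E + O), ((T.restrict h ^ k) y : V) = (T ^ k) y := by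
      intro y
      clear h1 h2
      induction k with
      | zero => rfl
      | succ k ih =>
        rw [pow_succ', pow_succ', Module.End.mul_apply, Module.End.mul_apply, ← ih]
        rfl
    rw [Module.End.mul_apply, h3]
    rfl
  have hmn : ∀ (F : Module.End K V) (hF : ∀ x, F x ∈ LinearMap.range (E + O)),
      LinearMap.trace K V F = LinearMap.trace K _ (F.restrict fun x (_ : x ∈
        LinearMap.range (E + O)) => hF x) := fun F hF =>
    (LinearMap.trace_restrict_eq_of_forall_mem _ F hF).symm
  rw [charpoly_of_idem (E.restrict fun x _ => hE2 x) (O.restrict fun x _ => hO2 x) (T.restrict h)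
    ?_ ?_ ?_ ?_ (m := m) (n := n) (by rw [hm, hmn E hE2]) (by rw [hn, hmn O hO2])]
  · simp only [htr E hE2 hET, htr O hO2 hOT]
  · ext x
    exact congrArg (fun φ : Module.End K V => φ x) hE
  · ext x
    exact congrArg (fun φ : Module.End K V => φ x) hO
  · ext ⟨x, y, hy⟩
    change E x + O x = x
    rw [← hy, ← LinearMap.add_apply, ← Module.End.mul_apply, mul_add, hE1, hO1]
  · ext x
    exact congrArg (fun φ : Module.End K V => φ x) hET

end field

end Pool.Agent.H836
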