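import Mathlib

/-!
# The Cayley–Hamilton theorem for a ring with two blocks
-/

open Finset.HasAntidiagonal (antidiagonal)

namespace Pool.Agent.H836

variable {A : Type*} [Ring A]

/-- The sum of the words with `i` letters `u` and `j` letters `v`. -/
def words (u v : A) : ℕ → ℕ → A
  | 0, 0 => 1
  | i + 1, 0 => u * words u v i 0
  | 0, j + 1 => v * words u v 0 j
  | i + 1, j + 1 => u * words u v i (j + 1) + v * words u v (i + 1) j

variable (u v : A)

lemma words_zero_zero : words u v 0 0 = 1 := by rw [words]
lemma words_succ_zero (i : ℕ) : words u v (i + 1) 0 = u * words u v i 0 := by rw [words]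
lemma words_zero_succ (j : ℕ) : words u v 0 (j + 1) = v * words u v 0 j := by rw [words]
lemma words_succ_succ (i j : ℕ) : words u v (i + 1) (j + 1) =
    u * words u v i (j + 1) + v * words u v (i + 1) j := by rw [words]

lemma words_swap (i j : ℕ) : words u v i j = words v u j i := by
  induction i generalizing j with
  | zero =>
    induction j with
    | zero => rw [words_zero_zero, words_zero_zero]
    | succ j ih => rw [words_zero_succ, words_succ_zero, ih]
  | succ i ihi =>
    induction j with
    | zero => rw [words_succ_zero, words_zero_succ, ihi]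
    | succ j ihj => rw [words_succ_succ, words_succ_succ, ihi, ihj, add_comm]

/-- `words` with the value `0` for negative arguments. -/
def wordsU (i j : ℕ) : A := match i with
  | 0 => 0
  | i + 1 => u * words u v i j

def wordsV (i j : ℕ) : A := match j with
  | 0 => 0
  | j + 1 => v * words u v i j

lemma words_eq_of_pos (i j : ℕ) (h : i ≠ 0 ∨ j ≠ 0) :
    words u v i j = wordsU u v i j + wordsV u v i j := by
  rcases i with _ | i <;> rcases j with _ | j
  · simp at h
  · rw [words_zero_succ]; simp [wordsU, wordsV]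
  · rw [words_succ_zero]; simp [wordsU, wordsV]
  · rw [words_succ_succ]; simp [wordsU, wordsV]

lemma sum_words (n : ℕ) : ∑ x ∈ antidiagonal n, words u v x.1 x.2 = (u + v) ^ n := by
  induction n with
  | zero => simp [words_zero_zero]
  | succ n ih =>
    rw [pow_succ', ← ih]
    have h1 : ∑ x ∈ antidiagonal (n + 1), words u v x.1 x.2 =
        ∑ x ∈ antidiagonal (n + 1), wordsU u v x.1 x.2 +
          ∑ x ∈ antidiagonal (n + 1), wordsV u v x.1 x.2 := by
      rw [← Finset.sum_add_distrib]
      refine Finset.sum_congr rfl fun x hx => words_eq_of_pos u v _ _ ?_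
      have := Finset.HasAntidiagonal.mem_antidiagonal.1 hx
      omega
    rw [h1, Finset.Nat.sum_antidiagonal_succ, Finset.Nat.sum_antidiagonal_succ'
      (f := fun x => wordsV u v x.1 x.2), add_mul, Finset.mul_sum, Finset.mul_sum]
    simp [wordsU, wordsV]

/-! ### power series -/

open PowerSeries

/-- The generating series of the words with `i` letters `u`. -/
noncomputable def wser (i : ℕ) : A⟦X⟧ := PowerSeries.mk fun j => words u v i j

lemma wser_zero_eq : wser u v 0 = PowerSeries.mk fun j => v ^ j := by
  rw [wser]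
  congr 1
  funext j
  induction j with
  | zero => rw [words_zero_zero, pow_zero]
  | succ j ih => rw [words_zero_succ, ih, pow_succ']

lemma one_sub_mul_wser_zero : (1 - X * C v) * wser u v 0 = 1 := by
  ext j
  rw [sub_mul, one_mul, map_sub, mul_assoc]
  cases j with
  | zero => simp [wser, words_zero_zero]
  | succ j =>
    rw [coeff_succ_X_mul, coeff_C_mul, wser, coeff_mk, coeff_mk, words_zero_succ, sub_self]
    simp [coeff_one]

lemma one_sub_mul_wser_succ (i : ℕ) :
    (1 - X * C v) * wser u v (i + 1) = C u * wser u v i := by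
  ext j
  rw [sub_mul, one_mul, map_sub, mul_assoc, coeff_C_mul]
  cases j with
  | zero => simp [wser, words_succ_zero]
  | succ j =>
    rw [coeff_succ_X_mul, coeff_C_mul, wser, wser, coeff_mk, coeff_mk, coeff_mk, words_succ_succ]
    abel

lemma wser_zero_mul_one_sub : wser u v 0 * (1 - X * C v) = 1 := by
  have hc : Commute (wser u v 0) (1 - X * C v) := by
    rw [wser_zero_eq]
    refine Commute.sub_right (Commute.one_right _) ?_
    ext j
    cases j with
    | zero => simp
    | succ j =>
      rw [mul_assoc, coeff_succ_X_mul, coeff_C_mul, ← mul_assoc, ← PowerSeries.X_mul, mul_assoc,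
        coeff_succ_X_mul, coeff_mul_C, coeff_mk, ← pow_succ, pow_succ']
  rw [hc.eq, one_sub_mul_wser_zero]

lemma wser_succ (i : ℕ) : wser u v (i + 1) = wser u v 0 * C u * wser u v i := by
  rw [mul_assoc, ← one_sub_mul_wser_succ, ← mul_assoc, wser_zero_mul_one_sub, one_mul]

/-! ### the blocks -/

section block

variable (e f : A)

/-- The upper left block of `(1 - X v)⁻¹`. -/
noncomputable def xser : A⟦X⟧ := C e * C f * wser (e * f) ((1 - e) * f) 0 * C e

variable {e f} (he : e * e = e)
include he

lemma C_mul_xser : C e * xser e f = xser e f := by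
  rw [xser, ← mul_assoc, ← mul_assoc, ← mul_assoc, ← map_mul, he]

lemma xser_mul_C : xser e f * C e = xser e f := by
  have h : (C e : A⟦X⟧) * C e = C e := by rw [← map_mul, he]
  rw [xser, mul_assoc, h]

lemma C_mul_pow (i : ℕ) : C e * (xser e f ^ i * C e) = xser e f ^ i * C e := by
  cases i with
  | zero => rw [pow_zero, one_mul, ← map_mul, he]
  | succ i => rw [pow_succ', ← mul_assoc, ← mul_assoc, C_mul_xser he]

lemma step (i : ℕ) : C e * C f * wser (e * f) ((1 - e) * f) 0 * (xser e f ^ i * C e) =
    xser e f ^ (i + 1) * C e := by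
  rw [← C_mul_pow he i, ← mul_assoc, pow_succ', mul_assoc (xser e f)]
  rfl

lemma wser_eq (i : ℕ) : wser (e * f) ((1 - e) * f) (i + 1) =
    wser (e * f) ((1 - e) * f) 0 * (xser e f ^ i * C e) *
      (C f * wser (e * f) ((1 - e) * f) 0) := by
  induction i with
  | zero =>
    rw [wser_succ, map_mul, pow_zero, one_mul]
    simp only [mul_assoc]
  | succ i ih =>
    rw [wser_succ, ih, ← step he i, map_mul]
    simp only [mul_assoc]

lemma wser_mul_C (i : ℕ) : wser (e * f) ((1 - e) * f) i * C e =
    wser (e * f) ((1 - e) * f) 0 * (xser e f ^ i * C e) := by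
  cases i with
  | zero => rw [pow_zero, one_mul]
  | succ i =>
    rw [wser_eq he, pow_succ, mul_assoc (xser e f ^ i), xser_mul_C he]
    simp only [mul_assoc, xser]

end block

/-! ### evaluation -/

section eval

variable [Algebra ℚ A]

/-- Evaluation at a rational number. -/
noncomputable def evt (A : Type*) [Ring A] [Algebra ℚ A] (t : ℚ) : Polynomial A →+* A :=
  Polynomial.eval₂RingHom' (RingHom.id A) (algebraMap ℚ A t)
    (fun a => (Algebra.commutes t a).symm)

lemma evt_monomial (t : ℚ) (j : ℕ) (a : A) : evt A t (Polynomial.monomial j a) = t ^ j • a := by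
  rw [evt]
  change Polynomial.eval₂ _ _ _ = _
  rw [Polynomial.eval₂_monomial, RingHom.id_apply, ← map_pow, ← Algebra.commutes, Algebra.smul_def]

lemma evt_C (t : ℚ) (a : A) : evt A t (Polynomial.C a) = a := by
  rw [← Polynomial.monomial_zero_left, evt_monomial, pow_zero, one_smul]

lemma evt_smul (t q : ℚ) (P : Polynomial A) : evt A t (q • P) = q • evt A t P := by
  rw [Algebra.smul_def, map_mul, Polynomial.algebraMap_apply, evt_C, Algebra.smul_def]

lemma eq_zero_of_evt {P : Polynomial A} (h : ∀ t : ℚ, evt A t P = 0) : P = 0 := by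
  have h1 : ∀ (φ : A →ₗ[ℚ] ℚ) (i : ℕ), φ (P.coeff i) = 0 := by
    intro φ i
    set R : Polynomial ℚ := ∑ j ∈ Finset.range (P.natDegree + 1),
      Polynomial.monomial j (φ (P.coeff j)) with hR
    have hR0 : R = 0 := by
      refine Polynomial.funext fun t => ?_
      have h2 := congrArg φ (h t)
      rw [P.as_sum_range, map_sum, map_sum, map_zero] at h2
      rw [hR, Polynomial.eval_finsetSum, Polynomial.eval_zero, ← h2]
      refine Finset.sum_congr rfl fun j _ => ?_
      rw [evt_monomial, map_smul, Polynomial.eval_monomial, smul_eq_mul, mul_comm]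
    by_cases hi : i < P.natDegree + 1
    · have h3 := congrArg (fun S => Polynomial.coeff S i) hR0
      simp only [hR, Polynomial.finsetSum_coeff, Polynomial.coeff_monomial,
        Polynomial.coeff_zero] at h3
      rw [Finset.sum_ite_eq' (Finset.range (P.natDegree + 1)) i, if_pos (Finset.mem_range.2 hi)]
        at h3
      exact h3
    · rw [Polynomial.coeff_eq_zero_of_natDegree_lt (by omega), map_zero]
  ext i
  rw [Polynomial.coeff_zero]
  exact (Module.forall_dual_apply_eq_zero_iff ℚ (P.coeff i)).1 (fun φ => h1 φ i)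

omit [Algebra ℚ A] in
lemma coeff_mul_congr {m : ℕ} {x x' y y' : A⟦X⟧} (hx : ∀ j ≤ m, coeff j x = coeff j x')
    (hy : ∀ j ≤ m, coeff j y = coeff j y') : ∀ j ≤ m, coeff j (x * y) = coeff j (x' * y') := by
  intro j hj
  rw [coeff_mul, coeff_mul]
  refine Finset.sum_congr rfl fun p hp => ?_
  have := Finset.HasAntidiagonal.mem_antidiagonal.1 hp
  rw [hx _ (by omega), hy _ (by omega)]

omit [Algebra ℚ A] in
lemma coeff_pow_congr {m : ℕ} {x x' : A⟦X⟧} (hx : ∀ j ≤ m, coeff j x = coeff j x') (i : ℕ) :
    ∀ j ≤ m, coeff j (x ^ i) = coeff j (x' ^ i) := by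
  induction i with
  | zero => intro j _; rw [pow_zero, pow_zero]
  | succ i ih => rw [pow_succ, pow_succ]; exact coeff_mul_congr ih hx

/-- An identity for power series follows from the identities for the values of the truncations. -/
theorem aeval_mul_C_eq_zero (Q : Polynomial ℚ) (e : A) (x : A⟦X⟧)
    (h : ∀ (t : ℚ) (N : ℕ), Polynomial.aeval (∑ j ∈ Finset.range (N + 1), t ^ j • coeff j x) Q * e
      = 0) : Polynomial.aeval x Q * C e = 0 := by
  ext m
  set P : Polynomial A := ∑ j ∈ Finset.range (m + 1), Polynomial.monomial j (coeff j x) with hP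
  have h1 : Polynomial.aeval P Q * Polynomial.C e = 0 := by
    refine eq_zero_of_evt fun t => ?_
    rw [map_mul, evt_C, ← h t m]
    congr 1
    rw [Polynomial.aeval_eq_sum_range, Polynomial.aeval_eq_sum_range, map_sum]
    refine Finset.sum_congr rfl fun i _ => ?_
    rw [evt_smul, map_pow, hP, map_sum]
    congr 2
    exact Finset.sum_congr rfl fun j _ => evt_monomial _ _ _
  have h2 : ∀ j ≤ m, coeff j x = coeff j (P : A⟦X⟧) := by
    intro j hj
    rw [Polynomial.coeff_coe, hP, Polynomial.finsetSum_coeff]
    simp only [Polynomial.coeff_monomial]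
    rw [Finset.sum_ite_eq' (Finset.range (m + 1)) j, if_pos (Finset.mem_range.2 (by omega))]
  have h3 := congrArg (fun S : Polynomial A => coeff m (S : A⟦X⟧)) h1
  simp only [Polynomial.coe_mul, Polynomial.coe_zero, map_zero, Polynomial.coe_C] at h3
  rw [map_zero, ← h3]
  refine coeff_mul_congr (fun j hj => ?_) (fun j _ => rfl) m le_rfl
  rw [Polynomial.coeff_coe, Polynomial.aeval_eq_sum_range, Polynomial.aeval_eq_sum_range, map_sum,
    Polynomial.finsetSum_coeff]
  refine Finset.sum_congr rfl fun i _ => ?_
  have h4 := coeff_pow_congr h2 i j hj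
  rw [← Polynomial.coe_pow, Polynomial.coeff_coe] at h4
  rw [Polynomial.coeff_smul, ← h4]
  rfl

end eval

/-! ### the theorem -/

section main

variable [Algebra ℚ A] {e f g : A} (he : e * e = e)

lemma coeff_smul_sum (Q : Polynomial ℚ) (g : ℕ → A⟦X⟧) (j : ℕ) :
    coeff j (∑ i ∈ Finset.range (Q.natDegree + 1), Q.coeff i • g i) =
      ∑ i ∈ Finset.range (Q.natDegree + 1), Q.coeff i • coeff j (g i) := by
  rw [map_sum]
  rfl

include he in
lemma block_b {Q : Polynomial ℚ} (h : Polynomial.aeval (xser e f) Q * C g = 0)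
    (hg : e * f = g * f) (s j : ℕ) :
    ∑ i ∈ Finset.range (Q.natDegree + 1),
      Q.coeff i • words (e * f) ((1 - e) * f) (s + 1 + i) j = 0 := by
  have hg' : (C e : A⟦X⟧) * C f = C g * C f := by rw [← map_mul, ← map_mul, hg]
  have h1 : ∑ i ∈ Finset.range (Q.natDegree + 1),
      Q.coeff i • wser (e * f) ((1 - e) * f) (s + 1 + i) =
      wser (e * f) ((1 - e) * f) 0 * (xser e f ^ s * (Polynomial.aeval (xser e f) Q * C g)) *
        (C f * wser (e * f) ((1 - e) * f) 0) := by
    rw [Polynomial.aeval_eq_sum_range, Finset.sum_mul, Finset.mul_sum, Finset.mul_sum,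
      Finset.sum_mul]
    refine Finset.sum_congr rfl fun i _ => ?_
    rw [show s + 1 + i = (s + i) + 1 by ring, wser_eq he, pow_add]
    have h2 : ∀ z : A⟦X⟧, C e * (C f * z) = C g * (C f * z) := fun z => by
      rw [← mul_assoc, hg', mul_assoc]
    simp only [smul_mul_assoc, mul_smul_comm, mul_assoc, h2]
  rw [h, mul_zero, mul_zero, zero_mul] at h1
  have h2 := congrArg (coeff j) h1
  rw [coeff_smul_sum, map_zero] at h2
  simpa only [wser, coeff_mk] using h2

include he in
lemma block_a {Q : Polynomial ℚ} (h : Polynomial.aeval (xser e f) Q * C g = 0)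
    (hg : e * g = g) (j : ℕ) :
    (∑ i ∈ Finset.range (Q.natDegree + 1),
      Q.coeff i • words (e * f) ((1 - e) * f) i j) * g = 0 := by
  have hg' : (C e : A⟦X⟧) * C g = C g := by rw [← map_mul, hg]
  have h1 : (∑ i ∈ Finset.range (Q.natDegree + 1),
      Q.coeff i • wser (e * f) ((1 - e) * f) i) * C g =
      wser (e * f) ((1 - e) * f) 0 * (Polynomial.aeval (xser e f) Q * C g) := by
    rw [Polynomial.aeval_eq_sum_range, Finset.sum_mul, Finset.sum_mul, Finset.mul_sum]
    refine Finset.sum_congr rfl fun i _ => ?_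
    conv_lhs => rw [← hg', smul_mul_assoc, ← mul_assoc, wser_mul_C he]
    rw [smul_mul_assoc, mul_smul_comm, mul_assoc, mul_assoc, hg']
  rw [h, mul_zero] at h1
  have h2 := congrArg (coeff j) h1
  rw [coeff_mul_C, coeff_smul_sum, map_zero] at h2
  simpa only [wser, coeff_mk] using h2

/-- **The theorem**: `e` and `o` are orthogonal idempotents and `f` is in the corner of `e + o`. -/
theorem twoBlock {o : A} {Q R : Polynomial ℚ} (he : e * e = e) (heo : e * o = 0)
    (hf : (e + o) * f = f) (hQ : Polynomial.aeval (xser e f) Q * C e = 0)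
    (hR : Polynomial.aeval (xser (1 - e) f) R * C o = 0) :
    Polynomial.aeval f (Q * R) * (e + o) = 0 := by
  have he' : (1 - e) * (1 - e) = 1 - e := by
    rw [sub_mul, one_mul, mul_sub, mul_one, he, sub_self, sub_zero]
  have ho : (1 - e) * o = o := by rw [sub_mul, one_mul, heo, sub_zero]
  have hof : (1 - e) * f = o * f := by
    rw [sub_mul, one_mul, sub_eq_iff_eq_add', ← add_mul, hf]
  set W : ℕ → ℕ → A := words (e * f) ((1 - e) * f) with hW
  have hb : ∀ s j, ∑ i ∈ Finset.range (Q.natDegree + 1), Q.coeff i • W (s + 1 + i) j = 0 :=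
    block_b he hQ rfl
  have ha : ∀ j, (∑ i ∈ Finset.range (Q.natDegree + 1), Q.coeff i • W i j) * e = 0 :=
    block_a he hQ he
  have hb' : ∀ s j, ∑ i ∈ Finset.range (R.natDegree + 1), R.coeff i • W j (s + 1 + i) = 0 := by
    intro s j
    have h := block_b he' hR hof s j
    rw [sub_sub_cancel] at h
    rw [← h]
    exact Finset.sum_congr rfl fun i _ => by rw [hW, words_swap]
  have ha' : ∀ j, (∑ i ∈ Finset.range (R.natDegree + 1), R.coeff i • W j i) * o = 0 := by
    intro j
    have h := block_a he' hR ho j
    rw [sub_sub_cancel] at h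
    rw [← h]
    congr 1
    exact Finset.sum_congr rfl fun i _ => by rw [hW, words_swap]
  have hpow : ∀ i l, f ^ (i + l) = ∑ a ∈ Finset.range i, W a (i - 1 - a + 1 + l) +
      (∑ a ∈ Finset.range l, W (a + 1 + i) (l - 1 - a) + W i l) := by
    intro i l
    have h1 : e * f + (1 - e) * f = f := by rw [← add_mul, add_sub_cancel, one_mul]
    have h2 := sum_words (e * f) ((1 - e) * f) (i + l)
    rw [h1] at h2
    rw [← h2, Finset.Nat.sum_antidiagonal_eq_sum_range_succ_mk,
      show (i + l).succ = i + (l + 1) by rw [Nat.succ_eq_add_one, add_assoc],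
      Finset.sum_range_add, Finset.sum_range_succ' _ l]
    congr 1
    · refine Finset.sum_congr rfl fun a ha => ?_
      have := Finset.mem_range.1 ha
      simp only [hW]
      rw [show i + l - a = i - 1 - a + 1 + l by omega]
    · simp only [hW]
      congr 1
      · refine Finset.sum_congr rfl fun a ha => ?_
        have := Finset.mem_range.1 ha
        rw [show i + (a + 1) = a + 1 + i by ring,
          show i + l - (a + 1 + i) = l - 1 - a by omega]
      · rw [add_zero, show i + l - i = l by omega]
  have hS : Polynomial.aeval f (Q * R) = ∑ i ∈ Finset.range (Q.natDegree + 1),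
      ∑ l ∈ Finset.range (R.natDegree + 1), (Q.coeff i * R.coeff l) • W i l := by
    rw [map_mul, Polynomial.aeval_eq_sum_range, Polynomial.aeval_eq_sum_range, Finset.sum_mul]
    have h1 : ∀ i ∈ Finset.range (Q.natDegree + 1), Q.coeff i • f ^ i *
        ∑ l ∈ Finset.range (R.natDegree + 1), R.coeff l • f ^ l =
        ∑ l ∈ Finset.range (R.natDegree + 1), (Q.coeff i * R.coeff l) • W i l +
        ∑ l ∈ Finset.range (R.natDegree + 1), ∑ a ∈ Finset.range l,
          (Q.coeff i * R.coeff l) • W (a + 1 + i) (l - 1 - a) := by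
      intro i _
      rw [Finset.mul_sum]
      have h2 : ∀ l ∈ Finset.range (R.natDegree + 1), Q.coeff i • f ^ i * R.coeff l • f ^ l =
          ∑ a ∈ Finset.range i, Q.coeff i • (R.coeff l • W a (i - 1 - a + 1 + l)) +
          ((Q.coeff i * R.coeff l) • W i l + ∑ a ∈ Finset.range l,
            (Q.coeff i * R.coeff l) • W (a + 1 + i) (l - 1 - a)) := by
        intro l _
        rw [smul_mul_smul_comm, ← pow_add, hpow, smul_add, smul_add, Finset.smul_sum,
          Finset.smul_sum, add_comm (∑ a ∈ Finset.range l, _) _]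
        simp only [mul_smul]
      rw [Finset.sum_congr rfl h2, Finset.sum_add_distrib, Finset.sum_add_distrib,
        Finset.sum_comm]
      have h3 : ∑ y ∈ Finset.range i, ∑ l ∈ Finset.range (R.natDegree + 1),
          Q.coeff i • (R.coeff l • W y (i - 1 - y + 1 + l)) = 0 := by
        refine Finset.sum_eq_zero fun a _ => ?_
        rw [← Finset.smul_sum, hb', smul_zero]
      rw [h3, zero_add]
    rw [Finset.sum_congr rfl h1, Finset.sum_add_distrib]
    have h4 : ∑ i ∈ Finset.range (Q.natDegree + 1), ∑ l ∈ Finset.range (R.natDegree + 1),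
        ∑ a ∈ Finset.range l, (Q.coeff i * R.coeff l) • W (a + 1 + i) (l - 1 - a) = 0 := by
      rw [Finset.sum_comm]
      refine Finset.sum_eq_zero fun l _ => ?_
      rw [Finset.sum_comm]
      refine Finset.sum_eq_zero fun a _ => ?_
      have h5 : ∀ i ∈ Finset.range (Q.natDegree + 1),
          (Q.coeff i * R.coeff l) • W (a + 1 + i) (l - 1 - a) =
          R.coeff l • (Q.coeff i • W (a + 1 + i) (l - 1 - a)) := by
        intro i _
        rw [smul_smul, mul_comm]
      rw [Finset.sum_congr rfl h5, ← Finset.smul_sum, hb, smul_zero]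
    rw [h4, add_zero]
  rw [mul_add]
  have h1 : Polynomial.aeval f (Q * R) * e = 0 := by
    rw [hS, Finset.sum_comm, Finset.sum_mul]
    refine Finset.sum_eq_zero fun l _ => ?_
    have h5 : ∀ i ∈ Finset.range (Q.natDegree + 1), (Q.coeff i * R.coeff l) • W i l =
        R.coeff l • (Q.coeff i • W i l) := by
      intro i _
      rw [smul_smul, mul_comm]
    rw [Finset.sum_congr rfl h5, ← Finset.smul_sum, smul_mul_assoc, ha, smul_zero]
  have h2 : Polynomial.aeval f (Q * R) * o = 0 := by
    rw [hS, Finset.sum_mul]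
    refine Finset.sum_eq_zero fun i _ => ?_
    have h5 : ∀ l ∈ Finset.range (R.natDegree + 1), (Q.coeff i * R.coeff l) • W i l =
        Q.coeff i • (R.coeff l • W i l) := by
      intro l _
      rw [smul_smul]
    rw [Finset.sum_congr rfl h5, ← Finset.smul_sum, smul_mul_assoc, ha', smul_zero]
  rw [h1, h2, add_zero]

/-- The hypothesis of the theorem follows from the annihilation of all elements of the block which
are congruent to `g f g` modulo a right ideal which contains `g f (1 - e)`. -/
theorem aeval_xser_mul_C {Q : Polynomial ℚ} (hgg : g * g = g)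
    (hgf : e * f = g * f) (hfg : f * e = f * g) (N : A → Prop)
    (hadd : ∀ x y, N x → N y → N (x + y)) (hsmul : ∀ (q : ℚ) x, N x → N (q • x)) (h0 : N 0)
    (hmul : ∀ x a, N x → N (x * a)) (hf : N (g * f * (1 - e)))
    (h : ∀ n, N n → g * n = n → n * g = n → Polynomial.aeval (g * f * g + n) Q * g = 0) :
    Polynomial.aeval (xser e f) Q * C g = 0 := by
  refine aeval_mul_C_eq_zero Q g (xser e f) fun t m => ?_
  have h1 : ∀ j, coeff j (xser e f) = g * f * ((1 - e) * f) ^ j * g := by
    intro j
    rw [xser, coeff_mul_C, mul_assoc (C e), coeff_C_mul, coeff_C_mul, wser_zero_eq, coeff_mk,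
      ← mul_assoc, hgf]
    cases j with
    | zero => rw [pow_zero, mul_one, mul_assoc, hfg, mul_assoc]
    | succ j =>
      rw [pow_succ, ← mul_assoc _ (1 - e), ← mul_assoc, ← mul_assoc, mul_assoc _ f e, hfg,
        mul_assoc _ f g]
  have h2 : ∀ j, coeff (j + 1) (xser e f) =
      g * f * (1 - e) * (f * ((1 - e) * f) ^ j * g) := by
    intro j
    rw [h1, pow_succ']
    simp only [mul_assoc]
  rw [Finset.sum_range_succ', pow_zero, one_smul, h1, pow_zero, mul_one, add_comm]
  refine h _ ?_ ?_ ?_
  · refine Finset.sum_induction _ N hadd h0 fun j _ => ?_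
    rw [h2]
    exact hsmul _ _ (hmul _ _ hf)
  · rw [Finset.mul_sum]
    refine Finset.sum_congr rfl fun j _ => ?_
    rw [h2, mul_smul_comm, ← mul_assoc g, ← mul_assoc g, ← mul_assoc g, hgg]
  · rw [Finset.sum_mul]
    refine Finset.sum_congr rfl fun j _ => ?_
    rw [h2, smul_mul_assoc, mul_assoc, mul_assoc _ g, hgg]

end main

end Pool.Agent.H836
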