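import Pool.Agent.H836.Split
import Pool.Agent.H836.AltDefs

/-!
# Wedge products of numerically trivial cycles
-/

open CategoryTheory CategoryTheory.Limits AlgebraicGeometry
open Pool.Agent.H914 Pool.Agent.H914.VarClass Pool.Agent.H914.VarClass.Obj
open Pool.Agent.R903 Equiv Equiv.Perm Pool.Agent.R903.PermCore

universe u v w

namespace Pool.Agent.H836

variable {k : Type u} [Field k] {𝒱 : VarClass k} {C : ChowTheory.{u, v} 𝒱}
variable {X Y Z A B : 𝒱.Obj} {ω : C.CH (X.prod X)}

lemma pull_altProd {n : ℕ} (a : Fin (n + 1) → C.CH X) (f : Y ⟶ pw X n) :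
    C.pull f (altProd C a) = (Matrix.of fun i j => C.pull (f ≫ pr X n j) (a i)).det := by
  rw [← sum_chi_eq_det, altProd, map_sum]
  refine Finset.sum_congr rfl fun σ _ => ?_
  rw [map_smul, map_prod, chi, if_pos rfl]
  congr 1
  exact Finset.prod_congr rfl fun i _ => (C.pull_comp _ _ _).symm

/-- A cycle all of whose pull-backs lie in the ideal generated by finitely many smash-nilpotent
cycles is smash-nilpotent. -/
lemma powVanishes_of_nilIdeal (G : Finset (C.CH X)) {m : ℕ} (hG : ∀ g ∈ G, PowVanishes C g m)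
    {c : C.CH Z} (hc : ∀ (Y : 𝒱.Obj) (f : Y ⟶ Z), C.pull f c ∈ nilIdeal C (G : Set (C.CH X)) Y) :
    PowVanishes C c (G.card * (m - 1) + 1) := by
  refine powVanishes_iff.2 ⟨by omega, fun Y z => ?_⟩
  have h1 : ∏ i : Fin (G.card * (m - 1) + 1), C.pull (z i) c ∈
      nilIdeal C (G : Set (C.CH X)) Y ^ (G.card * (m - 1) + 1) := by
    have h2 : ∏ i : Fin (G.card * (m - 1) + 1), C.pull (z i) c ∈
        ∏ _i : Fin (G.card * (m - 1) + 1), nilIdeal C (G : Set (C.CH X)) Y :=
      Ideal.prod_mem_prod fun i _ => hc Y (z i)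
    rwa [Finset.prod_const, Finset.card_univ, Fintype.card_fin] at h2
  rw [nilIdeal_pow G hG Y] at h1
  exact h1

lemma PowVanishes.mono {a : C.CH X} {m n : ℕ} (h : PowVanishes C a m) (hmn : m ≤ n) :
    PowVanishes C a n := by
  have hm := (powVanishes_iff.1 h).1
  refine powVanishes_iff.2 ⟨by omega, fun Y z => ?_⟩
  exact h.finset (by simpa using hmn) z

/-- The product of two wedge products of isotropic cycles is smash-nilpotent. -/
theorem powVanishes_wedge {m n : ℕ} (h : C.PermRel ω (m + 1 + (n + 1)) (chi 1))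
    (a : Fin (m + 1) → C.CH X) (b : Fin (n + 1) → C.CH X)
    (hab : ∀ i j, C.deg X (C.act ω (a i) * b j) = 0) (G : Finset (C.CH X)) {M : ℕ}
    (hG : ∀ g ∈ G, PowVanishes C g M) (ha : ∀ i, a i - C.act ω (a i) ∈ G)
    (hb : ∀ j, b j - coact C ω (b j) ∈ G) :
    PowVanishes C (extProd C (altProd C a) (altProd C b)) (G.card * (M - 1) + 1) := by
  refine powVanishes_of_nilIdeal G hG fun Y f => ?_
  rw [extProd, C.pull_mul, ← C.pull_comp, ← C.pull_comp, pull_altProd, pull_altProd,
    ← Ideal.Quotient.eq_zero_iff_mem, map_mul, RingHom.map_det, RingHom.map_det]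
  set J := nilIdeal C (G : Set (C.CH X)) Y with hJ
  have h1 := det_mul_det h a b hab (fun j => (f ≫ fst _ _) ≫ pr X m j)
    (fun j => (f ≫ snd _ _) ≫ pr X n j)
  have h2 := congrArg (Ideal.Quotient.mk J) h1
  rw [map_mul, map_zero, RingHom.map_det, RingHom.map_det] at h2
  rw [← h2]
  refine congrArg₂ (· * ·) ?_ ?_
  · congr 1
    ext i j
    rw [RingHom.mapMatrix_apply, RingHom.mapMatrix_apply, Matrix.map_apply, Matrix.map_apply,
      Matrix.of_apply, Matrix.of_apply, Ideal.Quotient.eq, ← map_sub]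
    exact pull_mem_nilIdeal (ha i) _
  · rw [← Matrix.det_transpose]
    congr 1
    ext i j
    rw [Matrix.transpose_apply, RingHom.mapMatrix_apply, RingHom.mapMatrix_apply,
      Matrix.map_apply, Matrix.map_apply, Matrix.of_apply, Matrix.of_apply, Ideal.Quotient.eq,
      ← map_sub]
    exact pull_mem_nilIdeal (hb j) _

/-- The even and the odd part of a Kimura finite-dimensional variety. -/
lemma kimura_parts (hP : C.Polarized) (W : WeilTheory.{u, v, w} C) {e f : C.CH (X.prod X)}
    (hef : e + f = C.diagC X) {m n : ℕ} (he : C.ExtVanishes e m) (hf : C.SymVanishes f n) :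
    C.motDim e = evenBetti W X ∧ C.motDim f = -(oddBetti W X : ℚ) := by
  have h1 : ∀ j, ∀ a ∈ W.gr X j, W.act e a + W.act f a = a := by
    intro j a _
    rw [← LinearMap.add_apply, ← W.act_add, hef, W.act_diagC]
  constructor
  · refine motDim_of_even W (fun j hj a ha => act_odd_of_extVanishes W hP he hj ha) ?_
    intro j hj a ha
    have := h1 j a ha
    rwa [act_even_of_symVanishes W hP hf hj ha, add_zero] at this
  · refine motDim_of_odd W (fun j hj a ha => act_even_of_symVanishes W hP hf hj ha) ?_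
    intro j hj a ha
    have := h1 j a ha
    rwa [act_odd_of_extVanishes W hP he hj ha, zero_add] at this

lemma sub_comp' (α α' : C.CH (X.prod Y)) (β : C.CH (Y.prod Z)) :
    C.comp (α - α') β = C.comp α β - C.comp α' β := by
  rw [eq_sub_iff_add_eq, ← C.add_comp, sub_add_cancel]

lemma comp_sub' (α : C.CH (X.prod Y)) (β β' : C.CH (Y.prod Z)) :
    C.comp α (β - β') = C.comp α β - C.comp α β' := by
  rw [eq_sub_iff_add_eq, ← C.comp_add, sub_add_cancel]

/-- Splitting off the algebraic part of an evenly finite-dimensional direct summand. -/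
lemma exists_split (hP : C.Polarized) {e f : C.CH (X.prod X)} (hef : e + f = C.diagC X)
    (hee : C.comp e e = e) (he : ∃ m, C.ExtVanishes e m) (hf : ∃ m, C.SymVanishes f m)
    {r : ℕ} (x y : Fin r → C.CH X)
    (hxy : ∀ i j, C.deg X (x i * y j) = if i = j then 1 else 0) :
    ∃ e' : C.CH (X.prod X), ∃ N : ℕ, (N : ℚ) = C.motDim e - r + 1 ∧ C.ExtVanishes e' N ∧
      (∀ a, NumTrivial C a → C.act e' a = C.act e a) ∧
      ∀ a, NumTrivial C a → coact C e' a = coact C e a := by
  set x' : Fin r → C.CH X := fun i => C.act e (x i) with hx'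
  set y' : Fin r → C.CH X := fun i => coact C e (y i) with hy'
  have hex : ∀ i, C.act e (x' i) = x' i := fun i => by
    rw [hx', ← C.act_comp, hee]
  have hey : ∀ i, coact C e (y' i) = y' i := fun i => by
    rw [hy', ← coact_comp, hee]
  obtain ⟨M, hM⟩ := hf
  obtain ⟨hM1, hM2⟩ := ChowTheory.symVanishes_iff.1 hM
  have hdual : ∀ i j, C.deg X (x' i * y' j) = if i = j then 1 else 0 := by
    intro i j
    rw [← deg_act hP, hex, ← hxy i j]
    have h1 : C.act e (x i) + C.act f (x i) = x i := by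
      rw [← LinearMap.add_apply, ← C.act_add, hef, C.act_diagC]
    have h2 : C.deg X (C.act f (x i) * y j) = 0 :=
      deg_act_mul (ChowTheory.one_ne_zero_of_polarized hP X) hM1 hM2 _ _
    have h3 : C.deg X (x i * y j) = C.deg X (x' i * y j) + C.deg X (C.act f (x i) * y j) := by
      rw [← map_add, ← add_mul, h1]
    rw [h3, h2, add_zero]
  set t : C.CH (X.prod X) := ∑ i, C.ext (y' i) (x' i) with ht
  have hte : C.comp t e = t := by
    rw [ht, C.sum_comp]
    exact Finset.sum_congr rfl fun i _ => by rw [ext_comp, hex]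
  have het : C.comp e t = t := by
    rw [ht, C.comp_sum]
    exact Finset.sum_congr rfl fun i _ => by rw [comp_ext, hey]
  have htt : C.comp t t = t := by
    rw [ht, C.sum_comp]
    refine Finset.sum_congr rfl fun i _ => ?_
    rw [ext_comp, C.act_sum, LinearMap.sum_apply]
    congr 1
    rw [Finset.sum_eq_single i]
    · rw [C.act_ext, hdual, if_pos rfl, one_smul]
    · intro j _ hji
      rw [C.act_ext, hdual, if_neg (Ne.symm hji), zero_smul]
    · intro h; exact absurd (Finset.mem_univ i) h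
  have hcomp : C.comp (e - t) e = e - t := by
    rw [sub_comp', hee, hte]
  have hidem : C.comp (e - t) (e - t) = e - t := by
    rw [comp_sub', hcomp, sub_comp', het, htt, sub_self, sub_zero]
  have hdim : C.motDim (e - t) = C.motDim e - r := by
    have h1 : C.motDim t = r := by
      rw [ht, ChowTheory.motDim, map_sum, map_sum]
      have h2 : ∀ i, C.deg X (C.pull (Obj.diag X) (C.ext (y' i) (x' i))) = 1 := by
        intro i
        rw [C.pull_diag_ext, mul_comm, hdual, if_pos rfl]
      rw [Finset.sum_congr rfl fun i _ => h2 i]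
      simp
    rw [← h1]
    simp only [ChowTheory.motDim, map_sub]
  obtain ⟨m, hm⟩ := he
  obtain ⟨hm1, hm2⟩ := ChowTheory.extVanishes_iff.1 hm
  have h1 : ∃ m, C.ExtVanishes (e - t) m :=
    ⟨m, ChowTheory.extVanishes_iff.2 ⟨hm1, hm2.restrict hcomp⟩⟩
  obtain ⟨N, hN, hN2⟩ := ((ChowTheory.ext_tfae hP hidem).out 0 1).1 h1
  refine ⟨e - t, N, by rw [hN, hdim], hN2, ?_, ?_⟩
  · intro a ha
    rw [C.act_sub, LinearMap.sub_apply, ht, C.act_sum, LinearMap.sum_apply, sub_eq_self]
    refine Finset.sum_eq_zero fun i _ => ?_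
    rw [C.act_ext, ha, zero_smul]
  · intro a ha
    rw [coact_sub, ht, coact_sum, sub_eq_self]
    refine Finset.sum_eq_zero fun i _ => ?_
    rw [coact_ext, mul_comm, ha, zero_smul]

/-- **Wedge products of numerically trivial cycles.** -/
theorem wedge_kimura (hP : C.Polarized) (W : WeilTheory.{u, v, w} C)
    (hX : C.KimuraFinite (C.diagC X)) {r : ℕ} (x y : Fin r → C.CH X)
    (hxy : ∀ i j, C.deg X (x i * y j) = if i = j then 1 else 0) {m n : ℕ}
    (hmn : evenBetti W X < r + ((m + 1) + (n + 1)))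
    (a : Fin (m + 1) → C.CH X) (b : Fin (n + 1) → C.CH X) (ha : ∀ i, NumTrivial C (a i))
    (hb : ∀ j, NumTrivial C (b j)) :
    PowVanishes C (extProd C (altProd C a) (altProd C b))
      (((m + 1) + (n + 1)) * oddBetti W X + 1) := by
  classical
  obtain ⟨e, -, f, -, hee, hff, -, -, hef, he, hf⟩ := hX
  obtain ⟨e', N, hN, hN2, he1, he2⟩ := exists_split hP hef hee he hf x y hxy
  obtain ⟨N', hN'1, hN'2⟩ := ((ChowTheory.sym_tfae hP hff).out 0 1).1 hf
  obtain ⟨h1, h2⟩ := kimura_parts hP W hef (ChowTheory.extVanishes_iff.2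
    (ChowTheory.extVanishes_iff.1 he.choose_spec)) hN'2
  have h3 : N' = oddBetti W X + 1 := by
    have : (N' : ℚ) = oddBetti W X + 1 := by rw [hN'1, h2, neg_neg]
    exact_mod_cast this
  have h4 : N + r = evenBetti W X + 1 := by
    have : (N : ℚ) + r = evenBetti W X + 1 := by rw [hN, h1]; ring
    exact_mod_cast this
  obtain ⟨hN3, hN4⟩ := ChowTheory.extVanishes_iff.1 hN2
  have h5 : C.PermRel e' (m + 1 + (n + 1)) (chi 1) := permRel_mono (by omega) hN4
  have h6 : ∀ c, C.act e c + C.act f c = c := fun c => by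
    rw [← LinearMap.add_apply, ← C.act_add, hef, C.act_diagC]
  have h7 : ∀ c, coact C e c + coact C f c = c := fun c => by
    rw [← coact_add, hef, coact_diagC]
  set G : Finset (C.CH X) := (Finset.univ.image fun i => C.act f (a i)) ∪
    (Finset.univ.image fun j => coact C f (b j)) with hG
  have hGc : G.card ≤ (m + 1) + (n + 1) := by
    refine (Finset.card_union_le _ _).trans (add_le_add ?_ ?_)
    · exact Finset.card_image_le.trans (by simp)
    · exact Finset.card_image_le.trans (by simp)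
  refine (powVanishes_wedge (M := N') h5 a b (fun i j => ?_) G ?_ (fun i => ?_) (fun j => ?_)).mono
    ?_
  · rw [mul_comm]; exact hb j _
  · intro g hg
    rcases Finset.mem_union.1 hg with hg | hg
    · obtain ⟨i, -, rfl⟩ := Finset.mem_image.1 hg
      exact powVanishes_act hN'2 _
    · obtain ⟨i, -, rfl⟩ := Finset.mem_image.1 hg
      exact powVanishes_coact hN'2 _
  · refine Finset.mem_union_left _ (Finset.mem_image.2 ⟨i, Finset.mem_univ _, ?_⟩)
    rw [he1 _ (ha i), eq_sub_iff_add_eq, add_comm, h6]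
  · refine Finset.mem_union_right _ (Finset.mem_image.2 ⟨j, Finset.mem_univ _, ?_⟩)
    rw [he2 _ (hb j), eq_sub_iff_add_eq, add_comm, h7]
  · rw [h3, Nat.add_sub_cancel]
    exact Nat.add_le_add_right (Nat.mul_le_mul_right _ hGc) 1

lemma powVanishes_of_extProd {c : C.CH Z} {K : ℕ} (h : PowVanishes C (extProd C c c) K) :
    PowVanishes C c (K + K) := by
  obtain ⟨h1, h2⟩ := powVanishes_iff.1 h
  refine powVanishes_iff.2 ⟨by omega, fun Y z => ?_⟩
  rw [Fin.prod_univ_add, ← Finset.prod_mul_distrib,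
    ← h2 Y (fun i => lift (z (Fin.castAdd K i)) (z (Fin.natAdd K i)))]
  refine Finset.prod_congr rfl fun i _ => ?_
  rw [extProd, C.pull_mul, ← C.pull_comp, ← C.pull_comp, lift_fst, lift_snd]

lemma altProd_one (a : C.CH X) :
    altProd C (fun _ : Fin (0 + 1) => a) = (show C.CH (pw X 0) from a) := by
  have h1 : (Finset.univ : Finset (Equiv.Perm (Fin (0 + 1)))) = {1} := by decide
  rw [altProd, h1, Finset.sum_singleton, Equiv.Perm.sign_one, Fin.prod_univ_one]
  simp only [Units.val_one, Int.cast_one, one_smul]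
  exact C.pull_id X a

/-- The theorem on half of the even rank. -/
theorem halfEven (hP : C.Polarized) (W : WeilTheory.{u, v, w} C) (X : 𝒱.Obj)
    (hX : C.KimuraFinite (C.diagC X)) {r : ℕ} (x y : Fin r → C.CH X) (hxy : IsDual C x y) :
    (∀ m n : ℕ, evenBetti W X < r + ((m + 1) + (n + 1)) →
      ∀ (a : Fin (m + 1) → C.CH X) (b : Fin (n + 1) → C.CH X), (∀ i, NumTrivial C (a i)) →
        (∀ j, NumTrivial C (b j)) → PowVanishes C (extProd C (altProd C a) (altProd C b))
          (((m + 1) + (n + 1)) * oddBetti W X + 1)) ∧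
    (∀ m : ℕ, evenBetti W X < r + 2 * (m + 1) → ∀ a : Fin (m + 1) → C.CH X,
      (∀ i, NumTrivial C (a i)) → PowVanishes C (altProd C a)
        (2 * (2 * (m + 1) * oddBetti W X + 1))) ∧
    (evenBetti W X ≤ r + 1 → ∀ a : C.CH X, NumTrivial C a →
      PowVanishes C a (2 * (2 * oddBetti W X + 1))) := by
  have h1 := @wedge_kimura k _ 𝒱 C X hP W hX r x y hxy
  have h2 : ∀ m : ℕ, evenBetti W X < r + 2 * (m + 1) → ∀ a : Fin (m + 1) → C.CH X,
      (∀ i, NumTrivial C (a i)) → PowVanishes C (altProd C a)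
        (2 * (2 * (m + 1) * oddBetti W X + 1)) := by
    intro m hm a ha
    have h3 := powVanishes_of_extProd (h1 (m := m) (n := m) (by omega) a a ha ha)
    rwa [← two_mul, ← two_mul (m + 1)] at h3
  refine ⟨fun m n hmn a b ha hb => h1 hmn a b ha hb, h2, fun h a ha => ?_⟩
  have h3 := h2 0 (by omega) (fun _ => a) (fun _ => ha)
  rw [altProd_one] at h3
  have h4 : 2 * (2 * (0 + 1) * oddBetti W X + 1) = 2 * (2 * oddBetti W X + 1) := by ring
  rw [h4] at h3
  exact h3

end Pool.Agent.H836
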