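import Pool.Agent.H836.CayHam
import Pool.Agent.H836.TwoBlock
import Pool.Agent.H836.CharNewton
import Pool.Agent.H836.WedgeMain
import Pool.Agent.H836.CayDefs

/-!
# The Cayley–Hamilton theorem for Kimura finite-dimensional varieties
-/

open CategoryTheory CategoryTheory.Limits AlgebraicGeometry
open Pool.Agent.H914 Pool.Agent.H914.VarClass Pool.Agent.H914.VarClass.Obj
open Pool.Agent.R903 Equiv Equiv.Perm Pool.Agent.R903.PermCore

universe u v w

namespace Pool.Agent.H836

section newt

variable {K : Type*} [Field K] [CharZero K]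

lemma map_newt (p : ℕ → ℚ) (j : ℕ) : algebraMap ℚ K (newt p j) =
    newt (fun k => algebraMap ℚ K (p k)) j := by
  have h : (fun j => algebraMap ℚ K (newt p j)) = newt fun k => algebraMap ℚ K (p k) := by
    refine eq_newt (by rw [newt_zero, map_one]) fun m => ?_
    have h1 := congrArg (algebraMap ℚ K) (newt_succ p m)
    rw [map_mul, map_neg, map_sum, map_add, map_one, map_natCast] at h1
    rw [h1]
    simp only [map_mul]
  exact congrFun h j

lemma map_npoly (p : ℕ → ℚ) (n : ℕ) : (npoly (newt p) n).map (algebraMap ℚ K) =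
    npoly (newt fun k => algebraMap ℚ K (p k)) n := by
  rw [npoly, npoly, Polynomial.map_sum]
  refine Finset.sum_congr rfl fun j _ => ?_
  rw [Polynomial.map_mul, Polynomial.map_C, Polynomial.map_pow, Polynomial.map_X, map_newt]

end newt

variable {k : Type u} [Field k] {𝒱 : VarClass k} {C : ChowTheory.{u, v} 𝒱}
variable (W : WeilTheory.{u, v, w} C) {X Y Z : 𝒱.Obj}

lemma act_comp_all (α : C.CH (X.prod Y)) (β : C.CH (Y.prod Z)) (a : W.H X) :
    W.act (C.comp α β) a = W.act β (W.act α a) := by
  refine gr_induction (C.isChowRing _).isInternal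
    (p := fun β => W.act (C.comp α β) a = W.act β (W.act α a)) ?_ ?_ β
  · intro i β hβ
    exact W.act_comp α hβ a
  · intro β β' h h'
    rw [C.comp_add, W.act_add, W.act_add, LinearMap.add_apply, LinearMap.add_apply, h, h']

/-- The action of the ring of correspondences on the cohomology. -/
noncomputable def actW (X : 𝒱.Obj) : CorrRing C X →+* Module.End W.K (W.H X) where
  toFun y := W.act ((CorrRing.of C X).symm y)
  map_one' := by ext a; exact W.act_diagC a
  map_mul' := by intro a b; ext x; exact act_comp_all W _ _ x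
  map_zero' := W.act_zero
  map_add' := fun a b => W.act_add _ _

lemma actW_of (γ : C.CH (X.prod X)) : actW W X (CorrRing.of C X γ) = W.act γ := rfl

lemma actW_smul (q : ℚ) (y : CorrRing C X) : actW W X (q • y) = (q : W.K) • actW W X y :=
  W.act_smul q _

lemma corrTrace_eq (y : CorrRing C X) :
    (corrTrace C X y : W.K) = LinearMap.trace W.K (W.H X) (sgnOp W X * actW W X y) :=
  (trace_act W ((CorrRing.of C X).symm y)).symm

lemma corrTrace_congr {x y : CorrRing C X} (h : actW W X x = actW W X y) :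
    corrTrace C X x = corrTrace C X y := by
  have h1 : (corrTrace C X x : W.K) = corrTrace C X y := by
    rw [corrTrace_eq, corrTrace_eq, h]
  exact_mod_cast h1

/-! ### parity -/

lemma sgnOp_of_mem {j : ℕ} {a : W.H X} (ha : a ∈ W.gr X j) :
    sgnOp W X a = ((-1) ^ j : W.K) • a := by
  rw [sgnOp, scal_apply _ _ ha]

lemma tr_sgnOp_mul (u : W.H X) {m : ℕ} {z : W.H X} (hz : z ∈ W.gr X m) :
    W.tr X (sgnOp W X u * z) = (-1) ^ m * W.tr X (u * z) := by
  refine gr_induction (W.isInternal X) (p := fun u =>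
    W.tr X (sgnOp W X u * z) = (-1) ^ m * W.tr X (u * z)) ?_ ?_ u
  · intro n u hu
    rw [sgnOp_of_mem W hu, smul_mul_assoc, map_smul, smul_eq_mul]
    by_cases h : n + m = 2 * X.dim
    · congr 1
      have h1 : (-1 : W.K) ^ n * (-1) ^ m = 1 := by
        rw [← pow_add, h, pow_mul]; simp
      have h2 : (-1 : W.K) ^ m * (-1) ^ m = 1 := by
        rw [← pow_add, ← two_mul, pow_mul]; simp
      linear_combination (-1 : W.K) ^ m * h1 - (-1 : W.K) ^ n * h2
    · rw [W.tr_eq_zero (W.mul_mem hu hz) h, mul_zero, mul_zero]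
  · intro u u' h h'
    rw [map_add, add_mul, add_mul, map_add, map_add, h, h', mul_add]

/-- Correspondences preserve the parity. -/
lemma sgnOp_act (γ : C.CH (X.prod Y)) (x : W.H X) :
    sgnOp W Y (W.act γ x) = W.act γ (sgnOp W X x) := by
  refine gr_induction (C.isChowRing _).isInternal
    (p := fun γ => sgnOp W Y (W.act γ x) = W.act γ (sgnOp W X x)) ?_ ?_ γ
  · intro q γ hγ
    refine gr_induction (W.isInternal X)
      (p := fun x => sgnOp W Y (W.act γ x) = W.act γ (sgnOp W X x)) ?_ ?_ x
    · intro l x hx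
      apply W.tr_ext
      intro c
      refine gr_induction (W.isInternal Y) (p := fun c =>
        W.tr Y (sgnOp W Y (W.act γ x) * c) = W.tr Y (W.act γ (sgnOp W X x) * c)) ?_ ?_ c
      · intro m z hz
        rw [tr_sgnOp_mul W _ hz, sgnOp_of_mem W hx, map_smul, smul_mul_assoc, map_smul,
          smul_eq_mul]
        have h1 : W.tr Y (W.act γ x * z) = W.tr (X.prod Y)
            (W.cl _ γ * W.map (fst X Y) x * W.map (snd X Y) z) := by
          rw [WeilTheory.act_apply, W.tr_push]
        by_cases h : 2 * q + l + m = 2 * (X.prod Y).dim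
        · congr 1
          have h2 : (-1 : W.K) ^ m * (-1) ^ l = 1 := by
            rw [← pow_add]
            have : Even (m + l) := ⟨(X.prod Y).dim - q, by omega⟩
            exact this.neg_one_pow
          have h3 : (-1 : W.K) ^ l * (-1) ^ l = 1 := by
            rw [← pow_add, ← two_mul, pow_mul]; simp
          linear_combination (-1 : W.K) ^ l * h2 - (-1 : W.K) ^ m * h3
        · rw [h1, W.tr_eq_zero (W.mul_mem (W.mul_mem (W.cl_mem hγ) (W.map_mem _ hx))
            (W.map_mem _ hz)) h, mul_zero, mul_zero]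
      · intro c c' h h'
        rw [mul_add, mul_add, map_add, map_add, h, h']
    · intro x x' h h'
      simp only [map_add, h, h']
  · intro γ γ' h h'
    simp only [W.act_add, LinearMap.add_apply, map_add, h, h']

lemma sgnOp_mul_actW (y : CorrRing C X) : sgnOp W X * actW W X y = actW W X y * sgnOp W X := by
  ext x
  exact sgnOp_act W _ x

/-! ### the theorem -/

variable {W}

/-- A correspondence from the odd to the even part is trivial. -/
lemma crossPar {ε : ℤˣ} {P Q T : Module.End W.K (W.H X)}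
    (hP : sgnOp W X * P = ((ε : ℤ) : W.K) • P) (hP' : sgnOp W X * P = P * sgnOp W X)
    (hQ : sgnOp W X * Q = -((ε : ℤ) : W.K) • Q) (hT : sgnOp W X * T = T * sgnOp W X) :
    P * T * Q = 0 := by
  have h1 : sgnOp W X * (P * T * Q) = ((ε : ℤ) : W.K) • (P * T * Q) := by
    rw [← mul_assoc, ← mul_assoc, hP, smul_mul_assoc, smul_mul_assoc]
  have h2 : sgnOp W X * (P * T * Q) = -((ε : ℤ) : W.K) • (P * T * Q) := by
    rw [← mul_assoc, ← mul_assoc, hP', mul_assoc P, hT, mul_assoc, mul_assoc, hQ, mul_smul_comm,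
      mul_smul_comm, mul_assoc]
  ext x
  have h3 := LinearMap.congr_fun (h1.symm.trans h2) x
  rw [LinearMap.smul_apply, LinearMap.smul_apply, neg_smul, ← sub_eq_zero, sub_neg_eq_add,
    ← add_smul] at h3
  rw [LinearMap.zero_apply]
  refine (smul_eq_zero.1 h3).resolve_left ?_
  rcases Int.units_eq_one_or ε with rfl | rfl
  · norm_num
  · norm_num

/-- One block. -/
theorem block {ε : ℤˣ} {g : C.CH (X.prod X)} {m : ℕ} (h : C.PermRel g (m + 1) (chi ε))
    (hgg : C.comp g g = g) {s f : CorrRing C X} (hgf : s * f = CorrRing.of C X g * f)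
    (hfg : f * s = f * CorrRing.of C X g)
    (hN : actW W X (CorrRing.of C X g * f * (1 - s)) = 0) :
    Polynomial.aeval (xser s f) (npoly (newt fun k => ((ε : ℤ) : ℚ) *
      corrTrace C X ((CorrRing.of C X g * f * CorrRing.of C X g) ^ k)) m) *
        PowerSeries.C (CorrRing.of C X g) = 0 := by
  set G := CorrRing.of C X g with hG
  have hGG : G * G = G := by rw [hG, CorrRing.of_mul, hgg]
  refine aeval_xser_mul_C hGG hgf hfg (fun x => actW W X x = 0) ?_ ?_ ?_ ?_ hN ?_
  · intro x y hx hy; rw [map_add, hx, hy, add_zero]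
  · intro q x hx; rw [actW_smul, hx, smul_zero]
  · exact map_zero _
  · intro x a hx; rw [map_mul, hx, zero_mul]
  · intro n hn h1 h2
    have h3 := cayley_of_idem h hgg (G * f * G + n) (by
      rw [mul_add, ← mul_assoc, ← mul_assoc, hGG, h1])
    have h4 : (fun k => ((ε : ℤ) : ℚ) * corrTrace C X ((G * f * G) ^ k)) =
        fun k => ((ε : ℤ) : ℚ) * corrTrace C X ((G * f * G + n) ^ k) := by
      funext k
      congr 1
      refine corrTrace_congr W ?_
      rw [map_pow, map_pow, map_add, hn, add_zero]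
    rw [h4]
    exact h3

/-- The traces of the powers of a block. -/
lemma trace_block {ε : ℤˣ} {G f : CorrRing C X} (hGG : G * G = G)
    (hs : sgnOp W X * actW W X G = ((ε : ℤ) : W.K) • actW W X G)
    (hc : actW W X G * actW W X f = actW W X f * actW W X G) (k : ℕ) :
    algebraMap ℚ W.K (((ε : ℤ) : ℚ) * corrTrace C X ((G * f * G) ^ (k + 1))) =
      LinearMap.trace W.K (W.H X) (actW W X f ^ (k + 1) * actW W X G) := by
  have hGG' : actW W X G * actW W X G = actW W X G := by rw [← map_mul, hGG]
  have hc' : Commute (actW W X G) (actW W X f) := hc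
  have h1 : actW W X ((G * f * G) ^ (k + 1)) = actW W X f ^ (k + 1) * actW W X G := by
    have h2 : actW W X (G * f * G) = actW W X f * actW W X G := by
      rw [map_mul, map_mul, hc, mul_assoc, hGG']
    rw [map_pow, h2, hc'.symm.mul_pow]
    congr 1
    induction k with
    | zero => rw [zero_add, pow_one]
    | succ k ih => rw [pow_succ, ih, hGG']
  have h3 : ((ε : ℤ) : W.K) * ((ε : ℤ) : W.K) = 1 := by
    rcases Int.units_eq_one_or ε with rfl | rfl <;> simp
  rw [map_mul, eq_ratCast, eq_ratCast, corrTrace_eq W, h1, ← mul_assoc, (show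
    sgnOp W X * actW W X f ^ (k + 1) = actW W X f ^ (k + 1) * sgnOp W X by
      rw [← map_pow, sgnOp_mul_actW]), mul_assoc, hs, mul_smul_comm, map_smul,
    smul_eq_mul]
  push_cast
  rw [← mul_assoc, h3, one_mul]

lemma sgnOp_sq : sgnOp W X * sgnOp W X = 1 := by
  refine gr_ext (W.isInternal X) fun j a ha => ?_
  rw [Module.End.mul_apply, sgnOp_of_mem W ha, map_smul, sgnOp_of_mem W ha, smul_smul, ← pow_add,
    ← two_mul, pow_mul]
  simp

/-- The sign on a motive with a vanishing exterior power. -/
lemma sgn_of_ext (hP : C.Polarized) {γ : C.CH (X.prod X)} {m : ℕ} (h : C.ExtVanishes γ m) :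
    sgnOp W X * actW W X (CorrRing.of C X γ) =
      (((1 : ℤˣ) : ℤ) : W.K) • actW W X (CorrRing.of C X γ) := by
  rw [sgnOp_mul_actW]
  refine gr_ext (W.isInternal X) fun j a ha => ?_
  rw [Module.End.mul_apply, LinearMap.smul_apply, actW_of, sgnOp_of_mem W ha, map_smul]
  rcases Nat.even_or_odd j with hj | hj
  · rw [hj.neg_one_pow]; simp
  · rw [act_odd_of_extVanishes W hP h hj ha, smul_zero, smul_zero]

/-- The sign on a motive with a vanishing symmetric power. -/
lemma sgn_of_sym (hP : C.Polarized) {γ : C.CH (X.prod X)} {m : ℕ} (h : C.SymVanishes γ m) :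
    sgnOp W X * actW W X (CorrRing.of C X γ) =
      (((-1 : ℤˣ) : ℤ) : W.K) • actW W X (CorrRing.of C X γ) := by
  rw [sgnOp_mul_actW]
  refine gr_ext (W.isInternal X) fun j a ha => ?_
  rw [Module.End.mul_apply, LinearMap.smul_apply, actW_of, sgnOp_of_mem W ha, map_smul]
  rcases Nat.even_or_odd j with hj | hj
  · rw [act_even_of_symVanishes W hP h hj ha, smul_zero, smul_zero]
  · rw [hj.neg_one_pow]; simp

/-- **The Cayley–Hamilton theorem for the correspondences of a Kimura finite-dimensional motive.**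
-/
theorem cayleyHamilton (hP : C.Polarized) {ω : C.CH (X.prod X)} (hX : C.KimuraFinite ω)
    (f : CorrRing C X) (hf : CorrRing.of C X ω * f = f) (hf' : f * CorrRing.of C X ω = f) :
    ∃ P : Polynomial ℚ, (∃ h : ∀ x ∈ LinearMap.range (actW W X (CorrRing.of C X ω)),
      actW W X f x ∈ LinearMap.range (actW W X (CorrRing.of C X ω)),
        P.map (algebraMap ℚ W.K) = ((actW W X f).restrict h).charpoly) ∧
      Polynomial.aeval f P * CorrRing.of C X ω = 0 := by
  obtain ⟨e, -, o, -, hee, hoo, heo', hoe', heo, he, ho⟩ := hX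
  obtain ⟨N, hN, hN2⟩ := ((ChowTheory.ext_tfae hP hee).out 0 1).1 he
  obtain ⟨N', hN', hN'2⟩ := ((ChowTheory.sym_tfae hP hoo).out 0 1).1 ho
  obtain ⟨h1, h2⟩ := ChowTheory.extVanishes_iff.1 hN2
  obtain ⟨h1', h2'⟩ := ChowTheory.symVanishes_iff.1 hN'2
  obtain ⟨m, rfl⟩ : ∃ m, N = m + 1 := ⟨N - 1, by omega⟩
  obtain ⟨n, rfl⟩ : ∃ n, N' = n + 1 := ⟨N' - 1, by omega⟩
  have hm : (m : ℚ) = C.motDim e := by push_cast at hN; linarith
  have hn : (n : ℚ) = -C.motDim o := by push_cast at hN'; linarith
  have hsE := sgn_of_ext (W := W) hP hN2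
  have hsO := sgn_of_sym (W := W) hP hN'2
  rw [← heo, map_add] at hf hf' ⊢
  set E := CorrRing.of C X e with hE
  set O := CorrRing.of C X o with hO
  have hEO : O * E = 0 := by rw [hE, hO, CorrRing.of_mul, heo', map_zero]
  have hOE : E * O = 0 := by rw [hE, hO, CorrRing.of_mul, hoe', map_zero]
  have hEE : E * E = E := by rw [hE, CorrRing.of_mul, hee]
  have hOO : O * O = O := by rw [hO, CorrRing.of_mul, hoo]
  have hx1 : actW W X E * actW W X f * actW W X O = 0 :=
    crossPar (ε := 1) hsE (sgnOp_mul_actW W _) (by rw [hsO]; simp) (sgnOp_mul_actW W _)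
  have hx2 : actW W X O * actW W X f * actW W X E = 0 :=
    crossPar (ε := -1) hsO (sgnOp_mul_actW W _) (by rw [hsE]; simp) (sgnOp_mul_actW W _)
  have hcE : actW W X E * actW W X f = actW W X f * actW W X E := by
    have h3 : (E + O) * f * E = f * E := by rw [hf]
    rw [add_mul, add_mul] at h3
    have h4 : E * f * (E + O) = E * f := by rw [mul_assoc, hf']
    rw [mul_add] at h4
    have h3' := congrArg (actW W X) h3
    have h4' := congrArg (actW W X) h4
    simp only [map_add, map_mul] at h3' h4'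
    rw [hx2, add_zero] at h3'
    rw [hx1, add_zero] at h4'
    exact h4'.symm.trans h3'
  have hcO : actW W X O * actW W X f = actW W X f * actW W X O := by
    have h3 : actW W X (E + O) * actW W X f = actW W X f * actW W X (E + O) := by
      rw [← map_mul, ← map_mul, hf, hf']
    rw [map_add, add_mul, mul_add, hcE] at h3
    exact add_left_cancel h3
  have h5 : (1 - E) * f = O * f := by
    rw [sub_mul, one_mul, sub_eq_iff_eq_add', ← add_mul, hf]
  have h6 : f * (1 - E) = f * O := by
    rw [mul_sub, mul_one, sub_eq_iff_eq_add', ← mul_add, hf']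
  have key : ∀ (Ω : Module.End W.K (W.H X)), Ω = actW W X E + actW W X O →
      ∀ h : ∀ x ∈ LinearMap.range Ω, actW W X f x ∈ LinearMap.range Ω,
      (npoly (newt fun k => (((1 : ℤˣ) : ℤ) : ℚ) * corrTrace C X ((E * f * E) ^ k)) m *
        npoly (newt fun k => (((-1 : ℤˣ) : ℤ) : ℚ) * corrTrace C X ((O * f * O) ^ k)) n).map
          (algebraMap ℚ W.K) = ((actW W X f).restrict h).charpoly := by
    rintro _ rfl h
    rw [Polynomial.map_mul, map_npoly, map_npoly, charpoly_corner (actW W X E) (actW W X O)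
      (actW W X f) (by rw [← map_mul, hEE]) (by rw [← map_mul, hOO])
      (by rw [← map_mul, hOE, map_zero]) (by rw [← map_mul, hEO, map_zero]) hcE hcO
      (m := m) (n := n)]
    · congr 2
      · exact newt_congr fun k => trace_block hEE hsE hcE k
      · exact newt_congr fun k => trace_block hOO hsO hcO k
    · have h3 := corrTrace_eq W E
      rw [hsE] at h3
      have h4 : corrTrace C X E = (m : ℚ) := hm.symm
      rw [h4] at h3
      simpa using h3
    · have h3 := corrTrace_eq W O
      rw [hsO] at h3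
      have h4 : corrTrace C X O = -(n : ℚ) := by rw [hn, neg_neg]; rfl
      rw [h4] at h3
      simpa using h3
  refine ⟨_, ⟨?_, key _ (map_add _ _ _) _⟩, twoBlock hEE hOE hf (block (W := W) h2 hee rfl rfl (by
    rw [mul_assoc, h6, ← mul_assoc, map_mul, map_mul]; exact hx1)) (block (W := W) h2' hoo h5 h6 (by
    rw [sub_sub_cancel, map_mul, map_mul]; exact hx2))⟩
  rintro _ ⟨x, rfl⟩
  refine ⟨actW W X f x, ?_⟩
  rw [← Module.End.mul_apply, ← Module.End.mul_apply, ← map_mul, ← map_mul, hf, hf']

lemma of_corrPow {ω f : C.CH (X.prod X)} (n : ℕ) : CorrRing.of C X (corrPow C ω f n) =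
    CorrRing.of C X f ^ n * CorrRing.of C X ω := by
  induction n with
  | zero => rw [corrPow, pow_zero, one_mul]
  | succ n ih => rw [corrPow, CorrRing.of_comp, ih, pow_succ', mul_assoc]

lemma of_corrEval {ω f : C.CH (X.prod X)} (P : Polynomial ℚ) :
    CorrRing.of C X (corrEval C P ω f) =
      Polynomial.aeval (CorrRing.of C X f) P * CorrRing.of C X ω := by
  rw [corrEval, Polynomial.sum, map_sum, Polynomial.aeval_def, Polynomial.eval₂_eq_sum,
    Polynomial.sum, Finset.sum_mul]
  refine Finset.sum_congr rfl fun n _ => ?_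
  rw [map_smul, of_corrPow, mul_assoc, ← Algebra.smul_def]

/-- The Cayley–Hamilton theorem, in terms of correspondences. -/
theorem cayleyHamilton' (hP : C.Polarized) (W : WeilTheory.{u, v, w} C) {ω : C.CH (X.prod X)}
    (hX : C.KimuraFinite ω) (f : C.CH (X.prod X)) (hf : C.comp ω f = f) (hf' : C.comp f ω = f) :
    ∃ P : Polynomial ℚ, IsCharpoly P (W.act f) (motCoh W ω) ∧ corrEval C P ω f = 0 := by
  obtain ⟨P, ⟨h, hP1⟩, hP2⟩ := cayleyHamilton (W := W) hP hX (CorrRing.of C X f)
    (congrArg (CorrRing.of C X) hf') (congrArg (CorrRing.of C X) hf)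
  refine ⟨P, ⟨h, inferInstance, hP1⟩, ?_⟩
  apply (CorrRing.of C X).injective
  rw [of_corrEval, hP2, map_zero]

end Pool.Agent.H836
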