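import Pool.Agent.H836.Wedge
import Pool.Agent.H836.Betti
import Pool.Graph.R_pool_sql_team_seeded_b0a926ef.R903.KimDefs

/-!
# Splitting off Lefschetz motives
-/

open CategoryTheory CategoryTheory.Limits AlgebraicGeometry
open Pool.Agent.H914 Pool.Agent.H914.VarClass Pool.Agent.H914.VarClass.Obj
open Pool.Agent.R903 Equiv Equiv.Perm Pool.Agent.R903.PermCore

universe u v w

namespace Pool.Agent.H836

variable {k : Type u} [Field k] {𝒱 : VarClass k} {C : ChowTheory.{u, v} 𝒱}
variable {X Y Z A B : 𝒱.Obj} {ω : C.CH (X.prod X)}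

lemma deg_push (hP : C.Polarized) (f : A ⟶ B) (x : C.CH A) :
    C.deg B (C.push f x) = C.deg A x := by
  have h1 : algebraMap ℚ (C.CH A) (C.deg B (C.push f x)) = algebraMap ℚ (C.CH A) (C.deg A x) := by
    rw [← C.push_snd_pull_fst B A, C.pull_fst_push, ← C.push_comp, prodMap_snd,
      Category.comp_id, C.push_snd_pull_fst]
  exact algebraMap_injective' (ChowTheory.one_ne_zero_of_polarized hP A) h1

lemma deg_act (hP : C.Polarized) (γ : C.CH (X.prod Y)) (a : C.CH X) (b : C.CH Y) :
    C.deg Y (C.act γ a * b) = C.deg X (a * coact C γ b) := by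
  have h1 : C.act γ a * b = C.push (snd X Y) (γ * C.pull (fst X Y) a * C.pull (snd X Y) b) := by
    rw [C.act_apply, C.push_mul]
  have h2 : a * coact C γ b =
      C.push (fst X Y) (γ * C.pull (fst X Y) a * C.pull (snd X Y) b) := by
    rw [coact, mul_comm a, ← C.push_mul]
    congr 1
    ring
  rw [h1, h2, deg_push hP, deg_push hP]

lemma pull_lift_ext' (a : C.CH X) (b : C.CH Y) (x : A ⟶ X) (y : A ⟶ Y) :
    C.pull (lift x y) (C.ext a b) = C.pull x a * C.pull y b := by
  rw [ChowTheory.ext, C.pull_mul, ← C.pull_comp, ← C.pull_comp, Obj.lift_fst, Obj.lift_snd]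

lemma comp_eq_push (α : C.CH (X.prod Y)) (β : C.CH (Y.prod Z)) :
    C.comp α β = C.push (fst (X.prod Z) Y)
      (C.pull (lift (fst (X.prod Z) Y ≫ fst X Z) (snd (X.prod Z) Y)) α *
        C.pull (lift (snd (X.prod Z) Y) (fst (X.prod Z) Y ≫ snd X Z)) β) := by
  rw [ChowTheory.pull_comp_corr, lift_fst_snd, C.pull_id]

lemma ext_comp (p : C.CH X) (q : C.CH Y) (β : C.CH (Y.prod Z)) :
    C.comp (C.ext p q) β = C.ext p (C.act β q) := by
  rw [comp_eq_push, pull_lift_ext', C.pull_comp, mul_assoc, C.mul_push, push_insert]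
  rfl

lemma comp_ext (α : C.CH (X.prod Y)) (p : C.CH Y) (q : C.CH Z) :
    C.comp α (C.ext p q) = C.ext (coact C α p) q := by
  rw [comp_eq_push, pull_lift_ext', C.pull_comp, ← mul_assoc, C.push_mul,
    mul_comm (C.pull _ α), push_insert_snd]
  rfl

lemma coact_add (γ δ : C.CH (X.prod Y)) (b : C.CH Y) :
    coact C (γ + δ) b = coact C γ b + coact C δ b := by
  simp only [coact, add_mul, map_add]

lemma coact_sub (γ δ : C.CH (X.prod Y)) (b : C.CH Y) :
    coact C (γ - δ) b = coact C γ b - coact C δ b := by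
  simp only [coact, sub_mul, map_sub]

lemma coact_sum {ι : Type*} (s : Finset ι) (γ : ι → C.CH (X.prod Y)) (b : C.CH Y) :
    coact C (∑ i ∈ s, γ i) b = ∑ i ∈ s, coact C (γ i) b := by
  simp only [coact, Finset.sum_mul, map_sum]

lemma coact_ext (p : C.CH X) (q : C.CH Y) (b : C.CH Y) :
    coact C (C.ext p q) b = C.deg Y (q * b) • p := by
  have h1 : C.ext p q * C.pull (snd X Y) b =
      C.pull (fst X Y) p * C.pull (snd X Y) (q * b) := by
    rw [ChowTheory.ext, C.pull_mul, mul_assoc]
  rw [coact, h1, C.mul_push, ChowTheory.push_fst_pull_snd, Algebra.smul_def, mul_comm]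

lemma coact_diagC (b : C.CH X) : coact C (C.diagC X) b = b := by
  rw [coact, ChowTheory.diagC, mul_comm, ← C.mul_push, ← C.pull_comp, diag_snd, C.pull_id, mul_one,
    ← C.push_comp, diag_fst, C.push_id]

lemma coact_eq_act (γ : C.CH (X.prod Y)) (b : C.CH Y) :
    coact C γ b = C.act (C.transp γ) b := by
  have h1 : swap X Y ≫ swap Y X = 𝟙 _ := by apply hom_ext_prod <;> simp
  have h2 : ∀ z : C.CH (X.prod Y), C.push (swap X Y) z = C.pull (swap Y X) z := by
    intro z
    have h3 : z = C.pull (swap X Y) (C.pull (swap Y X) z) := by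
      rw [← C.pull_comp, h1, C.pull_id]
    conv_lhs => rw [h3, C.push_pull_iso]
  have h4 : C.push (fst X Y) (γ * C.pull (snd X Y) b) =
      C.push (snd Y X) (C.push (swap X Y) (γ * C.pull (snd X Y) b)) := by
    rw [← C.push_comp, swap_snd]
  rw [coact, h4, h2, C.pull_mul, ← C.pull_comp, swap_snd]
  rfl

lemma coact_comp (α : C.CH (X.prod Y)) (β : C.CH (Y.prod Z)) (b : C.CH Z) :
    coact C (C.comp α β) b = coact C α (coact C β b) := by
  rw [coact_eq_act, coact_eq_act, coact_eq_act, ← C.comp_transp, C.act_comp]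

end Pool.Agent.H836
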