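import Pool.Agent.H836.LinCH
import Pool.Agent.H836.CayMain
import Pool.Agent.H836.Split
import Pool.Agent.H836.BlochDefs

/-!
# Correspondences on surfaces which commute with a given one
-/

open CategoryTheory CategoryTheory.Limits AlgebraicGeometry
open Pool.Agent.H914 Pool.Agent.H914.VarClass Pool.Agent.H914.VarClass.Obj
open Pool.Agent.R903

universe u v w

namespace Pool.Agent.H836

variable {k : Type u} [Field k] {𝒱 : VarClass k} {C : ChowTheory.{u, v} 𝒱}
variable {X Y Z : 𝒱.Obj}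

lemma charpoly_unique {K : Type w} [Field K] [CharZero K] {V : Type w} [AddCommGroup V] [Module K V]
    {P Q : Polynomial ℚ} {T : V →ₗ[K] V} {S : Submodule K V} (hP : IsCharpoly P T S)
    (hQ : IsCharpoly Q T S) : P = Q := by
  obtain ⟨h, i, hP⟩ := hP
  obtain ⟨h', i', hQ⟩ := hQ
  apply Polynomial.map_injective _ (algebraMap ℚ K).injective
  rw [hP, hQ]

lemma charpoly_ne_zero {K : Type w} [Field K] [CharZero K] {V : Type w} [AddCommGroup V]
    [Module K V] {P : Polynomial ℚ} {T : V →ₗ[K] V} {S : Submodule K V} (hP : IsCharpoly P T S) :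
    P ≠ 0 := by
  obtain ⟨h, i, hP⟩ := hP
  rintro rfl
  rw [Polynomial.map_zero] at hP
  exact (LinearMap.charpoly_monic _).ne_zero hP.symm

/-- The Cayley–Hamilton identity for `g + s f`, with a homologically trivial `f`. -/
theorem cayley_pert (hP : C.Polarized) (W : WeilTheory.{u, v, w} C) {ω : C.CH (X.prod X)}
    (hX : C.KimuraFinite ω) {g f : C.CH (X.prod X)} (hg : C.comp ω g = g) (hg' : C.comp g ω = g)
    (hf : C.comp ω f = f) (hf' : C.comp f ω = f) (hf0 : W.act f = 0) {P : Polynomial ℚ}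
    (hPg : IsCharpoly P (W.act g) (motCoh W ω)) (s : ℚ) :
    Polynomial.aeval (CorrRing.of C X g + s • CorrRing.of C X f) P * CorrRing.of C X ω = 0 := by
  obtain ⟨Q, hQ, hQ'⟩ := cayleyHamilton' hP W hX (g + s • f)
    (by rw [C.comp_add, C.comp_smul, hg, hf]) (by rw [C.add_comp, C.smul_comp, hg', hf'])
  rw [W.act_add, W.act_smul, hf0, smul_zero, add_zero] at hQ
  rw [charpoly_unique hPg hQ, ← map_smul, ← map_add, ← of_corrEval, hQ', map_zero]

/-- An evenly finite-dimensional motive is finite-dimensional. -/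
lemma kimuraFinite_of_ext {ω : C.CH (X.prod X)} (hω : ω ∈ C.gr (X.prod X) X.dim)
    (h : C.comp ω ω = ω) {m : ℕ} (hm : C.ExtVanishes ω m) : C.KimuraFinite ω := by
  refine ⟨ω, hω, 0, Submodule.zero_mem _, h, C.comp_zero _, C.comp_zero _, C.zero_comp _,
    add_zero _, ⟨m, hm⟩, 1, 0, rfl, ?_⟩
  refine Finset.sum_eq_zero fun σ _ => ?_
  rw [ChowTheory.permCycle]
  exact Finset.prod_eq_zero (Finset.mem_univ 0) (map_zero _)

end Pool.Agent.H836

namespace Pool.Agent.H836.Bloch

variable {k : Type u} [Field k] {𝒱 : VarClass k} {C : ChowTheory.{u, v} 𝒱}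
variable {X Y Z : 𝒱.Obj}

/-! ### the operators -/

/-- The action on the Chow group. -/
noncomputable def opE (C : ChowTheory.{u, v} 𝒱) {X : 𝒱.Obj} (Γ : C.CH (X.prod X)) :
    Module.End ℚ (C.CH X) :=
  C.act Γ

lemma op_iter (Γ : C.CH (X.prod X)) (n : ℕ) (a : C.CH X) :
    (op C Γ)^[n] a = (opE C Γ ^ n) a := by
  rw [Module.End.pow_apply]; rfl

/-- The action on the Chow group, as a homomorphism of rings. -/
lemma op_mul (α β : C.CH (X.prod X)) : opE C α * opE C β = opE C (C.comp β α) := by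
  ext x
  exact (C.act_comp _ _ x).symm

lemma op_eq (Γ : C.CH (X.prod X)) : opE C Γ = CorrRing.actH C X (CorrRing.of C X Γ) := rfl

lemma tr_eq (Γ : C.CH (X.prod X)) : tr C Γ = C.transp Γ := rfl

lemma cross_eq (a b : C.CH X) : cross C a b = C.ext a b := rfl

lemma op_tr (Γ : C.CH (X.prod X)) (a : C.CH X) : opE C (tr C Γ) a = coact C Γ a := by
  rw [coact_eq_act]; rfl

lemma tr_mem {Γ : C.CH (X.prod X)} {p : ℕ} (h : Γ ∈ C.gr (X.prod X) p) :
    tr C Γ ∈ C.gr (X.prod X) p := C.transp_mem h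

lemma tr_tr (Γ : C.CH (X.prod X)) : tr C (tr C Γ) = Γ := by
  rw [tr_eq, tr_eq, ChowTheory.transp, ChowTheory.transp, ← C.pull_comp]
  have : swap X X ≫ swap X X = 𝟙 _ := by apply hom_ext_prod <;> simp
  rw [this, C.pull_id]

lemma tr_comp (α β : C.CH (X.prod X)) : tr C (C.comp α β) = C.comp (tr C β) (tr C α) := by
  rw [tr_eq, tr_eq, tr_eq, C.comp_transp]

lemma of_cut (ω Γ : C.CH (X.prod X)) : CorrRing.of C X (cut C ω Γ) =
    CorrRing.of C X ω * CorrRing.of C X Γ * CorrRing.of C X ω := by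
  rw [cut, CorrRing.of_comp, CorrRing.of_comp, mul_assoc]

section surface

variable {W : WeilTheory.{u, v, w} C} {H20 : Set (W.H X)} {ω : C.CH (X.prod X)}
  (hω : IsTranscendental W H20 ω)

include hω

lemma lefsch {Γ : C.CH (X.prod X)} (h : Γ ∈ C.gr (X.prod X) 2) (h0 : Kills W Γ H20) :
    W.act (cut C ω Γ) = 0 :=
  LinearMap.ext fun x => hω.lefschetz Γ h h0 x (Set.mem_univ x)

lemma fix {a : C.CH X} (ha : InAlbaneseKernel C ω a) : opE C ω a = a := ha.2

lemma comp_cut (Γ : C.CH (X.prod X)) : C.comp ω (cut C ω Γ) = cut C ω Γ := by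
  rw [cut, ← C.comp_assoc, ← C.comp_assoc, hω.idem]

lemma cut_comp (Γ : C.CH (X.prod X)) : C.comp (cut C ω Γ) ω = cut C ω Γ := by
  rw [cut, C.comp_assoc, hω.idem]

lemma cut_mem {Γ : C.CH (X.prod X)} (h : Γ ∈ C.gr (X.prod X) 2) :
    cut C ω Γ ∈ C.gr (X.prod X) 2 :=
  C.comp_mem (C.comp_mem hω.mem h (by rw [hω.dim])) hω.mem (by rw [hω.dim])

/-- On the kernel of the Albanese map, `ω Γ ω` acts as `Γ`. -/
lemma op_cut {Γ : C.CH (X.prod X)} (h : Γ ∈ C.gr (X.prod X) 2) {a : C.CH X} (ha : opE C ω a = a) :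
    opE C (cut C ω Γ) a = opE C Γ a := by
  rw [cut, ← op_mul, ← op_mul, Module.End.mul_apply, Module.End.mul_apply, ha]
  have h1 : opE C ω (opE C Γ (opE C ω a)) = opE C Γ (opE C ω a) := hω.stable Γ h a
  rwa [ha] at h1

lemma op_op {Γ : C.CH (X.prod X)} (h : Γ ∈ C.gr (X.prod X) 2) {a : C.CH X} (ha : opE C ω a = a) :
    opE C ω (opE C Γ a) = opE C Γ a := by
  have h1 : opE C ω (opE C Γ (opE C ω a)) = opE C Γ (opE C ω a) := hω.stable Γ h a
  rwa [ha] at h1

lemma op_cut_pow {Γ : C.CH (X.prod X)} (h : Γ ∈ C.gr (X.prod X) 2) (n : ℕ) :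
    ∀ {a : C.CH X}, opE C ω a = a → (opE C (cut C ω Γ) ^ n) a = (opE C Γ ^ n) a ∧
      opE C ω ((opE C Γ ^ n) a) = (opE C Γ ^ n) a := by
  induction n with
  | zero => intro a ha; exact ⟨rfl, ha⟩
  | succ n ih =>
    intro a ha
    rw [pow_succ, pow_succ, Module.End.mul_apply, Module.End.mul_apply, op_cut hω h ha]
    exact ih (op_op hω h ha)

lemma tr_cut (Γ : C.CH (X.prod X)) : tr C (cut C ω Γ) = cut C ω (tr C Γ) := by
  rw [cut, tr_comp, tr_comp, hω.symm, cut, C.comp_assoc]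

lemma charpoly_cut {g : C.CH (X.prod X)} {P : Polynomial ℚ}
    (hPg : IsCharpoly P (W.act g) (motCoh W ω)) :
    IsCharpoly P (W.act (cut C ω g)) (motCoh W ω) := by
  obtain ⟨h, i, hPg⟩ := hPg
  have h1 : ∀ x ∈ motCoh W ω, W.act ω x = x := by
    rintro _ ⟨y, rfl⟩
    rw [← act_comp_all, hω.idem]
  have h2 : ∀ x ∈ motCoh W ω, W.act (cut C ω g) x = W.act g x := by
    intro x hx
    rw [cut, act_comp_all, act_comp_all, h1 x hx, h1 _ (h x hx)]
  refine ⟨fun x hx => by rw [h2 x hx]; exact h x hx, i, ?_⟩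
  rw [hPg]
  congr 1
  ext x
  exact (h2 x x.2).symm

lemma comm_cut {g Γ : C.CH (X.prod X)} (hg : g ∈ C.gr (X.prod X) 2)
    (hΓ : Γ ∈ C.gr (X.prod X) 2) (hc : cut C ω (C.comp g Γ) = cut C ω (C.comp Γ g)) :
    Commute (CorrRing.of C X (cut C ω g)) (CorrRing.of C X (cut C ω Γ)) := by
  rw [Commute, SemiconjBy, CorrRing.of_mul, CorrRing.of_mul, hω.mul _ _ hΓ hg, hω.mul _ _ hg hΓ, hc]

/-- **Correspondences which commute with `g`.** -/
theorem commuting (hP : C.Polarized) (hK : C.KimuraFinite ω) {g : C.CH (X.prod X)}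
    (hg : g ∈ C.gr (X.prod X) 2) {P : Polynomial ℚ} (hPg : IsCharpoly P (W.act g) (motCoh W ω))
    {e : ℕ} (he : MultLE P e) {Γ : C.CH (X.prod X)} (hΓ : Γ ∈ C.gr (X.prod X) 2)
    (hΓ0 : Kills W Γ H20) (hc : cut C ω (C.comp g Γ) = cut C ω (C.comp Γ g)) {a : C.CH X}
    (ha : InAlbaneseKernel C ω a) : (op C Γ)^[e] a = 0 := by
  have hF : Commute (CorrRing.of C X (cut C ω Γ)) (CorrRing.of C X ω) := by
    rw [Commute, SemiconjBy, CorrRing.of_mul, CorrRing.of_mul, comp_cut hω, cut_comp hω]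
  have h1 := pow_mul_eq_zero (charpoly_ne_zero hPg) (fun s => cayley_pert hP W hK (comp_cut hω g)
    (cut_comp hω g) (comp_cut hω Γ) (cut_comp hω Γ) (lefsch hω hΓ hΓ0)
    (charpoly_cut hω hPg) s) (comm_cut hω hg hΓ hc) hF he
  have h2 := LinearMap.congr_fun (congrArg (CorrRing.actH C X) h1) a
  rw [map_mul, map_pow, map_zero, ← op_eq, ← op_eq, Module.End.mul_apply, (fix hω ha),
    (op_cut_pow hω hΓ e (fix hω ha)).1, LinearMap.zero_apply] at h2
  rw [op_iter]
  exact h2

/-- **The linearized Cayley–Hamilton identity on the kernel of the Albanese map.** -/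
theorem linearized (hP : C.Polarized) (hK : C.KimuraFinite ω) {g : C.CH (X.prod X)}
    (hg : g ∈ C.gr (X.prod X) 2) {P : Polynomial ℚ} (hPg : IsCharpoly P (W.act g) (motCoh W ω))
    {Γ : C.CH (X.prod X)} (hΓ : Γ ∈ C.gr (X.prod X) 2) (hΓ0 : Kills W Γ H20) {a : C.CH X}
    (ha : InAlbaneseKernel C ω a) : linSum P (op C g) (op C Γ) a = 0 := by
  have h1 := wordPoly_eq_zero (fun s => cayley_pert hP W hK (comp_cut hω g)
    (cut_comp hω g) (comp_cut hω Γ) (cut_comp hω Γ) (lefsch hω hΓ hΓ0)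
    (charpoly_cut hω hPg) s) 1
  have h2 := LinearMap.congr_fun (congrArg (CorrRing.actH C X) h1) a
  rw [map_mul, map_zero, Module.End.mul_apply, ← op_eq, (fix hω ha), LinearMap.zero_apply] at h2
  rw [← h2, linSum, wordPoly, Polynomial.sum_def, Polynomial.sum_def, map_sum,
    LinearMap.sum_apply]
  refine Finset.sum_congr rfl fun n _ => ?_
  rw [map_smul, LinearMap.smul_apply, word_one, map_sum, LinearMap.sum_apply]
  congr 1
  refine Finset.sum_congr rfl fun i _ => ?_
  rw [op_iter, op_iter]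
  change (opE C g ^ i) (opE C Γ ((opE C g ^ (n - 1 - i)) a)) = _
  rw [map_mul, map_mul, map_pow, map_pow, ← op_eq, ← op_eq, Module.End.mul_apply,
    Module.End.mul_apply]
  obtain ⟨h3, h4⟩ := op_cut_pow hω hg (n - 1 - i) (fix hω ha)
  rw [h3, op_cut hω hΓ h4, (op_cut_pow hω hg i (op_op hω hΓ h4)).1]

lemma cl_eq_zero {a : C.CH X} (ha : InAlbaneseKernel C ω a) : W.cl X a = 0 := by
  have h1 := W.cl_act ω a
  have h2 : C.act ω a = a := (fix hω ha)
  rw [h2] at h1
  rw [h1]
  exact hω.coh 4 (by norm_num) _ (W.cl_mem ha.1)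

lemma act_ext_eq_zero {z w : C.CH X} (hz : InAlbaneseKernel C ω z) :
    W.act (C.ext z w) = 0 := by
  ext x
  rw [W.act_apply, ChowTheory.ext, W.cl_mul, W.cl_pull, cl_eq_zero hω hz, map_zero, zero_mul,
    zero_mul, map_zero, LinearMap.zero_apply]

lemma coact_self {z : C.CH X} (hz : opE C ω z = z) : coact C ω z = z := by
  rw [← op_tr, hω.symm, hz]

lemma coact_cut_pow {g : C.CH (X.prod X)} (hg : g ∈ C.gr (X.prod X) 2) {z w : C.CH X}
    (hz : opE C ω z = z) (hw : opE C ω w = w) (i j : ℕ) :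
    CorrRing.of C X (cut C ω g) ^ i * CorrRing.of C X (C.ext z w) *
      CorrRing.of C X (cut C ω g) ^ j =
        CorrRing.of C X (C.ext ((opE C (tr C g) ^ j) z) ((opE C g ^ i) w)) := by
  have h1 : ∀ (i : ℕ) (w : C.CH X), CorrRing.of C X (cut C ω g) ^ i * CorrRing.of C X (C.ext z w) =
      CorrRing.of C X (C.ext z ((opE C (cut C ω g) ^ i) w)) := by
    intro i
    induction i with
    | zero => intro w; rw [pow_zero, one_mul, pow_zero, Module.End.one_apply]
    | succ i ih =>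
      intro w
      rw [pow_succ, mul_assoc, CorrRing.of_mul, ext_comp, ih, pow_succ (opE C _),
        Module.End.mul_apply]
      rfl
  have h2 : ∀ (j : ℕ) (z w : C.CH X), CorrRing.of C X (C.ext z w) *
      CorrRing.of C X (cut C ω g) ^ j =
        CorrRing.of C X (C.ext ((opE C (cut C ω (tr C g)) ^ j) z) w) := by
    intro j
    induction j with
    | zero => intro z w; rw [pow_zero, mul_one, pow_zero, Module.End.one_apply]
    | succ j ih =>
      intro z w
      rw [pow_succ', ← mul_assoc, CorrRing.of_mul, comp_ext, ← op_tr, tr_cut hω, ih,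
        pow_succ (opE C _), Module.End.mul_apply]
  rw [h1, h2, (op_cut_pow hω hg i hw).1, (op_cut_pow hω (tr_mem hg) j hz).1]

/-- **The linearized Cayley–Hamilton identity for products of zero-cycles.** -/
theorem products (hP : C.Polarized) (hK : C.KimuraFinite ω) {g : C.CH (X.prod X)}
    (hg : g ∈ C.gr (X.prod X) 2) {P : Polynomial ℚ} (hPg : IsCharpoly P (W.act g) (motCoh W ω))
    {z w : C.CH X} (hz : InAlbaneseKernel C ω z) (hw : InAlbaneseKernel C ω w) :
    divSum P (op C (tr C g)) (op C g) (cross C) z w = 0 := by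
  have h1 := wordPoly_eq_zero (fun s => cayley_pert hP W hK (comp_cut hω g)
    (cut_comp hω g) (f := C.ext z w) (by rw [comp_ext, coact_self hω (fix hω hz)])
    (by rw [ext_comp]; exact congrArg _ (fix hω hw)) (act_ext_eq_zero hω hz)
    (charpoly_cut hω hPg) s) 1
  apply (CorrRing.of C X).injective
  rw [map_zero, ← h1, divSum, wordPoly, Polynomial.sum_def, Polynomial.sum_def, map_sum,
    Finset.sum_mul]
  refine Finset.sum_congr rfl fun n _ => ?_
  rw [map_smul, smul_mul_assoc, word_one, map_sum, Finset.sum_mul]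
  congr 1
  refine Finset.sum_congr rfl fun i _ => ?_
  rw [coact_cut_pow hω hg (fix hω hz) (fix hω hw), CorrRing.of_mul, comp_ext, coact_self hω]
  · rw [op_iter, op_iter]; rfl
  · exact (op_cut_pow hω (tr_mem hg) _ (fix hω hz)).2

lemma cut_ext_cut {a b : C.CH (X.prod X)} (ha : a ∈ C.gr (X.prod X) 2)
    (hb : b ∈ C.gr (X.prod X) 2) {z w : C.CH X} (hz : opE C ω z = z) (hw : opE C ω w = w) :
    CorrRing.of C X (cut C ω a) * CorrRing.of C X (C.ext z w) * CorrRing.of C X (cut C ω b) =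
      CorrRing.of C X (cross C (opE C (tr C b) z) (opE C a w)) := by
  rw [CorrRing.of_mul, CorrRing.of_mul, ext_comp, comp_ext, ← op_tr, tr_cut hω,
    op_cut hω (tr_mem hb) hz, cross_eq, ← op_cut hω ha hw]
  rfl

/-- **Finite groups.** -/
theorem group_products (hP : C.Polarized) (hK : C.KimuraFinite ω) {G : Type} [Group G] [Fintype G]
    {u : G → C.CH (X.prod X)} (hu : GroupActs C ω u) {g : C.CH (X.prod X)}
    (hg : g ∈ Submodule.span ℚ (Set.range u)) {P : Polynomial ℚ}
    (hPg : IsCharpoly P (W.act g) (motCoh W ω)) (he : MultLE P 1) {z w : C.CH X}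
    (hz : InAlbaneseKernel C ω z) (hw : InAlbaneseKernel C ω w) :
    ∑ h, cross C (op C (tr C (u h)) z) (op C (u h⁻¹) w) = 0 := by
  set U : G → CorrRing C X := fun h => CorrRing.of C X (cut C ω (u h)) with hU
  set F : CorrRing C X := CorrRing.of C X (C.ext z w) with hF
  have hUU : ∀ a b, U a * U b = U (b * a) := by
    intro a b
    rw [hU]
    simp only
    rw [CorrRing.of_mul, hω.mul _ _ (hu _ 1).1 (hu _ 1).1, (hu _ _).2]
  have hΩU : ∀ h, CorrRing.of C X ω * U h = U h := fun h => by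
    rw [hU]; simp only; rw [CorrRing.of_mul, cut_comp hω]
  have hUΩ : ∀ h, U h * CorrRing.of C X ω = U h := fun h => by
    rw [hU]; simp only; rw [CorrRing.of_mul, comp_cut hω]
  set E : CorrRing C X := ∑ h, U h⁻¹ * F * U h with hE
  have hcom : ∀ b, Commute (U b) E := by
    intro b
    rw [Commute, SemiconjBy, hE, Finset.mul_sum, Finset.sum_mul]
    refine Fintype.sum_equiv (Equiv.mulLeft b⁻¹) _ _ fun h => ?_
    rw [Equiv.coe_mulLeft, mul_assoc (U (b⁻¹ * h)⁻¹ * F), hUU, ← mul_assoc, ← mul_assoc, hUU,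
      mul_inv_cancel_left, mul_inv_rev, inv_inv]
  have hgc : ∀ g ∈ Submodule.span ℚ (Set.range u),
      Commute (CorrRing.of C X (cut C ω g)) E := by
    intro g hg
    induction hg using Submodule.span_induction with
    | mem x hx => obtain ⟨b, rfl⟩ := hx; exact hcom b
    | zero => rw [of_cut, map_zero, mul_zero, zero_mul]; exact Commute.zero_left _
    | add x y _ _ hx hy =>
      rw [of_cut] at hx hy ⊢
      rw [map_add, mul_add, add_mul]
      exact hx.add_left hy
    | smul c x _ hx =>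
      rw [of_cut] at hx ⊢
      rw [map_smul, mul_smul_comm, smul_mul_assoc]
      exact hx.smul_left c
  have hterm : E = CorrRing.of C X (∑ h, cross C (opE C (tr C (u h)) z) (opE C (u h⁻¹) w)) := by
    rw [hE, map_sum]
    exact Finset.sum_congr rfl fun h _ => cut_ext_cut hω (hu _ 1).1 (hu _ 1).1 (fix hω hz) (fix hω hw)
  set ε : C.CH (X.prod X) := ∑ h, cross C (opE C (tr C (u h)) z) (opE C (u h⁻¹) w) with hε
  have h1 : C.comp ω ε = ε := by
    apply (CorrRing.of C X).injective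
    rw [CorrRing.of_comp, ← hterm, hE, Finset.sum_mul]
    exact Finset.sum_congr rfl fun h _ => by rw [mul_assoc, hUΩ]
  have h2 : C.comp ε ω = ε := by
    apply (CorrRing.of C X).injective
    rw [CorrRing.of_comp, ← hterm, hE, Finset.mul_sum]
    exact Finset.sum_congr rfl fun h _ => by rw [← mul_assoc, ← mul_assoc, hΩU]
  have h3 : W.act ε = 0 := by
    rw [hε, W.act_sum]
    refine Finset.sum_eq_zero fun h _ => act_ext_eq_zero hω ⟨?_, ?_⟩
    · exact C.act_mem (tr_mem (hu h 1).1) hz.1 (by rw [hω.dim])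
    · exact op_op hω (tr_mem (hu h 1).1) (fix hω hz)
  have h4 := pow_mul_eq_zero (charpoly_ne_zero hPg) (fun s => cayley_pert hP W hK (comp_cut hω g)
    (cut_comp hω g) h1 h2 h3 (charpoly_cut hω hPg) s) (by rw [← hterm]; exact hgc g hg)
    (by rw [Commute, SemiconjBy, CorrRing.of_mul, CorrRing.of_mul, h1, h2]) he
  rw [pow_one, CorrRing.of_mul, h1] at h4
  exact (CorrRing.of C X).injective (h4.trans (map_zero _).symm)

end surface

end Pool.Agent.H836.Bloch
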