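import Pool.Agent.H836.Contract

/-!
# Nilpotence of traceless correspondences, and the parity of direct summands
-/

open CategoryTheory CategoryTheory.Limits AlgebraicGeometry
open Pool.Agent.H914 Pool.Agent.H914.VarClass Pool.Agent.H914.VarClass.Obj
open Pool.Agent.R903 Equiv Equiv.Perm Pool.Agent.R903.PermCore

universe u v w

namespace Pool.Agent.H836

variable {k : Type u} [Field k] {𝒱 : VarClass k} {C : ChowTheory.{u, v} 𝒱}
variable {X Y Z A B : 𝒱.Obj} {n : ℕ}

lemma theta_eq_zero {ε : ℤˣ} {ω : C.CH (X.prod X)} (h : C.PermRel ω n (chi ε))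
    (ρ : Fin n → C.CH (Z.prod X)) (y : Fin n → (Z ⟶ X)) :
    theta C ε (fun i => C.comp (ρ i) ω) y = 0 :=
  (mRel_const.2 h).rowRel ρ Z (𝟙 Z) y

lemma rowsOf_eq_comp {ω : C.CH (X.prod X)} (m : ℕ) (η : Fin m → CorrRing C X)
    (hη : ∀ i, CorrRing.of C X ω * η i = η i) (x : Fin m → (Z ⟶ X)) (r : C.CH (Z.prod X))
    (hr : C.comp r ω = r) : rowsOf C m η x r = fun i => C.comp (rowsOf C m η x r i) ω := by
  funext i
  refine Fin.lastCases ?_ (fun i => ?_) i
  · rw [rowsOf, Fin.snoc_last, hr]
  · rw [rowsOf, Fin.snoc_castSucc, comp_pull_left]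
    congr 1
    exact ((congrArg (CorrRing.of C X).symm (hη i)).symm : _)

/-- The identity obtained from the relation for an idempotent. -/
theorem fullContr_eq_zero {ε : ℤˣ} {ω : C.CH (X.prod X)} {m : ℕ}
    (h : C.PermRel ω (m + 1) (chi ε)) (η : Fin m → CorrRing C X) (r : CorrRing C X)
    (hη : ∀ i, CorrRing.of C X ω * η i = η i) (hr : CorrRing.of C X ω * r = r) :
    fullContr ((ε : ℤ) : ℚ) (corrTrace C X) m η r = 0 := by
  have h1 := fullLin_eq_zero ε m (Finsupp.single (η, r) 1) (fun Z g x y => by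
    rw [thetaLin, Finsupp.linearCombination_single, one_smul]
    rw [rowsOf_eq_comp m η hη x _ (by
      rw [comp_pull_left]
      exact congrArg _ ((congrArg (CorrRing.of C X).symm hr) : _))]
    exact theta_eq_zero h _ y)
  rwa [fullLin, Finsupp.linearCombination_single, one_smul] at h1

/-- A traceless endomorphism of a motive with a relation of size `m + 1` has `m`-th power zero. -/
theorem pow_eq_zero_of_idem {ε : ℤˣ} {ω : C.CH (X.prod X)} {m : ℕ}
    (h : C.PermRel ω (m + 1) (chi ε)) (hω : C.comp ω ω = ω) (f : CorrRing C X)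
    (hf : CorrRing.of C X ω * f = f)
    (ht : ∀ k : ℕ, corrTrace C X (f ^ (k + 1)) = 0) : f ^ m * CorrRing.of C X ω = 0 := by
  have h1 := fullContr_eq_zero h (fun _ => f) (CorrRing.of C X ω) (fun _ => hf)
    (by rw [CorrRing.of_mul, hω])
  have h2 := fullContr_nil ((ε : ℤ) : ℚ) (corrTrace C X) f ht m (fun _ => 0)
    (CorrRing.of C X ω)
  simp only [zero_add, pow_one, Finset.sum_const, Finset.card_univ, Fintype.card_fin, smul_eq_mul,
    mul_one] at h2
  rw [h1] at h2
  refine (smul_eq_zero.1 h2.symm).resolve_left ?_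
  refine mul_ne_zero (pow_ne_zero _ (neg_ne_zero.2 ?_)) (Nat.cast_ne_zero.2 m.factorial_ne_zero)
  rcases Int.units_eq_one_or ε with rfl | rfl <;> simp

/-- A traceless correspondence with a relation of size `m` has `m`-th power zero. -/
theorem pow_eq_zero_of_rel {ε : ℤˣ} {ω : C.CH (X.prod X)} {m : ℕ}
    (h : C.PermRel ω (m + 1) (chi ε))
    (ht : ∀ k : ℕ, corrTrace C X (CorrRing.of C X ω ^ (k + 1)) = 0) :
    CorrRing.of C X ω ^ (m + 1) = 0 := by
  set F := CorrRing.of C X ω with hF
  have h1 := fullLin_eq_zero ε m (Finsupp.single ((fun _ : Fin m => F), F) 1) (fun Z g x y => by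
    rw [thetaLin, Finsupp.linearCombination_single, one_smul]
    have h2 : rowsOf C m (fun _ : Fin m => F) x
        (C.pull (lift (fst Z X ≫ g) (snd Z X)) ((CorrRing.of C X).symm F)) =
        fun i => C.comp (rowsOf C m (fun _ : Fin m => (1 : CorrRing C X)) x
          (C.pull (lift (fst Z X ≫ g) (snd Z X)) (C.diagC X)) i) ω := by
      funext i
      refine Fin.lastCases ?_ (fun i => ?_) i
      · rw [rowsOf, rowsOf, Fin.snoc_last, Fin.snoc_last, comp_pull_left, C.diagC_comp]
        rfl
      · rw [rowsOf, rowsOf, Fin.snoc_castSucc, Fin.snoc_castSucc, comp_pull_left]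
        congr 1
        exact (C.diagC_comp ω).symm
    rw [h2]
    exact theta_eq_zero h _ y)
  rw [fullLin, Finsupp.linearCombination_single, one_smul] at h1
  have h2 := fullContr_nil ((ε : ℤ) : ℚ) (corrTrace C X) F ht m (fun _ => 0) F
  simp only [zero_add, pow_one, Finset.sum_const, Finset.card_univ, Fintype.card_fin, smul_eq_mul,
    mul_one] at h2
  rw [h1] at h2
  rw [pow_succ]
  refine (smul_eq_zero.1 h2.symm).resolve_left ?_
  refine mul_ne_zero (pow_ne_zero _ (neg_ne_zero.2 ?_)) (Nat.cast_ne_zero.2 m.factorial_ne_zero)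
  rcases Int.units_eq_one_or ε with rfl | rfl <;> simp

/-! ### ideals -/

lemma permRel_comp_left {a : Equiv.Perm (Fin n) → ℚ} {ω : C.CH (X.prod X)}
    (h : C.PermRel ω n a) (α : C.CH (X.prod X)) : C.PermRel (C.comp α ω) n a := by
  intro Y x y
  have h1 := (mRel_const.2 h).rowRel (Y := Y)
    (fun i => C.pull (lift (fst Y X ≫ x i) (snd Y X)) α) Y (𝟙 Y) y
  rw [← h1]
  refine Finset.sum_congr rfl fun σ _ => ?_
  congr 1
  refine Finset.prod_congr rfl fun i _ => ?_
  change _ = C.pull (lift (𝟙 Y) (y (σ i))) (C.comp (C.pull (lift (fst Y X ≫ x i) (snd Y X)) α) ω)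
  rw [comp_pull_left, ← C.pull_comp, comp_lift, Obj.lift_fst_assoc, Obj.lift_snd,
    Category.id_comp]

lemma permRel_transp {ε : ℤˣ} {ω : C.CH (X.prod X)} (h : C.PermRel ω n (chi ε)) :
    C.PermRel (C.transp ω) n (chi ε) := by
  intro Y x y
  rw [← h Y y x, ← Equiv.sum_comp (Equiv.inv (Equiv.Perm (Fin n)))]
  refine Finset.sum_congr rfl fun σ _ => ?_
  have h1 : chi ε (Equiv.inv (Equiv.Perm (Fin n)) σ) = chi ε σ := by
    simp [chi, Equiv.inv_apply]
  rw [h1]
  congr 1
  rw [← Equiv.prod_comp σ]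
  refine Finset.prod_congr rfl fun i _ => ?_
  rw [ChowTheory.transp, ← C.pull_comp]
  congr 2
  apply hom_ext_prod <;> simp

lemma permRel_comp_right {ε : ℤˣ} {ω : C.CH (X.prod X)}
    (h : C.PermRel ω n (chi ε)) (β : C.CH (X.prod X)) : C.PermRel (C.comp ω β) n (chi ε) := by
  have h1 := permRel_transp (permRel_comp_left (permRel_transp h) (C.transp β))
  rw [C.comp_transp] at h1
  have h2 : C.transp (C.transp (C.comp ω β)) = C.comp ω β := by
    rw [ChowTheory.transp, ChowTheory.transp, ← C.pull_comp]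
    have : swap X X ≫ swap X X = 𝟙 _ := by apply hom_ext_prod <;> simp
    rw [this, C.pull_id]
  rwa [h2] at h1

/-! ### parity -/

/-- A correspondence of degree zero which acts as zero on the cohomology has trace zero. -/
lemma motDim_eq_zero_of_act (W : WeilTheory.{u, v, w} C) {γ : C.CH (X.prod X)}
    (h : ∀ j, ∀ a ∈ W.gr X j, W.act γ a = 0) : C.motDim γ = 0 := by
  have h1 := motDim_of_scal W (γ := γ) (fun _ => 0) (fun j a ha => by rw [h j a ha, zero_smul])
  have h2 : (C.motDim γ : W.K) = ((0 : ℚ) : W.K) := by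
    rw [h1]; simp
  exact_mod_cast h2

/-- If the diagonal is the sum of correspondences with relations of the two kinds, a projector
which has only cohomology of one parity satisfies the relation. -/
theorem permRel_of_parity (W : WeilTheory.{u, v, w} C) {ε : ℤˣ} {e f p : C.CH (X.prod X)}
    (hef : e + f = C.diagC X) {m n : ℕ} (he : C.PermRel e m (chi ε))
    (hf : C.PermRel f (n + 1) (chi (-ε))) (hp : p ∈ C.gr (X.prod X) X.dim)
    (hfd : f ∈ C.gr (X.prod X) X.dim) (hpp : C.comp p p = p)
    (hkill : ∀ j, ∀ a ∈ W.gr X j, W.act (C.comp (C.comp p f) p) a = 0) :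
    C.PermRel p m (chi ε) := by
  set P := CorrRing.of C X p with hP
  set F := CorrRing.of C X f with hF
  set E := CorrRing.of C X e with hE
  set φ := C.comp (C.comp p f) p with hφ
  have hφ' : CorrRing.of C X φ = P * (F * P) := rfl
  have hφmem : φ ∈ C.gr (X.prod X) X.dim :=
    C.comp_mem (C.comp_mem hp hfd rfl) hp rfl
  have h1 : C.PermRel φ (n + 1) (chi (-ε)) :=
    permRel_comp_right (permRel_comp_left hf p) p
  have hEF : E + F = 1 := by
    rw [hE, hF, ← map_add, hef, CorrRing.of_one]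
  have hPP : P * P = P := by rw [hP, CorrRing.of_mul, hpp]
  have ht : ∀ k : ℕ, corrTrace C X (CorrRing.of C X φ ^ (k + 1)) = 0 := by
    intro k
    have h2 : ∃ G : C.CH (X.prod X), CorrRing.of C X φ ^ (k + 1) =
        CorrRing.of C X (C.comp G φ) :=
      ⟨(CorrRing.of C X).symm (CorrRing.of C X φ ^ k), by rw [pow_succ']; rfl⟩
    obtain ⟨G, hG⟩ := h2
    rw [hG, corrTrace_of]
    refine motDim_eq_zero_of_act W fun j a ha => ?_
    rw [W.act_comp _ hφmem]
    refine gr_induction (W.isInternal X) (p := fun b => W.act φ b = 0) ?_ ?_ (W.act G a)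
    · intro l b hb; exact hkill l b hb
    · intro b b' hb hb'; rw [map_add, hb, hb', add_zero]
  have hnil := pow_eq_zero_of_rel h1 ht
  rw [hφ'] at hnil
  have h3 : P * (E * P) = P * (1 - P * (F * P)) := by
    have : E = 1 - F := by rw [← hEF]; abel
    rw [this, sub_mul, one_mul, mul_sub, hPP, mul_sub, mul_one, ← mul_assoc P P, hPP]
  have h4 : P = (P * (E * P)) * ∑ i ∈ Finset.range (n + 1), (P * (F * P)) ^ i := by
    rw [h3, mul_assoc, mul_neg_geom_sum, hnil, sub_zero, mul_one]
  have h5 : p = C.comp ((CorrRing.of C X).symm (∑ i ∈ Finset.range (n + 1), (P * (F * P)) ^ i))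
      (C.comp (C.comp p e) p) := by
    apply (CorrRing.of C X).injective
    rw [CorrRing.of_comp, LinearEquiv.apply_symm_apply]
    exact h4
  rw [h5]
  exact permRel_comp_left (permRel_comp_right (permRel_comp_left he p) p) _

end Pool.Agent.H836
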