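import Pool.Agent.H836.Newton
import Pool.Agent.H836.Nil

/-!
# The Cayley–Hamilton theorem for evenly and oddly finite-dimensional motives
-/

open CategoryTheory CategoryTheory.Limits AlgebraicGeometry
open Pool.Agent.H914 Pool.Agent.H914.VarClass Pool.Agent.H914.VarClass.Obj
open Pool.Agent.R903 Equiv Equiv.Perm Pool.Agent.R903.PermCore
open Finset.HasAntidiagonal (antidiagonal)

universe u v w

namespace Pool.Agent.H836

section Alg

variable {B : Type*} [CommRing B] [Algebra ℚ B]

/-- The trace `τ k - ε y^k`. -/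
noncomputable def twTr (ε : ℚ) (τ : ℕ → ℚ) (y : B) (k : ℕ) : B :=
  algebraMap ℚ B (τ k) - ε • y ^ k

/-- The normalized contraction of equal rows. -/
noncomputable def qkap (ε : ℚ) (τ : ℕ → ℚ) (y : B) (m : ℕ) : B :=
  (-ε) ^ m • skap ε (twTr ε τ y) m

lemma qkap_zero (ε : ℚ) (τ : ℕ → ℚ) (y : B) : qkap ε τ y 0 = 1 := by
  simp [qkap, skap, kap]

lemma qkap_succ {ε : ℚ} (hε : ε * ε = 1) (τ : ℕ → ℚ) (y : B) (m : ℕ) :
    ((m : ℚ) + 1) • qkap ε τ y (m + 1) =
      ∑ x ∈ antidiagonal m, (y ^ (x.1 + 1) - (ε * τ (x.1 + 1)) • 1) * qkap ε τ y x.2 := by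
  rw [qkap, smul_comm, skap_succ, zkap_eq, Finset.smul_sum]
  refine Finset.sum_congr rfl fun x hx => ?_
  have hx' : x.1 + x.2 = m := Finset.HasAntidiagonal.mem_antidiagonal.1 hx
  have h2 : (-ε) * (-ε) = 1 := by rw [neg_mul_neg, hε]
  have h3 : (-ε) ^ (m + 1) * (-ε) ^ x.1 = -ε * (-ε) ^ x.2 := by
    rw [← hx']
    have : ∀ δ : ℚ, δ ^ (x.1 + x.2 + 1) * δ ^ x.1 = δ * δ ^ x.2 * (δ * δ) ^ x.1 := by
      intro δ; ring
    rw [this, h2, one_pow, mul_one]
  rw [smul_mul_assoc, smul_smul, h3, qkap, mul_smul, ← mul_smul_comm, ← smul_mul_assoc]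
  congr 1
  rw [twTr, smul_sub, smul_smul, neg_mul, hε, neg_smul, neg_smul, one_smul, sub_neg_eq_add,
    add_comm 1 x.1, mul_smul, Algebra.algebraMap_eq_smul_one]
  abel

lemma qkap_eq {ε : ℚ} (hε : ε * ε = 1) (τ : ℕ → ℚ) (y : B) (m : ℕ) :
    qkap ε τ y (m + 1) = qkap ε τ y m * y +
      algebraMap ℚ B (newt (fun k => ε * τ k) (m + 1)) := by
  set q := qkap ε τ y with hq
  set d : ℕ → B := fun m => match m with
    | 0 => 1
    | m + 1 => q (m + 1) - q m * y with hd
  have hd0 : d 0 = 1 := rfl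
  have hds : ∀ m, d (m + 1) = q (m + 1) - q m * y := fun m => rfl
  -- the recursion for `d`
  have h1 : ∀ m : ℕ, ((m : ℚ) + 1) • d (m + 1) =
      -∑ x ∈ antidiagonal m, (ε * τ (x.1 + 1)) • d x.2 := by
    intro m
    rw [hds, smul_sub, hq, qkap_succ hε, ← hq]
    have h2 : ∑ x ∈ antidiagonal m, (y ^ (x.1 + 1) - (ε * τ (x.1 + 1)) • 1) * q x.2 =
        ∑ x ∈ antidiagonal m, y ^ (x.1 + 1) * q x.2 -
          ∑ x ∈ antidiagonal m, (ε * τ (x.1 + 1)) • q x.2 := by
      rw [← Finset.sum_sub_distrib]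
      refine Finset.sum_congr rfl fun x _ => ?_
      rw [sub_mul, smul_one_mul]
    rw [h2]
    cases m with
    | zero =>
      have h0 : q 0 = d 0 := by rw [hd0, hq, qkap_zero]
      simp [h0, hd0]
    | succ m =>
      have h3 : ((((m + 1 : ℕ) : ℚ)) + 1) • (q (m + 1) * y) =
          (∑ x ∈ antidiagonal m, (y ^ (x.1 + 1) - (ε * τ (x.1 + 1)) • 1) * q x.2) * y +
            q (m + 1) * y := by
        rw [add_smul, one_smul, ← smul_mul_assoc]
        congr 2
        rw [← qkap_succ hε, ← hq]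
        push_cast
        rfl
      rw [h3, Finset.Nat.sum_antidiagonal_succ (n := m), Finset.Nat.sum_antidiagonal_succ' (n := m)
        (f := fun x => (ε * τ (x.1 + 1)) • q x.2), Finset.Nat.sum_antidiagonal_succ' (n := m)
        (f := fun x => (ε * τ (x.1 + 1)) • d x.2), Finset.sum_mul]
      have h4 : ∑ x ∈ antidiagonal m, (y ^ (x.1 + 1) - (ε * τ (x.1 + 1)) • 1) * q x.2 * y =
          ∑ x ∈ antidiagonal m, y ^ (x.1 + 1 + 1) * q x.2 -
            ∑ x ∈ antidiagonal m, (ε * τ (x.1 + 1)) • (q x.2 * y) := by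
        rw [← Finset.sum_sub_distrib]
        refine Finset.sum_congr rfl fun x _ => ?_
        rw [sub_mul, smul_one_mul, sub_mul, smul_mul_assoc, pow_succ y (x.1 + 1)]
        ring
      have h5 : ∑ x ∈ antidiagonal m, (ε * τ (x.1 + 1)) • d (x.2 + 1) =
          ∑ x ∈ antidiagonal m, (ε * τ (x.1 + 1)) • q (x.2 + 1) -
            ∑ x ∈ antidiagonal m, (ε * τ (x.1 + 1)) • (q x.2 * y) := by
        rw [← Finset.sum_sub_distrib]
        exact Finset.sum_congr rfl fun x _ => by rw [hds, smul_sub]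
      have h6 : q 0 = d 0 := by rw [hd0, hq, qkap_zero]
      rw [h4, h5, h6]
      simp only [zero_add, pow_one]
      ring
  -- uniqueness
  have h7 : ∀ m, d m = algebraMap ℚ B (newt (fun k => ε * τ k) m) := by
    intro m
    induction m using Nat.strong_induction_on with
    | _ m ih =>
      cases m with
      | zero => rw [hd0, newt_zero, map_one]
      | succ m =>
        have h8 : ((m : ℚ) + 1) ≠ 0 := by exact_mod_cast m.succ_ne_zero
        have h9 : ((m : ℚ) + 1) • d (m + 1) = ((m : ℚ) + 1) •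
            algebraMap ℚ B (newt (fun k => ε * τ k) (m + 1)) := by
          rw [h1, Algebra.smul_def, ← map_mul, newt_succ, map_neg, map_sum]
          congr 1
          refine Finset.sum_congr rfl fun x hx => ?_
          rw [ih x.2 (by have := Finset.HasAntidiagonal.mem_antidiagonal.1 hx; omega), map_mul,
            Algebra.smul_def]
        exact smul_right_injective B h8 h9
  rw [← h7 (m + 1), hds]
  ring

/-- The contraction of equal rows is the value of Newton's polynomial. -/
lemma aeval_npoly {ε : ℚ} (hε : ε * ε = 1) (τ : ℕ → ℚ) (y : B) (m : ℕ) :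
    Polynomial.aeval y (npoly (newt (fun k => ε * τ k)) m) = qkap ε τ y m := by
  induction m with
  | zero => simp [npoly, newt_zero, qkap_zero]
  | succ m ih =>
    rw [npoly_succ, map_add, map_mul, ih, Polynomial.aeval_X, Polynomial.aeval_C, qkap_eq hε]

end Alg

section Full

variable {A : Type*} [Ring A] [Algebra ℚ A]

open Polynomial in
lemma fullContr_pow (ε : ℚ) (τ : A →ₗ[ℚ] ℚ) (y : A) (m : ℕ) :
    ∀ (a : Fin m → ℕ) (r : A), fullContr ε τ m (fun i => y ^ a i) r =
      aeval y (kap ε (twTr ε (fun k => τ (y ^ k)) (X : ℚ[X])) m a) * r := by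
  induction m with
  | zero => intro a r; simp [fullContr, kap]
  | succ m ih =>
    intro a r
    rw [fullContr_succ, kap_succ]
    have h1 : ∀ j : Fin m, Function.update (fun i : Fin m => y ^ a i.succ) j
        (y ^ a 0 * y ^ a j.succ) =
        fun i => y ^ (Function.update (fun i : Fin m => a i.succ) j (a 0 + a j.succ) i) := by
      intro j
      funext i
      by_cases hi : i = j
      · subst hi
        rw [Function.update_self, Function.update_self, ← pow_add]
      · rw [Function.update_of_ne hi, Function.update_of_ne hi]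
    simp only [h1, ih]
    rw [map_sub, map_mul, twTr, map_sub, AlgHom.commutes,
      map_smul, map_smul, map_sum, map_pow (aeval y), aeval_X, ← Finset.sum_mul, Algebra.algebraMap_eq_smul_one]
    simp only [sub_mul, smul_mul_assoc, one_mul, smul_add, mul_assoc]
    have h2 : y ^ a 0 * (aeval y (kap ε (twTr ε (fun k => τ (y ^ k)) (X : ℚ[X])) m
        fun i => a i.succ) * r) = aeval y (kap ε (twTr ε (fun k => τ (y ^ k)) (X : ℚ[X])) m
        fun i => a i.succ) * (y ^ a 0 * r) := by
      have h3 : y ^ a 0 = aeval y ((X : ℚ[X]) ^ a 0) := by rw [map_pow, aeval_X]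
      rw [← mul_assoc, ← mul_assoc, h3, ← map_mul, ← map_mul, mul_comm]
    rw [h2]
    abel

open Polynomial in
/-- **The contraction of equal rows** gives Newton's polynomial. -/
theorem fullContr_eq_newton {ε : ℚ} (hε : ε * ε = 1) (τ : A →ₗ[ℚ] ℚ) (y : A) (m : ℕ) (r : A) :
    (-ε) ^ m • fullContr ε τ m (fun _ => y) r = (m.factorial : ℚ) •
      (aeval y (npoly (newt fun k => ε * τ (y ^ k)) m) * r) := by
  have h1 := fullContr_pow ε τ y m (fun _ => 1) r
  simp only [pow_one] at h1
  have h2 := aeval_npoly hε (fun k => τ (y ^ k)) (X : ℚ[X]) m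
  rw [aeval_X_left_apply] at h2
  have h3 : (m.factorial : ℚ) ≠ 0 := by exact_mod_cast m.factorial_ne_zero
  rw [h1, h2, qkap, skap, map_smul, map_smul, smul_mul_assoc, smul_mul_assoc,
    smul_comm (m.factorial : ℚ), smul_smul (m.factorial : ℚ), mul_inv_cancel₀ h3, one_smul]

end Full

variable {k : Type u} [Field k] {𝒱 : VarClass k} {C : ChowTheory.{u, v} 𝒱} {X : 𝒱.Obj}

/-- **The Cayley–Hamilton theorem for an evenly or oddly finite-dimensional motive.** -/
theorem cayley_of_idem {ε : ℤˣ} {ω : C.CH (X.prod X)} {m : ℕ} (h : C.PermRel ω (m + 1) (chi ε))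
    (hω : C.comp ω ω = ω) (y : CorrRing C X) (hy : CorrRing.of C X ω * y = y) :
    Polynomial.aeval y (npoly (newt fun k => ((ε : ℤ) : ℚ) * corrTrace C X (y ^ k)) m) *
      CorrRing.of C X ω = 0 := by
  have hε : (((ε : ℤ) : ℚ)) * ((ε : ℤ) : ℚ) = 1 := by
    rcases Int.units_eq_one_or ε with rfl | rfl <;> simp
  have h1 := fullContr_eq_zero h (fun _ => y) (CorrRing.of C X ω) (fun _ => hy)
    (by rw [CorrRing.of_mul, hω])
  have h2 := fullContr_eq_newton hε (corrTrace C X) y m (CorrRing.of C X ω)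
  rw [h1, smul_zero] at h2
  exact (smul_eq_zero.1 h2.symm).resolve_left (by exact_mod_cast m.factorial_ne_zero)

end Pool.Agent.H836
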