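import Pool.Agent.H836.Det

/-!
# Contraction of all the rows of a relation

The rows of a relation between permutations are given by correspondences `η_i` at generic points, and
by one class `r`; the contraction of the rows `η_i` one after the other gives an identity in the ring
of correspondences.
-/

open CategoryTheory CategoryTheory.Limits AlgebraicGeometry
open Pool.Agent.H914 Pool.Agent.H914.VarClass Pool.Agent.H914.VarClass.Obj
open Pool.Agent.R903 Equiv Equiv.Perm Pool.Agent.R903.PermCore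

universe u v w

namespace Pool.Agent.H836

/-! ### the algebraic side -/

section Alg

variable {A : Type*} [Ring A] [Algebra ℚ A]

/-- The contraction of the rows `η_i`, where `τ` is the trace and `ε` the sign. -/
noncomputable def fullContr (ε : ℚ) (τ : A →ₗ[ℚ] ℚ) : ∀ m : ℕ, (Fin m → A) → A → A
  | 0, _, r => r
  | m + 1, η, r => τ (η 0) • fullContr ε τ m (fun i => η i.succ) r -
      ε • (∑ j, fullContr ε τ m (Function.update (fun i => η i.succ) j (η 0 * η j.succ)) r +
        fullContr ε τ m (fun i => η i.succ) (η 0 * r))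

lemma fullContr_succ (ε : ℚ) (τ : A →ₗ[ℚ] ℚ) (m : ℕ) (η : Fin (m + 1) → A) (r : A) :
    fullContr ε τ (m + 1) η r = τ (η 0) • fullContr ε τ m (fun i => η i.succ) r -
      ε • (∑ j, fullContr ε τ m (Function.update (fun i => η i.succ) j (η 0 * η j.succ)) r +
        fullContr ε τ m (fun i => η i.succ) (η 0 * r)) := rfl

/-- The traceless case. -/
lemma fullContr_nil (ε : ℚ) (τ : A →ₗ[ℚ] ℚ) (f : A) (hf : ∀ k : ℕ, τ (f ^ (k + 1)) = 0) (m : ℕ)
    (k : Fin m → ℕ) (r : A) : fullContr ε τ m (fun i => f ^ (k i + 1)) r =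
      ((-ε) ^ m * m.factorial) • (f ^ (∑ i, (k i + 1)) * r) := by
  induction m generalizing r with
  | zero => simp [fullContr]
  | succ m ih =>
    rw [fullContr_succ, hf, zero_smul, zero_sub]
    have h1 : ∀ j : Fin m, Function.update (fun i : Fin m => f ^ (k i.succ + 1)) j
        (f ^ (k 0 + 1) * f ^ (k j.succ + 1)) =
        fun i => f ^ (Function.update (fun i : Fin m => k i.succ) j (k 0 + 1 + k j.succ) i + 1) := by
      intro j
      funext i
      by_cases hi : i = j
      · subst hi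
        rw [Function.update_self, Function.update_self, ← pow_add]
        rfl
      · rw [Function.update_of_ne hi, Function.update_of_ne hi]
    have h2 : ∀ j : Fin m, ∑ i, (Function.update (fun i : Fin m => k i.succ) j
        (k 0 + 1 + k j.succ) i + 1) = ∑ i, (k i + 1) := by
      intro j
      rw [Fin.sum_univ_succ, ← Finset.add_sum_erase Finset.univ _ (Finset.mem_univ j),
        ← Finset.add_sum_erase Finset.univ (fun i : Fin m => k i.succ + 1) (Finset.mem_univ j),
        Function.update_self]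
      have h3 : ∑ i ∈ Finset.univ.erase j, (Function.update (fun i : Fin m => k i.succ) j
          (k 0 + 1 + k j.succ) i + 1) = ∑ i ∈ Finset.univ.erase j, (k i.succ + 1) :=
        Finset.sum_congr rfl fun i hi => by
          rw [Function.update_of_ne (Finset.ne_of_mem_erase hi)]
      rw [h3]
      ring
    have h4 : f ^ (∑ i : Fin m, (k i.succ + 1)) * (f ^ (k 0 + 1) * r) =
        f ^ (∑ i, (k i + 1)) * r := by
      rw [Fin.sum_univ_succ, ← mul_assoc, ← pow_add, add_comm (k 0 + 1)]
    simp only [h1, ih, h2, h4]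
    rw [Finset.sum_const, Finset.card_univ, Fintype.card_fin, ← Nat.cast_smul_eq_nsmul ℚ, smul_smul,
      ← add_smul, smul_smul, ← neg_smul, Nat.factorial_succ]
    congr 1
    push_cast
    ring

end Alg

/-! ### the geometric side -/

variable {k : Type u} [Field k] {𝒱 : VarClass k} {C : ChowTheory.{u, v} 𝒱}
variable {X Y Z A B : 𝒱.Obj} {n : ℕ}

/-- The alternating sum (for `ε = 1`) or the sum (for `ε = -1`) of the products of the rows. -/
noncomputable def theta (C : ChowTheory.{u, v} 𝒱) (ε : ℤˣ) {Z X : 𝒱.Obj} {n : ℕ}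
    (ρ : Fin n → C.CH (Z.prod X)) (y : Fin n → (Z ⟶ X)) : C.CH Z :=
  ∑ σ : Equiv.Perm (Fin n), (chi ε σ : ℚ) • ∏ i, C.pull (lift (𝟙 Z) (y (σ i))) (ρ i)

lemma chi_decompose (ε : ℤˣ) (p : Fin (n + 1)) (τ : Equiv.Perm (Fin n)) :
    chi ε (decomposeFin.symm (p, τ)) = (if p = 0 then 1 else -((ε : ℤ) : ℚ)) * chi ε τ := by
  rcases Int.units_eq_one_or ε with rfl | rfl
  · rw [chi, chi, if_pos rfl, if_pos rfl, decomposeFin.symm_sign]
    split_ifs <;> simp
  · simp [chi]

/-- Contraction of the first row. -/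
lemma push_theta (ε : ℤˣ) (η : C.CH (X.prod X)) (ρ : Fin n → C.CH (Z.prod X))
    (y : Fin n → (Z ⟶ X)) :
    C.push (fst Z X) (theta C ε (Z := Z.prod X) (Fin.cons
      (C.pull (lift (fst (Z.prod X) X ≫ snd Z X) (snd (Z.prod X) X)) η)
      fun i => C.pull (lift (fst (Z.prod X) X ≫ fst Z X) (snd (Z.prod X) X)) (ρ i))
      (Fin.cons (snd Z X) fun i => fst Z X ≫ y i)) =
    C.motDim η • theta C ε ρ y - ((ε : ℤ) : ℚ) •
      ∑ j, theta C ε (Function.update ρ j (C.comp (ρ j) η)) y := by
  rw [theta, map_sum, ← Equiv.sum_comp decomposeFin.symm, Fintype.sum_prod_type, Fin.sum_univ_succ,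
    sub_eq_add_neg]
  have hpull : ∀ i j, C.pull (lift (fst Z X) (fst Z X ≫ y j)) (ρ i) =
      C.pull (fst Z X) (C.pull (lift (𝟙 Z) (y j)) (ρ i)) := by
    intro i j
    rw [← C.pull_comp, comp_lift, Category.comp_id]
  have hcons : ∀ (τ : Equiv.Perm (Fin n)) (p : Fin (n + 1)), C.push (fst Z X)
      (chi ε (decomposeFin.symm (p, τ)) • ∏ i, C.pull (lift (𝟙 (Z.prod X))
        ((Fin.cons (snd Z X) fun i => fst Z X ≫ y i : Fin (n + 1) → (Z.prod X ⟶ X))
          (decomposeFin.symm (p, τ) i))) ((Fin.cons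
          (C.pull (lift (fst (Z.prod X) X ≫ snd Z X) (snd (Z.prod X) X)) η)
          fun i => C.pull (lift (fst (Z.prod X) X ≫ fst Z X) (snd (Z.prod X) X)) (ρ i) :
            Fin (n + 1) → C.CH ((Z.prod X).prod X)) i)) =
      ((if p = 0 then 1 else -((ε : ℤ) : ℚ)) * chi ε τ) • C.push (fst Z X)
        (C.pull (lift (snd Z X) ((Fin.cons (snd Z X) fun i => fst Z X ≫ y i :
          Fin (n + 1) → (Z.prod X ⟶ X)) p)) η * ∏ i, C.pull (lift (fst Z X)
            ((Fin.cons (snd Z X) fun i => fst Z X ≫ y i : Fin (n + 1) → (Z.prod X ⟶ X))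
              (Equiv.swap 0 p (τ i).succ))) (ρ i)) := by
    intro τ p
    rw [map_smul, chi_decompose, Fin.prod_univ_succ]
    congr 2
    simp only [Fin.cons_zero, Fin.cons_succ, decomposeFin_symm_apply_zero,
      decomposeFin_symm_apply_succ, ← C.pull_comp, comp_lift, Obj.lift_fst_assoc, Obj.lift_snd,
      Category.id_comp]
  simp only [hcons]
  congr 1
  · rw [theta, Finset.smul_sum]
    refine Finset.sum_congr rfl fun τ _ => ?_
    rw [if_true, one_mul, smul_comm]
    congr 1
    simp only [swap_self, Equiv.refl_apply, Fin.cons_succ, Fin.cons_zero, hpull]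
    rw [← map_prod, C.push_mul]
    have h3 : (lift (snd Z X) (snd Z X) : Z.prod X ⟶ X.prod X) = snd Z X ≫ Obj.diag X := by
      apply hom_ext_prod <;> simp
    rw [h3, C.pull_comp, ChowTheory.push_fst_pull_snd, Algebra.smul_def]
    rfl
  · rw [Finset.sum_comm, ← smul_neg, ← Finset.sum_neg_distrib, Finset.smul_sum]
    simp only [theta]
    have h5 : ∀ j, ((ε : ℤ) : ℚ) • -∑ σ : Equiv.Perm (Fin n), (chi ε σ : ℚ) •
        ∏ i, C.pull (lift (𝟙 Z) (y (σ i))) (Function.update ρ j (C.comp (ρ j) η) i) =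
        ∑ σ : Equiv.Perm (Fin n), (-((ε : ℤ) : ℚ) * chi ε σ) •
        ∏ i, C.pull (lift (𝟙 Z) (y (σ i))) (Function.update ρ j (C.comp (ρ j) η) i) := by
      intro j
      rw [← Finset.sum_neg_distrib, Finset.smul_sum]
      refine Finset.sum_congr rfl fun σ _ => ?_
      rw [← neg_smul, smul_smul]
      congr 1
      ring
    simp only [h5]
    rw [Finset.sum_comm (γ := Fin n)]
    refine Finset.sum_congr rfl fun τ _ => ?_
    rw [← Equiv.sum_comp τ]
    refine Finset.sum_congr rfl fun j _ => ?_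
    rw [if_neg (Fin.succ_ne_zero _)]
    congr 1
    rw [Fin.cons_succ, ← Finset.mul_prod_erase Finset.univ _ (Finset.mem_univ j),
      ← Finset.mul_prod_erase Finset.univ _ (Finset.mem_univ j)]
    have h4 : ∀ i ∈ Finset.univ.erase j, C.pull (lift (fst Z X)
        ((Fin.cons (snd Z X) fun i => fst Z X ≫ y i : Fin (n + 1) → (Z.prod X ⟶ X))
          (Equiv.swap 0 (τ j).succ (τ i).succ))) (ρ i) =
        C.pull (fst Z X) (C.pull (lift (𝟙 Z) (y (τ i)))
          (Function.update ρ j (C.comp (ρ j) η) i)) := by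
      intro i hi
      have hij := (Finset.mem_erase.1 hi).1
      have h5 : τ i ≠ τ j := fun h => hij (τ.injective h)
      rw [swap_apply_of_ne_of_ne (Fin.succ_ne_zero _) (fun h => h5 (Fin.succ_injective _ h)),
        Fin.cons_succ, hpull, Function.update_of_ne hij]
    rw [Finset.prod_congr rfl h4, swap_apply_right, Fin.cons_zero, ← map_prod, ← mul_assoc,
      C.push_mul, mul_comm (C.pull (lift (snd Z X) (fst Z X ≫ y (τ j))) η), Function.update_self]
    congr 1
    have h6 := ChowTheory.pull_comp_corr (C := C) (ρ j) η (𝟙 Z) (y (τ j))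
    rw [Category.comp_id] at h6
    exact h6

/-- The rows `η_i` at the points `x_i`, and the row `r`. -/
noncomputable def rowsOf (C : ChowTheory.{u, v} 𝒱) {Z X : 𝒱.Obj} (m : ℕ)
    (η : Fin m → CorrRing C X) (x : Fin m → (Z ⟶ X)) (r : C.CH (Z.prod X)) :
    Fin (m + 1) → C.CH (Z.prod X) :=
  Fin.snoc (α := fun _ => C.CH (Z.prod X))
    (fun i => C.pull (lift (fst Z X ≫ x i) (snd Z X)) ((CorrRing.of C X).symm (η i))) r

lemma rowsOf_succ (m : ℕ) (η : Fin (m + 1) → CorrRing C X) (x : Fin m → (Z ⟶ X))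
    (r : C.CH (Z.prod X)) :
    rowsOf C (m + 1) η (Fin.cons (snd Z X) fun i => fst Z X ≫ x i)
      (C.pull (lift (fst (Z.prod X) X ≫ fst Z X) (snd (Z.prod X) X)) r) =
    Fin.cons (C.pull (lift (fst (Z.prod X) X ≫ snd Z X) (snd (Z.prod X) X))
      ((CorrRing.of C X).symm (η 0))) fun i =>
        C.pull (lift (fst (Z.prod X) X ≫ fst Z X) (snd (Z.prod X) X))
          (rowsOf C m (fun i => η i.succ) x r i) := by
  funext i
  refine Fin.cases ?_ (fun i => ?_) i
  · have h0 : (0 : Fin (m + 2)) = Fin.castSucc 0 := rfl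
    rw [rowsOf, Fin.cons_zero, h0, Fin.snoc_castSucc, Fin.cons_zero]
  · rw [Fin.cons_succ]
    refine Fin.lastCases ?_ (fun i => ?_) i
    · rw [rowsOf, rowsOf, Fin.succ_last, Fin.snoc_last, Fin.snoc_last]
    · rw [rowsOf, rowsOf, Fin.succ_castSucc, Fin.snoc_castSucc, Fin.snoc_castSucc, Fin.cons_succ,
        ← C.pull_comp, comp_lift, Obj.lift_fst_assoc, Obj.lift_snd, Category.assoc]

/-- The trace on the ring of correspondences. -/
noncomputable def corrTrace (C : ChowTheory.{u, v} 𝒱) (X : 𝒱.Obj) : CorrRing C X →ₗ[ℚ] ℚ :=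
  C.deg X ∘ₗ (C.pull (Obj.diag X)).toLinearMap ∘ₗ (CorrRing.of C X).symm.toLinearMap

lemma corrTrace_of (γ : C.CH (X.prod X)) : corrTrace C X (CorrRing.of C X γ) = C.motDim γ := rfl

lemma push_theta_rowsOf (ε : ℤˣ) (m : ℕ) (η : Fin (m + 1) → CorrRing C X) (g : Z ⟶ X)
    (x : Fin m → (Z ⟶ X)) (y : Fin (m + 1) → (Z ⟶ X)) (r : CorrRing C X) :
    C.push (fst Z X) (theta C ε (Z := Z.prod X)
      (rowsOf C (m + 1) η (Fin.cons (snd Z X) fun i => fst Z X ≫ x i)
        (C.pull (lift (fst (Z.prod X) X ≫ fst Z X ≫ g) (snd (Z.prod X) X))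
          ((CorrRing.of C X).symm r)))
      (Fin.cons (snd Z X) fun i => fst Z X ≫ y i)) =
    corrTrace C X (η 0) • theta C ε (rowsOf C m (fun i => η i.succ) x
      (C.pull (lift (fst Z X ≫ g) (snd Z X)) ((CorrRing.of C X).symm r))) y -
    ((ε : ℤ) : ℚ) • (∑ j, theta C ε (rowsOf C m
      (Function.update (fun i => η i.succ) j (η 0 * η j.succ)) x
      (C.pull (lift (fst Z X ≫ g) (snd Z X)) ((CorrRing.of C X).symm r))) y +
      theta C ε (rowsOf C m (fun i => η i.succ) x
        (C.pull (lift (fst Z X ≫ g) (snd Z X)) ((CorrRing.of C X).symm (η 0 * r)))) y) := by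
  have h1 : C.pull (lift (fst (Z.prod X) X ≫ fst Z X ≫ g) (snd (Z.prod X) X))
      ((CorrRing.of C X).symm r) =
      C.pull (lift (fst (Z.prod X) X ≫ fst Z X) (snd (Z.prod X) X))
        (C.pull (lift (fst Z X ≫ g) (snd Z X)) ((CorrRing.of C X).symm r)) := by
    rw [← C.pull_comp, comp_lift, Obj.lift_fst_assoc, Obj.lift_snd, Category.assoc]
  rw [h1, rowsOf_succ, push_theta, Fin.sum_univ_castSucc]
  have h2 : ∀ j : Fin m, Function.update (rowsOf C m (fun i => η i.succ) x
      (C.pull (lift (fst Z X ≫ g) (snd Z X)) ((CorrRing.of C X).symm r))) j.castSucc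
      (C.comp (rowsOf C m (fun i => η i.succ) x
        (C.pull (lift (fst Z X ≫ g) (snd Z X)) ((CorrRing.of C X).symm r)) j.castSucc)
        ((CorrRing.of C X).symm (η 0))) =
      rowsOf C m (Function.update (fun i => η i.succ) j (η 0 * η j.succ)) x
      (C.pull (lift (fst Z X ≫ g) (snd Z X)) ((CorrRing.of C X).symm r)) := by
    intro j
    funext i
    refine Fin.lastCases ?_ (fun i => ?_) i
    · rw [Function.update_of_ne (Fin.castSucc_lt_last j).ne', rowsOf, rowsOf, Fin.snoc_last,
        Fin.snoc_last]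
    · by_cases hij : i = j
      · subst hij
        rw [Function.update_self, rowsOf, rowsOf, Fin.snoc_castSucc, Fin.snoc_castSucc,
          Function.update_self, comp_pull_left]
        rfl
      · rw [Function.update_of_ne (fun h => hij (Fin.castSucc_injective _ h)), rowsOf, rowsOf,
          Fin.snoc_castSucc, Fin.snoc_castSucc, Function.update_of_ne hij]
  have h3 : Function.update (rowsOf C m (fun i => η i.succ) x
      (C.pull (lift (fst Z X ≫ g) (snd Z X)) ((CorrRing.of C X).symm r))) (Fin.last m)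
      (C.comp (rowsOf C m (fun i => η i.succ) x
        (C.pull (lift (fst Z X ≫ g) (snd Z X)) ((CorrRing.of C X).symm r)) (Fin.last m))
        ((CorrRing.of C X).symm (η 0))) =
      rowsOf C m (fun i => η i.succ) x
      (C.pull (lift (fst Z X ≫ g) (snd Z X)) ((CorrRing.of C X).symm (η 0 * r))) := by
    funext i
    refine Fin.lastCases ?_ (fun i => ?_) i
    · rw [Function.update_self, rowsOf, rowsOf, Fin.snoc_last, Fin.snoc_last, comp_pull_left]
      rfl
    · rw [Function.update_of_ne (Fin.castSucc_lt_last i).ne, rowsOf, rowsOf, Fin.snoc_castSucc,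
        Fin.snoc_castSucc]
  simp only [h2, h3]
  rfl

/-- The linear combinations of rows. -/
abbrev Comb (C : ChowTheory.{u, v} 𝒱) (X : 𝒱.Obj) (m : ℕ) : Type _ :=
  ((Fin m → CorrRing C X) × CorrRing C X) →₀ ℚ

/-- The value of a linear combination of rows. -/
noncomputable def thetaLin (C : ChowTheory.{u, v} 𝒱) (ε : ℤˣ) (m : ℕ) {Z X : 𝒱.Obj} (g : Z ⟶ X)
    (x : Fin m → (Z ⟶ X)) (y : Fin (m + 1) → (Z ⟶ X)) : Comb C X m →ₗ[ℚ] C.CH Z :=
  Finsupp.linearCombination ℚ fun p => theta C ε (rowsOf C m p.1 x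
    (C.pull (lift (fst Z X ≫ g) (snd Z X)) ((CorrRing.of C X).symm p.2))) y

/-- The contraction of the first row of a linear combination. -/
noncomputable def kappa (C : ChowTheory.{u, v} 𝒱) (ε : ℤˣ) (X : 𝒱.Obj) (m : ℕ) :
    Comb C X (m + 1) →ₗ[ℚ] Comb C X m :=
  Finsupp.linearCombination ℚ fun p =>
    corrTrace C X (p.1 0) • Finsupp.single ((fun i => p.1 i.succ), p.2) 1 -
      ((ε : ℤ) : ℚ) • (∑ j, Finsupp.single
        (Function.update (fun i => p.1 i.succ) j (p.1 0 * p.1 j.succ), p.2) 1 +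
        Finsupp.single ((fun i => p.1 i.succ), p.1 0 * p.2) 1)

/-- The full contraction of a linear combination. -/
noncomputable def fullLin (C : ChowTheory.{u, v} 𝒱) (ε : ℤˣ) (X : 𝒱.Obj) (m : ℕ) :
    Comb C X m →ₗ[ℚ] CorrRing C X :=
  Finsupp.linearCombination ℚ fun p => fullContr ((ε : ℤ) : ℚ) (corrTrace C X) m p.1 p.2

lemma fullLin_kappa (ε : ℤˣ) (m : ℕ) (ξ : Comb C X (m + 1)) :
    fullLin C ε X m (kappa C ε X m ξ) = fullLin C ε X (m + 1) ξ := by
  induction ξ using Finsupp.induction_linear with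
  | zero => simp
  | add a b ha hb => rw [map_add, map_add, ha, hb, map_add]
  | single p c =>
    rw [kappa, Finsupp.linearCombination_single, fullLin, fullLin,
      Finsupp.linearCombination_single, fullContr_succ]
    simp only [map_smul, map_sub, map_add, map_sum, Finsupp.linearCombination_single, one_smul]

lemma push_thetaLin (ε : ℤˣ) (m : ℕ) (g : Z ⟶ X) (x : Fin m → (Z ⟶ X))
    (y : Fin (m + 1) → (Z ⟶ X)) (ξ : Comb C X (m + 1)) :
    C.push (fst Z X) (thetaLin C ε (m + 1) (fst Z X ≫ g)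
      (Fin.cons (snd Z X) fun i => fst Z X ≫ x i) (Fin.cons (snd Z X) fun i => fst Z X ≫ y i) ξ) =
    thetaLin C ε m g x y (kappa C ε X m ξ) := by
  induction ξ using Finsupp.induction_linear with
  | zero => simp
  | add a b ha hb => rw [map_add, map_add, ha, hb, map_add, map_add]
  | single p c =>
    rw [kappa, Finsupp.linearCombination_single, thetaLin, thetaLin,
      Finsupp.linearCombination_single]
    simp only [map_smul, map_sub, map_add, map_sum, Finsupp.linearCombination_single, one_smul]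
    rw [push_theta_rowsOf]

/-- **Full contraction of a relation.** -/
theorem fullLin_eq_zero (ε : ℤˣ) (m : ℕ) (ξ : Comb C X m)
    (h : ∀ (Z : 𝒱.Obj) (g : Z ⟶ X) (x : Fin m → (Z ⟶ X)) (y : Fin (m + 1) → (Z ⟶ X)),
      thetaLin C ε m g x y ξ = 0) : fullLin C ε X m ξ = 0 := by
  induction m with
  | zero =>
    have h1 := h (X.prod X) (fst X X) Fin.elim0 (fun _ => snd X X)
    have h2 : ∀ ξ : Comb C X 0, thetaLin C ε 0 (fst X X) Fin.elim0 (fun _ => snd X X) ξ =
        (CorrRing.of C X).symm (fullLin C ε X 0 ξ) := by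
      intro ξ
      induction ξ using Finsupp.induction_linear with
      | zero => simp
      | add a b ha hb => rw [map_add, map_add, ha, hb, map_add]
      | single p c =>
        rw [thetaLin, fullLin, Finsupp.linearCombination_single, Finsupp.linearCombination_single,
          map_smul]
        congr 1
        have hu : (Finset.univ : Finset (Equiv.Perm (Fin (0 + 1)))) = {1} := by decide
        rw [theta, hu, Finset.sum_singleton, chi_one, one_smul, Fin.prod_univ_one, rowsOf]
        have h0 : (0 : Fin (0 + 1)) = Fin.last 0 := rfl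
        rw [h0, Fin.snoc_last, ← C.pull_comp, comp_lift, Obj.lift_fst_assoc, Obj.lift_snd,
          Category.id_comp, lift_fst_snd, C.pull_id]
        rfl
    rw [h2] at h1
    exact (CorrRing.of C X).symm.injective (h1.trans (map_zero _).symm)
  | succ m ih =>
    rw [← fullLin_kappa]
    refine ih _ fun Z g x y => ?_
    rw [← push_thetaLin, h, map_zero]

end Pool.Agent.H836
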