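import Pool.Graph.R_pool_sql_team_seeded_b0a926ef.R903.PermDefs

/-!
# Motives with an algebraic determinant: definitions
-/

open CategoryTheory CategoryTheory.Limits AlgebraicGeometry
open Pool.Agent.H914 Pool.Agent.H914.VarClass Pool.Agent.H914.VarClass.Obj
open Pool.Agent.R903

universe u v

namespace Pool.Agent.H836.DB

section gen

variable {K : Type u} [Field K] {V W : Type v} [AddCommGroup V] [Module K V] [AddCommGroup W]
  [Module K W]

/-- The homogeneous elements of degree `i`. -/
def piece (gr : ℕ → Submodule K V) (i : ℕ) : Set V :=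
  {x | x ∈ gr i}

/-- The value `f a` of a linear map. -/
def ap (f : V →ₗ[K] W) (a : V) : W :=
  f a

end gen

variable {k : Type u} [Field k] {𝒱 : VarClass k}

/-- The sign of the permutation `σ` if `q` is even, and `1` if `q` is odd. -/
def sgnPow (q : ℕ) {n : ℕ} (σ : Equiv.Perm (Fin n)) : ℚ :=
  ((Equiv.Perm.sign σ : ℤ) : ℚ) ^ (q + 1)

/-- `x` is a class of codimension `i`. -/
def InCodim (C : ChowTheory.{u, v} 𝒱) {Y : 𝒱.Obj} (i : ℕ) (x : C.CH Y) : Prop :=
  x ∈ piece (C.gr Y) i

/-- The action `a ↦ pr_{2*}(Γ · pr_1^* a)` of a correspondence on the Chow groups. -/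
noncomputable def op (C : ChowTheory.{u, v} 𝒱) {X Y : 𝒱.Obj} (Γ : C.CH (X.prod Y)) (a : C.CH X) :
    C.CH Y :=
  ap (C.act Γ) a

/-- The pull-back `f^* a`. -/
noncomputable def pb (C : ChowTheory.{u, v} 𝒱) {X Y : 𝒱.Obj} (f : Y ⟶ X) (a : C.CH X) : C.CH Y :=
  C.pull f a

/-- The intersection number of `x` and `y` is not zero. -/
def Meets (C : ChowTheory.{u, v} 𝒱) {Y : 𝒱.Obj} (x y : C.CH Y) : Prop :=
  C.deg Y (x * y) ≠ 0

/-- The sum of the permutations of the factors of the `(n + 1)`-st tensor power of the motive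
`(X, ω)`, with the sign of the permutation if `q` is even and without sign if `q` is odd. -/
noncomputable def detPower (C : ChowTheory.{u, v} 𝒱) {X : 𝒱.Obj} (q : ℕ) (ω : C.CH (X.prod X))
    (n : ℕ) : C.CH ((pw X n).prod (pw X n)) :=
  ∑ σ, sgnPow q σ • C.permCycle ω n σ

/-- The product of the cycles `a_0, …, a_n` on `X^(n + 1)`: the sum of the cycles
`∏ i, pr_{σ(i)}^* a_i` over all permutations `σ`, with the sign of `σ` if `q` is even and without
sign if `q` is odd. -/
noncomputable def detProd (C : ChowTheory.{u, v} 𝒱) {X : 𝒱.Obj} (q : ℕ) {n : ℕ}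
    (a : Fin (n + 1) → C.CH X) : C.CH (pw X n) :=
  ∑ σ, sgnPow q σ • ∏ i, pb C (pr X n (σ i)) (a i)

/-- The rational number `t` is `n + 1` for even `q` and `-(n + 1)` for odd `q`. -/
def IsSignedDim (q n : ℕ) (t : ℚ) : Prop :=
  t = (-1) ^ q * (n + 1)

/-- There are cycles `δ`, `δ'` of codimensions `c`, `c'` on `X^(n + 1)` such that the intersection
number of `δ'` and of the image of `δ` in the determinant of `(X, ω)` is not zero. -/
def DetNonzero (C : ChowTheory.{u, v} 𝒱) {X : 𝒱.Obj} (ω : C.CH (X.prod X)) (q n c c' : ℕ) : Prop :=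
  ∃ δ δ' : C.CH (pw X n), InCodim C c δ ∧ InCodim C c' δ' ∧
    Meets C δ' (op C (detPower C q ω n) δ)

/-- The motive `(X, ω)` has the parity of `q`, the dimension `n + 1`, and its determinant is given
by an algebraic cycle of codimension `c`: for even `q` some exterior power of `(X, ω)` vanishes, for
odd `q` some symmetric power; `ω` has the degree `± (n + 1)` on the diagonal; and there are cycles
`δ` of codimension `c` and `δ'` of the complementary codimension `c'` on `X^(n + 1)` such that the
intersection number of `δ'` and of the image of `δ` in the determinant is not zero. -/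
structure HasAlgDet (C : ChowTheory.{u, v} 𝒱) {X : 𝒱.Obj} (ω : C.CH (X.prod X))
    (q n c c' : ℕ) : Prop where
  mem : InCodim C X.dim ω
  idem : C.comp ω ω = ω
  even : Even q → ∃ m, C.ExtVanishes ω m
  odd : Odd q → ∃ m, C.SymVanishes ω m
  dim : IsSignedDim q n (C.motDim ω)
  codim : c + c' = (n + 1) * X.dim
  det : DetNonzero C ω q n c c'

/-- `a` is a cycle of codimension `i` of the motive `(X, ω)`. -/
def IsCycleOf (C : ChowTheory.{u, v} 𝒱) {X : 𝒱.Obj} (ω : C.CH (X.prod X)) (i : ℕ) (a : C.CH X) :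
    Prop :=
  InCodim C i a ∧ op C ω a = a

end Pool.Agent.H836.DB
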