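import Pool.Graph.R_pool_sql_team_seeded_b0a926ef.R903.MatDefs
import Pool.Agent.H836.AltDefs

/-!
# Algebraic determinants: definitions
-/

open CategoryTheory CategoryTheory.Limits AlgebraicGeometry
open Pool.Agent.H914 Pool.Agent.H914.VarClass Pool.Agent.H914.VarClass.Obj
open Pool.Agent.R903

universe u v w

namespace Pool.Agent.H836

variable {k : Type u} [Field k] {𝒱 : VarClass k}

/-- The alternating sum of the permutations of the factors of the `(n + 1)`-st tensor power of the
motive `(X, e)`: the projector to the exterior power, multiplied by `(n + 1)!`. -/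
noncomputable def altPower (C : ChowTheory.{u, v} 𝒱) {X : 𝒱.Obj} (e : C.CH (X.prod X)) (n : ℕ) :
    C.CH ((pw X n).prod (pw X n)) :=
  ∑ σ, ((Equiv.Perm.sign σ : ℤ) : ℚ) • C.permCycle e n σ

/-- `e` is a symmetric projector in `CH^(dim X)(X × X)`, and some exterior power of the motive
`(X, e)` vanishes. -/
structure IsEvenSummand (C : ChowTheory.{u, v} 𝒱) {X : 𝒱.Obj} (e : C.CH (X.prod X)) : Prop where
  mem : e ∈ C.gr (X.prod X) X.dim
  idem : C.comp e e = e
  symm : C.IsSymmetric e
  even : ∃ m, C.ExtVanishes e m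

/-- The determinant of the motive `(X, e)` of dimension `t = n + 1` is algebraic: there is a cycle
`δ` of codimension `c = t dim X / 2` on `X^t` such that the intersection number of `δ` and of the
cycle `Λ^t(e)_* δ` is not zero. (This means that the class of `Λ^t(e)_* δ` is a generator of the
line `Λ^t H(X, e)`.) -/
def DetAlgebraic (C : ChowTheory.{u, v} 𝒱) {X : 𝒱.Obj} (e : C.CH (X.prod X)) : Prop :=
  ∃ n c : ℕ, C.motDim e = n + 1 ∧ 2 * c = (n + 1) * X.dim ∧ ∃ δ ∈ C.gr (pw X n) c,
    C.deg (pw X n) (δ * C.act (altPower C e n) δ) ≠ 0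

/-- `a` is a zero-cycle of the motive `(X, e)`. -/
def IsZeroCycleOf (C : ChowTheory.{u, v} 𝒱) {X : 𝒱.Obj} (e : C.CH (X.prod X)) (a : C.CH X) :
    Prop :=
  a ∈ C.gr X X.dim ∧ C.act e a = a

end Pool.Agent.H836
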