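import Pool.Agent.H836.Split
import Pool.Graph.R_pool_sql_team_seeded_b0a926ef.R903.PermKim

/-!
# Relations between rows of correspondences

The classes `(x_i, y_{σ(i)})^* γ_i` on a variety `Y` satisfy a linear relation, for all morphisms
`x_i, y_i : Y → X`. We insert arbitrary classes `ρ_i` on `Y × X` in place of the points `x_i`, and
contract a row with a column.
-/

open CategoryTheory CategoryTheory.Limits AlgebraicGeometry
open Pool.Agent.H914 Pool.Agent.H914.VarClass Pool.Agent.H914.VarClass.Obj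
open Pool.Agent.R903 Equiv Equiv.Perm Pool.Agent.R903.PermCore

universe u v w

namespace Pool.Agent.H836

variable {k : Type u} [Field k] {𝒱 : VarClass k} {C : ChowTheory.{u, v} 𝒱}
variable {X Y Z A B : 𝒱.Obj} {n : ℕ}

/-- The classes `(g, y_{σ(i)})^* ρ_i`, for `g : Z → Y` and `y_i : Z → X`, satisfy the relation with
coefficients `a`. -/
def RowRel (C : ChowTheory.{u, v} 𝒱) {X Y : 𝒱.Obj} {n : ℕ} (a : Equiv.Perm (Fin n) → ℚ)
    (ρ : Fin n → C.CH (Y.prod X)) : Prop :=
  ∀ (Z : 𝒱.Obj) (g : Z ⟶ Y) (y : Fin n → (Z ⟶ X)),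
    ∑ σ, a σ • ∏ i, C.pull (lift g (y (σ i))) (ρ i) = 0

/-- The classes `(x_i, y_{σ(i)})^* γ_i` satisfy the relation with coefficients `a`. -/
def MRel (C : ChowTheory.{u, v} 𝒱) {X : 𝒱.Obj} {n : ℕ} (a : Equiv.Perm (Fin n) → ℚ)
    (γ : Fin n → C.CH (X.prod X)) : Prop :=
  ∀ (Y : 𝒱.Obj) (x y : Fin n → (Y ⟶ X)), ∑ σ, a σ • ∏ i, C.pull (lift (x i) (y (σ i))) (γ i) = 0

lemma mRel_const {a : Equiv.Perm (Fin n) → ℚ} {ω : C.CH (X.prod X)} :
    MRel C a (fun _ => ω) ↔ C.PermRel ω n a := Iff.rfl

/-- Insertion of classes on `Y × X` in the rows. -/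
theorem MRel.rowRel {a : Equiv.Perm (Fin n) → ℚ} {γ : Fin n → C.CH (X.prod X)}
    (h : MRel C a γ) (ρ : Fin n → C.CH (Y.prod X)) :
    RowRel C a fun i => C.comp (ρ i) (γ i) := by
  classical
  have key : ∀ (S : Finset (Fin n)) (Z : 𝒱.Obj) (g : Z ⟶ Y) (x y : Fin n → (Z ⟶ X)),
      ∑ σ, a σ • ∏ i, (if i ∈ S then C.pull (lift g (y (σ i))) (C.comp (ρ i) (γ i))
        else C.pull (lift (x i) (y (σ i))) (γ i)) = 0 := by
    intro S
    induction S using Finset.induction_on with
    | empty =>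
      intro Z g x y
      simpa using h Z x y
    | insert j s hj ih =>
      intro Z g x y
      have h1 := ih (Z.prod X) (fst Z X ≫ g) (fun i => if i = j then snd Z X else fst Z X ≫ x i)
        (fun i => fst Z X ≫ y i)
      have h2 := congrArg (fun z => C.push (fst Z X)
        (C.pull (lift (fst Z X ≫ g) (snd Z X)) (ρ j) * z)) h1
      simp only [mul_zero, map_zero, Finset.mul_sum, map_sum, mul_smul_comm, map_smul] at h2
      rw [← h2]
      refine Finset.sum_congr rfl fun σ _ => ?_
      congr 1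
      rw [← Finset.mul_prod_erase Finset.univ _ (Finset.mem_univ j),
        ← Finset.mul_prod_erase Finset.univ _ (Finset.mem_univ j)]
      have h3 : ∀ i ∈ Finset.univ.erase j,
          (if i ∈ s then C.pull (lift (fst Z X ≫ g) (fst Z X ≫ y (σ i))) (C.comp (ρ i) (γ i))
            else C.pull (lift (if i = j then snd Z X else fst Z X ≫ x i) (fst Z X ≫ y (σ i)))
              (γ i)) =
          C.pull (fst Z X) (if i ∈ insert j s then
            C.pull (lift g (y (σ i))) (C.comp (ρ i) (γ i))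
              else C.pull (lift (x i) (y (σ i))) (γ i)) := by
        intro i hi
        have hij := (Finset.mem_erase.1 hi).1
        by_cases his : i ∈ s
        · rw [if_pos his, if_pos (Finset.mem_insert_of_mem his), ← C.pull_comp, comp_lift]
        · have : i ∉ insert j s := by simp [hij, his]
          rw [if_neg his, if_neg this, if_neg hij, ← C.pull_comp, comp_lift]
      rw [Finset.prod_congr rfl h3, ← map_prod, ← mul_assoc, C.push_mul]
      congr 1
      rw [if_pos (Finset.mem_insert_self j s), if_neg hj, if_pos rfl, ChowTheory.pull_comp_corr]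
  intro Z g y
  simpa using key Finset.univ Z g y y

/-- Contraction of the first row with a column. -/
theorem RowRel.trace {a : Equiv.Perm (Fin (n + 1)) → ℚ} {η : C.CH (X.prod X)}
    {ρ : Fin n → C.CH (Y.prod X)} (hρ : ∀ i, C.comp (ρ i) η = ρ i)
    (h : RowRel C a (Y := Y.prod X) (Fin.cons
      (C.pull (lift (fst (Y.prod X) X ≫ snd Y X) (snd (Y.prod X) X)) η)
      fun i => C.pull (lift (fst (Y.prod X) X ≫ fst Y X) (snd (Y.prod X) X)) (ρ i))) :
    RowRel C (ptr (C.motDim η) a) ρ := by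
  intro Z g y
  have h1 := h (Z.prod X) (lift (fst Z X ≫ g) (snd Z X))
    (Fin.cons (snd Z X) fun i => fst Z X ≫ y i)
  have h2 := congrArg (C.push (fst Z X)) h1
  rw [map_zero, map_sum, ← Equiv.sum_comp decomposeFin.symm, Fintype.sum_prod_type,
    Finset.sum_comm] at h2
  rw [← h2]
  refine Finset.sum_congr rfl fun τ _ => ?_
  rw [ptr, Finset.sum_smul]
  refine Finset.sum_congr rfl fun p _ => ?_
  rw [map_smul, mul_comm, mul_smul]
  congr 1
  rw [Fin.prod_univ_succ]
  simp only [Fin.cons_zero, Fin.cons_succ, decomposeFin_symm_apply_zero,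
    decomposeFin_symm_apply_succ, ← C.pull_comp, comp_lift, Obj.lift_fst_assoc, Obj.lift_snd,
    Obj.lift_snd_assoc, Obj.lift_fst]
  have hpull : ∀ i j, C.pull (lift (fst Z X ≫ g) (fst Z X ≫ y j)) (ρ i) =
      C.pull (fst Z X) (C.pull (lift g (y j)) (ρ i)) := by
    intro i j
    rw [← C.pull_comp, comp_lift]
  refine Fin.cases ?_ (fun q => ?_) p
  · simp only [if_true, swap_self, Equiv.refl_apply, Fin.cons_succ, Fin.cons_zero, hpull]
    rw [← map_prod, C.push_mul]
    have h3 : (lift (snd Z X) (snd Z X) : Z.prod X ⟶ X.prod X) = snd Z X ≫ Obj.diag X := by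
      apply hom_ext_prod <;> simp
    rw [h3, C.pull_comp, ChowTheory.push_fst_pull_snd, Algebra.smul_def]
    rfl
  · rw [if_neg (Fin.succ_ne_zero q), one_smul, Fin.cons_succ]
    set j₀ := τ⁻¹ q with hj₀
    have hτ : τ j₀ = q := by simp [hj₀]
    rw [← Finset.mul_prod_erase Finset.univ _ (Finset.mem_univ j₀),
      ← Finset.mul_prod_erase Finset.univ _ (Finset.mem_univ j₀)]
    have h4 : ∀ i ∈ Finset.univ.erase j₀, C.pull (lift (fst Z X ≫ g)
        ((Fin.cons (snd Z X) fun i => fst Z X ≫ y i : Fin (n + 1) → (Z.prod X ⟶ X))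
          (Equiv.swap 0 q.succ (τ i).succ))) (ρ i) =
        C.pull (fst Z X) (C.pull (lift g (y (τ i))) (ρ i)) := by
      intro i hi
      have h5 : τ i ≠ q := by
        intro h
        apply (Finset.mem_erase.1 hi).1
        simp [hj₀, ← h]
      rw [swap_apply_of_ne_of_ne (Fin.succ_ne_zero _) (fun h => h5 (Fin.succ_injective _ h)),
        Fin.cons_succ, hpull]
    rw [Finset.prod_congr rfl h4, hτ, swap_apply_right, Fin.cons_zero, ← map_prod, ← mul_assoc,
      C.push_mul, mul_comm (C.pull (lift (snd Z X) (fst Z X ≫ y q)) η), ChowTheory.pull_comp_corr,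
      hρ]

end Pool.Agent.H836
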