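import Pool.Agent.H836.Rank1
import Pool.Agent.H836.RowRel
import Pool.Agent.H836.WedgeMain
import Pool.Agent.H836.DetDefs

/-!
# The determinant of an evenly finite-dimensional motive
-/

open CategoryTheory CategoryTheory.Limits AlgebraicGeometry
open Pool.Agent.H914 Pool.Agent.H914.VarClass Pool.Agent.H914.VarClass.Obj
open Pool.Agent.R903 Equiv Equiv.Perm Pool.Agent.R903.PermCore

universe u v w

namespace Pool.Agent.H836

variable {k : Type u} [Field k] {𝒱 : VarClass k} {C : ChowTheory.{u, v} 𝒱}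
variable {X Y Z A B : 𝒱.Obj} {e : C.CH (X.prod X)} {n : ℕ}

lemma pull_altPower (f g : Y ⟶ pw X n) : C.pull (lift f g) (altPower C e n) =
    (Matrix.of fun i j => C.pull (lift (f ≫ pr X n i) (g ≫ pr X n j)) e).det := by
  rw [← sum_chi_eq_det, altPower, map_sum]
  refine Finset.sum_congr rfl fun σ _ => ?_
  rw [map_smul, chi, if_pos rfl, ChowTheory.permCycle, map_prod]
  congr 1
  refine Finset.prod_congr rfl fun i _ => ?_
  rw [← C.pull_comp, comp_lift, Obj.lift_fst_assoc, Obj.lift_snd_assoc]

/-- The exterior power of top degree has rank one. -/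
lemma altPower_exchange (h : C.PermRel e (n + 1 + 1) (chi 1)) (p q r s : Y ⟶ pw X n) :
    C.pull (lift p q) (altPower C e n) * C.pull (lift r s) (altPower C e n) =
      C.pull (lift p s) (altPower C e n) * C.pull (lift r q) (altPower C e n) := by
  rw [pull_altPower, pull_altPower, pull_altPower, pull_altPower]
  exact Rank1.det_exchange (fun (x : Y ⟶ X) (y : Y ⟶ X) => C.pull (lift x y) e)
    (permRel_iff_det.1 h Y) _ _ _ _

/-- Insertion of a cycle in the second variable of the first factor. -/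
lemma altPower_insert_snd (h : C.PermRel e (n + 1 + 1) (chi 1)) (δ : C.CH (pw X n))
    (p r s : Y ⟶ pw X n) :
    C.pull p (coact C (altPower C e n) δ) * C.pull (lift r s) (altPower C e n) =
      C.pull (lift p s) (altPower C e n) * C.pull r (coact C (altPower C e n) δ) := by
  have h1 := altPower_exchange h (Y := Y.prod (pw X n)) (fst _ _ ≫ p) (snd _ _) (fst _ _ ≫ r)
    (fst _ _ ≫ s)
  have h2 := congrArg (fun z => C.push (fst Y (pw X n)) (C.pull (snd Y (pw X n)) δ * z)) h1
  have h3 : C.pull (lift (fst Y (pw X n) ≫ r) (fst Y (pw X n) ≫ s)) (altPower C e n) =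
      C.pull (fst Y (pw X n)) (C.pull (lift r s) (altPower C e n)) := by
    rw [← C.pull_comp, comp_lift]
  have h4 : C.pull (lift (fst Y (pw X n) ≫ p) (fst Y (pw X n) ≫ s)) (altPower C e n) =
      C.pull (fst Y (pw X n)) (C.pull (lift p s) (altPower C e n)) := by
    rw [← C.pull_comp, comp_lift]
  rw [h3, h4, ← mul_assoc, C.push_mul, push_insert_snd, mul_left_comm, C.mul_push,
    push_insert_snd] at h2
  exact h2

lemma altPower_insert (h : C.PermRel e (n + 1 + 1) (chi 1)) (δ δ' : C.CH (pw X n))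
    (p s : Y ⟶ pw X n) :
    C.pull p (coact C (altPower C e n) δ) * C.pull s (C.act (altPower C e n) δ') =
      C.deg (pw X n) (coact C (altPower C e n) δ * δ') •
        C.pull (lift p s) (altPower C e n) := by
  have h1 := altPower_insert_snd h δ (Y := Y.prod (pw X n)) (fst _ _ ≫ p) (snd _ _)
    (fst _ _ ≫ s)
  have h2 := congrArg (fun z => C.push (fst Y (pw X n)) (C.pull (snd Y (pw X n)) δ' * z)) h1
  have h4 : C.pull (lift (fst Y (pw X n) ≫ p) (fst Y (pw X n) ≫ s)) (altPower C e n) =
      C.pull (fst Y (pw X n)) (C.pull (lift p s) (altPower C e n)) := by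
    rw [← C.pull_comp, comp_lift]
  rw [C.pull_comp, h4, mul_left_comm, C.mul_push, push_insert, mul_left_comm, C.mul_push,
    push_insert_deg, mul_comm (C.pull (lift p s) _), ← Algebra.smul_def] at h2
  exact h2

lemma altPower_symm (hs : C.IsSymmetric e) (p q : Y ⟶ pw X n) :
    C.pull (lift p q) (altPower C e n) = C.pull (lift q p) (altPower C e n) := by
  rw [pull_altPower, pull_altPower, ← Matrix.det_transpose]
  congr 1
  ext i j
  rw [Matrix.transpose_apply, Matrix.of_apply, Matrix.of_apply]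
  exact Mat.symm_pull hs _ _

lemma coact_eq_act_of_symm {P : 𝒱.Obj} {Λ : C.CH (P.prod P)}
    (h : C.pull (lift (snd P P) (fst P P)) Λ = Λ) (b : C.CH P) : coact C Λ b = C.act Λ b := by
  have h1 : C.transp Λ = Λ := h
  rw [coact_eq_act, h1]

lemma coact_altPower (hs : C.IsSymmetric e) (δ : C.CH (pw X n)) :
    coact C (altPower C e n) δ = C.act (altPower C e n) δ := by
  refine coact_eq_act_of_symm ?_ δ
  rw [altPower_symm hs, lift_fst_snd, C.pull_id]

/-- If the determinant is algebraic, the exterior power of top degree is a product. -/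
lemma altPower_eq (h : C.PermRel e (n + 1 + 1) (chi 1)) (hs : C.IsSymmetric e)
    (δ : C.CH (pw X n)) (p s : Y ⟶ pw X n) :
    C.pull p (C.act (altPower C e n) δ) * C.pull s (C.act (altPower C e n) δ) =
      C.deg (pw X n) (δ * C.act (altPower C e n) δ) • C.pull (lift p s) (altPower C e n) := by
  have h1 := altPower_insert h δ δ p s
  rwa [coact_altPower hs, mul_comm (C.act (altPower C e n) δ) δ] at h1

lemma prod_mem {ι : Type*} (s : Finset ι) (c : ι → C.CH X) (d : ι → ℕ)
    (h : ∀ i ∈ s, c i ∈ C.gr X (d i)) : ∏ i ∈ s, c i ∈ C.gr X (∑ i ∈ s, d i) := by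
  classical
  induction s using Finset.induction_on with
  | empty =>
    rw [Finset.prod_empty, Finset.sum_empty]
    exact C.one_mem X
  | insert a s ha ih =>
    rw [Finset.prod_insert ha, Finset.sum_insert ha]
    exact C.mul_mem (h a (Finset.mem_insert_self a s))
      (ih fun i hi => h i (Finset.mem_insert_of_mem hi))

lemma dim_pw (X : 𝒱.Obj) (n : ℕ) : (pw X n).dim = (n + 1) * X.dim := by
  induction n with
  | zero => simp [pw]
  | succ n ih =>
    change (X.prod (pw X n)).dim = _
    rw [VarClass.Obj.dim_prod, ih]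
    ring

lemma comp_one (γ : C.CH (X.prod Z)) :
    C.comp (1 : C.CH (Y.prod X)) γ = C.pull (snd Y Z) (C.push (snd X Z) γ) := by
  have h1 : (1 : C.CH (Y.prod X)) = C.ext 1 1 := by
    rw [ChowTheory.ext, map_one, map_one, one_mul]
  rw [h1, ext_comp, ChowTheory.ext, map_one, one_mul, C.act_apply, map_one, mul_one]

lemma comp_pull_left (f : A ⟶ Y) (ρ : C.CH (Y.prod X)) (β : C.CH (X.prod Z)) :
    C.comp (C.pull (lift (fst A X ≫ f) (snd A X)) ρ) β =
      C.pull (lift (fst A Z ≫ f) (snd A Z)) (C.comp ρ β) := by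
  rw [comp_eq_push, ← C.pull_comp, comp_lift, Obj.lift_fst_assoc, Obj.lift_snd, Category.assoc,
    ChowTheory.pull_comp_corr]

/-- The relation with the cycles `a i` in the rows from the `l`-th one on. -/
def TailRel (C : ChowTheory.{u, v} 𝒱) {X : 𝒱.Obj} (e : C.CH (X.prod X)) (a : ℕ → C.CH X)
    (N l : ℕ) : Prop :=
  ∀ (Y : 𝒱.Obj) (ρ : ℕ → C.CH (Y.prod X)), (∀ i, C.comp (ρ i) e = ρ i) →
    RowRel C (chi 1 : Equiv.Perm (Fin N) → ℚ) fun i =>
      if (i : ℕ) < l then ρ i else C.pull (snd Y X) (a (i - l))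

lemma comp_pull_snd (a : C.CH X) (ha : C.act e a = a) :
    C.comp (C.pull (snd Y X) a) e = C.pull (snd Y X) a := by
  have h5 : C.pull (snd Y X) a = C.ext 1 a := by
    rw [ChowTheory.ext, map_one, one_mul]
  rw [h5, ext_comp, ha]

lemma TailRel.descend (hee : C.comp e e = e) {a : ℕ → C.CH X} (ha : ∀ i, C.act e (a i) = a i)
    {N l : ℕ} (ht : C.motDim e ≠ (N : ℚ)) (h : TailRel C e a (N + 1) (l + 1)) :
    TailRel C e a N l := by
  intro Y ρ hρ
  set ρ' : ℕ → C.CH ((Y.prod X).prod X) := fun i => Nat.casesOn i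
    (C.pull (lift (fst (Y.prod X) X ≫ snd Y X) (snd (Y.prod X) X)) e)
    fun i => C.pull (lift (fst (Y.prod X) X ≫ fst Y X) (snd (Y.prod X) X)) (ρ i) with hρ'
  have h1 := h (Y.prod X) ρ' (by
    intro i
    cases i with
    | zero =>
      change C.comp (C.pull _ e) e = C.pull _ e
      rw [comp_pull_left, hee]
    | succ i =>
      change C.comp (C.pull _ (ρ i)) e = C.pull _ (ρ i)
      rw [comp_pull_left, hρ])
  have h2 : (fun i : Fin (N + 1) => if (i : ℕ) < l + 1 then ρ' i
      else C.pull (snd (Y.prod X) X) (a (i - (l + 1)))) =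
      Fin.cons (C.pull (lift (fst (Y.prod X) X ≫ snd Y X) (snd (Y.prod X) X)) e)
        fun i => C.pull (lift (fst (Y.prod X) X ≫ fst Y X) (snd (Y.prod X) X))
          (if (i : ℕ) < l then ρ i else C.pull (snd Y X) (a (i - l))) := by
    funext i
    refine Fin.cases ?_ (fun i => ?_) i
    · rw [Fin.cons_zero, if_pos (by simp)]
      rfl
    · rw [Fin.cons_succ, Fin.val_succ]
      by_cases hi : (i : ℕ) < l
      · rw [if_pos (by omega), if_pos hi]
      · rw [if_neg (by omega), if_neg hi, ← C.pull_comp, Obj.lift_snd,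
          show (i : ℕ) + 1 - (l + 1) = i - l by omega]
  rw [h2] at h1
  have h4 : ∀ i : Fin N, C.comp (if (i : ℕ) < l then ρ i else C.pull (snd Y X) (a (i - l)))
      e = if (i : ℕ) < l then ρ i else C.pull (snd Y X) (a (i - l)) := by
    intro i
    split_ifs
    · exact hρ _
    · exact comp_pull_snd _ (ha _)
  have h5 := RowRel.trace h4 h1
  rw [ptr_chi] at h5
  intro Z g y
  have h6 := h5 Z g y
  simp only [Units.val_one, Int.cast_one, one_mul, mul_smul] at h6
  rw [← Finset.smul_sum] at h6
  exact (smul_eq_zero.1 h6).resolve_left (sub_ne_zero.2 ht)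

lemma TailRel.descend_all (hee : C.comp e e = e) {a : ℕ → C.CH X}
    (ha : ∀ i, C.act e (a i) = a i) {N l : ℕ} (ht : ((N + l : ℕ) : ℚ) ≤ C.motDim e)
    (h : TailRel C e a (N + l) l) : TailRel C e a N 0 := by
  induction l with
  | zero => exact h
  | succ l ih =>
    refine ih (le_trans ?_ ht) (TailRel.descend hee ha ?_ h)
    · push_cast; linarith
    · intro h1
      rw [h1] at ht
      have : N + (l + 1) ≤ N + l := by exact_mod_cast ht
      omega

lemma TailRel.zero {a : ℕ → C.CH X} {m : ℕ} (h : TailRel C e a (m + 1) 0)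
    (hee : C.comp e e = e) : altProd C (fun i : Fin (m + 1) => a i) = 0 := by
  have h1 := h X (fun _ => e) (fun _ => hee) (pw X m) (pr X m 0) (pr X m)
  rw [← C.pull_id _ (altProd C _), pull_altProd, ← sum_chi_eq_det, ← h1]
  refine Finset.sum_congr rfl fun σ _ => ?_
  congr 1
  refine Finset.prod_congr rfl fun i _ => ?_
  simp only [Nat.not_lt_zero, if_false, Nat.sub_zero]
  rw [← C.pull_comp, Obj.lift_snd, Category.id_comp]

lemma altPower_mem (he : e ∈ C.gr (X.prod X) X.dim) :
    altPower C e n ∈ C.gr ((pw X n).prod (pw X n)) (pw X n).dim := by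
  refine Submodule.sum_mem _ fun σ _ => Submodule.smul_mem _ _ ?_
  have h1 := prod_mem (C := C) Finset.univ (fun i => C.pull (lift (fst (pw X n) (pw X n) ≫ pr X n i)
    (snd (pw X n) (pw X n) ≫ pr X n (σ i))) e) (fun _ => X.dim) (fun i _ => C.pull_mem _ he)
  rw [Finset.sum_const, Finset.card_univ, Fintype.card_fin, smul_eq_mul] at h1
  rw [dim_pw]
  exact h1

/-- **Zero-cycles in the first half.** -/
theorem altProd_eq_zero_of_det (he : e ∈ C.gr (X.prod X) X.dim) (hee : C.comp e e = e)
    (hs : C.IsSymmetric e) (h : C.PermRel e (n + 1 + 1) (chi 1)) (ht : C.motDim e = n + 1)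
    {c : ℕ} (hc : 2 * c = (n + 1) * X.dim) {δ : C.CH (pw X n)} (hδ : δ ∈ C.gr (pw X n) c)
    (hδ0 : C.deg (pw X n) (δ * C.act (altPower C e n) δ) ≠ 0) (hX : 0 < X.dim) {m : ℕ}
    (hmn : m ≤ n) (hm : n + 1 < 2 * (m + 1)) (a : Fin (m + 1) → C.CH X)
    (ha : ∀ i, IsZeroCycleOf C e (a i)) : altProd C a = 0 := by
  classical
  set a' : ℕ → C.CH X := fun i => if h : i < m + 1 then a ⟨i, h⟩ else 0 with ha'
  have ha'0 : ∀ i, IsZeroCycleOf C e (a' i) := by
    intro i
    simp only [ha']
    split_ifs
    · exact ha _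
    · exact ⟨Submodule.zero_mem _, map_zero _⟩
  set l := n - m with hl
  set w : Fin (n + 1) → C.CH X := fun i => if (i : ℕ) < l then 1 else a' (i - l) with hw
  set D := C.act (altPower C e n) δ with hD
  have hDmem : D ∈ C.gr (pw X n) c := C.act_mem (altPower_mem he) hδ (by ring)
  have hprod : (∏ i, C.pull (pr X n i) (w i)) * D = 0 := by
    have h1 := prod_mem (C := C) Finset.univ (fun i => C.pull (pr X n i) (w i))
      (fun i => if (i : ℕ) < l then 0 else X.dim) (fun i _ => by
        refine C.pull_mem _ ?_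
        simp only [hw]
        split_ifs
        · exact C.one_mem X
        · exact (ha'0 _).1)
    have h2 := C.mul_mem h1 hDmem
    have h3 : ∑ i : Fin (n + 1), (if (i : ℕ) < l then 0 else X.dim) = (m + 1) * X.dim := by
      rw [Finset.sum_ite, Finset.sum_const_zero, zero_add, Finset.sum_const, smul_eq_mul]
      congr 1
      have h4 := Finset.card_filter_add_card_filter_not (s := (Finset.univ : Finset (Fin (n + 1))))
        (fun i : Fin (n + 1) => (i : ℕ) < l)
      rw [Finset.card_univ, Fintype.card_fin] at h4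
      have h5 : (Finset.univ.filter fun i : Fin (n + 1) => (i : ℕ) < l).card = l := by
        have h6 : (Finset.univ.filter fun i : Fin (n + 1) => (i : ℕ) < l) =
            Finset.Iio (⟨l, by omega⟩ : Fin (n + 1)) := by
          ext i
          simp [Fin.lt_def]
        rw [h6, Fin.card_Iio]
      omega
    rw [h3, C.gr_eq_bot, Submodule.mem_bot] at h2
    · exact h2
    · rw [dim_pw]
      have h4 : (n + 1) * X.dim < 2 * (m + 1) * X.dim := Nat.mul_lt_mul_of_pos_right hm hX
      nlinarith
  have hM : MRel C (chi 1 : Equiv.Perm (Fin (n + 1)) → ℚ)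
      (fun i => C.pull (fst X X) (w i) * e) := by
    intro Y x y
    obtain ⟨p, hp⟩ := ChowTheory.exists_lift n x
    obtain ⟨q, hq⟩ := ChowTheory.exists_lift n y
    have h1 : ∀ σ : Equiv.Perm (Fin (n + 1)),
        ∏ i, C.pull (lift (x i) (y (σ i))) (C.pull (fst X X) (w i) * e) =
        (∏ i, C.pull (x i) (w i)) * ∏ i, C.pull (lift (x i) (y (σ i))) e := by
      intro σ
      rw [← Finset.prod_mul_distrib]
      refine Finset.prod_congr rfl fun i _ => ?_
      rw [C.pull_mul, ← C.pull_comp, Obj.lift_fst]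
    have h2 : ∑ σ : Equiv.Perm (Fin (n + 1)), (chi 1 σ : ℚ) •
        ∏ i, C.pull (lift (x i) (y (σ i))) (C.pull (fst X X) (w i) * e) =
        (∏ i, C.pull (x i) (w i)) * C.pull (lift p q) (altPower C e n) := by
      rw [pull_altPower, ← sum_chi_eq_det, Finset.mul_sum]
      refine Finset.sum_congr rfl fun σ _ => ?_
      rw [h1, mul_smul_comm]
      simp only [hp, hq]
    rw [h2]
    have h3 := altPower_eq h hs δ p q
    have h4 : C.pull (lift p q) (altPower C e n) =
        (C.deg (pw X n) (δ * D))⁻¹ • (C.pull p D * C.pull q D) := by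
      rw [hD, h3, smul_smul, inv_mul_cancel₀ hδ0, one_smul]
    have h5 : ∏ i, C.pull (x i) (w i) = C.pull p (∏ i, C.pull (pr X n i) (w i)) := by
      rw [map_prod]
      refine Finset.prod_congr rfl fun i _ => ?_
      rw [← C.pull_comp, hp]
    rw [h4, mul_smul_comm, ← mul_assoc, h5, ← C.pull_mul, hprod, map_zero, zero_mul, smul_zero]
  have hT : TailRel C e a' (n + 1) l := by
    intro Y ρ hρ
    have h1 := hM.rowRel (Y := Y) (fun i => if (i : ℕ) < l then ρ i else 1)
    have h2 : (fun i : Fin (n + 1) => C.comp (if (i : ℕ) < l then ρ i else 1)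
        (C.pull (fst X X) (w i) * e)) =
        fun i : Fin (n + 1) => if (i : ℕ) < l then ρ i else C.pull (snd Y X) (a' (i - l)) := by
      funext i
      simp only [hw]
      by_cases hi : (i : ℕ) < l
      · rw [if_pos hi, if_pos hi, if_pos hi, map_one, one_mul, hρ]
      · rw [if_neg hi, if_neg hi, if_neg hi, comp_one, mul_comm, ← C.act_apply, (ha'0 _).2]
    rwa [h2] at h1
  have hnl : n + 1 = m + 1 + l := by omega
  rw [hnl] at hT
  have h1 := (hT.descend_all hee (fun i => (ha'0 i).2) (by
    rw [ht, ← hnl]; push_cast; exact le_rfl)).zero hee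
  rw [← h1]
  congr 1
  funext i
  simp only [ha']
  rw [dif_pos i.2]

end Pool.Agent.H836
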