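import Pool.Graph.R_pool_sql_team_seeded_b0a926ef.R903.PermDefs

/-!
# Cycles of the motives `h^q(X)`: definitions
-/

open CategoryTheory CategoryTheory.Limits AlgebraicGeometry
open Pool.Agent.H914 Pool.Agent.H914.VarClass Pool.Agent.H914.VarClass.Obj
open Pool.Agent.R903

universe u v w

namespace Pool.Agent.H836

variable {k : Type u} [Field k] {𝒱 : VarClass k} {C : ChowTheory.{u, v} 𝒱}

/-- The dimension of a subspace. -/
noncomputable def rk {K : Type w} [Field K] {V : Type w} [AddCommGroup V] [Module K V]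
    (S : Submodule K V) : ℕ :=
  Module.finrank K S

/-- The pull-back `f^* a`. -/
noncomputable def pb (C : ChowTheory.{u, v} 𝒱) {X Y : 𝒱.Obj} (f : Y ⟶ X) (a : C.CH X) : C.CH Y :=
  C.pull f a

/-- The intersection number `deg(a b)`. -/
noncomputable def num (C : ChowTheory.{u, v} 𝒱) {X : 𝒱.Obj} (a b : C.CH X) : ℚ := C.deg X (a * b)

/-- The action `γ_* a = pr_{2*}(γ · pr_1^* a)` of a correspondence on cycles. -/
noncomputable def chowAct (C : ChowTheory.{u, v} 𝒱) {X Y : 𝒱.Obj} (γ : C.CH (X.prod Y))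
    (a : C.CH X) : C.CH Y :=
  C.push (snd X Y) (γ * pb C (fst X Y) a)

/-- `p` is an idempotent correspondence in `CH^(dim X)(X × X)` which acts as the identity on
`H^q(X)` and as zero on `H^j(X)` for `j ≠ q`. So `h^q(X) = (X, p)` is a Chow motive with the
cohomology `H^q(X)`. -/
def IsKunneth (W : WeilTheory.{u, v, w} C) {X : 𝒱.Obj} (q : ℕ) (p : C.CH (X.prod X)) : Prop :=
  p ∈ C.gr (X.prod X) X.dim ∧ C.comp p p = p ∧ IsProjector (W.gr X) q (W.act p)

/-- The motive `(X, p')` is isomorphic to the dual of the motive `(X, p)`, up to a twist: there are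
correspondences `θ`, `η` of any degree with the compositions `p'` and the transpose of `p`. -/
def IsDualTo (C : ChowTheory.{u, v} 𝒱) {X : 𝒱.Obj} (p' p : C.CH (X.prod X)) : Prop :=
  ∃ θ η : C.CH (X.prod X), C.comp θ η = p' ∧ C.comp η θ = pb C (lift (snd X X) (fst X X)) p

/-- `a` is a numerically trivial cycle of the motive `(X, p)`: it is fixed by the correspondence
`p`, and its intersection numbers with all cycles vanish. -/
def IsTrivialCycle (C : ChowTheory.{u, v} 𝒱) {X : 𝒱.Obj} (p : C.CH (X.prod X)) (a : C.CH X) :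
    Prop :=
  chowAct C p a = a ∧ ∀ b : C.CH X, num C a b = 0

/-- The intersection pairing on the cycles of the motive `(X, p)` has rank at least `r`: there are
cycles `x_i` of `(X, p)` and `y_j` with the intersection numbers `δ_{ij}`, for `i, j < r`. -/
def HasRank (C : ChowTheory.{u, v} 𝒱) {X : 𝒱.Obj} (p : C.CH (X.prod X)) (r : ℕ) : Prop :=
  ∃ x y : Fin r → C.CH X, ∀ i j, chowAct C p (x i) = x i ∧
    num C (x i) (y j) = if i = j then 1 else 0

/-- The product of cycles of `h^q(X)`, on `X × (X × ⋯)` (`n + 1` factors): the sum of the cycles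
`∏ i, pr_{σ(i)}^* a_i` over all permutations `σ`, with the sign of `σ` if `q` is even and without
sign if `q` is odd. -/
noncomputable def gradedProd (C : ChowTheory.{u, v} 𝒱) {X : 𝒱.Obj} (q : ℕ) {n : ℕ}
    (a : Fin (n + 1) → C.CH X) : C.CH (pw X n) :=
  ∑ σ : Equiv.Perm (Fin (n + 1)),
    ((Equiv.Perm.sign σ : ℤ) : ℚ) ^ (q + 1) • ∏ i, pb C (pr X n (σ i)) (a i)

/-- The exterior product `a × b` of two cycles. -/
noncomputable def exterior (C : ChowTheory.{u, v} 𝒱) {X Y : 𝒱.Obj} (a : C.CH X) (b : C.CH Y) :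
    C.CH (X.prod Y) :=
  pb C (fst X Y) a * pb C (snd X Y) b

end Pool.Agent.H836
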