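import Pool.Agent.H836.Det

/-!
# Exterior products of zero-cycles of an evenly finite-dimensional motive
-/

open CategoryTheory CategoryTheory.Limits AlgebraicGeometry
open Pool.Agent.H914 Pool.Agent.H914.VarClass Pool.Agent.H914.VarClass.Obj
open Pool.Agent.R903 Equiv Equiv.Perm Pool.Agent.R903.PermCore

universe u v w

namespace Pool.Agent.H836

variable {k : Type u} [Field k] {𝒱 : VarClass k} {C : ChowTheory.{u, v} 𝒱}
variable {X Y Z A B : 𝒱.Obj} {e : C.CH (X.prod X)} {n : ℕ}

lemma altProd_congr_act {m : ℕ} {a : Fin (m + 1) → C.CH X} (ha : ∀ i, C.act e (a i) = a i)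
    (h : C.PermRel e (m + 1) (chi 1)) : altProd C a = 0 := by
  have h1 := (mRel_const.2 h).rowRel (Y := X) (fun i => C.pull (snd X X) (a i))
  have h2 := h1 (pw X m) (pr X m 0) (pr X m)
  rw [← C.pull_id _ (altProd C _), pull_altProd, ← sum_chi_eq_det, ← h2]
  refine Finset.sum_congr rfl fun σ _ => ?_
  congr 1
  refine Finset.prod_congr rfl fun i _ => ?_
  simp only [comp_pull_snd _ (ha i)]
  rw [← C.pull_comp, Obj.lift_snd, Category.id_comp]

/-- Exterior products of orthogonal cycles of an evenly finite-dimensional motive and of its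
dual. -/
theorem extProd_altProd_eq_zero {m n : ℕ} (h : C.PermRel e (m + 1 + (n + 1)) (chi 1))
    (a : Fin (m + 1) → C.CH X) (b : Fin (n + 1) → C.CH X) (ha : ∀ i, C.act e (a i) = a i)
    (hb : ∀ j, coact C e (b j) = b j) (hab : ∀ i j, C.deg X (a i * b j) = 0) :
    extProd C (altProd C a) (altProd C b) = 0 := by
  have h1 := det_mul_det h a b (fun i j => by rw [ha, hab])
    (fun j => (fst (pw X m) (pw X n)) ≫ pr X m j) (fun j => (snd (pw X m) (pw X n)) ≫ pr X n j)
  rw [extProd, pull_altProd, pull_altProd, ← h1]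
  congr 1
  · simp only [ha]
  · rw [← Matrix.det_transpose]
    simp only [hb]
    rfl

/-- Exterior products of zero-cycles: the theorem. -/
theorem zeroCycles_main (hP : C.Polarized) (hX : 0 < X.dim) (he : IsEvenSummand C e) :
    (∀ m n : ℕ, C.motDim e < (m + 1) + (n + 1) → ∀ (a : Fin (m + 1) → C.CH X)
      (b : Fin (n + 1) → C.CH X), (∀ i, IsZeroCycleOf C e (a i)) →
        (∀ j, IsZeroCycleOf C e (b j)) → extProd C (altProd C a) (altProd C b) = 0) ∧
    (DetAlgebraic C e → ∀ m : ℕ, C.motDim e < 2 * (m + 1) → ∀ a : Fin (m + 1) → C.CH X,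
      (∀ i, IsZeroCycleOf C e (a i)) → altProd C a = 0) := by
  obtain ⟨N, hN, hN2⟩ := ((ChowTheory.ext_tfae hP he.idem).out 0 1).1 he.even
  obtain ⟨hN3, hN4⟩ := ChowTheory.extVanishes_iff.1 hN2
  constructor
  · intro m n hmn a b ha hb
    have h1 : N ≤ m + 1 + (n + 1) := by
      have : (N : ℚ) < m + 1 + (n + 1) + 1 := by linarith
      have h2 : N < m + 1 + (n + 1) + 1 := by exact_mod_cast this
      omega
    refine extProd_altProd_eq_zero (permRel_mono h1 hN4) a b (fun i => (ha i).2)
      (fun j => ?_) (fun i j => ?_)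
    · rw [coact_eq_act_of_symm he.symm, (hb j).2]
    · have h2 := C.mul_mem (ha i).1 (hb j).1
      rw [C.gr_eq_bot _ _ (by omega), Submodule.mem_bot] at h2
      rw [h2, map_zero]
  · rintro ⟨n, c, h1, h2, δ, h3, h4⟩ m hm a ha
    have hNn : N = n + 1 + 1 := by
      have : (N : ℚ) = n + 1 + 1 := by rw [hN, h1]
      exact_mod_cast this
    subst hNn
    have h5 : n + 1 < 2 * (m + 1) := by
      rw [h1] at hm
      exact_mod_cast hm
    rcases Nat.lt_or_ge n m with h6 | h6
    · exact altProd_congr_act (fun i => (ha i).2) (permRel_mono (by omega) hN4)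
    · exact altProd_eq_zero_of_det he.mem he.idem he.symm hN4 h1 h2 h3 h4 hX h6 h5 a ha

end Pool.Agent.H836
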