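import Pool.Agent.H836.Nil
import Pool.Agent.H836.VoisinMain
import Pool.Agent.H836.MurreDefs

/-!
# Exterior products of homologically trivial cycles of the motives `h^q(X)`
-/

open CategoryTheory CategoryTheory.Limits AlgebraicGeometry
open Pool.Agent.H914 Pool.Agent.H914.VarClass Pool.Agent.H914.VarClass.Obj
open Pool.Agent.R903 Equiv Equiv.Perm Pool.Agent.R903.PermCore

universe u v w

namespace Pool.Agent.H836

variable {k : Type u} [Field k] {𝒱 : VarClass k} {C : ChowTheory.{u, v} 𝒱}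
variable {X Y Z A B : 𝒱.Obj} {ω : C.CH (X.prod X)} {n : ℕ}

/-! ### permanents -/

lemma sum_perm_block {R : Type*} [CommRing R] {r s : ℕ} (G : Fin r ⊕ Fin s → Fin r ⊕ Fin s → R)
    (h : ∀ i j, G (Sum.inl i) (Sum.inr j) = 0) :
    ∑ σ : Equiv.Perm (Fin r ⊕ Fin s), ∏ i, G i (σ i) =
      (∑ σ : Equiv.Perm (Fin r), ∏ i, G (Sum.inl i) (Sum.inl (σ i))) *
        ∑ σ : Equiv.Perm (Fin s), ∏ i, G (Sum.inr i) (Sum.inr (σ i)) := by
  classical
  symm
  rw [Finset.sum_mul_sum, ← Finset.sum_product', Finset.univ_product_univ]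
  rw [← Finset.sum_subset (Finset.subset_univ
    ((sumCongrHom (Fin r) (Fin s)).range : Set (Perm (Fin r ⊕ Fin s))).toFinset)]
  · refine Finset.sum_nbij (fun σ ↦ σ.fst.sumCongr σ.snd) ?_ ?_ ?_ ?_
    · intro σ₁₂ _
      rw [Set.mem_toFinset]
      exact ⟨σ₁₂, rfl⟩
    · intro σ₁ _ σ₂ _
      dsimp only
      intro h
      have h2 : ∀ x, Perm.sumCongr σ₁.fst σ₁.snd x = Perm.sumCongr σ₂.fst σ₂.snd x :=
        DFunLike.congr_fun h
      simp only [Sum.map_inr, Sum.map_inl, Perm.sumCongr_apply, Sum.forall, Sum.inl.injEq,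
        Sum.inr.injEq] at h2
      ext x
      · exact congrArg _ (h2.left x)
      · exact congrArg _ (h2.right x)
    · intro σ hσ
      rw [Finset.mem_coe, Set.mem_toFinset] at hσ
      obtain ⟨σ₁₂, hσ₁₂⟩ := hσ
      use σ₁₂
      rw [← hσ₁₂]
      simp
    · simp only [forall_prop_of_true, Prod.forall, Finset.mem_univ]
      intro σ₁ σ₂
      rw [Fintype.prod_sum_type]
      simp_rw [Equiv.sumCongr_apply, Sum.map_inr, Sum.map_inl]
  · rintro σ - hσn
    have h1 : ¬∀ x, ∃ y, Sum.inl y = σ (Sum.inl x) := by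
      rw [Set.mem_toFinset] at hσn
      simpa only [Set.MapsTo, Set.mem_range, forall_exists_index, forall_apply_eq_imp_iff] using
        mt mem_sumCongrHom_range_of_perm_mapsTo_inl hσn
    obtain ⟨a, ha⟩ := not_forall.mp h1
    rcases hx : σ (Sum.inl a) with a2 | b
    · have hn := (not_exists.mp ha) a2
      exact absurd hx.symm hn
    · rw [Finset.prod_eq_zero (Finset.mem_univ (Sum.inl a))]
      rw [hx, h]

lemma permRel_succ' (h : C.PermRel ω n (chi (-1))) : C.PermRel ω (n + 1) (chi (-1)) := by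
  intro Y x y
  simp only [chi_neg_one, one_smul]
  rw [← Equiv.sum_comp decomposeFin.symm, Fintype.sum_prod_type]
  refine Finset.sum_eq_zero fun p _ => ?_
  have h1 := h Y (fun i => x i.succ) (fun j => y (Equiv.swap 0 p j.succ))
  simp only [chi_neg_one, one_smul] at h1
  have h2 := congrArg (fun t => C.pull (lift (x 0) (y p)) ω * t) h1
  simp only [mul_zero, Finset.mul_sum] at h2
  rw [← h2]
  refine Finset.sum_congr rfl fun τ _ => ?_
  rw [Fin.prod_univ_succ]
  simp only [decomposeFin_symm_apply_zero, decomposeFin_symm_apply_succ]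

lemma permRel_mono' {m n : ℕ} (hmn : m ≤ n) (h : C.PermRel ω m (chi (-1))) :
    C.PermRel ω n (chi (-1)) := by
  induction n, hmn using Nat.le_induction with
  | base => exact h
  | succ n _ ih => exact permRel_succ' ih

/-- If the cycles `a i` and `b j` are orthogonal for the form given by `ω`, then the product of the
two permanents vanishes. -/
theorem perm_mul_perm {r s : ℕ} (h : C.PermRel ω (r + s) (chi (-1))) (a : Fin r → C.CH X)
    (b : Fin s → C.CH X) (hab : ∀ i j, C.deg X (C.act ω (a i) * b j) = 0)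
    (y : Fin r → (Y ⟶ X)) (x : Fin s → (Y ⟶ X)) :
    (∑ σ : Equiv.Perm (Fin r), ∏ i, C.pull (y (σ i)) (C.act ω (a i))) *
      (∑ σ : Equiv.Perm (Fin s), ∏ i, C.pull (x i) (coact C ω (b (σ i)))) = 0 := by
  classical
  set S : Finset (Fin (r + s)) := Finset.univ.image (Fin.castAdd s) with hS
  set T : Finset (Fin (r + s)) := Finset.univ.image (Fin.natAdd r) with hT
  have hS1 : ∀ i, Fin.castAdd s i ∈ S := fun i => Finset.mem_image.2 ⟨i, Finset.mem_univ _, rfl⟩
  have hS2 : ∀ i, Fin.natAdd r i ∉ S := by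
    intro i hi
    obtain ⟨j, -, hj⟩ := Finset.mem_image.1 hi
    have := congrArg Fin.val hj
    simp only [Fin.val_castAdd, Fin.val_natAdd] at this
    omega
  have hT1 : ∀ i, Fin.natAdd r i ∈ T := fun i => Finset.mem_image.2 ⟨i, Finset.mem_univ _, rfl⟩
  have hT2 : ∀ i, Fin.castAdd s i ∉ T := by
    intro i hi
    obtain ⟨j, -, hj⟩ := Finset.mem_image.1 hi
    have := congrArg Fin.val hj
    simp only [Fin.val_castAdd, Fin.val_natAdd] at this
    omega
  have h1 := permRel_entries h (Fin.append a fun _ => 0) (Fin.append (fun _ => 0) b) S T Y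
    (Fin.append y x) (Fin.append y x)
  simp only [chi_neg_one, one_smul] at h1
  set G : Fin r ⊕ Fin s → Fin r ⊕ Fin s → C.CH Y := fun i j =>
    entry ω S T (Fin.append a fun _ => 0) (Fin.append (fun _ => 0) b) (Fin.append y x)
      (Fin.append y x) (finSumFinEquiv i) (finSumFinEquiv j) with hG
  have h2 : ∑ σ : Equiv.Perm (Fin r ⊕ Fin s), ∏ i, G i (σ i) = 0 := by
    rw [← h1, ← Equiv.sum_comp (finSumFinEquiv (m := r) (n := s)).permCongr]
    refine Finset.sum_congr rfl fun σ _ => ?_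
    rw [← Equiv.prod_comp (finSumFinEquiv (m := r) (n := s))]
    refine Finset.prod_congr rfl fun i _ => ?_
    rw [Equiv.permCongr_apply, Equiv.symm_apply_apply]
  rw [sum_perm_block G] at h2
  · rw [← h2]
    refine congrArg₂ (· * ·) ?_ ?_
    · refine Finset.sum_congr rfl fun σ _ => Finset.prod_congr rfl fun i _ => ?_
      simp only [hG, finSumFinEquiv_apply_left, entry, if_pos (hS1 i), if_neg (hT2 _),
        Fin.append_left]
    · refine Finset.sum_congr rfl fun σ _ => Finset.prod_congr rfl fun i _ => ?_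
      simp only [hG, finSumFinEquiv_apply_right, entry, if_neg (hS2 i), if_pos (hT1 _),
        Fin.append_right]
  · intro i j
    simp only [hG, finSumFinEquiv_apply_left, finSumFinEquiv_apply_right, entry, if_pos (hS1 i),
      if_pos (hT1 j), Fin.append_left, Fin.append_right, hab, map_zero]

/-! ### exterior products -/

lemma pull_symProd {n : ℕ} (a : Fin (n + 1) → C.CH X) (f : Y ⟶ pw X n) :
    C.pull f (symProd C a) = ∑ σ : Equiv.Perm (Fin (n + 1)), ∏ i, C.pull (f ≫ pr X n (σ i)) (a i) := by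
  rw [symProd, map_sum]
  refine Finset.sum_congr rfl fun σ _ => ?_
  rw [map_prod]
  exact Finset.prod_congr rfl fun i _ => (C.pull_comp _ _ _).symm

theorem extProd_alt_eq_zero {m n : ℕ} (h : C.PermRel ω (m + 1 + (n + 1)) (chi 1))
    (a : Fin (m + 1) → C.CH X) (b : Fin (n + 1) → C.CH X)
    (hab : ∀ i j, C.deg X (C.act ω (a i) * b j) = 0) :
    extProd C (altProd C fun i => C.act ω (a i)) (altProd C fun j => coact C ω (b j)) = 0 := by
  have h1 := det_mul_det h a b hab
    (fun j => (fst (pw X m) (pw X n)) ≫ pr X m j) (fun j => (snd (pw X m) (pw X n)) ≫ pr X n j)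
  rw [extProd, pull_altProd, pull_altProd, ← h1]
  congr 1
  rw [← Matrix.det_transpose]
  rfl

theorem extProd_sym_eq_zero {m n : ℕ} (h : C.PermRel ω (m + 1 + (n + 1)) (chi (-1)))
    (a : Fin (m + 1) → C.CH X) (b : Fin (n + 1) → C.CH X)
    (hab : ∀ i j, C.deg X (C.act ω (a i) * b j) = 0) :
    extProd C (symProd C fun i => C.act ω (a i)) (symProd C fun j => coact C ω (b j)) = 0 := by
  have h1 := perm_mul_perm h a b hab
    (fun j => (fst (pw X m) (pw X n)) ≫ pr X m j) (fun j => (snd (pw X m) (pw X n)) ≫ pr X n j)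
  rw [extProd, pull_symProd, pull_symProd, ← h1]
  congr 1
  rw [← Equiv.sum_comp (Equiv.inv (Equiv.Perm (Fin (n + 1))))]
  refine Finset.sum_congr rfl fun σ _ => ?_
  rw [← Equiv.prod_comp σ]
  refine Finset.prod_congr rfl fun i _ => ?_
  simp

/-! ### the projectors -/

variable {p p' : C.CH (X.prod X)} {q : ℕ}

lemma IsKunneth.proj {W : WeilTheory.{u, v, w} C} (hp : IsKunneth W q p) :
    IsProjector (W.gr X) q (W.act p) := hp.2.2

lemma chowAct_eq (γ : C.CH (X.prod Y)) (a : C.CH X) : chowAct C γ a = C.act γ a := rfl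

/-- The even parts of a Kimura finite-dimensional variety are evenly finite-dimensional. -/
lemma IsKunneth.even (hP : C.Polarized) {W : WeilTheory.{u, v, w} C}
    (hX : C.KimuraFinite (C.diagC X)) (hp : IsKunneth W q p) (hq : Even q) :
    ∃ m, C.ExtVanishes p m := by
  obtain ⟨e, -, f, hfd, hee, hff, -, -, hef, ⟨m, he⟩, n, hf⟩ := hX
  obtain ⟨hm, he'⟩ := ChowTheory.extVanishes_iff.1 he
  obtain ⟨hn, hf'⟩ := ChowTheory.symVanishes_iff.1 hf
  obtain ⟨n, rfl⟩ : ∃ n', n = n' + 1 := ⟨n - 1, by omega⟩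
  refine ⟨m, ChowTheory.extVanishes_iff.2 ⟨hm, permRel_of_parity W hef he' hf' hp.1 hfd
    hp.2.1 ?_⟩⟩
  intro j a ha
  rw [W.act_comp _ hp.1, W.act_comp _ hfd, hp.proj j a ha]
  split_ifs with h
  · rw [act_even_of_symVanishes W hP hf (h ▸ hq) ha, map_zero]
  · rw [map_zero, map_zero]

lemma IsKunneth.odd (hP : C.Polarized) {W : WeilTheory.{u, v, w} C}
    (hX : C.KimuraFinite (C.diagC X)) (hp : IsKunneth W q p) (hq : Odd q) :
    ∃ m, C.SymVanishes p m := by
  obtain ⟨e, hed, f, -, hee, hff, -, -, hef, ⟨m, he⟩, n, hf⟩ := hX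
  obtain ⟨hm, he'⟩ := ChowTheory.extVanishes_iff.1 he
  obtain ⟨hn, hf'⟩ := ChowTheory.symVanishes_iff.1 hf
  obtain ⟨m, rfl⟩ : ∃ m', m = m' + 1 := ⟨m - 1, by omega⟩
  refine ⟨n, ChowTheory.symVanishes_iff.2 ⟨hn, permRel_of_parity W (by rw [add_comm, hef]) hf'
    (by rw [neg_neg]; exact he') hp.1 hed hp.2.1 ?_⟩⟩
  intro j a ha
  rw [W.act_comp _ hp.1, W.act_comp _ hed, hp.proj j a ha]
  split_ifs with h
  · rw [act_odd_of_extVanishes W hP he (h ▸ hq) ha, map_zero]
  · rw [map_zero, map_zero]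

/-- Splitting off the algebraic part of an evenly finite-dimensional motive. -/
lemma exists_split_of_act (hP : C.Polarized) {e : C.CH (X.prod X)} (hee : C.comp e e = e)
    (he : ∃ m, C.ExtVanishes e m) {r : ℕ} (x y : Fin r → C.CH X)
    (hx : ∀ i, C.act e (x i) = x i)
    (hxy : ∀ i j, C.deg X (x i * y j) = if i = j then 1 else 0) :
    ∃ e' : C.CH (X.prod X), ∃ N : ℕ, (N : ℚ) = C.motDim e - r + 1 ∧ C.PermRel e' N (chi 1) ∧
      (∀ a, NumTrivial C a → C.act e' a = C.act e a) ∧
      ∀ a, NumTrivial C a → coact C e' a = coact C e a := by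
  set y' : Fin r → C.CH X := fun i => coact C e (y i) with hy'
  have hey : ∀ i, coact C e (y' i) = y' i := fun i => by
    rw [hy', ← coact_comp, hee]
  have hdual : ∀ i j, C.deg X (x i * y' j) = if i = j then 1 else 0 := by
    intro i j
    rw [← deg_act hP, hx, ← hxy i j]
  set t : C.CH (X.prod X) := ∑ i, C.ext (y' i) (x i) with ht
  have hte : C.comp t e = t := by
    rw [ht, C.sum_comp]
    exact Finset.sum_congr rfl fun i _ => by rw [ext_comp, hx]
  have het : C.comp e t = t := by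
    rw [ht, C.comp_sum]
    exact Finset.sum_congr rfl fun i _ => by rw [comp_ext, hey]
  have htt : C.comp t t = t := by
    rw [ht, C.sum_comp]
    refine Finset.sum_congr rfl fun i _ => ?_
    rw [ext_comp, C.act_sum, LinearMap.sum_apply]
    congr 1
    rw [Finset.sum_eq_single i]
    · rw [C.act_ext, hdual, if_pos rfl, one_smul]
    · intro j _ hji
      rw [C.act_ext, hdual, if_neg (Ne.symm hji), zero_smul]
    · intro h; exact absurd (Finset.mem_univ i) h
  have hcomp : C.comp (e - t) e = e - t := by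
    rw [sub_comp', hee, hte]
  have hidem : C.comp (e - t) (e - t) = e - t := by
    rw [comp_sub', hcomp, sub_comp', het, htt, sub_self, sub_zero]
  have hdim : C.motDim (e - t) = C.motDim e - r := by
    have h1 : C.motDim t = r := by
      rw [ht, ChowTheory.motDim, map_sum, map_sum]
      have h2 : ∀ i, C.deg X (C.pull (Obj.diag X) (C.ext (y' i) (x i))) = 1 := by
        intro i
        rw [C.pull_diag_ext, mul_comm, hdual, if_pos rfl]
      rw [Finset.sum_congr rfl fun i _ => h2 i]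
      simp
    rw [← h1]
    simp only [ChowTheory.motDim, map_sub]
  obtain ⟨m, hm⟩ := he
  obtain ⟨hm1, hm2⟩ := ChowTheory.extVanishes_iff.1 hm
  have h1 : ∃ m, C.ExtVanishes (e - t) m :=
    ⟨m, ChowTheory.extVanishes_iff.2 ⟨hm1, hm2.restrict hcomp⟩⟩
  obtain ⟨N, hN, hN2⟩ := ((ChowTheory.ext_tfae hP hidem).out 0 1).1 h1
  refine ⟨e - t, N, by rw [hN, hdim], (ChowTheory.extVanishes_iff.1 hN2).2, ?_, ?_⟩
  · intro a ha
    rw [C.act_sub, LinearMap.sub_apply, ht, C.act_sum, LinearMap.sum_apply, sub_eq_self]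
    refine Finset.sum_eq_zero fun i _ => ?_
    rw [C.act_ext, ha, zero_smul]
  · intro a ha
    rw [coact_sub, ht, coact_sum, sub_eq_self]
    refine Finset.sum_eq_zero fun i _ => ?_
    rw [coact_ext, mul_comm, ha, zero_smul]

lemma transp_transp (γ : C.CH (X.prod X)) : C.transp (C.transp γ) = γ := by
  rw [ChowTheory.transp, ChowTheory.transp, ← C.pull_comp]
  have : swap X X ≫ swap X X = 𝟙 _ := by apply hom_ext_prod <;> simp
  rw [this, C.pull_id]

lemma deg_act_eq_zero (hP : C.Polarized) {a : C.CH X} (ha : ∀ b : C.CH X, C.deg X (a * b) = 0)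
    (γ : C.CH (X.prod X)) (b : C.CH X) : C.deg X (C.act γ a * b) = 0 := by
  rw [deg_act hP, ha]

/-- Insertion of cycles of the motive and of its dual. -/
lemma insert_cycles (hP : C.Polarized) {e' : C.CH (X.prod X)} (hd : IsDualTo C p' p)
    (h1 : ∀ a, NumTrivial C a → C.act e' a = C.act p a)
    (h2 : ∀ a, NumTrivial C a → coact C e' a = coact C p a) :
    ∃ γ θ θ' : C.CH (X.prod X), (∀ (n : ℕ) (ε : ℤˣ), C.PermRel e' n (chi ε) →
        C.PermRel γ n (chi ε)) ∧
      (∀ a, IsTrivialCycle C p a → C.act γ (C.act θ' a) = a) ∧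
      ∀ b, IsTrivialCycle C p' b → coact C γ (C.act θ b) = b := by
  obtain ⟨θ, η, h3, h4⟩ := hd
  change C.comp η θ = C.transp p at h4
  have hte : C.comp p' θ = C.comp θ (C.transp p) := by
    rw [← h4, ← ChowTheory.comp_assoc, h3]
  refine ⟨C.comp (C.transp η) e', θ, C.transp θ, fun n ε h => permRel_comp_left h _, ?_, ?_⟩
  · rintro a ⟨ha, ha'⟩
    change C.act p a = a at ha
    rw [C.act_comp, ← C.act_comp (C.transp θ), C.comp_transp, h4, transp_transp, ha, h1 _ ha', ha]
  · rintro b ⟨hb, hb'⟩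
    change C.act p' b = b at hb
    rw [coact_comp, h2 _ (deg_act_eq_zero hP hb' _), coact_eq_act p, ← C.act_comp, ← hte,
      C.act_comp, hb, coact_eq_act, transp_transp, ← C.act_comp, h3, hb]

lemma gradedProd_of_even (hq : Even q) {n : ℕ} (a : Fin (n + 1) → C.CH X) :
    gradedProd C q a = altProd C a := by
  rw [gradedProd, altProd]
  refine Finset.sum_congr rfl fun σ _ => ?_
  congr 1
  rw [pow_succ]
  rcases Int.units_eq_one_or (Equiv.Perm.sign σ) with h | h
  · rw [h]; simp
  · rw [h]; simp [hq.neg_one_pow]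

lemma gradedProd_of_odd (hq : Odd q) {n : ℕ} (a : Fin (n + 1) → C.CH X) :
    gradedProd C q a = symProd C a := by
  rw [gradedProd, symProd]
  refine Finset.sum_congr rfl fun σ _ => ?_
  rcases Int.units_eq_one_or (Equiv.Perm.sign σ) with h | h
  · rw [h, Units.val_one, Int.cast_one, one_pow, one_smul]; rfl
  · rw [h, Units.val_neg, Units.val_one, Int.cast_neg, Int.cast_one, hq.add_one.neg_one_pow,
      one_smul]; rfl

/-- The theorem on the cycles of `h^q(X)`. -/
theorem murreHalf (hP : C.Polarized) (W : WeilTheory.{u, v, w} C)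
    (hX : C.KimuraFinite (C.diagC X)) (hp : IsKunneth W q p) (hd : IsDualTo C p' p)
    {r : ℕ} (hr : HasRank C p r) {m n : ℕ} (hmn : rk (W.gr X q) < r + ((m + 1) + (n + 1)))
    (a : Fin (m + 1) → C.CH X) (b : Fin (n + 1) → C.CH X) (ha : ∀ i, IsTrivialCycle C p (a i))
    (hb : ∀ j, IsTrivialCycle C p' (b j)) :
    exterior C (gradedProd C q a) (gradedProd C q b) = 0 := by
  change extProd C (gradedProd C q a) (gradedProd C q b) = 0
  have hdim : C.motDim p = (-1) ^ q * (rk (W.gr X q) : ℚ) := motDim_of_isProjector W hp.proj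
  obtain ⟨x, y, hxy⟩ := hr
  rcases Nat.even_or_odd q with hq | hq
  · obtain ⟨e', N, hN, hrel, h1, h2⟩ := exists_split_of_act hP hp.2.1 (hp.even hP hX hq) x y
      (fun i => (hxy i i).1) (fun i j => (hxy i j).2)
    have hN' : N ≤ m + 1 + (n + 1) := by
      rw [hdim, hq.neg_one_pow, one_mul] at hN
      have : (N : ℚ) + r = rk (W.gr X q) + 1 := by rw [hN]; ring
      have : N + r = rk (W.gr X q) + 1 := by exact_mod_cast this
      omega
    obtain ⟨γ, θ, θ', h3, h4, h5⟩ := insert_cycles hP hd h1 h2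
    have h6 := extProd_alt_eq_zero (h3 _ _ (permRel_mono hN' hrel))
      (fun i => C.act θ' (a i)) (fun j => C.act θ (b j)) (fun i j => by rw [h4 _ (ha i)]; exact (ha i).2 _)
    rw [show (fun i => C.act γ (C.act θ' (a i))) = a from funext fun i => h4 _ (ha i),
      show (fun j => coact C γ (C.act θ (b j))) = b from funext fun j => h5 _ (hb j)] at h6
    rwa [gradedProd_of_even hq, gradedProd_of_even hq]
  · obtain ⟨N, hN, hN2⟩ := ((ChowTheory.sym_tfae hP hp.2.1).out 0 1).1 (hp.odd hP hX hq)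
    obtain ⟨hN1, hrel⟩ := ChowTheory.symVanishes_iff.1 hN2
    have hr : r = 0 := by
      by_contra hr
      obtain ⟨h1, h2⟩ := hxy ⟨0, by omega⟩ ⟨0, by omega⟩
      rw [if_pos rfl, ← h1] at h2
      change C.deg X (C.act p _ * _) = 1 at h2
      rw [deg_act_mul (ChowTheory.one_ne_zero_of_polarized hP X) hN1 hrel] at h2
      exact zero_ne_one h2
    have hN' : N ≤ m + 1 + (n + 1) := by
      rw [hdim, hq.neg_one_pow, neg_one_mul, neg_neg] at hN
      have : N = rk (W.gr X q) + 1 := by exact_mod_cast hN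
      omega
    obtain ⟨γ, θ, θ', h3, h4, h5⟩ := insert_cycles hP hd (e' := p) (fun _ _ => rfl)
      (fun _ _ => rfl)
    have h6 := extProd_sym_eq_zero (h3 _ _ (permRel_mono' hN' hrel))
      (fun i => C.act θ' (a i)) (fun j => C.act θ (b j)) (fun i j => by rw [h4 _ (ha i)]; exact (ha i).2 _)
    rw [show (fun i => C.act γ (C.act θ' (a i))) = a from funext fun i => h4 _ (ha i),
      show (fun j => coact C γ (C.act θ (b j))) = b from funext fun j => h5 _ (hb j)] at h6
    rwa [gradedProd_of_odd hq, gradedProd_of_odd hq]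

end Pool.Agent.H836
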