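import Pool.Agent.H836.GDet
import Pool.Agent.H836.RowRel
import Pool.Agent.H836.Det
import Pool.Agent.H836.MurreHalf
import Pool.Agent.H836.DBDefs

/-!
# Motives with an algebraic determinant
-/

open CategoryTheory CategoryTheory.Limits AlgebraicGeometry
open Pool.Agent.H914 Pool.Agent.H914.VarClass Pool.Agent.H914.VarClass.Obj
open Pool.Agent.R903 Equiv Equiv.Perm Pool.Agent.R903.PermCore

universe u v w

namespace Pool.Agent.H836.DB

variable {k : Type u} [Field k] {𝒱 : VarClass k} {C : ChowTheory.{u, v} 𝒱}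
variable {X Y Z A B : 𝒱.Obj} {ω : C.CH (X.prod X)} {n : ℕ} {ε : ℤˣ}

/-- The sum of the permutations, with signs for `ε = 1`. -/
noncomputable def sPower (C : ChowTheory.{u, v} 𝒱) {X : 𝒱.Obj} (ω : C.CH (X.prod X)) (ε : ℤˣ)
    (n : ℕ) : C.CH ((pw X n).prod (pw X n)) :=
  ∑ σ : Perm (Fin (n + 1)), (chi ε σ : ℚ) • C.permCycle ω n σ

lemma pull_sPower (f g : Y ⟶ pw X n) : C.pull (lift f g) (sPower C ω ε n) =
    gd ε fun i j => C.pull (lift (f ≫ pr X n i) (g ≫ pr X n j)) ω := by
  rw [sPower, map_sum, gd]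
  refine Finset.sum_congr rfl fun σ _ => ?_
  rw [map_smul, ChowTheory.permCycle, map_prod]
  congr 1
  refine Finset.prod_congr rfl fun i _ => ?_
  rw [← C.pull_comp, comp_lift, Obj.lift_fst_assoc, Obj.lift_snd_assoc]

/-- The power of top degree has rank one. -/
lemma sPower_exchange (h : C.PermRel ω (n + 1 + 1) (chi ε)) (p q r s : Y ⟶ pw X n) :
    C.pull (lift p q) (sPower C ω ε n) * C.pull (lift r s) (sPower C ω ε n) =
      ((ε : ℤ) : C.CH Y) ^ (n + 1) *
        (C.pull (lift p s) (sPower C ω ε n) * C.pull (lift r q) (sPower C ω ε n)) := by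
  rw [pull_sPower, pull_sPower, pull_sPower, pull_sPower]
  exact gd_exchange ε (fun (x : Y ⟶ X) (y : Y ⟶ X) => C.pull (lift x y) ω)
    (fun x y => h Y x y) _ _ _ _

lemma eps_cast (Y : 𝒱.Obj) (ε : ℤˣ) (n : ℕ) : ((ε : ℤ) : C.CH Y) ^ n =
    algebraMap ℚ (C.CH Y) (((ε : ℤ) : ℚ) ^ n) := by
  rw [map_pow, map_intCast]

/-- Insertion of a cycle in the second variable of the first factor. -/
lemma sPower_insert_snd (h : C.PermRel ω (n + 1 + 1) (chi ε)) (δ : C.CH (pw X n))
    (p r s : Y ⟶ pw X n) :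
    C.pull p (coact C (sPower C ω ε n) δ) * C.pull (lift r s) (sPower C ω ε n) =
      (((ε : ℤ) : ℚ) ^ (n + 1)) • (C.pull (lift p s) (sPower C ω ε n) *
        C.pull r (coact C (sPower C ω ε n) δ)) := by
  have h1 := sPower_exchange h (Y := Y.prod (pw X n)) (fst _ _ ≫ p) (snd _ _) (fst _ _ ≫ r)
    (fst _ _ ≫ s)
  have h2 := congrArg (fun z => C.push (fst Y (pw X n)) (C.pull (snd Y (pw X n)) δ * z)) h1
  have h3 : C.pull (lift (fst Y (pw X n) ≫ r) (fst Y (pw X n) ≫ s)) (sPower C ω ε n) =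
      C.pull (fst Y (pw X n)) (C.pull (lift r s) (sPower C ω ε n)) := by
    rw [← C.pull_comp, comp_lift]
  have h4 : C.pull (lift (fst Y (pw X n) ≫ p) (fst Y (pw X n) ≫ s)) (sPower C ω ε n) =
      C.pull (fst Y (pw X n)) (C.pull (lift p s) (sPower C ω ε n)) := by
    rw [← C.pull_comp, comp_lift]
  rw [h3, h4, eps_cast, ← Algebra.smul_def, mul_smul_comm, map_smul, ← mul_assoc, C.push_mul,
    push_insert_snd, mul_left_comm, C.mul_push, push_insert_snd] at h2
  exact h2

lemma sPower_insert (h : C.PermRel ω (n + 1 + 1) (chi ε)) (δ' δ : C.CH (pw X n))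
    (p s : Y ⟶ pw X n) :
    C.pull p (coact C (sPower C ω ε n) δ') * C.pull s (C.act (sPower C ω ε n) δ) =
      (((ε : ℤ) : ℚ) ^ (n + 1) * C.deg (pw X n) (coact C (sPower C ω ε n) δ' * δ)) •
        C.pull (lift p s) (sPower C ω ε n) := by
  have h1 := sPower_insert_snd h δ' (Y := Y.prod (pw X n)) (fst _ _ ≫ p) (snd _ _)
    (fst _ _ ≫ s)
  have h2 := congrArg (fun z => C.push (fst Y (pw X n)) (C.pull (snd Y (pw X n)) δ * z)) h1
  have h4 : C.pull (lift (fst Y (pw X n) ≫ p) (fst Y (pw X n) ≫ s)) (sPower C ω ε n) =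
      C.pull (fst Y (pw X n)) (C.pull (lift p s) (sPower C ω ε n)) := by
    rw [← C.pull_comp, comp_lift]
  rw [C.pull_comp, h4, mul_left_comm, C.mul_push, push_insert, mul_smul_comm, map_smul,
    mul_left_comm, C.mul_push, push_insert_deg, mul_comm (C.pull (lift p s) _),
    ← Algebra.smul_def, smul_smul] at h2
  exact h2

lemma sPower_mem (he : ω ∈ C.gr (X.prod X) X.dim) :
    sPower C ω ε n ∈ C.gr ((pw X n).prod (pw X n)) (pw X n).dim := by
  refine Submodule.sum_mem _ fun σ _ => Submodule.smul_mem _ _ ?_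
  have h1 := prod_mem (C := C) Finset.univ (fun i => C.pull (lift (fst (pw X n) (pw X n) ≫ pr X n i)
    (snd (pw X n) (pw X n) ≫ pr X n (σ i))) ω) (fun _ => X.dim) (fun i _ => C.pull_mem _ he)
  rw [Finset.sum_const, Finset.card_univ, Fintype.card_fin, smul_eq_mul] at h1
  rw [dim_pw]
  exact h1

/-- The relation with the cycles `a i` in the rows from the `l`-th one on. -/
def TailRel (C : ChowTheory.{u, v} 𝒱) {X : 𝒱.Obj} (ε : ℤˣ) (e : C.CH (X.prod X))
    (a : ℕ → C.CH X) (N l : ℕ) : Prop :=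
  ∀ (Y : 𝒱.Obj) (ρ : ℕ → C.CH (Y.prod X)), (∀ i, C.comp (ρ i) e = ρ i) →
    RowRel C (chi ε : Equiv.Perm (Fin N) → ℚ) fun i =>
      if (i : ℕ) < l then ρ i else C.pull (snd Y X) (a (i - l))

lemma TailRel.descend (hee : C.comp ω ω = ω) {a : ℕ → C.CH X} (ha : ∀ i, C.act ω (a i) = a i)
    {N l : ℕ} (ht : C.motDim ω ≠ ((ε : ℤ) : ℚ) * N) (h : TailRel C ε ω a (N + 1) (l + 1)) :
    TailRel C ε ω a N l := by
  intro Y ρ hρ
  set ρ' : ℕ → C.CH ((Y.prod X).prod X) := fun i => Nat.casesOn i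
    (C.pull (lift (fst (Y.prod X) X ≫ snd Y X) (snd (Y.prod X) X)) ω)
    fun i => C.pull (lift (fst (Y.prod X) X ≫ fst Y X) (snd (Y.prod X) X)) (ρ i) with hρ'
  have h1 := h (Y.prod X) ρ' (by
    intro i
    cases i with
    | zero =>
      change C.comp (C.pull _ ω) ω = C.pull _ ω
      rw [comp_pull_left, hee]
    | succ i =>
      change C.comp (C.pull _ (ρ i)) ω = C.pull _ (ρ i)
      rw [comp_pull_left, hρ])
  have h2 : (fun i : Fin (N + 1) => if (i : ℕ) < l + 1 then ρ' i
      else C.pull (snd (Y.prod X) X) (a (i - (l + 1)))) =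
      Fin.cons (C.pull (lift (fst (Y.prod X) X ≫ snd Y X) (snd (Y.prod X) X)) ω)
        fun i => C.pull (lift (fst (Y.prod X) X ≫ fst Y X) (snd (Y.prod X) X))
          (if (i : ℕ) < l then ρ i else C.pull (snd Y X) (a (i - l))) := by
    funext i
    refine Fin.cases ?_ (fun i => ?_) i
    · rw [Fin.cons_zero, if_pos (by simp)]
      rfl
    · rw [Fin.cons_succ, Fin.val_succ]
      by_cases hi : (i : ℕ) < l
      · rw [if_pos (by omega), if_pos hi]
      · rw [if_neg (by omega), if_neg hi, ← C.pull_comp, Obj.lift_snd,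
          show (i : ℕ) + 1 - (l + 1) = i - l by omega]
  rw [h2] at h1
  have h4 : ∀ i : Fin N, C.comp (if (i : ℕ) < l then ρ i else C.pull (snd Y X) (a (i - l)))
      ω = if (i : ℕ) < l then ρ i else C.pull (snd Y X) (a (i - l)) := by
    intro i
    split_ifs
    · exact hρ _
    · exact comp_pull_snd _ (ha _)
  have h5 := RowRel.trace h4 h1
  rw [ptr_chi] at h5
  intro Z g y
  have h6 := h5 Z g y
  simp only [mul_smul] at h6
  rw [← Finset.smul_sum] at h6
  exact (smul_eq_zero.1 h6).resolve_left (sub_ne_zero.2 ht)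

lemma TailRel.descend_all (hee : C.comp ω ω = ω) {a : ℕ → C.CH X}
    (ha : ∀ i, C.act ω (a i) = a i) {N l : ℕ} {b : ℕ}
    (hdim : C.motDim ω = ((ε : ℤ) : ℚ) * b) (ht : N + l ≤ b)
    (h : TailRel C ε ω a (N + l) l) : TailRel C ε ω a N 0 := by
  induction l with
  | zero => exact h
  | succ l ih =>
    refine ih (by omega) (TailRel.descend hee ha ?_ h)
    intro h1
    rw [hdim] at h1
    have h2 : (((ε : ℤ) : ℚ)) ≠ 0 := by
      rcases Int.units_eq_one_or ε with rfl | rfl <;> simp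
    have h3 := mul_left_cancel₀ h2 h1
    have : b = N + l := by exact_mod_cast h3
    omega

lemma TailRel.zero {a : ℕ → C.CH X} {m : ℕ} (h : TailRel C ε ω a (m + 1) 0)
    (hee : C.comp ω ω = ω) :
    ∑ σ : Perm (Fin (m + 1)), (chi ε σ : ℚ) • ∏ i : Fin (m + 1), C.pull (pr X m (σ i)) (a i) = 0 := by
  have h1 := h X (fun _ => ω) (fun _ => hee) (pw X m) (pr X m 0) (pr X m)
  rw [← h1]
  refine Finset.sum_congr rfl fun σ _ => ?_
  congr 1
  refine Finset.prod_congr rfl fun i _ => ?_
  simp only [Nat.not_lt_zero, if_false, Nat.sub_zero]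
  rw [← C.pull_comp, Obj.lift_snd]

/-- Insertion of classes on `Y × X` in the rows of a set; the other rows do not depend on the first
variable. -/
theorem MRel.rowRelTail {a : Equiv.Perm (Fin n) → ℚ} {γ : Fin n → C.CH (X.prod X)}
    (h : MRel C a γ) (l : ℕ) (c : ℕ → C.CH X)
    (hγ : ∀ i : Fin n, l ≤ (i : ℕ) → γ i = C.pull (snd X X) (c (i - l)))
    (ρ : ℕ → C.CH (Y.prod X)) :
    RowRel C a fun i => if (i : ℕ) < l then C.comp (ρ i) (γ i) else C.pull (snd Y X) (c (i - l)) := by
  classical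
  have key : ∀ (S : Finset (Fin n)) (Z : 𝒱.Obj) (g : Z ⟶ Y) (x y : Fin n → (Z ⟶ X)),
      ∑ σ, a σ • ∏ i, (if i ∈ S then C.pull (lift g (y (σ i))) (C.comp (ρ i) (γ i))
        else C.pull (lift (x i) (y (σ i))) (γ i)) = 0 := by
    intro S
    induction S using Finset.induction_on with
    | empty =>
      intro Z g x y
      simpa using h Z x y
    | insert j s hj ih =>
      intro Z g x y
      have h1 := ih (Z.prod X) (fst Z X ≫ g) (fun i => if i = j then snd Z X else fst Z X ≫ x i)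
        (fun i => fst Z X ≫ y i)
      have h2 := congrArg (fun z => C.push (fst Z X)
        (C.pull (lift (fst Z X ≫ g) (snd Z X)) (ρ j) * z)) h1
      simp only [mul_zero, map_zero, Finset.mul_sum, map_sum, mul_smul_comm, map_smul] at h2
      rw [← h2]
      refine Finset.sum_congr rfl fun σ _ => ?_
      congr 1
      rw [← Finset.mul_prod_erase Finset.univ _ (Finset.mem_univ j),
        ← Finset.mul_prod_erase Finset.univ _ (Finset.mem_univ j)]
      have h3 : ∀ i ∈ Finset.univ.erase j,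
          (if i ∈ s then C.pull (lift (fst Z X ≫ g) (fst Z X ≫ y (σ i))) (C.comp (ρ i) (γ i))
            else C.pull (lift (if i = j then snd Z X else fst Z X ≫ x i) (fst Z X ≫ y (σ i)))
              (γ i)) =
          C.pull (fst Z X) (if i ∈ insert j s then
            C.pull (lift g (y (σ i))) (C.comp (ρ i) (γ i))
              else C.pull (lift (x i) (y (σ i))) (γ i)) := by
        intro i hi
        have hij := (Finset.mem_erase.1 hi).1
        by_cases his : i ∈ s
        · rw [if_pos his, if_pos (Finset.mem_insert_of_mem his), ← C.pull_comp, comp_lift]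
        · have : i ∉ insert j s := by simp [hij, his]
          rw [if_neg his, if_neg this, if_neg hij, ← C.pull_comp, comp_lift]
      rw [Finset.prod_congr rfl h3, ← map_prod, ← mul_assoc, C.push_mul]
      congr 1
      rw [if_pos (Finset.mem_insert_self j s), if_neg hj, if_pos rfl, ChowTheory.pull_comp_corr]
  intro Z g y
  rw [← key (Finset.univ.filter fun i : Fin n => (i : ℕ) < l) Z g y y]
  refine Finset.sum_congr rfl fun σ _ => ?_
  congr 1
  refine Finset.prod_congr rfl fun i _ => ?_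
  beta_reduce
  by_cases hi : (i : ℕ) < l
  · rw [if_pos hi, if_pos (by simpa using hi)]
  · rw [if_neg hi, if_neg (by simpa using hi), hγ i (by omega), ← C.pull_comp, ← C.pull_comp,
      Obj.lift_snd, Obj.lift_snd]

lemma coact_mem {P : 𝒱.Obj} {γ : C.CH (P.prod P)} (hγ : γ ∈ C.gr (P.prod P) P.dim) {c : ℕ}
    {b : C.CH P} (hb : b ∈ C.gr P c) : coact C γ b ∈ C.gr P c := by
  rw [coact]
  exact C.push_mem _ (C.mul_mem hγ (C.pull_mem _ hb)) (by rw [dim_prod]; omega)

/-- The classes of the powers of top degree after the insertion of cycles in the last `j` rows. -/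
lemma insertRows (he : ω ∈ C.gr (X.prod X) X.dim) (h : C.PermRel ω (n + 1 + 1) (chi ε))
    {c' : ℕ} {δ δ' : C.CH (pw X n)} (hδ' : δ' ∈ C.gr (pw X n) c')
    (hκ : C.deg (pw X n) (δ' * C.act (sPower C ω ε n) δ) ≠ 0) (hP : C.Polarized)
    (a : ℕ → C.CH X) (d : ℕ → ℕ) (ha : ∀ i, a i ∈ C.gr X (d i)) (ha' : ∀ i, C.act ω (a i) = a i)
    (l : ℕ) : ∀ j, j ≤ n + 1 → ∀ (Y : 𝒱.Obj) (x y : Fin (n + 1) → (Y ⟶ X)) (q : Y ⟶ pw X n),
      (∀ i, q ≫ pr X n i = y i) → ∃ F : C.CH Y,
        (F = 0 ∨ ∃ r, r + j * X.dim = c' + ∑ s ∈ Finset.range j, d (n - s - l) ∧ F ∈ C.gr Y r) ∧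
        ∑ σ : Perm (Fin (n + 1)), (chi ε σ : ℚ) • ∏ i : Fin (n + 1),
          (if (i : ℕ) + j < n + 1 then C.pull (lift (x i) (y (σ i))) ω
            else C.pull (y (σ i)) (a (i - l))) =
          F * C.pull q (C.act (sPower C ω ε n) δ) := by
  intro j
  induction j with
  | zero =>
    intro _ Y x y q hq
    obtain ⟨p, hp⟩ := ChowTheory.exists_lift n x
    set κ := ((ε : ℤ) : ℚ) ^ (n + 1) * C.deg (pw X n) (coact C (sPower C ω ε n) δ' * δ) with hκ'
    have hκ0 : κ ≠ 0 := by
      rw [hκ', mul_comm (coact C _ _), ← deg_act hP, mul_comm (C.act _ _)]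
      refine mul_ne_zero (pow_ne_zero _ ?_) hκ
      rcases Int.units_eq_one_or ε with rfl | rfl <;> simp
    refine ⟨κ⁻¹ • C.pull p (coact C (sPower C ω ε n) δ'), Or.inr ⟨c', by simp, ?_⟩, ?_⟩
    · exact Submodule.smul_mem _ _ (C.pull_mem _ (coact_mem (sPower_mem he) hδ'))
    · rw [smul_mul_assoc, sPower_insert h, smul_smul, inv_mul_cancel₀ hκ0, one_smul, pull_sPower,
        gd]
      refine Finset.sum_congr rfl fun σ _ => ?_
      congr 1
      refine Finset.prod_congr rfl fun i _ => ?_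
      rw [if_pos (by omega), hp, hq]
  | succ j ih =>
    intro hj Y x y q hq
    have hi0 : n - j < n + 1 := by omega
    set i0 : Fin (n + 1) := ⟨n - j, hi0⟩ with hi0'
    obtain ⟨F', hF', hrel⟩ := ih (by omega) (Y.prod X)
      (fun i => if i = i0 then snd Y X else fst Y X ≫ x i) (fun i => fst Y X ≫ y i)
      (fst Y X ≫ q) (fun i => by rw [Category.assoc, hq])
    refine ⟨C.push (fst Y X) (C.pull (snd Y X) (a (n - j - l)) * F'), ?_, ?_⟩
    · rcases hF' with rfl | ⟨r, hr, hFr⟩
      · left; rw [mul_zero, map_zero]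
      · have h1 := C.mul_mem (C.pull_mem (snd Y X) (ha (n - j - l))) hFr
        rcases Nat.lt_or_ge (d (n - j - l) + r) X.dim with h2 | h2
        · left
          exact C.push_eq_zero _ h1 (by rw [dim_prod]; omega)
        · right
          refine ⟨d (n - j - l) + r - X.dim, ?_, C.push_mem _ h1 (by rw [dim_prod]; omega)⟩
          rw [Finset.sum_range_succ, add_mul, one_mul]
          generalize (∑ s ∈ Finset.range j, d (n - s - l)) = S at hr ⊢
          generalize j * X.dim = J at hr ⊢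
          omega
    · have h2 := congrArg (fun z => C.push (fst Y X) (C.pull (snd Y X) (a (n - j - l)) * z)) hrel
      simp only [Finset.mul_sum, map_sum, mul_smul_comm, map_smul] at h2
      rw [← mul_assoc, C.pull_comp, C.push_mul] at h2
      rw [← h2]
      refine Finset.sum_congr rfl fun σ _ => ?_
      congr 1
      rw [← Finset.mul_prod_erase Finset.univ _ (Finset.mem_univ i0),
        ← Finset.mul_prod_erase Finset.univ _ (Finset.mem_univ i0)]
      have h3 : ∀ i ∈ Finset.univ.erase i0,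
          (if (i : ℕ) + j < n + 1 then
            C.pull (lift (if i = i0 then snd Y X else fst Y X ≫ x i) (fst Y X ≫ y (σ i))) ω
            else C.pull (fst Y X ≫ y (σ i)) (a (i - l))) =
          C.pull (fst Y X) (if (i : ℕ) + (j + 1) < n + 1 then C.pull (lift (x i) (y (σ i))) ω
            else C.pull (y (σ i)) (a (i - l))) := by
        intro i hi
        have hij := (Finset.mem_erase.1 hi).1
        have hij' : (i : ℕ) ≠ n - j := fun h => hij (Fin.ext h)
        by_cases h4 : (i : ℕ) + j < n + 1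
        · rw [if_pos h4, if_neg hij, if_pos (show (i : ℕ) + (j + 1) < n + 1 by omega),
            ← C.pull_comp, comp_lift]
        · rw [if_neg h4, if_neg (show ¬(i : ℕ) + (j + 1) < n + 1 by omega), ← C.pull_comp]
      rw [Finset.prod_congr rfl h3, ← map_prod, ← mul_assoc, C.push_mul]
      congr 1
      rw [if_neg (by rw [hi0']; simp only; omega), if_pos (by rw [hi0']; simp only; omega), if_pos rfl,
        push_insert, ha']

/-- Few codimensions. -/
lemma tailRel_of_lt (he : ω ∈ C.gr (X.prod X) X.dim) (h : C.PermRel ω (n + 1 + 1) (chi ε))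
    {c' : ℕ} {δ δ' : C.CH (pw X n)} (hδ' : δ' ∈ C.gr (pw X n) c')
    (hκ : C.deg (pw X n) (δ' * C.act (sPower C ω ε n) δ) ≠ 0) (hP : C.Polarized)
    (a : ℕ → C.CH X) (d : ℕ → ℕ) (ha : ∀ i, a i ∈ C.gr X (d i)) (ha' : ∀ i, C.act ω (a i) = a i)
    {m : ℕ} (hm : m ≤ n) (hlt : (∑ k ∈ Finset.range (m + 1), d k) + c' < (m + 1) * X.dim) :
    TailRel C ε ω a (n + 1) (n - m) := by
  have hsum : ∑ s ∈ Finset.range (m + 1), d (n - s - (n - m)) =
      ∑ k ∈ Finset.range (m + 1), d k := by
    rw [← Finset.sum_range_reflect]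
    refine Finset.sum_congr rfl fun s hs => ?_
    rw [Finset.mem_range] at hs
    congr 1
    omega
  have hM : MRel C (chi ε : Perm (Fin (n + 1)) → ℚ)
      (fun i => if (i : ℕ) < n - m then ω else C.pull (snd X X) (a (i - (n - m)))) := by
    intro Y x y
    obtain ⟨q, hq⟩ := ChowTheory.exists_lift n y
    obtain ⟨F, hF, hrel⟩ := insertRows he h hδ' hκ hP a d ha ha' (n - m) (m + 1) (by omega) Y x y q hq
    have hF0 : F = 0 := by
      rcases hF with hF | ⟨r, hr, -⟩
      · exact hF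
      · rw [hsum] at hr
        omega
    rw [hF0, zero_mul] at hrel
    rw [← hrel]
    refine Finset.sum_congr rfl fun σ _ => ?_
    congr 1
    refine Finset.prod_congr rfl fun i _ => ?_
    beta_reduce
    by_cases hi : (i : ℕ) < n - m
    · rw [if_pos hi, if_pos (by omega)]
    · rw [if_neg hi, if_neg (by omega), ← C.pull_comp, Obj.lift_snd]
  intro Y ρ hρ
  have h1 := MRel.rowRelTail (Y := Y) hM (n - m) a
    (fun i hi => if_neg (by omega)) ρ
  have h2 : (fun i : Fin (n + 1) => if (i : ℕ) < n - m then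
        C.comp (ρ i) (if (i : ℕ) < n - m then ω else C.pull (snd X X) (a (i - (n - m))))
        else C.pull (snd Y X) (a (i - (n - m)))) =
      fun i : Fin (n + 1) => if (i : ℕ) < n - m then ρ i else C.pull (snd Y X) (a (i - (n - m))) := by
    funext i
    by_cases hi : (i : ℕ) < n - m
    · rw [if_pos hi, if_pos hi, if_pos hi, hρ]
    · rw [if_neg hi, if_neg hi]
  rwa [h2] at h1

/-- Many codimensions. -/
lemma tailRel_of_gt (he : ω ∈ C.gr (X.prod X) X.dim) (h : C.PermRel ω (n + 1 + 1) (chi ε))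
    {c' : ℕ} {δ δ' : C.CH (pw X n)} (hδ' : δ' ∈ C.gr (pw X n) c')
    (hκ : C.deg (pw X n) (δ' * C.act (sPower C ω ε n) δ) ≠ 0) (hP : C.Polarized)
    (a : ℕ → C.CH X) (d : ℕ → ℕ) (ha : ∀ i, a i ∈ C.gr X (d i)) (ha' : ∀ i, C.act ω (a i) = a i)
    {m : ℕ} (hm : m ≤ n) (hgt : (n + 1) * X.dim < (∑ k ∈ Finset.range (m + 1), d k) + c') :
    TailRel C ε ω a (n + 1) (n - m) := by
  set l := n - m with hl
  set w : Fin (n + 1) → C.CH X := fun i => if (i : ℕ) < l then 1 else a (i - l) with hw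
  set D' := coact C (sPower C ω ε n) δ' with hD'
  set D := C.act (sPower C ω ε n) δ with hD
  have hDmem : D' ∈ C.gr (pw X n) c' := coact_mem (sPower_mem he) hδ'
  have hprod : (∏ i, C.pull (pr X n i) (w i)) * D' = 0 := by
    have h1 := prod_mem (C := C) Finset.univ (fun i => C.pull (pr X n i) (w i))
      (fun i : Fin (n + 1) => if (i : ℕ) < l then 0 else d (i - l)) (fun i _ => by
        refine C.pull_mem _ ?_
        simp only [hw]
        split_ifs
        · exact C.one_mem X
        · exact ha _)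
    have h2 := C.mul_mem h1 hDmem
    have h3 : ∑ i : Fin (n + 1), (if (i : ℕ) < l then 0 else d (i - l)) =
        ∑ k ∈ Finset.range (m + 1), d k := by
      rw [Fin.sum_univ_eq_sum_range (fun i => if i < l then 0 else d (i - l)) (n + 1),
        show n + 1 = l + (m + 1) by omega, Finset.sum_range_add]
      rw [Finset.sum_eq_zero (fun i hi => if_pos (Finset.mem_range.1 hi)), zero_add]
      refine Finset.sum_congr rfl fun i _ => ?_
      rw [if_neg (by omega), Nat.add_sub_cancel_left]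
    rw [h3, C.gr_eq_bot, Submodule.mem_bot] at h2
    · exact h2
    · rw [dim_pw]
      exact hgt
  set κ := ((ε : ℤ) : ℚ) ^ (n + 1) * C.deg (pw X n) (D' * δ) with hκ'
  have hκ0 : κ ≠ 0 := by
    rw [hκ', hD', mul_comm (coact C _ _), ← deg_act hP, mul_comm (C.act _ _)]
    refine mul_ne_zero (pow_ne_zero _ ?_) hκ
    rcases Int.units_eq_one_or ε with rfl | rfl <;> simp
  have hM : MRel C (chi ε : Perm (Fin (n + 1)) → ℚ)
      (fun i => C.pull (fst X X) (w i) * ω) := by
    intro Y x y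
    obtain ⟨p, hp⟩ := ChowTheory.exists_lift n x
    obtain ⟨q, hq⟩ := ChowTheory.exists_lift n y
    have h1 : ∀ σ : Equiv.Perm (Fin (n + 1)),
        ∏ i, C.pull (lift (x i) (y (σ i))) (C.pull (fst X X) (w i) * ω) =
        (∏ i, C.pull (x i) (w i)) * ∏ i, C.pull (lift (x i) (y (σ i))) ω := by
      intro σ
      rw [← Finset.prod_mul_distrib]
      refine Finset.prod_congr rfl fun i _ => ?_
      rw [C.pull_mul, ← C.pull_comp, Obj.lift_fst]
    have h2 : ∑ σ : Equiv.Perm (Fin (n + 1)), (chi ε σ : ℚ) •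
        ∏ i, C.pull (lift (x i) (y (σ i))) (C.pull (fst X X) (w i) * ω) =
        (∏ i, C.pull (x i) (w i)) * C.pull (lift p q) (sPower C ω ε n) := by
      rw [pull_sPower, gd, Finset.mul_sum]
      refine Finset.sum_congr rfl fun σ _ => ?_
      rw [h1, mul_smul_comm]
      simp only [hp, hq]
    rw [h2]
    have h4 : C.pull (lift p q) (sPower C ω ε n) = κ⁻¹ • (C.pull p D' * C.pull q D) := by
      rw [hD', hD, sPower_insert h, smul_smul, inv_mul_cancel₀ hκ0, one_smul]
    have h5 : ∏ i, C.pull (x i) (w i) = C.pull p (∏ i, C.pull (pr X n i) (w i)) := by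
      rw [map_prod]
      refine Finset.prod_congr rfl fun i _ => ?_
      rw [← C.pull_comp, hp]
    rw [h4, mul_smul_comm, ← mul_assoc, h5, ← C.pull_mul, hprod, map_zero, zero_mul, smul_zero]
  intro Y ρ hρ
  have h1 := hM.rowRel (Y := Y) (fun i => if (i : ℕ) < l then ρ i else 1)
  have h2 : (fun i : Fin (n + 1) => C.comp (if (i : ℕ) < l then ρ i else 1)
      (C.pull (fst X X) (w i) * ω)) =
      fun i : Fin (n + 1) => if (i : ℕ) < l then ρ i else C.pull (snd Y X) (a (i - l)) := by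
    funext i
    simp only [hw]
    by_cases hi : (i : ℕ) < l
    · rw [if_pos hi, if_pos hi, if_pos hi, map_one, one_mul, hρ]
    · rw [if_neg hi, if_neg hi, if_neg hi, comp_one, mul_comm, ← C.act_apply, ha']
  rwa [h2] at h1

/-- Many cycles. -/
lemma tailRel_of_kimura (h : C.PermRel ω (n + 1 + 1) (chi ε)) (a : ℕ → C.CH X)
    (ha' : ∀ i, C.act ω (a i) = a i) {m : ℕ} (hm : n + 1 + 1 ≤ m) : TailRel C ε ω a m 0 := by
  have hmono : C.PermRel ω m (chi ε) := by
    rcases Int.units_eq_one_or ε with rfl | rfl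
    · exact permRel_mono hm h
    · exact permRel_mono' hm h
  have hM : MRel C (chi ε : Perm (Fin m) → ℚ) (fun i => C.pull (fst X X) (a i) * ω) := by
    intro Y x y
    have h1 : ∀ σ : Equiv.Perm (Fin m),
        ∏ i : Fin m, C.pull (lift (x i) (y (σ i))) (C.pull (fst X X) (a i) * ω) =
        (∏ i : Fin m, C.pull (x i) (a i)) * ∏ i, C.pull (lift (x i) (y (σ i))) ω := by
      intro σ
      rw [← Finset.prod_mul_distrib]
      refine Finset.prod_congr rfl fun i _ => ?_
      rw [C.pull_mul, ← C.pull_comp, Obj.lift_fst]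
    have h2 := congrArg (fun z => (∏ i : Fin m, C.pull (x i) (a i)) * z) (hmono Y x y)
    simp only [mul_zero, Finset.mul_sum, mul_smul_comm] at h2
    rw [← h2]
    exact Finset.sum_congr rfl fun σ _ => by rw [h1]
  intro Y ρ hρ
  have h1 := hM.rowRel (Y := Y) (fun i => 1)
  have h2 : (fun i : Fin m => C.comp (1 : C.CH (Y.prod X)) (C.pull (fst X X) (a i) * ω)) =
      fun i : Fin m => if (i : ℕ) < 0 then ρ i else C.pull (snd Y X) (a (i - 0)) := by
    funext i
    rw [if_neg (by omega), Nat.sub_zero, comp_one, mul_comm, ← C.act_apply, ha']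
  rwa [h2] at h1

lemma units_cast_sq (q : ℤˣ) : ((q : ℤ) : ℚ) ^ 2 = 1 := by
  rcases Int.units_eq_one_or q with rfl | rfl <;> simp

lemma sgnPow_even {q : ℕ} (hq : Even q) {n : ℕ} (σ : Perm (Fin n)) : sgnPow q σ = chi 1 σ := by
  obtain ⟨r, rfl⟩ := hq
  rw [sgnPow, chi, if_pos rfl, ← two_mul, pow_succ, pow_mul, units_cast_sq, one_pow, one_mul]

lemma sgnPow_odd {q : ℕ} (hq : Odd q) {n : ℕ} (σ : Perm (Fin n)) : sgnPow q σ = chi (-1) σ := by
  obtain ⟨r, rfl⟩ := hq
  rw [sgnPow, chi_neg_one, show 2 * r + 1 + 1 = 2 * (r + 1) by ring, pow_mul, units_cast_sq, one_pow]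

/-- The main theorem, for a sign. -/
theorem main_sign (hP : C.Polarized) (he : ω ∈ C.gr (X.prod X) X.dim) (hee : C.comp ω ω = ω)
    (h : C.PermRel ω (n + 1 + 1) (chi ε)) (hdim : C.motDim ω = ((ε : ℤ) : ℚ) * (n + 1 : ℕ))
    {c c' : ℕ} (hcc : c + c' = (n + 1) * X.dim) {δ δ' : C.CH (pw X n)}
    (hδ' : δ' ∈ C.gr (pw X n) c')
    (hκ : C.deg (pw X n) (δ' * C.act (sPower C ω ε n) δ) ≠ 0) {m : ℕ} (d : Fin (m + 1) → ℕ)
    (hd : c < ∑ k, d k ∨ ∑ k, d k + c' < (m + 1) * X.dim) (a : Fin (m + 1) → C.CH X)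
    (ha : ∀ k, IsCycleOf C ω (d k) (a k)) :
    ∑ σ : Perm (Fin (m + 1)), (chi ε σ : ℚ) • ∏ i, C.pull (pr X m (σ i)) (a i) = 0 := by
  classical
  set a' : ℕ → C.CH X := fun i => if h : i < m + 1 then a ⟨i, h⟩ else 0 with ha'
  set d' : ℕ → ℕ := fun i => if h : i < m + 1 then d ⟨i, h⟩ else 0 with hd'
  have h1 : ∀ i, a' i ∈ C.gr X (d' i) := by
    intro i
    simp only [ha', hd']
    split_ifs
    · exact (ha _).1
    · exact Submodule.zero_mem _
  have h2 : ∀ i, C.act ω (a' i) = a' i := by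
    intro i
    simp only [ha']
    split_ifs
    · exact (ha _).2
    · exact map_zero _
  have h3 : ∑ k ∈ Finset.range (m + 1), d' k = ∑ k, d k := by
    rw [← Fin.sum_univ_eq_sum_range]
    refine Finset.sum_congr rfl fun k _ => ?_
    simp only [hd']
    rw [dif_pos k.2]
  have h4 : TailRel C ε ω a' (m + 1) 0 := by
    rcases Nat.lt_or_ge n m with hm | hm
    · exact tailRel_of_kimura h a' h2 (by omega)
    · have h5 : TailRel C ε ω a' (n + 1) (n - m) := by
        rcases hd with hd | hd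
        · refine tailRel_of_gt he h hδ' hκ hP a' d' h1 h2 hm ?_
          rw [h3]; omega
        · refine tailRel_of_lt he h hδ' hκ hP a' d' h1 h2 hm ?_
          rw [h3]; exact hd
      rw [show n + 1 = m + 1 + (n - m) by omega] at h5
      exact h5.descend_all hee h2 hdim (by omega)
  rw [← h4.zero hee]
  refine Finset.sum_congr rfl fun σ _ => ?_
  congr 1
  refine Finset.prod_congr rfl fun i _ => ?_
  simp only [ha']
  rw [dif_pos i.2]

/-- **The main theorem.** -/
theorem main (hP : C.Polarized) {q c c' : ℕ} (h : HasAlgDet C ω q n c c') {m : ℕ}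
    (d : Fin (m + 1) → ℕ) (hd : c < ∑ k, d k ∨ ∑ k, d k + c' < (m + 1) * X.dim)
    (a : Fin (m + 1) → C.CH X) (ha : ∀ k, IsCycleOf C ω (d k) (a k)) : detProd C q a = 0 := by
  obtain ⟨δ, δ', -, hδ', hκ⟩ := h.det
  have hκ : C.deg (pw X n) (δ' * C.act (detPower C q ω n) δ) ≠ 0 := hκ
  rcases Nat.even_or_odd q with hq | hq
  · obtain ⟨N, hN, hN2⟩ := ((ChowTheory.ext_tfae hP h.idem).out 0 1).1 (h.even hq)
    obtain ⟨-, hrel⟩ := ChowTheory.extVanishes_iff.1 hN2
    have hdim : C.motDim ω = (-1) ^ q * (n + 1) := h.dim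
    rw [hq.neg_one_pow, one_mul] at hdim
    have hN3 : N = n + 1 + 1 := by
      rw [hdim] at hN
      exact_mod_cast hN
    subst hN3
    have h1 : detPower C q ω n = sPower C ω 1 n := by
      rw [detPower, sPower]
      exact Finset.sum_congr rfl fun σ _ => by rw [sgnPow_even hq]
    rw [h1] at hκ
    have h2 := main_sign (ε := 1) hP h.mem h.idem hrel (by rw [hdim]; push_cast; ring) h.codim hδ'
      hκ d hd a ha
    rw [detProd, ← h2]
    exact Finset.sum_congr rfl fun σ _ => by rw [sgnPow_even hq]; rfl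
  · obtain ⟨N, hN, hN2⟩ := ((ChowTheory.sym_tfae hP h.idem).out 0 1).1 (h.odd hq)
    obtain ⟨-, hrel⟩ := ChowTheory.symVanishes_iff.1 hN2
    have hdim : C.motDim ω = (-1) ^ q * (n + 1) := h.dim
    rw [hq.neg_one_pow, neg_one_mul] at hdim
    have hN3 : N = n + 1 + 1 := by
      rw [hdim, neg_neg] at hN
      exact_mod_cast hN
    subst hN3
    have h1 : detPower C q ω n = sPower C ω (-1) n := by
      rw [detPower, sPower]
      exact Finset.sum_congr rfl fun σ _ => by rw [sgnPow_odd hq]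
    rw [h1] at hκ
    have h2 := main_sign (ε := -1) hP h.mem h.idem hrel (by rw [hdim]; push_cast; ring) h.codim
      hδ' hκ d hd a ha
    rw [detProd, ← h2]
    exact Finset.sum_congr rfl fun σ _ => by rw [sgnPow_odd hq]; rfl

end Pool.Agent.H836.DB
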