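import Pool.Graph.R_pool_sql_team_seeded_b0a926ef.R903.PermDefs

/-!
# Exterior powers of cycles: definitions
-/

open CategoryTheory CategoryTheory.Limits AlgebraicGeometry
open Pool.Agent.H914 Pool.Agent.H914.VarClass Pool.Agent.H914.VarClass.Obj
open Pool.Agent.R903

universe u v w

namespace Pool.Agent.H836

variable {k : Type u} [Field k] {𝒱 : VarClass k}

/-- The exterior product `a × ⋯ × a` with `m` factors vanishes (`m ≥ 1`). -/
def PowVanishes (C : ChowTheory.{u, v} 𝒱) {X : 𝒱.Obj} (a : C.CH X) (m : ℕ) : Prop :=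
  ∃ n, n + 1 = m ∧ ∏ i, C.pull (pr X n i) a = 0

/-- The cycle `a` is numerically trivial: its intersection numbers with all cycles vanish. -/
def NumTrivial (C : ChowTheory.{u, v} 𝒱) {X : 𝒱.Obj} (a : C.CH X) : Prop :=
  ∀ b : C.CH X, C.deg X (a * b) = 0

/-- The symmetrized exterior product: the sum of the cycles `∏ i, pr_{σ(i)}^* a_i` on
`X × (X × ⋯)` (`n + 1` factors) over all permutations `σ`. -/
noncomputable def symProd (C : ChowTheory.{u, v} 𝒱) {X : 𝒱.Obj} {n : ℕ}
    (a : Fin (n + 1) → C.CH X) : C.CH (pw X n) :=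
  ∑ σ : Equiv.Perm (Fin (n + 1)), ∏ i, C.pull (pr X n (σ i)) (a i)

/-- `a` is a cycle of the motive `(X, p)`: it is fixed by the projector `p`. -/
def IsCycleOf (C : ChowTheory.{u, v} 𝒱) {X : 𝒱.Obj} (p : C.CH (X.prod X)) (a : C.CH X) : Prop :=
  C.act p a = a

/-- The diagonal is the sum of `p` and of a correspondence of the form `∑ j, x_j × y_j`: the
complement of the motive `(X, p)` in the motive of `X` is a sum of Lefschetz motives. -/
def LefschetzComplement (C : ChowTheory.{u, v} 𝒱) {X : 𝒱.Obj} (p : C.CH (X.prod X)) : Prop :=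
  ∃ (r : ℕ) (x y : Fin r → C.CH X),
    p + ∑ j, C.pull (fst X X) (x j) * C.pull (snd X X) (y j) = C.diagC X

end Pool.Agent.H836
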