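import Pool.Agent.H836.Virt
import Pool.Graph.R_seed8.R903.Ring

/-!
# Oddly finite-dimensional motives with a symmetric form

`θ` and `η` are symmetric classes on `X × X` with `θ ∘ η ∘ θ = θ` and `η ∘ θ ∘ η = η`; then
`p = θ ∘ η` is a projector, and `η` and `θ` are inverse isomorphisms between the motive `(X, p)` and
its dual (up to a twist).
-/

open CategoryTheory CategoryTheory.Limits AlgebraicGeometry
open Pool.Agent.H914 Pool.Agent.H914.VarClass Pool.Agent.H914.VarClass.Obj
open Pool.Agent.R903 Equiv Equiv.Perm Pool.Agent.R903.PermCore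

universe u v w

namespace Pool.Agent.H836

variable {k : Type u} [Field k] {𝒱 : VarClass k} {C : ChowTheory.{u, v} 𝒱}
variable {X Y : 𝒱.Obj} {θ η : C.CH (X.prod X)}

open Pool.Agent.R903.Mat

section Contr

variable {α : Type} [Fintype α] [DecidableEq α]

/-- Contraction of the points `p` and `q` with the form `η`. -/
theorem rel_contr {hs : C.IsSymmetric θ}
    (h1 : C.comp (C.comp θ η) θ = θ) {p q : α} (hpq : p ≠ q)
    {v : Matching α → ℚ} (h : Mat.Rel C hs v) :
    Mat.Rel C hs (Mat.contr (C.motDim (C.comp η θ)) hpq v) := by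
  have h1' : C.comp θ (C.comp η θ) = θ := by rw [← ChowTheory.comp_assoc]; exact h1
  intro Y z
  set Y₁ : 𝒱.Obj := Y.prod X with hY₁
  set z' : α → (Y₁.prod X ⟶ X) := fun i => if h : i ≠ p ∧ i ≠ q then fst Y₁ X ≫ fst Y X ≫ z ⟨i, h⟩
    else if i = p then fst Y₁ X ≫ snd Y X else snd Y₁ X with hz'
  have hzp : z' p = fst Y₁ X ≫ snd Y X := by
    rw [hz']; simp
  have hzq : z' q = snd Y₁ X := by
    rw [hz']; simp [hpq.symm]
  have hzr : ∀ r : {x // x ≠ p ∧ x ≠ q}, z' r = fst Y₁ X ≫ fst Y X ≫ z r := fun r => dif_pos r.2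
  have h2 := congrArg (fun t => C.push (fst Y X) (C.push (fst Y₁ X)
    (C.pull (lift (z' p) (z' q)) η * t))) (h (Y₁.prod X) z')
  simp only [mul_zero, map_zero, Finset.mul_sum, map_sum, mul_smul_comm, map_smul] at h2
  rw [sum_build hpq] at h2
  rw [← h2]
  refine Finset.sum_congr rfl fun τ _ => ?_
  rw [Mat.contr, add_smul, mul_smul, Finset.sum_smul]
  congr 1
  · rw [smul_comm, mcl_ext]
    congr 1
    simp only [hzr]
    have e1 : mcl hs (fun x => fst Y₁ X ≫ fst Y X ≫ z x) τ =
        C.pull (fst Y₁ X) (C.pull (fst Y X) (mcl hs z τ)) := by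
      rw [pull_mcl, pull_mcl]
    rw [e1, ← mul_assoc, C.push_mul, C.push_mul, hzp, hzq]
    have e2 : C.push (fst Y₁ X) (C.pull (lift (fst Y₁ X ≫ snd Y X) (snd Y₁ X)) η *
        C.pull (lift (fst Y₁ X ≫ snd Y X) (snd Y₁ X)) θ) =
        C.pull (snd Y X) (C.pull (Obj.diag X) (C.comp η θ)) := by
      rw [symm_pull hs (fst Y₁ X ≫ snd Y X) (snd Y₁ X), ChowTheory.pull_comp_corr, ← C.pull_comp]
      congr 2
      apply hom_ext_prod <;> simp
    rw [e2, ChowTheory.push_fst_pull_snd, Algebra.smul_def]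
    rfl
  · refine Finset.sum_congr rfl fun r _ => ?_
    congr 1
    rw [mcl_conj, mcl_ext,
      mcl_eq_rest hs (fun x : {x // x ≠ p ∧ x ≠ q} => z' (Equiv.swap q r x.1)) τ r,
      mcl_eq_rest hs z τ r]
    have hpr : p ≠ r := r.2.1.symm
    have hqr : q ≠ r := r.2.2.symm
    have e1 : (Equiv.swap q (r : α)) p = p := Equiv.swap_apply_of_ne_of_ne hpq hpr
    have e2 : ((τ.1 r : {x // x ≠ p ∧ x ≠ q}) : α) ≠ r := fun h => τ.2.2 r (Subtype.ext h)
    have e3 : rest hs (fun x : {x // x ≠ p ∧ x ≠ q} => z' (Equiv.swap q r x.1)) τ r =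
        C.pull (fst Y₁ X) (C.pull (fst Y X) (rest hs z τ r)) := by
      rw [pull_rest, pull_rest]
      apply rest_congr
      intro i hi _
      rw [Equiv.swap_apply_of_ne_of_ne i.2.2 (fun h => hi (Subtype.ext h)), hzr]
    rw [e3, e1, Equiv.swap_apply_left, Equiv.swap_apply_right,
      Equiv.swap_apply_of_ne_of_ne (τ.1 r).2.2 e2, hzp, hzq, hzr, hzr]
    have e4 : C.pull (lift (fst Y₁ X ≫ snd Y X) (fst Y₁ X ≫ fst Y X ≫ z r)) θ =
        C.pull (fst Y₁ X) (C.pull (lift (snd Y X) (fst Y X ≫ z r)) θ) := by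
      rw [← C.pull_comp, comp_lift]
    rw [e4]
    set A := C.pull (lift (snd Y X) (fst Y X ≫ z r)) θ
    set R := rest hs z τ r
    have e5 : C.pull (lift (fst Y₁ X ≫ snd Y X) (snd Y₁ X)) η * (C.pull (fst Y₁ X) A *
        (C.pull (lift (snd Y₁ X) (fst Y₁ X ≫ fst Y X ≫ z (τ.1 r))) θ *
          C.pull (fst Y₁ X) (C.pull (fst Y X) R))) =
        (C.pull (lift (fst Y₁ X ≫ snd Y X) (snd Y₁ X)) η *
          C.pull (lift (snd Y₁ X) (fst Y₁ X ≫ fst Y X ≫ z (τ.1 r))) θ) *
        C.pull (fst Y₁ X) (A * C.pull (fst Y X) R) := by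
      rw [C.pull_mul]; ring
    have hA : A = C.pull (lift (fst Y X ≫ z r) (snd Y X)) θ := symm_pull hs _ _
    rw [e5, C.push_mul, ChowTheory.pull_comp_corr, ← mul_assoc, C.push_mul, mul_comm _ A, hA,
      ChowTheory.pull_comp_corr, h1']

/-- Contraction of the sum over all matchings. -/
lemma rel_one_contr {hs : C.IsSymmetric θ}
    (h1 : C.comp (C.comp θ η) θ = θ) {p q : α} (hpq : p ≠ q)
    (h : Mat.Rel C hs fun _ : Matching α => (1 : ℚ)) :
    Mat.Rel C hs fun _ : Matching {x // x ≠ p ∧ x ≠ q} =>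
      C.motDim (C.comp η θ) + Fintype.card α - 2 := by
  have h2 := rel_contr h1 hpq h
  have h3 : Mat.contr (C.motDim (C.comp η θ)) hpq (fun _ : Matching α => (1 : ℚ)) =
      fun _ => C.motDim (C.comp η θ) + Fintype.card α - 2 := by
    funext τ
    rw [Mat.contr, mul_one, Finset.sum_const, nsmul_eq_mul, mul_one, Finset.card_univ]
    have h4 := card_two p q hpq
    have h5 : (Fintype.card α : ℚ) = Fintype.card {x // x ≠ p ∧ x ≠ q} + 2 := by
      rw [← h4]; push_cast; ring
    rw [h5]; ring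
  rwa [h3] at h2

end Contr

/-- If the permutations satisfy the symmetric relation then the sum over all matchings vanishes. -/
lemma rel_one_of_perm (hs : C.IsSymmetric θ) {N : ℕ} (hN : 1 ≤ N) (h : C.PermRel θ N (chi (-1))) :
    Mat.Rel C hs fun _ : Matching (Fin N ⊕ Fin N) => (1 : ℚ) := by
  classical
  set v : Matching (Fin N ⊕ Fin N) → ℚ := fun m => ∑ σ : Equiv.Perm (Fin N),
    if ofPerm σ = m then 1 else 0 with hv
  have hrel : Mat.Rel C hs v := by
    intro Y z
    rw [← h Y (fun i => z (Sum.inl i)) (fun i => z (Sum.inr i))]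
    simp only [hv, Finset.sum_smul]
    rw [Finset.sum_comm]
    refine Finset.sum_congr rfl fun σ _ => ?_
    rw [Finset.sum_eq_single (ofPerm σ), if_pos rfl, mcl_ofPerm]
    · simp [chi]
    · intro m _ hm
      rw [if_neg (Ne.symm hm), zero_smul]
    · intro h; exact absurd (Finset.mem_univ _) h
  have hne : Nonempty (Fin N ⊕ Fin N) := ⟨Sum.inl ⟨0, by omega⟩⟩
  have hnn : ∀ m, 0 ≤ v m := fun m => Finset.sum_nonneg fun σ _ => by split_ifs <;> simp
  set w : Matching (Fin N ⊕ Fin N) → ℚ := ∑ g : Equiv.Perm (Fin N ⊕ Fin N), rho g v with hw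
  have hwrel : w ∈ relSub C hs := Submodule.sum_mem _ fun g _ => hrel.conj g
  have hwinv : ∀ g m, w (Mat.conj g m) = w m := by
    intro g m
    simp only [hw, Finset.sum_apply, rho_apply, conj_conj]
    rw [← Equiv.sum_comp (Equiv.mulLeft g)]
    refine Finset.sum_congr rfl fun h _ => ?_
    simp [mul_assoc]
  have hwpos : 0 < w (ofPerm 1) := by
    simp only [hw, Finset.sum_apply, rho_apply]
    refine Finset.sum_pos' (fun g _ => hnn _) ⟨1, Finset.mem_univ _, ?_⟩
    rw [inv_one, conj_one, hv]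
    refine Finset.sum_pos' (fun σ _ => by split_ifs <;> simp) ⟨1, Finset.mem_univ _, ?_⟩
    rw [if_pos rfl]; exact one_pos
  have hconst : w = fun _ => w (ofPerm 1) := by
    funext m
    obtain ⟨g, hg⟩ := exists_conj (ofPerm 1) m
    rw [← hg, hwinv]
  have h2 := (relSub C hs).smul_mem (w (ofPerm 1))⁻¹ hwrel
  have h3 : (w (ofPerm 1))⁻¹ • w = fun _ => 1 := by
    rw [hconst]
    funext m
    rw [Pi.smul_apply, smul_eq_mul, inv_mul_cancel₀ hwpos.ne']
  rwa [h3] at h2

/-- The sum over all matchings of `2 g + 2` points vanishes on an oddly finite-dimensional motive of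
dimension `- 2 g` with a symmetric form. -/
theorem exists_rel_one (hP : C.Polarized) (hs : C.IsSymmetric θ)
    (h1 : C.comp (C.comp θ η) θ = θ) (hodd : ∃ m, C.SymVanishes (C.comp η θ) m) :
    ∃ g : ℕ, C.motDim (C.comp η θ) = -2 * g ∧ C.SymVanishes (C.comp η θ) (2 * g + 1) ∧
      ∀ (α : Type) [Fintype α] [DecidableEq α], Fintype.card α = 2 * g + 2 →
        Mat.Rel C hs fun _ : Matching α => (1 : ℚ) := by
  have h1' : C.comp θ (C.comp η θ) = θ := by rw [← ChowTheory.comp_assoc]; exact h1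
  have hidem : C.comp (C.comp η θ) (C.comp η θ) = C.comp η θ := by
    rw [ChowTheory.comp_assoc, h1']
  obtain ⟨N, hN, hN2⟩ := ((ChowTheory.sym_tfae hP hidem).out 0 1).1 hodd
  obtain ⟨hN1, hN3⟩ := ChowTheory.symVanishes_iff.1 hN2
  have hone := ChowTheory.one_ne_zero_of_polarized hP X
  have hθ : C.PermRel θ N (chi (-1)) := hN3.restrict h1'
  have ht : C.motDim (C.comp η θ) = 1 - N := by linarith
  -- descending
  have key : ∀ j : ℕ, j ≤ N → (∀ i, j < i → i ≤ N → (2 * i : ℤ) - 1 - N ≠ 0) →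
      ∀ (α : Type) [Fintype α] [DecidableEq α], Fintype.card α = 2 * j →
        Mat.Rel C hs fun _ : Matching α => (1 : ℚ) := by
    intro j hj
    induction hj using Nat.decreasingInduction with
    | self =>
      intro _ α _ _ hα
      exact rel_one_all (rel_one_of_perm hs hN1 hθ) (by simp [hα]; ring)
    | of_succ j hj ih =>
      intro hne α _ _ hα
      have ih' := ih (fun i h1 h2 => hne i (by omega) h2) (α ⊕ Fin 2) (by simp [hα]; ring)
      have h01 : (Sum.inr 0 : α ⊕ Fin 2) ≠ Sum.inr 1 := by simp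
      have h2 := rel_one_contr h1 h01 ih'
      have h3 : C.motDim (C.comp η θ) + Fintype.card (α ⊕ Fin 2) - 2 ≠ 0 := by
        rw [ht, Fintype.card_sum, hα, Fintype.card_fin]
        have h4 := hne (j + 1) (by omega) (by omega)
        intro h5
        apply h4
        have : ((2 * (j + 1 : ℕ) - 1 - N : ℤ) : ℚ) = 0 := by
          push_cast at h5 ⊢
          linarith
        exact_mod_cast this
      have h4 := (relSub C hs).smul_mem (C.motDim (C.comp η θ) + Fintype.card (α ⊕ Fin 2) - 2)⁻¹ h2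
      have h5 : (C.motDim (C.comp η θ) + Fintype.card (α ⊕ Fin 2) - 2)⁻¹ •
          (fun _ : Matching {x : α ⊕ Fin 2 // x ≠ Sum.inr 0 ∧ x ≠ Sum.inr 1} =>
            C.motDim (C.comp η θ) + Fintype.card (α ⊕ Fin 2) - 2) = fun _ => (1 : ℚ) := by
        funext m
        rw [Pi.smul_apply, smul_eq_mul, inv_mul_cancel₀ h3]
      rw [h5] at h4
      refine rel_one_all h4 ?_
      have := card_two (Sum.inr 0 : α ⊕ Fin 2) (Sum.inr 1) h01
      simp only [Fintype.card_sum, Fintype.card_fin] at this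
      omega
  -- parity
  have hpar : Odd N := by
    by_contra hc
    rw [Nat.not_odd_iff_even] at hc
    obtain ⟨r, hr⟩ := hc
    have h2 := key 0 (by omega) (fun i _ _ => by omega) Empty (by simp) X (fun i => i.elim)
    have : Subsingleton (Matching Empty) := ⟨fun a b => Subtype.ext (Equiv.ext fun i => i.elim)⟩
    let m₀ : Matching Empty := ⟨1, fun i => i.elim, fun i => i.elim⟩
    rw [Finset.sum_eq_single m₀ (fun b _ hb => absurd (Subsingleton.elim b m₀) hb)
      (fun h => absurd (Finset.mem_univ _) h), one_smul, mcl, edges, Finset.univ_eq_empty,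
      Finset.image_empty, Finset.prod_empty] at h2
    exact hone h2
  obtain ⟨g, hg⟩ := hpar
  refine ⟨g, ?_, ?_, ?_⟩
  · rw [ht, hg]; push_cast; ring
  · rw [← hg]; exact hN2
  · intro α _ _ hα
    exact key (g + 1) (by omega) (fun i h2 _ => by omega) α (by omega)

end Pool.Agent.H836
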