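import Mathlib.LinearAlgebra.Matrix.Determinant.Basic
import Mathlib.LinearAlgebra.Matrix.SchurComplement
import Mathlib.Tactic.Ring

/-!
# Products of maximal minors of a matrix of rank at most `n`

Let `m : ι → κ → R` be a matrix with entries in a commutative ring such that all the minors of size
`n + 1` vanish. Then `det m(x, y) det m(z, w) = det m(x, w) det m(z, y)` for all families `x, z` of
`n` rows and `y, w` of `n` columns. The proof is a form of Wick's theorem.
-/

namespace Pool.Agent.H836.Rank1

variable {R : Type*} [CommRing R] {κ : Type*}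

/-- Families of functions of any number of variables. -/
abbrev Form (R : Type*) (κ : Type*) : Type _ := ∀ k : ℕ, (Fin k → κ) → R

/-- Insertion of `c` as the first variable. -/
def ins (c : κ) (ω : Form R κ) : Form R κ := fun k u => ω (k + 1) (Fin.cons c u)

/-- The exterior product with the linear form `m`. -/
def wedge (m : κ → R) (ω : Form R κ) : Form R κ
  | 0, _ => 0
  | k + 1, v => ∑ j : Fin (k + 1), (-1) ^ (j : ℕ) * m (v j) * ω k (fun i => v (j.succAbove i))

lemma wedge_succ (m : κ → R) (ω : Form R κ) (k : ℕ) (v : Fin (k + 1) → κ) :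
    wedge m ω (k + 1) v =
      ∑ j : Fin (k + 1), (-1) ^ (j : ℕ) * m (v j) * ω k (fun i => v (j.succAbove i)) := rfl

lemma wedge_zero (m : κ → R) (ω : Form R κ) (v : Fin 0 → κ) : wedge m ω 0 v = 0 := rfl

lemma ins_wedge (c : κ) (m : κ → R) (ω : Form R κ) :
    ins c (wedge m ω) = m c • ω - wedge m (ins c ω) := by
  funext k u
  cases k with
  | zero =>
    simp only [ins, wedge_succ, Pi.sub_apply, Pi.smul_apply, smul_eq_mul, wedge_zero, sub_zero]
    rw [Fin.sum_univ_succ]
    simp only [Fin.val_zero, pow_zero, one_mul, Fin.cons_zero, Finset.univ_eq_empty,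
      Finset.sum_empty, add_zero]
    congr 2
  | succ k =>
    simp only [ins, wedge_succ, Pi.sub_apply, Pi.smul_apply, smul_eq_mul]
    rw [Fin.sum_univ_succ]
    simp only [Fin.val_zero, pow_zero, one_mul, Fin.cons_zero, Fin.zero_succAbove, Fin.cons_succ,
      Fin.val_succ, pow_succ, mul_neg_one, neg_mul]
    rw [Finset.sum_neg_distrib, sub_eq_add_neg]
    congr 2
    refine Finset.sum_congr rfl fun j _ => ?_
    congr 2
    funext i
    refine Fin.cases ?_ (fun i => ?_) i
    · simp
    · simp

lemma wedge_add (m : κ → R) (ω η : Form R κ) : wedge m (ω + η) = wedge m ω + wedge m η := by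
  funext k v
  cases k with
  | zero => simp [wedge_zero]
  | succ k =>
    simp only [wedge_succ, Pi.add_apply, mul_add, Finset.sum_add_distrib]

lemma wedge_smul (m : κ → R) (c : R) (ω : Form R κ) : wedge m (c • ω) = c • wedge m ω := by
  funext k v
  cases k with
  | zero => simp [wedge_zero]
  | succ k =>
    simp only [wedge_succ, Pi.smul_apply, smul_eq_mul, Finset.mul_sum]
    exact Finset.sum_congr rfl fun j _ => by ring

/-- Iterated exterior product. -/
def iter : ∀ n : ℕ, (Fin n → κ → R) → Form R κ → Form R κ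
  | 0, _, ω => ω
  | n + 1, m, ω => iter n (fun i => m i.castSucc) (wedge (m (Fin.last n)) ω)

lemma iter_succ (n : ℕ) (m : Fin (n + 1) → κ → R) (ω : Form R κ) :
    iter (n + 1) m ω = iter n (fun i => m i.castSucc) (wedge (m (Fin.last n)) ω) := rfl

lemma iter_succ' (n : ℕ) (m : Fin (n + 1) → κ → R) (ω : Form R κ) :
    iter (n + 1) m ω = wedge (m 0) (iter n (fun i => m i.succ) ω) := by
  induction n generalizing ω with
  | zero => rfl
  | succ n ih =>
    rw [iter_succ, ih, iter_succ]
    rfl

lemma iter_smul (n : ℕ) (m : Fin n → κ → R) (c : R) (ω : Form R κ) :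
    iter n m (c • ω) = c • iter n m ω := by
  induction n generalizing ω with
  | zero => rfl
  | succ n ih => rw [iter_succ, wedge_smul, ih, ← iter_succ]

lemma iter_add (n : ℕ) (m : Fin n → κ → R) (ω η : Form R κ) :
    iter n m (ω + η) = iter n m ω + iter n m η := by
  induction n generalizing ω η with
  | zero => rfl
  | succ n ih => rw [iter_succ, wedge_add, ih, ← iter_succ, ← iter_succ]

/-- The iterated exterior product as an additive map. -/
def iterHom (n : ℕ) (m : Fin n → κ → R) : Form R κ →+ Form R κ where
  toFun := iter n m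
  map_zero' := by
    have := iter_smul n m (0 : R) (0 : Form R κ)
    rwa [zero_smul, zero_smul] at this
  map_add' := iter_add n m

lemma iter_sum (n : ℕ) (m : Fin n → κ → R) {ι : Type*} (s : Finset ι) (ω : ι → Form R κ) :
    iter n m (∑ i ∈ s, ω i) = ∑ i ∈ s, iter n m (ω i) :=
  map_sum (iterHom n m) ω s

lemma iter_apply (n : ℕ) (m : Fin n → κ → R) (ω : Form R κ) (u : Fin n → κ) :
    iter n m ω n u = (Matrix.of fun i j => m i (u j)).det * ω 0 Fin.elim0 := by
  induction n with
  | zero =>
    rw [Matrix.det_fin_zero, one_mul]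
    exact congrArg _ (funext fun i => i.elim0)
  | succ n ih =>
    rw [iter_succ', wedge_succ, Matrix.det_succ_row_zero, Finset.sum_mul]
    refine Finset.sum_congr rfl fun j _ => ?_
    rw [ih, ← mul_assoc]
    rfl

lemma iter_concentrated (n : ℕ) (m : Fin n → κ → R) (ω : Form R κ)
    (h : ∀ k v, k ≠ 0 → ω k v = 0) (k : ℕ) (hk : k ≠ n) (v : Fin k → κ) : iter n m ω k v = 0 := by
  induction n generalizing k with
  | zero => exact h k v hk
  | succ n ih =>
    rw [iter_succ']
    cases k with
    | zero => rfl
    | succ k =>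
      rw [wedge_succ]
      refine Finset.sum_eq_zero fun j _ => ?_
      rw [ih _ _ (by omega), mul_zero]

/-- Iterated insertion. -/
def contr : ∀ k : ℕ, (Fin k → κ) → Form R κ → Form R κ
  | 0, _, ω => ω
  | k + 1, v, ω => contr k (fun i => v i.succ) (ins (v 0) ω)

omit [CommRing R] in
lemma contr_succ (k : ℕ) (v : Fin (k + 1) → κ) (ω : Form R κ) :
    contr (k + 1) v ω = contr k (fun i => v i.succ) (ins (v 0) ω) := rfl

omit [CommRing R] in
lemma contr_zero_apply (k : ℕ) (v : Fin k → κ) (ω : Form R κ) (u : Fin 0 → κ) :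
    contr k v ω 0 u = ω k v := by
  induction k generalizing ω with
  | zero => exact congrArg _ (funext fun i => i.elim0)
  | succ k ih =>
    rw [contr_succ, ih, ins]
    congr 1
    exact Fin.cons_self_tail v

lemma contr_sub (k : ℕ) (v : Fin k → κ) (ω η : Form R κ) :
    contr k v (ω - η) = contr k v ω - contr k v η := by
  induction k generalizing ω η with
  | zero => rfl
  | succ k ih => rw [contr_succ, contr_succ, contr_succ, ← ih]; rfl

lemma contr_smul (k : ℕ) (v : Fin k → κ) (c : R) (ω : Form R κ) :
    contr k v (c • ω) = c • contr k v ω := by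
  induction k generalizing ω with
  | zero => rfl
  | succ k ih => rw [contr_succ, contr_succ, ← ih]; rfl

lemma contr_zero_form (k : ℕ) (v : Fin k → κ) : contr k v (0 : Form R κ) = 0 := by
  have := contr_smul k v (0 : R) (0 : Form R κ)
  rwa [zero_smul, zero_smul] at this

/-- Exterior product with an insertion. -/
lemma wedge_contr (m : κ → R) (k : ℕ) (v : Fin (k + 1) → κ) (ω : Form R κ) :
    wedge m (contr (k + 1) v ω) = (-1 : R) ^ (k + 1) • contr (k + 1) v (wedge m ω) +
      ∑ j : Fin (k + 1), ((-1 : R) ^ (k + (j : ℕ)) * m (v j)) •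
        contr k (fun i => v (j.succAbove i)) ω := by
  induction k generalizing ω with
  | zero =>
    rw [contr_succ, contr_succ, Fin.sum_univ_succ]
    simp only [contr, Finset.univ_eq_empty, Finset.sum_empty, add_zero, Fin.val_zero, pow_zero,
      one_mul, zero_add, pow_one]
    rw [ins_wedge, neg_smul, one_smul]
    abel
  | succ k ih =>
    rw [contr_succ, ih, contr_succ (k + 1), ins_wedge, contr_sub, contr_smul]
    have h1 : wedge m (ins (v 0) ω) = m (v 0) • ω - ins (v 0) (wedge m ω) := by
      rw [ins_wedge]; abel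
    rw [Fin.sum_univ_succ (n := k + 1), h1, contr_sub, contr_smul]
    have h2 : ∀ j : Fin (k + 1), contr (k + 1) (fun i => v (j.succ.succAbove i)) ω =
        contr k (fun i => v (j.succAbove i).succ) (ins (v 0) ω) := by
      intro j
      rw [contr_succ]
      congr 1
      · funext i
        simp
    have h3 : contr (k + 1) (fun i => v ((0 : Fin (k + 2)).succAbove i)) ω =
        contr (k + 1) (fun i => v i.succ) ω := by
      congr 1
    rw [h3]
    simp only [h2, Fin.val_zero, Fin.val_succ, add_zero]
    have h4 : ∀ j : Fin (k + 1), ((-1 : R) ^ (k + 1 + ((j : ℕ) + 1)) * m (v j.succ)) =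
        (-1 : R) ^ (k + (j : ℕ)) * m (v j.succ) := by
      intro j
      rw [show k + 1 + ((j : ℕ) + 1) = k + (j : ℕ) + 2 by ring, pow_add]
      ring
    simp only [h4]
    rw [smul_sub, smul_sub, smul_sub, smul_smul, smul_smul]
    rw [pow_succ (-1 : R) (k + 1)]
    module

/-- Wick's theorem. -/
theorem wick (n : ℕ) (m : Fin n → κ → R) (ω : Form R κ) (h : ∀ i, wedge (m i) ω = 0)
    (v : Fin n → κ) : iter n m (contr n v ω) = (Matrix.of fun i j => m i (v j)).det • ω := by
  induction n with
  | zero =>
    rw [Matrix.det_fin_zero, one_smul]; rfl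
  | succ n ih =>
    rw [iter_succ, wedge_contr, h, contr_zero_form, smul_zero, zero_add, iter_sum,
      Matrix.det_succ_row _ (Fin.last n), Finset.sum_smul]
    refine Finset.sum_congr rfl fun j _ => ?_
    rw [iter_smul, ih _ (fun i => h _), smul_smul]
    congr 1
    simp only [Matrix.of_apply, Fin.val_last, Matrix.submatrix, Fin.succAbove_last]

/-- **Exchange of the columns of maximal minors.** -/
theorem det_exchange {ι : Type*} {n : ℕ} (M : ι → κ → R)
    (hM : ∀ (x : Fin (n + 1) → ι) (y : Fin (n + 1) → κ),
      (Matrix.of fun i j => M (x i) (y j)).det = 0) (x z : Fin n → ι) (y w : Fin n → κ) :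
    (Matrix.of fun i j => M (x i) (y j)).det * (Matrix.of fun i j => M (z i) (w j)).det =
      (Matrix.of fun i j => M (x i) (w j)).det * (Matrix.of fun i j => M (z i) (y j)).det := by
  set δ : Form R κ := fun k _ => if k = 0 then 1 else 0 with hδ
  have hδ0 : δ 0 Fin.elim0 = 1 := by simp [hδ]
  set ω : Form R κ := iter n (fun i => M (x i)) δ with hω
  have hkill : ∀ i : Fin n, wedge (M (z i)) ω = 0 := by
    intro i
    have h1 : wedge (M (z i)) ω = iter (n + 1) (Fin.cons (M (z i)) fun i => M (x i)) δ := by
      rw [iter_succ']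
      simp [hω]
    rw [h1]
    funext k v
    by_cases hk : k = n + 1
    · subst hk
      rw [iter_apply, hδ0, mul_one]
      have h2 := hM (Fin.cons (z i) x) v
      rw [Pi.zero_apply, Pi.zero_apply, ← h2]
      congr 1
      ext a b
      refine Fin.cases ?_ (fun a => ?_) a
      · simp
      · simp
    · rw [iter_concentrated _ _ _ _ k hk]
      · rfl
      · intro k v hk
        simp [hδ, hk]
  have h1 := congrFun (congrFun (wick n (fun i => M (z i)) ω hkill w) n) y
  rw [iter_apply, contr_zero_apply, hω, Pi.smul_apply, Pi.smul_apply, iter_apply, iter_apply, hδ0,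
    mul_one, mul_one, smul_eq_mul] at h1
  rw [mul_comm, ← h1, mul_comm]

end Pool.Agent.H836.Rank1
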