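import Pool.Agent.H836.Wedge
import Pool.Agent.H836.Rank1

/-!
# Determinants and permanents

`gd ε c` is the determinant of the matrix `c` for `ε = 1` and the permanent for `ε = -1`. If all
`gd ε` of size `n + 1` vanish, then the product of two of size `n` is symmetric (up to sign) in the
exchange of the columns. The proof is a form of Wick's theorem for fermions and bosons.
-/

open Equiv Equiv.Perm Pool.Agent.R903.PermCore

namespace Pool.Agent.H836

section gd

variable {R : Type*} [CommRing R] [Algebra ℚ R]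

/-- The determinant (for `ε = 1`) and the permanent (for `ε = -1`). -/
noncomputable def gd (ε : ℤˣ) {n : ℕ} (c : Fin n → Fin n → R) : R :=
  ∑ σ : Perm (Fin n), (chi ε σ : ℚ) • ∏ i, c i (σ i)

/-- A permutation from its value at `r` and a permutation of the other indices. -/
def insPerm {n : ℕ} (r : Fin (n + 1)) (x : Fin (n + 1) × Perm (Fin n)) : Perm (Fin (n + 1)) :=
  (finSuccEquiv' r).trans ((Equiv.optionCongr x.2).trans (finSuccEquiv' x.1).symm)

lemma insPerm_self {n : ℕ} (r : Fin (n + 1)) (x : Fin (n + 1) × Perm (Fin n)) :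
    insPerm r x r = x.1 := by
  simp [insPerm]

lemma insPerm_succAbove {n : ℕ} (r : Fin (n + 1)) (x : Fin (n + 1) × Perm (Fin n)) (i : Fin n) :
    insPerm r x (r.succAbove i) = x.1.succAbove (x.2 i) := by
  simp [insPerm]

lemma insPerm_bijective {n : ℕ} (r : Fin (n + 1)) : Function.Bijective (insPerm r) := by
  rw [Fintype.bijective_iff_injective_and_card]
  constructor
  · rintro ⟨j, τ⟩ ⟨j', τ'⟩ h
    have h1 : j = j' := by
      have := congrArg (fun σ : Perm (Fin (n + 1)) => σ r) h
      simpa only [insPerm_self] using this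
    subst h1
    congr 1
    ext i
    have := congrArg (fun σ : Perm (Fin (n + 1)) => σ (r.succAbove i)) h
    simp only [insPerm_succAbove] at this
    exact congrArg _ (Fin.succAbove_right_injective this)
  · rw [Fintype.card_prod, Fintype.card_perm, Fintype.card_perm, Fintype.card_fin,
      Fintype.card_fin, Nat.factorial_succ]

omit [Algebra ℚ R] in
lemma perm_row {n : ℕ} (r : Fin (n + 1)) (c : Fin (n + 1) → Fin (n + 1) → R) :
    ∑ σ : Perm (Fin (n + 1)), ∏ i, c i (σ i) =
      ∑ j, c r j * ∑ τ : Perm (Fin n), ∏ i, c (r.succAbove i) (j.succAbove (τ i)) := by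
  rw [← (Equiv.ofBijective _ (insPerm_bijective r)).sum_comp, Fintype.sum_prod_type]
  refine Finset.sum_congr rfl fun j _ => ?_
  rw [Finset.mul_sum]
  refine Finset.sum_congr rfl fun τ _ => ?_
  rw [Equiv.ofBijective_apply, Fin.prod_univ_succAbove _ r, insPerm_self]
  congr 1
  exact Finset.prod_congr rfl fun i _ => by rw [insPerm_succAbove]

lemma gd_one {n : ℕ} (c : Fin n → Fin n → R) : gd 1 c = (Matrix.of c).det := sum_chi_eq_det c

lemma gd_neg_one {n : ℕ} (c : Fin n → Fin n → R) : gd (-1) c = ∑ σ : Perm (Fin n),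
    ∏ i, c i (σ i) := by
  refine Finset.sum_congr rfl fun σ _ => ?_
  rw [chi_neg_one, one_smul]

lemma gd_zero (ε : ℤˣ) (c : Fin 0 → Fin 0 → R) : gd ε c = 1 := by
  rw [gd, Fintype.sum_eq_single (1 : Perm (Fin 0)) (fun σ hσ => absurd (Subsingleton.elim _ _) hσ)]
  rw [chi_one, one_smul, Finset.univ_eq_empty, Finset.prod_empty]

/-- Expansion along the first row. -/
lemma gd_row_zero (ε : ℤˣ) {n : ℕ} (c : Fin (n + 1) → Fin (n + 1) → R) :
    gd ε c = ∑ j : Fin (n + 1), ((-(ε : ℤ) : ℤ) : R) ^ (j : ℕ) * c 0 j *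
      gd ε fun i l => c i.succ (j.succAbove l) := by
  rcases Int.units_eq_one_or ε with rfl | rfl
  · rw [gd_one, Matrix.det_succ_row_zero]
    refine Finset.sum_congr rfl fun j _ => ?_
    rw [gd_one]
    simp only [Units.val_one, Int.cast_neg, Int.cast_one]
    rfl
  · rw [gd_neg_one, perm_row 0]
    refine Finset.sum_congr rfl fun j _ => ?_
    rw [gd_neg_one]
    simp

/-- Expansion along the last row. -/
lemma gd_row_last (ε : ℤˣ) {n : ℕ} (c : Fin (n + 1) → Fin (n + 1) → R) :
    gd ε c = ∑ j : Fin (n + 1), ((-(ε : ℤ) : ℤ) : R) ^ (n + (j : ℕ)) * c (Fin.last n) j *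
      gd ε fun i l => c i.castSucc (j.succAbove l) := by
  rcases Int.units_eq_one_or ε with rfl | rfl
  · rw [gd_one, Matrix.det_succ_row _ (Fin.last n)]
    refine Finset.sum_congr rfl fun j _ => ?_
    rw [gd_one]
    simp only [Units.val_one, Int.cast_neg, Int.cast_one, Fin.val_last, Matrix.of_apply]
    congr 1
    · congr 1
      ext i l
      simp
  · rw [gd_neg_one, perm_row (Fin.last n)]
    refine Finset.sum_congr rfl fun j _ => ?_
    rw [gd_neg_one]
    simp

end gd

/-! ### Wick's theorem -/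

namespace Wick

open Rank1

variable {R : Type*} [CommRing R] {κ : Type*} (q : R)

/-- The (exterior or symmetric) product with the linear form `m`. -/
def wdg (m : κ → R) (ω : Form R κ) : Form R κ
  | 0, _ => 0
  | k + 1, v => ∑ j : Fin (k + 1), q ^ (j : ℕ) * m (v j) * ω k (fun i => v (j.succAbove i))

lemma wdg_succ (m : κ → R) (ω : Form R κ) (k : ℕ) (v : Fin (k + 1) → κ) :
    wdg q m ω (k + 1) v =
      ∑ j : Fin (k + 1), q ^ (j : ℕ) * m (v j) * ω k (fun i => v (j.succAbove i)) := rfl

lemma wdg_zero (m : κ → R) (ω : Form R κ) (v : Fin 0 → κ) : wdg q m ω 0 v = 0 := rfl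

lemma ins_wdg (c : κ) (m : κ → R) (ω : Form R κ) :
    ins c (wdg q m ω) = m c • ω + q • wdg q m (ins c ω) := by
  funext k u
  cases k with
  | zero =>
    simp only [ins, wdg_succ, Pi.add_apply, Pi.smul_apply, smul_eq_mul, wdg_zero, mul_zero,
      add_zero]
    rw [Fin.sum_univ_succ]
    simp only [Fin.val_zero, pow_zero, one_mul, Fin.cons_zero, Finset.univ_eq_empty,
      Finset.sum_empty, add_zero]
    congr 2
  | succ k =>
    simp only [ins, wdg_succ, Pi.add_apply, Pi.smul_apply, smul_eq_mul]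
    rw [Fin.sum_univ_succ]
    simp only [Fin.val_zero, pow_zero, one_mul, Fin.cons_zero, Fin.zero_succAbove, Fin.cons_succ,
      Fin.val_succ, pow_succ, Finset.mul_sum]
    congr 1
    refine Finset.sum_congr rfl fun j _ => ?_
    rw [mul_comm (q ^ (j : ℕ)) q, mul_assoc q, mul_assoc q]
    congr 3
    funext i
    refine Fin.cases ?_ (fun i => ?_) i
    · simp
    · simp

lemma wdg_add (m : κ → R) (ω η : Form R κ) : wdg q m (ω + η) = wdg q m ω + wdg q m η := by
  funext k v
  cases k with
  | zero => simp [wdg_zero]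
  | succ k =>
    simp only [wdg_succ, Pi.add_apply, mul_add, Finset.sum_add_distrib]

lemma wdg_smul (m : κ → R) (c : R) (ω : Form R κ) : wdg q m (c • ω) = c • wdg q m ω := by
  funext k v
  cases k with
  | zero => simp [wdg_zero]
  | succ k =>
    simp only [wdg_succ, Pi.smul_apply, smul_eq_mul, Finset.mul_sum]
    exact Finset.sum_congr rfl fun j _ => by ring

/-- Iterated product. -/
def itr : ∀ n : ℕ, (Fin n → κ → R) → Form R κ → Form R κ
  | 0, _, ω => ω
  | n + 1, m, ω => itr n (fun i => m i.castSucc) (wdg q (m (Fin.last n)) ω)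

lemma itr_succ (n : ℕ) (m : Fin (n + 1) → κ → R) (ω : Form R κ) :
    itr q (n + 1) m ω = itr q n (fun i => m i.castSucc) (wdg q (m (Fin.last n)) ω) := rfl

lemma itr_succ' (n : ℕ) (m : Fin (n + 1) → κ → R) (ω : Form R κ) :
    itr q (n + 1) m ω = wdg q (m 0) (itr q n (fun i => m i.succ) ω) := by
  induction n generalizing ω with
  | zero => rfl
  | succ n ih =>
    rw [itr_succ, ih, itr_succ]
    rfl

lemma itr_smul (n : ℕ) (m : Fin n → κ → R) (c : R) (ω : Form R κ) :
    itr q n m (c • ω) = c • itr q n m ω := by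
  induction n generalizing ω with
  | zero => rfl
  | succ n ih => rw [itr_succ, wdg_smul, ih, ← itr_succ]

lemma itr_add (n : ℕ) (m : Fin n → κ → R) (ω η : Form R κ) :
    itr q n m (ω + η) = itr q n m ω + itr q n m η := by
  induction n generalizing ω η with
  | zero => rfl
  | succ n ih => rw [itr_succ, wdg_add, ih, ← itr_succ, ← itr_succ]

/-- The iterated product as an additive map. -/
def itrHom (n : ℕ) (m : Fin n → κ → R) : Form R κ →+ Form R κ where
  toFun := itr q n m
  map_zero' := by
    have := itr_smul q n m (0 : R) (0 : Form R κ)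
    rwa [zero_smul, zero_smul] at this
  map_add' := itr_add q n m

lemma itr_sum (n : ℕ) (m : Fin n → κ → R) {ι : Type*} (s : Finset ι) (ω : ι → Form R κ) :
    itr q n m (∑ i ∈ s, ω i) = ∑ i ∈ s, itr q n m (ω i) :=
  map_sum (itrHom q n m) ω s

lemma itr_concentrated (n : ℕ) (m : Fin n → κ → R) (ω : Form R κ)
    (h : ∀ k v, k ≠ 0 → ω k v = 0) (k : ℕ) (hk : k ≠ n) (v : Fin k → κ) :
    itr q n m ω k v = 0 := by
  induction n generalizing k with
  | zero => exact h k v hk
  | succ n ih =>
    rw [itr_succ']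
    cases k with
    | zero => rfl
    | succ k =>
      rw [wdg_succ]
      refine Finset.sum_eq_zero fun j _ => ?_
      rw [ih _ _ (by omega), mul_zero]

/-- The product with an insertion. -/
lemma wdg_contr (hq : q * q = 1) (m : κ → R) (k : ℕ) (v : Fin (k + 1) → κ) (ω : Form R κ)
    (h : wdg q m ω = 0) :
    wdg q m (contr (k + 1) v ω) =
      ∑ j : Fin (k + 1), (-(q ^ (k + 1 + (j : ℕ))) * m (v j)) •
        contr k (fun i => v (j.succAbove i)) ω := by
  have key : ∀ ω : Form R κ, wdg q m (contr (k + 1) v ω) =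
      q ^ (k + 1) • contr (k + 1) v (wdg q m ω) +
      ∑ j : Fin (k + 1), (-(q ^ (k + 1 + (j : ℕ))) * m (v j)) •
        contr k (fun i => v (j.succAbove i)) ω := by
    clear h ω
    have hins : ∀ (c : κ) (ω : Form R κ), wdg q m (ins c ω) =
        q • ins c (wdg q m ω) - (q * m c) • ω := by
      intro c ω
      rw [ins_wdg, smul_add, smul_smul, smul_smul, hq, one_smul]
      abel
    have hca : ∀ (k : ℕ) (v : Fin k → κ) (ω η : Form R κ), contr k v (ω - η) =
        contr k v ω - contr k v η := contr_sub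
    induction k with
    | zero =>
      intro ω
      rw [contr_succ, contr_succ, Fin.sum_univ_succ]
      simp only [contr, Finset.univ_eq_empty, Finset.sum_empty, add_zero, Fin.val_zero,
        zero_add, pow_one]
      rw [hins, neg_mul, neg_smul, sub_eq_add_neg]
    | succ k ih =>
      intro ω
      rw [contr_succ, ih, contr_succ (k + 1), hins, contr_sub, contr_smul, contr_smul,
        Fin.sum_univ_succ (n := k + 1)]
      have h2 : ∀ j : Fin (k + 1), contr (k + 1) (fun i => v (j.succ.succAbove i)) ω =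
          contr k (fun i => v (j.succAbove i).succ) (ins (v 0) ω) := by
        intro j
        rw [contr_succ]
        congr 1
        · funext i
          simp
      have h3 : contr (k + 1) (fun i => v ((0 : Fin (k + 2)).succAbove i)) ω =
          contr (k + 1) (fun i => v i.succ) ω := by
        congr 1
      rw [h3]
      simp only [h2, Fin.val_zero, Fin.val_succ, add_zero]
      have h4 : ∀ j : Fin (k + 1), -(q ^ (k + 1 + 1 + ((j : ℕ) + 1))) * m (v j.succ) =
          -(q ^ (k + 1 + (j : ℕ))) * m (v j.succ) := by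
        intro j
        rw [show k + 1 + 1 + ((j : ℕ) + 1) = k + 1 + (j : ℕ) + 2 by ring, pow_add, pow_two, hq,
          mul_one]
      simp only [h4]
      rw [smul_sub, smul_smul, smul_smul, ← pow_succ, pow_succ q (k + 1)]
      module
  rw [key ω, h, contr_zero_form, smul_zero, zero_add]

end Wick

section gd

open Rank1 Wick

variable {R : Type*} [CommRing R] [Algebra ℚ R] {κ : Type*}

/-- The sign. -/
abbrev sg (R : Type*) [CommRing R] (ε : ℤˣ) : R := ((-(ε : ℤ) : ℤ) : R)

omit [Algebra ℚ R] in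
lemma sg_mul_self (ε : ℤˣ) : sg R ε * sg R ε = 1 := by
  rcases Int.units_eq_one_or ε with rfl | rfl <;> simp [sg]

lemma itr_apply (ε : ℤˣ) (n : ℕ) (m : Fin n → κ → R) (ω : Form R κ) (u : Fin n → κ) :
    itr (sg R ε) n m ω n u = gd ε (fun i j => m i (u j)) * ω 0 Fin.elim0 := by
  induction n with
  | zero =>
    rw [gd_zero, one_mul]
    exact congrArg _ (funext fun i => i.elim0)
  | succ n ih =>
    rw [itr_succ', wdg_succ, gd_row_zero, Finset.sum_mul]
    refine Finset.sum_congr rfl fun j _ => ?_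
    rw [ih, ← mul_assoc]

/-- Wick's theorem. -/
theorem wick' (ε : ℤˣ) (n : ℕ) (m : Fin n → κ → R) (ω : Form R κ)
    (h : ∀ i, wdg (sg R ε) (m i) ω = 0) (v : Fin n → κ) :
    itr (sg R ε) n m (contr n v ω) =
      (((ε : ℤ) : R) ^ n * gd ε (fun i j => m i (v j))) • ω := by
  induction n with
  | zero =>
    rw [gd_zero, pow_zero, one_mul, one_smul]; rfl
  | succ n ih =>
    rw [itr_succ, wdg_contr _ (sg_mul_self ε) _ _ _ _ (h _), itr_sum,
      gd_row_last ε, Finset.mul_sum, Finset.sum_smul]
    refine Finset.sum_congr rfl fun j _ => ?_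
    rw [itr_smul, ih _ (fun i => h _), smul_smul]
    congr 1
    have h1 : (sg R ε) ^ (n + 1 + (j : ℕ)) = -((ε : ℤ) : R) * sg R ε ^ (n + (j : ℕ)) := by
      rw [show n + 1 + (j : ℕ) = (n + (j : ℕ)) + 1 by ring, pow_succ, sg, mul_comm]
      push_cast
      rfl
    rw [h1, pow_succ]
    ring

/-- **Exchange of the columns of maximal minors (or permanents).** -/
theorem gd_exchange {ι : Type*} (ε : ℤˣ) {n : ℕ} (M : ι → κ → R)
    (hM : ∀ (x : Fin (n + 1) → ι) (y : Fin (n + 1) → κ), gd ε (fun i j => M (x i) (y j)) = 0)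
    (x z : Fin n → ι) (y w : Fin n → κ) :
    gd ε (fun i j => M (x i) (y j)) * gd ε (fun i j => M (z i) (w j)) =
      ((ε : ℤ) : R) ^ n * (gd ε (fun i j => M (x i) (w j)) * gd ε (fun i j => M (z i) (y j))) := by
  set δ : Form R κ := fun k _ => if k = 0 then 1 else 0 with hδ
  have hδ0 : δ 0 Fin.elim0 = 1 := by simp [hδ]
  set ω : Form R κ := itr (sg R ε) n (fun i => M (x i)) δ with hω
  have hkill : ∀ i : Fin n, wdg (sg R ε) (M (z i)) ω = 0 := by
    intro i
    have h1 : wdg (sg R ε) (M (z i)) ω =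
        itr (sg R ε) (n + 1) (Fin.cons (M (z i)) fun i => M (x i)) δ := by
      rw [itr_succ']
      simp [hω]
    rw [h1]
    funext k v
    by_cases hk : k = n + 1
    · subst hk
      rw [itr_apply, hδ0, mul_one]
      have h2 := hM (Fin.cons (z i) x) v
      rw [Pi.zero_apply, Pi.zero_apply, ← h2]
      congr 1
      funext a b
      refine Fin.cases ?_ (fun a => ?_) a
      · simp
      · simp
    · rw [itr_concentrated _ _ _ _ _ k hk]
      · rfl
      · intro k v hk
        simp [hδ, hk]
  have h1 := congrFun (congrFun (wick' ε n (fun i => M (z i)) ω hkill w) n) y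
  rw [itr_apply, contr_zero_apply, hω, Pi.smul_apply, Pi.smul_apply, itr_apply, itr_apply, hδ0,
    mul_one, mul_one, smul_eq_mul] at h1
  have h2 : ((ε : ℤ) : R) ^ n * ((ε : ℤ) : R) ^ n = 1 := by
    rw [← mul_pow]
    rcases Int.units_eq_one_or ε with rfl | rfl <;> simp
  calc gd ε (fun i j => M (x i) (y j)) * gd ε (fun i j => M (z i) (w j))
      = (((ε : ℤ) : R) ^ n * ((ε : ℤ) : R) ^ n) * (gd ε (fun i j => M (x i) (y j)) *
          gd ε (fun i j => M (z i) (w j))) := by rw [h2, one_mul]
    _ = ((ε : ℤ) : R) ^ n * (((ε : ℤ) : R) ^ n * gd ε (fun i j => M (z i) (w j)) *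
          gd ε (fun i j => M (x i) (y j))) := by ring
    _ = _ := by rw [← h1]; ring

end gd

end Pool.Agent.H836
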