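import Pool.Graph.R_seed8.R903.Coh
import Pool.Graph.R_pool_sql_team_seeded_b0a926ef.R903.PermDefs

/-!
# The trace formula for correspondences
-/

open CategoryTheory CategoryTheory.Limits AlgebraicGeometry
open Pool.Agent.H914 Pool.Agent.H914.VarClass Pool.Agent.H914.VarClass.Obj
open Pool.Agent.R903

universe u v w

namespace Pool.Agent.H836

variable {k : Type u} [Field k] {𝒱 : VarClass k} {C : ChowTheory.{u, v} 𝒱}
variable (W : WeilTheory.{u, v, w} C) {X Y : 𝒱.Obj}

instance finiteH : Module.Finite W.K (W.H X) := (W.isPoincareAlgebra X).finite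

/-- The operator which acts on `H^j(X)` as `(-1)^j`. -/
noncomputable def sgnOp (X : 𝒱.Obj) : Module.End W.K (W.H X) :=
  scal (W.isInternal X) fun j => (-1) ^ j

/-- The operator `x ↦ p_{2*}(c · p_1^* x)` for a cohomology class `c`. -/
noncomputable def opH (c : W.H (X.prod Y)) : W.H X →ₗ[W.K] W.H Y :=
  corrOp (W.map (fst X Y)) (W.push (snd X Y)) c

lemma opH_apply (c : W.H (X.prod Y)) (x : W.H X) :
    opH W c x = W.push (snd X Y) (c * W.map (fst X Y) x) := rfl

lemma opH_cl (γ : C.CH (X.prod Y)) : opH W (W.cl _ γ) = W.act γ := rfl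

lemma opH_prod (a : W.H X) {j : ℕ} {b : W.H Y} (hb : b ∈ W.gr Y j) {l : ℕ} {x : W.H X}
    (hx : x ∈ W.gr X l) : opH W (W.map (fst X Y) a * W.map (snd X Y) b) x =
      (((-1 : W.K) ^ (j * l)) * W.tr X (a * x)) • b := by
  rw [opH_apply, mul_assoc, W.comm (W.map_mem _ hb) (W.map_mem _ hx), mul_smul_comm, map_smul,
    ← mul_assoc, ← map_mul, W.push_snd, smul_smul]

/-- The trace formula for a cohomology class. -/
lemma trace_opH (c : W.H (X.prod X)) :
    LinearMap.trace W.K (W.H X) (sgnOp W X ∘ₗ opH W c) = W.tr X (W.map (Obj.diag X) c) := by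
  refine W.kunneth_induction (p := fun c =>
    LinearMap.trace W.K (W.H X) (sgnOp W X ∘ₗ opH W c) = W.tr X (W.map (Obj.diag X) c)) ?_ ?_ c
  · intro a b ha hb
    have h1 : opH W (a + b) = opH W a + opH W b := by
      ext x; simp [opH_apply, add_mul]
    rw [h1, LinearMap.comp_add, map_add, map_add, map_add, ha, hb]
  · intro i j a _ b hb
    have h1 : sgnOp W X ∘ₗ opH W (W.map (fst X X) a * W.map (snd X X) b) =
        (((-1 : W.K) ^ j) • (W.tr X ∘ₗ LinearMap.mulLeft W.K a ∘ₗ
          scal (W.isInternal X) fun l => (-1) ^ (j * l))).smulRight b := by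
      refine gr_ext (W.isInternal X) ?_
      intro l x hx
      rw [LinearMap.comp_apply, opH_prod W a hb hx, map_smul, sgnOp, scal_apply _ _ hb,
        LinearMap.smulRight_apply, LinearMap.smul_apply, LinearMap.comp_apply,
        LinearMap.comp_apply, scal_apply _ _ hx, LinearMap.mulLeft_apply, mul_smul_comm, map_smul,
        smul_smul, smul_eq_mul, smul_eq_mul]
      ring_nf
    rw [h1, LinearMap.trace_smulRight, LinearMap.smul_apply, LinearMap.comp_apply,
      LinearMap.comp_apply, scal_apply _ _ hb, LinearMap.mulLeft_apply, mul_smul_comm, map_smul,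
      W.map_mul', ← W.map_comp, ← W.map_comp, diag_fst, diag_snd, W.map_id, W.map_id, smul_eq_mul,
      smul_eq_mul, ← mul_assoc, ← pow_add]
    have h2 : Even (j + j * j) := by
      have := Nat.even_mul_succ_self j
      rwa [mul_add, mul_one, add_comm] at this
    rw [h2.neg_one_pow, one_mul]

/-- **The trace formula**: the degree of the restriction of a correspondence to the diagonal is the
alternating sum of the traces. -/
theorem trace_act (γ : C.CH (X.prod X)) :
    LinearMap.trace W.K (W.H X) (sgnOp W X ∘ₗ W.act γ) = (C.motDim γ : W.K) := by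
  rw [← opH_cl, trace_opH, ← W.cl_pull, W.tr_cl]
  rfl

end Pool.Agent.H836
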