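import Mathlib

/-!
# Polynomial identities in one parameter in an algebra
-/

open Finset Polynomial

namespace Pool.Agent.H836

section vand

variable {V : Type*} [AddCommGroup V] [Module ℚ V]

/-- A polynomial in one rational parameter with values in a vector space which vanishes
identically has zero coefficients. -/
lemma coeff_eq_zero_of_forall {N : ℕ} (q : ℕ → V)
    (h : ∀ s : ℚ, ∑ i ∈ range N, s ^ i • q i = 0) : ∀ i < N, q i = 0 := by
  intro i hi
  rw [← Module.forall_dual_apply_eq_zero_iff ℚ]
  intro φ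
  have h1 : (∑ j ∈ range N, C (φ (q j)) * X ^ j : ℚ[X]) = 0 := by
    apply Polynomial.funext
    intro s
    have h2 := congrArg φ (h s)
    rw [map_sum, map_zero] at h2
    rw [Polynomial.eval_finsetSum, Polynomial.eval_zero, ← h2]
    refine Finset.sum_congr rfl fun j _ => ?_
    rw [eval_mul, eval_C, eval_pow, eval_X, map_smul, smul_eq_mul, mul_comm]
  have h3 := congrArg (fun p => Polynomial.coeff p i) h1
  simp only [finsetSum_coeff, coeff_C_mul, coeff_X_pow, mul_ite, mul_one, mul_zero,
    coeff_zero] at h3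
  rw [Finset.sum_ite_eq (range N) i] at h3
  simpa [hi] using h3

end vand

section ring

variable {R : Type*} [Ring R]

/-- The sum of the words with `i` letters `f` and `n - i` letters `g`. -/
def word (g f : R) : ℕ → ℕ → R
  | 0, 0 => 1
  | 0, _ + 1 => 0
  | n + 1, 0 => word g f n 0 * g
  | n + 1, i + 1 => word g f n (i + 1) * g + word g f n i * f

lemma word_zero (g f : R) (n : ℕ) : word g f n 0 = g ^ n := by
  induction n with
  | zero => simp [word]
  | succ n ih => rw [word, ih, pow_succ]

lemma word_eq_zero (g f : R) (n : ℕ) : ∀ i, n < i → word g f n i = 0 := by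
  induction n with
  | zero => intro i hi; obtain ⟨j, rfl⟩ : ∃ j, i = j + 1 := ⟨i - 1, by omega⟩; rfl
  | succ n ih =>
    intro i hi
    obtain ⟨j, rfl⟩ : ∃ j, i = j + 1 := ⟨i - 1, by omega⟩
    rw [word, ih _ (by omega), ih _ (by omega), zero_mul, zero_mul, add_zero]

lemma word_one (g f : R) (n : ℕ) :
    word g f n 1 = ∑ i ∈ range n, g ^ i * f * g ^ (n - 1 - i) := by
  induction n with
  | zero => simp [word]
  | succ n ih =>
    rw [word, ih, word_zero, sum_range_succ, sum_mul]
    congr 1
    · refine sum_congr rfl fun i hi => ?_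
      have : n + 1 - 1 - i = (n - 1 - i) + 1 := by rw [mem_range] at hi; omega
      rw [this, pow_succ, ← mul_assoc]
    · simp

lemma word_comm {g f : R} (h : Commute g f) (n : ℕ) :
    ∀ i, word g f n i = (n.choose i : R) * (g ^ (n - i) * f ^ i) := by
  induction n with
  | zero =>
    intro i
    cases i with
    | zero => simp [word]
    | succ i => simp [word]
  | succ n ih =>
    intro i
    cases i with
    | zero => rw [word_zero]; simp
    | succ i =>
      rw [word, ih, ih, Nat.choose_succ_succ, Nat.cast_add, add_mul, add_comm]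
      congr 1
      · rw [mul_assoc, mul_assoc, ← pow_succ]
        congr 2
        congr 1
        omega
      · rcases Nat.lt_or_ge n (i + 1) with hi | hi
        · rw [Nat.choose_eq_zero_of_lt hi]; simp
        · rw [mul_assoc, mul_assoc, ← (h.pow_right (i + 1)).eq, ← mul_assoc (g ^ (n - (i + 1))),
            ← pow_succ, show n - (i + 1) + 1 = n + 1 - (i + 1) by omega]

variable [Algebra ℚ R]

lemma add_smul_pow (g f : R) (s : ℚ) (n : ℕ) :
    ∀ N, n < N → (g + s • f) ^ n = ∑ i ∈ range N, s ^ i • word g f n i := by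
  induction n with
  | zero =>
    intro N hN
    obtain ⟨N, rfl⟩ : ∃ M, N = M + 1 := ⟨N - 1, by omega⟩
    rw [sum_range_succ', pow_zero, pow_zero, one_smul]
    simp [word]
  | succ n ih =>
    intro N hN
    obtain ⟨N, rfl⟩ : ∃ M, N = M + 1 := ⟨N - 1, by omega⟩
    have h1 := ih (N + 1) (by omega)
    have h2 := ih N (by omega)
    rw [pow_succ, mul_add]
    nth_rewrite 1 [h1]
    rw [h2, sum_mul, sum_mul, sum_range_succ', sum_range_succ']
    simp only [word, pow_zero, one_smul, smul_add, sum_add_distrib]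
    rw [add_right_comm]
    congr 1
    congr 1
    · exact sum_congr rfl fun i _ => by rw [smul_mul_assoc]
    · exact sum_congr rfl fun i _ => by
        rw [smul_mul_assoc, mul_smul_comm, smul_smul, pow_succ]

/-- The coefficient of `s ^ i` of `P(g + s f)`. -/
noncomputable def wordPoly (P : ℚ[X]) (g f : R) (i : ℕ) : R :=
  P.sum fun n c => c • word g f n i

lemma wordPoly_eq (P : ℚ[X]) (g f : R) (i : ℕ) :
    wordPoly P g f i = ∑ n ∈ range (P.natDegree + 1), P.coeff n • word g f n i :=
  Polynomial.sum_over_range _ fun n => zero_smul ℚ (word g f n i)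

lemma aeval_add_smul (P : ℚ[X]) (g f : R) (s : ℚ) :
    aeval (g + s • f) P = ∑ i ∈ range (P.natDegree + 1), s ^ i • wordPoly P g f i := by
  rw [aeval_eq_sum_range]
  simp only [wordPoly_eq, smul_sum]
  rw [sum_comm]
  refine sum_congr rfl fun n hn => ?_
  rw [add_smul_pow g f s n (P.natDegree + 1) (by simpa using hn), smul_sum]
  exact sum_congr rfl fun i _ => smul_comm _ _ _

/-- If `P(g + s f) ω = 0` for all rational numbers `s`, the coefficients vanish. -/
theorem wordPoly_eq_zero {P : ℚ[X]} {g f ω : R}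
    (h : ∀ s : ℚ, aeval (g + s • f) P * ω = 0) (i : ℕ) : wordPoly P g f i * ω = 0 := by
  rcases Nat.lt_or_ge i (P.natDegree + 1) with hi | hi
  · refine coeff_eq_zero_of_forall (fun i => wordPoly P g f i * ω) (fun s => ?_) i hi
    rw [← h s, aeval_add_smul, sum_mul]
    exact sum_congr rfl fun i _ => by rw [smul_mul_assoc]
  · have : wordPoly P g f i = 0 := by
      rw [wordPoly_eq]
      refine sum_eq_zero fun n hn => ?_
      rw [word_eq_zero _ _ _ _ (by rw [mem_range] at hn; omega), smul_zero]
    rw [this, zero_mul]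

lemma wordPoly_comm {P : ℚ[X]} {g f : R} (h : Commute g f) (i : ℕ) :
    wordPoly P g f i = aeval g (hasseDeriv i P) * f ^ i := by
  rw [wordPoly, hasseDeriv_apply, Polynomial.sum_def, Polynomial.sum_def, map_sum, sum_mul]
  refine sum_congr rfl fun n _ => ?_
  rw [aeval_monomial, word_comm h, Algebra.algebraMap_eq_smul_one]
  simp only [smul_mul_assoc, one_mul, mul_smul]
  rw [smul_comm]
  congr 1
  rw [Nat.cast_smul_eq_nsmul, nsmul_eq_mul]

/-- If all the roots of `P` have multiplicity at most `e` and `P(g + s f) ω = 0` for all `s`, where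
`f` commutes with `g` and `ω`, then `f^e ω = 0`. -/
theorem pow_mul_eq_zero {P : ℚ[X]} (hP : P ≠ 0) {g f ω : R}
    (h : ∀ s : ℚ, aeval (g + s • f) P * ω = 0) (hgf : Commute g f) (hfω : Commute f ω) {e : ℕ}
    (he : ∀ z : ℂ, (P.map (algebraMap ℚ ℂ)).rootMultiplicity z ≤ e) : f ^ e * ω = 0 := by
  -- the ideal of the polynomials which kill `f ^ e * ω`
  let I : Ideal ℚ[X] :=
    { carrier := {Q | aeval g Q * (f ^ e * ω) = 0}
      add_mem' := by
        intro a b ha hb
        rw [Set.mem_ofPred_eq] at ha hb ⊢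
        rw [map_add, add_mul, ha, hb, add_zero]
      zero_mem' := by rw [Set.mem_ofPred_eq, map_zero, zero_mul]
      smul_mem' := by
        intro c x hx
        rw [Set.mem_ofPred_eq] at hx ⊢
        rw [smul_eq_mul, map_mul, mul_assoc, hx, mul_zero] }
  have hI : ∀ j ≤ e, hasseDeriv j P ∈ I := by
    intro j hj
    change aeval g (hasseDeriv j P) * (f ^ e * ω) = 0
    have h1 := wordPoly_eq_zero h j
    rw [wordPoly_comm hgf] at h1
    rw [show f ^ e = f ^ j * f ^ (e - j) by rw [← pow_add]; congr 1; omega, mul_assoc,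
      (hfω.pow_left (e - j)).eq, ← mul_assoc, ← mul_assoc, h1, zero_mul]
  by_cases h1 : (1 : ℚ[X]) ∈ I
  · have h2 : aeval g (1 : ℚ[X]) * (f ^ e * ω) = 0 := h1
    rwa [map_one, one_mul] at h2
  exfalso
  obtain ⟨D, hD⟩ := (IsPrincipalIdealRing.principal I).principal
  have hdvd : ∀ j ≤ e, D ∣ hasseDeriv j P := by
    intro j hj
    have := hI j hj
    rw [hD] at this
    exact Ideal.mem_span_singleton.1 this
  have hDu : ¬ IsUnit D := by
    intro hu
    apply h1
    rw [hD]
    exact Ideal.mem_span_singleton.2 hu.dvd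
  have hD0 : D ≠ 0 := by
    rintro rfl
    have h2 := hdvd 0 (Nat.zero_le _)
    rw [hasseDeriv_zero', zero_dvd_iff] at h2
    exact hP h2
  have hdeg : (D.map (algebraMap ℚ ℂ)).degree ≠ 0 := by
    rw [degree_map]
    intro h0
    exact hDu (isUnit_iff_degree_eq_zero.2 h0)
  obtain ⟨z, hz⟩ := IsAlgClosed.exists_root (D.map (algebraMap ℚ ℂ)) hdeg
  have hroot : ∀ j ≤ e, (derivative^[j] (P.map (algebraMap ℚ ℂ))).IsRoot z := by
    intro j hj
    have h3 : derivative^[j] P = (j.factorial : ℚ[X]) * hasseDeriv j P := by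
      have := congrFun (factorial_smul_hasseDeriv (R := ℚ) j) P
      rw [← this, LinearMap.smul_apply, nsmul_eq_mul]
    rw [iterate_derivative_map, h3, Polynomial.map_mul, IsRoot.def, eval_mul]
    obtain ⟨S, hS⟩ := hdvd j hj
    rw [hS, Polynomial.map_mul, eval_mul, hz.eq_zero, zero_mul, mul_zero]
  have hne : P.map (algebraMap ℚ ℂ) ≠ 0 :=
    (Polynomial.map_ne_zero_iff (algebraMap ℚ ℂ).injective).2 hP
  exact absurd (he z) (not_le.2 (lt_rootMultiplicity_of_isRoot_iterate_derivative hne hroot))

end ring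

end Pool.Agent.H836
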