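import Mathlib

/-!
# Newton's identities

`newt p` are the elementary symmetric functions (with signs) of a family with the power sums `p k`.
-/

open Finset

namespace Pool.Agent.H836

/-- The coefficients determined by the power sums `p 1, p 2, …` by Newton's identities. -/
noncomputable def newt {K : Type*} [Field K] (p : ℕ → K) : ℕ → K
  | 0 => 1
  | m + 1 => -((m : K) + 1)⁻¹ * ∑ l : Fin (m + 1), p (m - l + 1) * newt p l

section newt

variable {K : Type*} [Field K] [CharZero K]

omit [CharZero K] in
lemma newt_zero (p : ℕ → K) : newt p 0 = 1 := by rw [newt]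

omit [CharZero K] in
lemma sum_fin_eq (p c : ℕ → K) (m : ℕ) : ∑ l : Fin (m + 1), p (m - l + 1) * c l =
    ∑ x ∈ antidiagonal m, p (x.1 + 1) * c x.2 := by
  rw [Fin.sum_univ_eq_sum_range (fun l => p (m - l + 1) * c l) (m + 1),
    Finset.Nat.sum_antidiagonal_eq_sum_range_succ_mk, ← Finset.sum_range_reflect]
  refine Finset.sum_congr rfl fun i hi => ?_
  rw [Finset.mem_range] at hi
  have h1 : m + 1 - 1 - i = m - i := by omega
  have h2 : m - (m - i) = i := by omega
  simp only [h1, h2]

/-- The recursion which characterizes the coefficients. -/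
lemma newt_succ (p : ℕ → K) (m : ℕ) :
    ((m : K) + 1) * newt p (m + 1) = -∑ x ∈ antidiagonal m, p (x.1 + 1) * newt p x.2 := by
  have h : (m : K) + 1 ≠ 0 := by exact_mod_cast m.succ_ne_zero
  rw [newt, sum_fin_eq]
  field_simp

lemma eq_newt {p c : ℕ → K} (h0 : c 0 = 1)
    (h : ∀ m : ℕ, ((m : K) + 1) * c (m + 1) = -∑ x ∈ antidiagonal m, p (x.1 + 1) * c x.2) :
    c = newt p := by
  funext m
  induction m using Nat.strong_induction_on with
  | _ m ih =>
    cases m with
    | zero => rw [h0, newt_zero]
    | succ m =>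
      have h1 : (m : K) + 1 ≠ 0 := by exact_mod_cast m.succ_ne_zero
      refine mul_left_cancel₀ h1 ?_
      rw [h, newt_succ]
      congr 1
      refine Finset.sum_congr rfl fun x hx => ?_
      rw [ih x.2 (by have := HasAntidiagonal.mem_antidiagonal.1 hx; omega)]

lemma newt_congr {p q : ℕ → K} (h : ∀ k, p (k + 1) = q (k + 1)) : newt p = newt q := by
  refine eq_newt (newt_zero p) fun m => ?_
  rw [newt_succ]
  congr 1
  exact Finset.sum_congr rfl fun x _ => by rw [h]

/-- The monic polynomial of degree `n` with the coefficients `c j`. -/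
noncomputable def npoly {R : Type*} [Semiring R] (c : ℕ → R) (n : ℕ) : Polynomial R :=
  ∑ j ∈ range (n + 1), Polynomial.C (c j) * Polynomial.X ^ (n - j)

lemma npoly_succ {R : Type*} [Semiring R] (c : ℕ → R) (n : ℕ) :
    npoly c (n + 1) = npoly c n * Polynomial.X + Polynomial.C (c (n + 1)) := by
  rw [npoly, Finset.sum_range_succ, Nat.sub_self, pow_zero, mul_one, npoly, Finset.sum_mul]
  congr 1
  refine Finset.sum_congr rfl fun j hj => ?_
  rw [mul_assoc, ← pow_succ]
  congr 2
  have := Finset.mem_range.1 hj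
  omega

end newt

/-! ### the contraction of rows in a commutative ring -/

section kap

variable {B : Type*} [CommRing B] [Algebra ℚ B]

/-- The contraction of `m` rows which are powers of one element; `T` is the trace. -/
noncomputable def kap (ε : ℚ) (T : ℕ → B) : ∀ m : ℕ, (Fin m → ℕ) → B
  | 0, _ => 1
  | m + 1, a => T (a 0) * kap ε T m (fun i => a i.succ) -
      ε • ∑ j, kap ε T m (Function.update (fun i => a i.succ) j (a 0 + a j.succ))

variable (ε : ℚ) (T : ℕ → B)

lemma kap_succ (m : ℕ) (a : Fin (m + 1) → ℕ) :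
    kap ε T (m + 1) a = T (a 0) * kap ε T m (fun i => a i.succ) -
      ε • ∑ j, kap ε T m (Function.update (fun i => a i.succ) j (a 0 + a j.succ)) := rfl

lemma kap_cons (m : ℕ) (a : ℕ) (c : Fin m → ℕ) :
    kap ε T (m + 1) (Fin.cons a c) = T a * kap ε T m c -
      ε • ∑ j, kap ε T m (Function.update c j (a + c j)) := by
  rw [kap_succ]
  simp only [Fin.cons_zero, Fin.cons_succ]

lemma kap_swap (m : ℕ) (a b : ℕ) (c : Fin m → ℕ) :
    kap ε T (m + 2) (Fin.cons a (Fin.cons b c)) = kap ε T (m + 2) (Fin.cons b (Fin.cons a c)) := by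
  have h1 : ∀ a b : ℕ, kap ε T (m + 2) (Fin.cons a (Fin.cons b c)) =
      T a * T b * kap ε T m c
      - ε • (T a * ∑ j, kap ε T m (Function.update c j (b + c j)))
      - ε • (T b * ∑ j, kap ε T m (Function.update c j (a + c j)))
      - ε • (kap ε T (m + 1) (Fin.cons (a + b) c))
      + ε • ε • ∑ j, ∑ l, kap ε T m (Function.update (Function.update c j (a + c j)) l
        (b + Function.update c j (a + c j) l)) := by
    intro a b
    rw [kap_cons, Fin.sum_univ_succ, Fin.cons_zero, Fin.update_cons_zero, kap_cons (c := c) (a := b)]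
    have h2 : ∀ j : Fin m, kap ε T (m + 1) (Function.update (Fin.cons b c : Fin (m + 1) → ℕ) j.succ
        (a + (Fin.cons b c : Fin (m + 1) → ℕ) j.succ)) =
        T b * kap ε T m (Function.update c j (a + c j)) -
        ε • ∑ l, kap ε T m (Function.update (Function.update c j (a + c j)) l
          (b + Function.update c j (a + c j) l)) := by
      intro j
      rw [Fin.cons_succ, ← Fin.cons_update, kap_cons]
    rw [Finset.sum_congr rfl fun j _ => h2 j, Finset.sum_sub_distrib, ← Finset.mul_sum,
      ← Finset.smul_sum, mul_sub, smul_add, smul_sub, mul_smul_comm, mul_assoc]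
    abel
  have h3 : ∑ j, ∑ l, kap ε T m (Function.update (Function.update c j (a + c j)) l
        (b + Function.update c j (a + c j) l)) =
      ∑ j, ∑ l, kap ε T m (Function.update (Function.update c j (b + c j)) l
        (a + Function.update c j (b + c j) l)) := by
    rw [Finset.sum_comm]
    refine Finset.sum_congr rfl fun j _ => Finset.sum_congr rfl fun l _ => ?_
    by_cases hjl : j = l
    · subst hjl
      rw [Function.update_self, Function.update_self, Function.update_idem, Function.update_idem]
      congr 2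
      ring
    · rw [Function.update_of_ne hjl, Function.update_of_ne (Ne.symm hjl),
        Function.update_comm hjl]
  rw [h1 a b, h1 b a, h3, add_comm a b]
  ring

lemma kap_perm_zero (m : ℕ) (h : ∀ (π : Equiv.Perm (Fin m)) (a : Fin m → ℕ),
    kap ε T m (a ∘ π) = kap ε T m a) (τ : Equiv.Perm (Fin m)) (a : Fin (m + 1) → ℕ) :
    kap ε T (m + 1) (a ∘ Equiv.Perm.decomposeFin.symm (0, τ)) = kap ε T (m + 1) a := by
  have h1 : a ∘ Equiv.Perm.decomposeFin.symm (0, τ) =
      Fin.cons (a 0) ((fun i => a i.succ) ∘ τ) := by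
    funext i
    refine Fin.cases ?_ (fun i => ?_) i
    · simp
    · simp
  have h2 : a = Fin.cons (a 0) (fun i => a i.succ) := by
    funext i
    refine Fin.cases ?_ (fun i => ?_) i <;> simp
  rw [h1]
  conv_rhs => rw [h2]
  rw [kap_cons, kap_cons, h]
  congr 2
  rw [← Equiv.sum_comp τ fun j =>
    kap ε T m (Function.update (fun i => a i.succ) j (a 0 + a j.succ))]
  refine Finset.sum_congr rfl fun j _ => ?_
  rw [← h τ (Function.update (fun i => a i.succ) (τ j) (a 0 + a (τ j).succ))]
  congr 1
  funext i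
  by_cases hij : i = j
  · subst hij; simp
  · rw [Function.update_of_ne hij, Function.comp_apply, Function.comp_apply,
      Function.update_of_ne (fun h => hij (τ.injective h))]

lemma kap_swap_zero_one (m : ℕ) (a : Fin (m + 2) → ℕ) :
    kap ε T (m + 2) (a ∘ Equiv.swap 0 1) = kap ε T (m + 2) a := by
  have h1 : a ∘ Equiv.swap 0 1 = Fin.cons (a 1) (Fin.cons (a 0) fun i => a i.succ.succ) := by
    funext i
    refine Fin.cases ?_ (fun i => Fin.cases ?_ (fun i => ?_) i) i
    · simp
    · rw [Function.comp_apply, Fin.cons_succ, Fin.cons_zero, show (Fin.succ 0 : Fin (m + 2)) = 1 from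
        rfl, Equiv.swap_apply_right]
    · rw [Function.comp_apply, Fin.cons_succ, Fin.cons_succ, Equiv.swap_apply_of_ne_of_ne]
      · exact Fin.succ_ne_zero _
      · exact fun h => Fin.succ_ne_zero i (Fin.succ_injective _ h)
  have h2 : a = Fin.cons (a 0) (Fin.cons (a 1) fun i => a i.succ.succ) := by
    funext i
    refine Fin.cases ?_ (fun i => Fin.cases ?_ (fun i => ?_) i) i <;> simp
  rw [h1, kap_swap, ← h2]

/-- The contraction does not depend on the order of the rows. -/
theorem kap_perm (m : ℕ) : ∀ (π : Equiv.Perm (Fin m)) (a : Fin m → ℕ),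
    kap ε T m (a ∘ π) = kap ε T m a := by
  induction m with
  | zero => intro π a; rfl
  | succ m ih =>
    have hzero := kap_perm_zero ε T m ih
    have hfix : ∀ (π : Equiv.Perm (Fin (m + 1))) (a : Fin (m + 1) → ℕ), π 0 = 0 →
        kap ε T (m + 1) (a ∘ π) = kap ε T (m + 1) a := by
      intro π a hπ
      obtain ⟨⟨p, τ⟩, rfl⟩ := Equiv.Perm.decomposeFin.symm.surjective π
      have hp : p = 0 := by simpa using hπ
      subst hp
      exact hzero τ a
    have hswap : ∀ (p : Fin (m + 1)) (a : Fin (m + 1) → ℕ),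
        kap ε T (m + 1) (a ∘ Equiv.swap 0 p) = kap ε T (m + 1) a := by
      intro p a
      refine Fin.cases ?_ (fun q => ?_) p
      · rw [Equiv.swap_self]; rfl
      · cases m with
        | zero => exact q.elim0
        | succ m =>
          by_cases hq : q = 0
          · subst hq; exact kap_swap_zero_one ε T m a
          · have h01 : (0 : Fin (m + 2)) ≠ 1 := by simp
            have h0q : (0 : Fin (m + 2)) ≠ q.succ := (Fin.succ_ne_zero q).symm
            have h1q : (1 : Fin (m + 2)) ≠ q.succ := fun h =>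
              hq (Fin.succ_injective _ (show Fin.succ q = Fin.succ 0 from h.symm))
            have h2 : Equiv.swap (0 : Fin (m + 2)) q.succ =
                Equiv.swap 1 q.succ * Equiv.swap 0 1 * Equiv.swap 1 q.succ := by
              rw [Equiv.swap_mul_swap_mul_swap h01 h0q, Equiv.swap_comm]
            have h3 : a ∘ Equiv.swap (0 : Fin (m + 2)) q.succ =
                ((a ∘ Equiv.swap 1 q.succ) ∘ Equiv.swap 0 1) ∘ Equiv.swap 1 q.succ := by
              rw [h2]; rfl
            have h4 : Equiv.swap (1 : Fin (m + 2)) q.succ 0 = 0 :=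
              Equiv.swap_apply_of_ne_of_ne h01 h0q
            rw [h3, hfix _ _ h4, kap_swap_zero_one, hfix _ _ h4]
    intro π a
    obtain ⟨⟨p, τ⟩, rfl⟩ := Equiv.Perm.decomposeFin.symm.surjective π
    have h1 : a ∘ Equiv.Perm.decomposeFin.symm (p, τ) =
        (a ∘ Equiv.swap 0 p) ∘ Equiv.Perm.decomposeFin.symm (0, τ) := by
      funext i
      refine Fin.cases ?_ (fun i => ?_) i
      · simp
      · simp
    rw [h1, hzero, hswap]

/-- The contraction of `m` equal rows, divided by `m!`. -/
noncomputable def skap (m : ℕ) : B := ((m.factorial : ℚ)⁻¹) • kap ε T m (fun _ => 1)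

/-- One row `z` and `m` rows `1`, divided by `m!`. -/
noncomputable def zkap (m : ℕ) (z : ℕ) : B :=
  ((m.factorial : ℚ)⁻¹) • kap ε T (m + 1) (Fin.cons z fun _ => 1)

lemma zkap_zero (z : ℕ) : zkap ε T 0 z = T z := by
  rw [zkap, kap_cons]
  simp [kap]

lemma zkap_succ (m : ℕ) (z : ℕ) :
    zkap ε T (m + 1) z = T z * skap ε T (m + 1) - ε • zkap ε T m (z + 1) := by
  have h1 : ∀ j : Fin (m + 1), kap ε T (m + 1) (Function.update (fun _ => 1) j (z + 1)) =
      kap ε T (m + 1) (Fin.cons (z + 1) fun _ => 1) := by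
    intro j
    rw [← kap_perm ε T (m + 1) (Equiv.swap 0 j) (Fin.cons (z + 1) fun _ => 1)]
    congr 1
    funext i
    by_cases hij : i = j
    · subst hij; simp
    · rw [Function.update_of_ne hij, Function.comp_apply]
      by_cases hi0 : i = 0
      · subst hi0
        rw [Equiv.swap_apply_left]
        refine Fin.cases (fun h => absurd rfl h) (fun j _ => ?_) j (motive := fun j =>
          ¬ (0 : Fin (m + 1)) = j → (1 : ℕ) = (Fin.cons (z + 1) (fun _ => 1) : Fin (m + 1) → ℕ) j) hij
        simp
      · rw [Equiv.swap_apply_of_ne_of_ne hi0 hij]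
        obtain ⟨i', rfl⟩ := Fin.exists_succ_eq.2 hi0
        simp
  have h2 : ((m + 1).factorial : ℚ)⁻¹ * ((m + 1 : ℕ) : ℚ) = (m.factorial : ℚ)⁻¹ := by
    have := m.factorial_ne_zero
    have h3 : ((m + 1 : ℕ) : ℚ) ≠ 0 := by exact_mod_cast m.succ_ne_zero
    rw [Nat.factorial_succ]
    push_cast
    push_cast at h3
    field_simp
  rw [zkap, kap_cons, Finset.sum_congr rfl fun j _ => h1 j, Finset.sum_const, Finset.card_univ,
    Fintype.card_fin, smul_sub, skap, mul_smul_comm, zkap, ← Nat.cast_smul_eq_nsmul ℚ, smul_smul,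
    smul_smul, smul_smul]
  congr 2
  rw [← h2]
  push_cast
  ring

lemma skap_succ (m : ℕ) : ((m : ℚ) + 1) • skap ε T (m + 1) = zkap ε T m 1 := by
  have h1 : (fun _ : Fin (m + 1) => (1 : ℕ)) = Fin.cons 1 fun _ => 1 := by
    funext i
    refine Fin.cases ?_ (fun i => ?_) i <;> simp
  rw [skap, zkap, smul_smul, h1]
  congr 1
  have := m.factorial_ne_zero
  have h3 : ((m : ℚ) + 1) ≠ 0 := by exact_mod_cast m.succ_ne_zero
  rw [Nat.factorial_succ]
  push_cast
  field_simp

lemma zkap_eq (m : ℕ) : ∀ z, zkap ε T m z =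
    ∑ x ∈ antidiagonal m, ((-ε) ^ x.1 • T (z + x.1)) * skap ε T x.2 := by
  induction m with
  | zero =>
    intro z
    rw [zkap_zero]
    simp [skap, kap]
  | succ m ih =>
    intro z
    rw [zkap_succ, ih, Finset.Nat.sum_antidiagonal_succ, Finset.smul_sum, sub_eq_add_neg,
      ← Finset.sum_neg_distrib]
    congr 1
    · simp
    · refine Finset.sum_congr rfl fun x _ => ?_
      rw [← smul_mul_assoc, smul_smul, ← neg_mul, ← neg_smul, pow_succ', neg_mul_eq_neg_mul,
        add_right_comm, add_assoc z]

end kap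

end Pool.Agent.H836
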