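import Pool.Agent.H836.Form
import Pool.Agent.H836.Defs

/-!
# Products of cycles on oddly finite-dimensional motives
-/

open CategoryTheory CategoryTheory.Limits AlgebraicGeometry
open Pool.Agent.H914 Pool.Agent.H914.VarClass Pool.Agent.H914.VarClass.Obj
open Pool.Agent.R903 Equiv Equiv.Perm Pool.Agent.R903.PermCore Pool.Agent.R903.Mat

universe u v w

namespace Pool.Agent.H836

variable {k : Type u} [Field k] {𝒱 : VarClass k} {C : ChowTheory.{u, v} 𝒱}

variable {X Y : 𝒱.Obj} {ω θ η : C.CH (X.prod X)}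

lemma chi_neg_one {n : ℕ} (σ : Equiv.Perm (Fin n)) : chi (-1) σ = 1 := by
  have h : (-1 : ℤˣ) ≠ 1 := by decide
  rw [chi, if_neg h]

lemma algebraMap_injective' (h1 : (1 : C.CH X) ≠ 0) :
    Function.Injective (algebraMap ℚ (C.CH X)) := by
  have : Nontrivial (C.CH X) := ⟨⟨1, 0, h1⟩⟩
  exact (algebraMap ℚ (C.CH X)).injective

/-- The form given by an oddly finite-dimensional correspondence has the value zero on cycles. -/
lemma deg_act_mul (h1 : (1 : C.CH X) ≠ 0) {m : ℕ} (hm1 : 1 ≤ m) (hm : C.PermRel ω m (chi (-1)))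
    (a b : C.CH X) : C.deg X (C.act ω a * b) = 0 := by
  have h3 := permRel_entries hm (fun _ => a) (fun _ => b) Finset.univ Finset.univ X
    (fun _ => 𝟙 X) (fun _ => 𝟙 X)
  simp only [entry, Finset.mem_univ, if_true, chi_neg_one, one_smul, Finset.prod_const,
    Finset.card_univ, Fintype.card_fin, Finset.sum_const, Fintype.card_perm] at h3
  rw [← map_pow, nsmul_eq_mul] at h3
  have h4 : algebraMap ℚ (C.CH X) ((m.factorial : ℚ) * C.deg X (C.act ω a * b) ^ m) =
      algebraMap ℚ (C.CH X) 0 := by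
    rw [map_mul, map_natCast, map_zero, h3]
  have h5 := algebraMap_injective' h1 h4
  have h6 : (m.factorial : ℚ) ≠ 0 := by exact_mod_cast m.factorial_ne_zero
  exact pow_eq_zero_iff (by omega) |>.1 ((mul_eq_zero.1 h5).resolve_left h6)

/-- Permanents: if they vanish for `r`, then they vanish for `r + 1`. -/
lemma perm_step (V : Set (C.CH X)) {r : ℕ}
    (h : ∀ (a : Fin r → C.CH X), (∀ i, a i ∈ V) → ∀ (Y : 𝒱.Obj) (z : Fin r → (Y ⟶ X)),
      ∑ σ : Equiv.Perm (Fin r), ∏ i, C.pull (z (σ i)) (a i) = 0)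
    (a : Fin (r + 1) → C.CH X) (ha : ∀ i, a i ∈ V) (Y : 𝒱.Obj) (z : Fin (r + 1) → (Y ⟶ X)) :
    ∑ σ : Equiv.Perm (Fin (r + 1)), ∏ i, C.pull (z (σ i)) (a i) = 0 := by
  rw [← Equiv.sum_comp decomposeFin.symm, Fintype.sum_prod_type]
  refine Finset.sum_eq_zero fun p _ => ?_
  have h1 := h (fun i => a i.succ) (fun i => ha _) Y (fun j => z (Equiv.swap 0 p j.succ))
  have h2 := congrArg (fun t => C.pull (z p) (a 0) * t) h1
  simp only [mul_zero, Finset.mul_sum] at h2
  rw [← h2]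
  refine Finset.sum_congr rfl fun τ _ => ?_
  rw [Fin.prod_univ_succ]
  simp only [decomposeFin_symm_apply_zero, decomposeFin_symm_apply_succ]

theorem sum_prod_eq_zero_all (V : Set (C.CH X)) {g : ℕ}
    (h : ∀ (a : Fin (g + 1) → C.CH X), (∀ i, a i ∈ V) → ∀ (Y : 𝒱.Obj) (z : Fin (g + 1) → (Y ⟶ X)),
      ∑ σ : Equiv.Perm (Fin (g + 1)), ∏ i, C.pull (z (σ i)) (a i) = 0) {n : ℕ} (hn : g ≤ n) :
    ∀ (a : Fin (n + 1) → C.CH X), (∀ i, a i ∈ V) → ∀ (Y : 𝒱.Obj) (z : Fin (n + 1) → (Y ⟶ X)),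
      ∑ σ : Equiv.Perm (Fin (n + 1)), ∏ i, C.pull (z (σ i)) (a i) = 0 := by
  induction n, hn using Nat.le_induction with
  | base => exact h
  | succ n _ ih => exact fun a ha Y z => perm_step V ih a ha Y z

/-- The symmetrized product of more than `g` cycles of an oddly finite-dimensional motive of
dimension `-2 g` with a symmetric form vanishes. -/
theorem sum_prod_eq_zero (hP : C.Polarized) (hs : C.IsSymmetric θ)
    (h1 : C.comp (C.comp θ η) θ = θ) (hodd : ∃ m, C.SymVanishes (C.comp η θ) m) :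
    ∃ g : ℕ, C.motDim (C.comp η θ) = -2 * g ∧ ∀ n, g ≤ n → ∀ (a : Fin (n + 1) → C.CH X),
      (∀ i, C.act (C.comp η θ) (a i) = a i) → ∀ (Y : 𝒱.Obj) (z : Fin (n + 1) → (Y ⟶ X)),
        ∑ σ : Equiv.Perm (Fin (n + 1)), ∏ i, C.pull (z (σ i)) (a i) = 0 := by
  obtain ⟨g, hg, hsym, hrel⟩ := exists_rel_one hP hs h1 hodd
  have hone := ChowTheory.one_ne_zero_of_polarized hP X
  have h1' : C.comp θ (C.comp η θ) = θ := by rw [← ChowTheory.comp_assoc]; exact h1
  refine ⟨g, hg, fun n hn => ?_⟩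
  refine sum_prod_eq_zero_all {a | C.act (C.comp η θ) a = a} (g := g) ?_ hn
  intro a ha Y z
  obtain ⟨hN1, hN3⟩ := ChowTheory.symVanishes_iff.1 hsym
  have hθ : C.PermRel θ (2 * g + 1) (chi (-1)) := hN3.restrict h1'
  have h3 : Mat.Rel C hs fun _ : Matching (Fin (g + 1) ⊕ Fin (g + 1)) => (1 : ℚ) :=
    hrel _ (by simp; ring)
  have ha' : ∀ i, C.act θ (C.act η (a i)) = a i := fun i => by
    rw [← C.act_comp]; exact ha i
  have h4 := rel_insert h3 (fun i => C.act η (Sum.elim a a i)) (Finset.univ.image Sum.inl)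
    (fun i _ j _ => deg_act_mul hone (by omega) hθ _ _) Y (Sum.elim z z)
  simp only [one_smul] at h4
  rw [sum_matchings_eq] at h4
  · rw [← h4]
    refine Finset.sum_congr rfl fun σ _ => Finset.prod_congr rfl fun i _ => ?_
    rw [vfam_mk, if_pos (Finset.mem_image.2 ⟨i, Finset.mem_univ i, rfl⟩), if_neg (by simp),
      Sum.elim_inl, Sum.elim_inr, ha']
  · intro i j
    rw [vfam_mk, if_pos (Finset.mem_image.2 ⟨i, Finset.mem_univ i, rfl⟩),
      if_pos (Finset.mem_image.2 ⟨j, Finset.mem_univ j, rfl⟩)]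

/-! ### exterior powers -/

lemma powVanishes_iff {a : C.CH X} {m : ℕ} : PowVanishes C a m ↔
    1 ≤ m ∧ ∀ (Y : 𝒱.Obj) (z : Fin m → (Y ⟶ X)), ∏ i, C.pull (z i) a = 0 := by
  constructor
  · rintro ⟨n, rfl, h⟩
    refine ⟨by omega, fun Y z => ?_⟩
    obtain ⟨f, hf⟩ := ChowTheory.exists_lift n z
    have h1 := congrArg (C.pull f) h
    rw [map_zero, map_prod] at h1
    rw [← h1]
    refine Finset.prod_congr rfl fun i _ => ?_
    rw [← C.pull_comp, hf]
  · rintro ⟨hm, h⟩
    obtain ⟨n, rfl⟩ : ∃ n, m = n + 1 := ⟨m - 1, by omega⟩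
    exact ⟨n, rfl, h _ (pr X n)⟩

lemma PowVanishes.finset {a : C.CH X} {m : ℕ} (h : PowVanishes C a m) {ι : Type*} {s : Finset ι}
    (hs : m ≤ s.card) (z : ι → (Y ⟶ X)) : ∏ i ∈ s, C.pull (z i) a = 0 := by
  classical
  obtain ⟨t, hts, ht⟩ := Finset.exists_subset_card_eq hs
  have e : Fin m ≃ t := (Fintype.equivFinOfCardEq (by rw [Fintype.card_coe, ht])).symm
  have h1 := (powVanishes_iff.1 h).2 Y (fun i => z (e i))
  rw [← Finset.prod_sdiff hts, ← Finset.prod_coe_sort t, ← e.prod_comp, h1, mul_zero]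

/-- Exterior powers of a sum. -/
theorem PowVanishes.add {a b : C.CH X} {m n : ℕ} (ha : PowVanishes C a m)
    (hb : PowVanishes C b (n + 1)) : PowVanishes C (a + b) (m + n) := by
  classical
  refine powVanishes_iff.2 ⟨by have := (powVanishes_iff.1 ha).1; omega, fun Y z => ?_⟩
  simp only [map_add]
  rw [Finset.prod_add]
  refine Finset.sum_eq_zero fun t ht => ?_
  have hcard : t.card + (Finset.univ \ t).card = m + n := by
    rw [Finset.card_sdiff_of_subset (Finset.subset_univ t), Finset.card_univ, Fintype.card_fin]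
    have := Finset.card_le_univ t
    rw [Fintype.card_fin] at this
    omega
  by_cases h : m ≤ t.card
  · rw [ha.finset h, zero_mul]
  · rw [hb.finset (s := Finset.univ \ t) (by omega), mul_zero]

lemma powVanishes_of_sum {a : C.CH X} {n : ℕ}
    (h : ∑ σ : Equiv.Perm (Fin (n + 1)), ∏ i, C.pull (pr X n (σ i)) a = 0) :
    PowVanishes C a (n + 1) := by
  refine ⟨n, rfl, ?_⟩
  have h1 : ∀ σ : Equiv.Perm (Fin (n + 1)), ∏ i, C.pull (pr X n (σ i)) a =
      ∏ i, C.pull (pr X n i) a := fun σ => Equiv.prod_comp σ fun i => C.pull (pr X n i) a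
  rw [Finset.sum_congr rfl fun σ _ => h1 σ, Finset.sum_const, Finset.card_univ,
    Fintype.card_perm, Fintype.card_fin, ← Nat.cast_smul_eq_nsmul ℚ] at h
  refine (smul_eq_zero.1 h).resolve_left ?_
  exact_mod_cast (n + 1).factorial_ne_zero

/-- A decomposable correspondence kills numerically trivial cycles. -/
lemma act_sum_ext {r : ℕ} (x y : Fin r → C.CH X) {a : C.CH X} (ha : NumTrivial C a) :
    C.act (∑ j, C.ext (x j) (y j)) a = 0 := by
  rw [C.act_sum, LinearMap.sum_apply]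
  refine Finset.sum_eq_zero fun j _ => ?_
  rw [C.act_ext, ha, zero_smul]

end Pool.Agent.H836
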