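import Pool.Agent.H836.Lef
import Pool.Graph.R_pool_sql_team_seeded_b0a926ef.R903.PermCyc

/-!
# The parity of the cohomology of evenly and oddly finite-dimensional motives
-/

open CategoryTheory CategoryTheory.Limits AlgebraicGeometry
open Pool.Agent.H914 Pool.Agent.H914.VarClass Pool.Agent.H914.VarClass.Obj
open Pool.Agent.R903 Equiv Equiv.Perm Pool.Agent.R903.PermCore

universe u v w

namespace Pool.Agent.H836

variable {k : Type u} [Field k] {𝒱 : VarClass k} {C : ChowTheory.{u, v} 𝒱}
variable {W : WeilTheory.{u, v, w} C} {X X' V V' Y Z : 𝒱.Obj}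

/-- The class `c` and all its pull-backs commute with all classes. -/
def Cen (W : WeilTheory.{u, v, w} C) {Y : 𝒱.Obj} (c : W.H Y) : Prop :=
  ∀ (Z : 𝒱.Obj) (f : Z ⟶ Y), W.map f c ∈ Subalgebra.center W.K (W.H Z)

lemma cen_of_even {p : ℕ} {c : W.H Y} (hc : c ∈ W.gr Y (2 * p)) : Cen W c := by
  intro Z f
  rw [Subalgebra.mem_center_iff]
  intro b
  exact (W.even_comm (W.map_mem f hc) b).symm

lemma Cen.add {a b : W.H Y} (ha : Cen W a) (hb : Cen W b) : Cen W (a + b) := by
  intro Z f
  rw [map_add]
  exact Subalgebra.add_mem _ (ha Z f) (hb Z f)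

lemma Cen.map {a : W.H Y} (ha : Cen W a) (f : Z ⟶ Y) : Cen W (W.map f a) := by
  intro Z' g
  rw [← W.map_comp]
  exact ha _ _

lemma cen_cl (x : C.CH Y) : Cen W (W.cl Y x) := by
  refine gr_induction (C.isChowRing Y).isInternal (p := fun x => Cen W (W.cl Y x)) ?_ ?_ x
  · intro i a ha
    exact cen_of_even (W.cl_mem ha)
  · intro a b ha hb
    rw [map_add]
    exact ha.add hb

lemma Cen.mem_center {a : W.H Y} (ha : Cen W a) : a ∈ Subalgebra.center W.K (W.H Y) := by
  have := ha Y (𝟙 Y)
  rwa [W.map_id] at this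

lemma push_center (f : Y ⟶ Z) {c : W.H Y} (hc : c ∈ Subalgebra.center W.K (W.H Y)) :
    W.push f c ∈ Subalgebra.center W.K (W.H Z) := by
  rw [Subalgebra.mem_center_iff] at hc ⊢
  intro b
  refine gr_induction (W.isInternal Z) (p := fun b => b * W.push f c = W.push f c * b) ?_ ?_ b
  · intro j b hb
    rw [← W.map_push_mul f hb, hc, W.push_mul]
  · intro a b ha hb
    rw [add_mul, mul_add, ha, hb]

lemma map_push_fst (g : Z ⟶ Y) (c : W.H (Y.prod X)) :
    W.map g (W.push (fst Y X) c) =
      W.push (fst Z X) (W.map (lift (fst Z X ≫ g) (snd Z X)) c) := by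
  refine W.kunneth_induction (p := fun c => W.map g (W.push (fst Y X) c) =
      W.push (fst Z X) (W.map (lift (fst Z X ≫ g) (snd Z X)) c)) ?_ ?_ c
  · intro a b ha hb
    simp only [map_add, ha, hb]
  · intro i j a ha b hb
    rw [W.push_fst a hb, map_smul, W.map_mul', ← W.map_comp, ← W.map_comp, lift_fst, lift_snd,
      W.map_comp, W.push_fst _ hb]

lemma Cen.push {c : W.H (Y.prod X)} (hc : Cen W c) : Cen W (W.push (fst Y X) c) := by
  intro Z g
  rw [map_push_fst]
  exact push_center _ (hc _ _)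

/-- The algebra of the classes all of whose pull-backs are central (for instance, all classes of
even degree). -/
noncomputable def cenAlg (W : WeilTheory.{u, v, w} C) (Y : 𝒱.Obj) : Subalgebra W.K (W.H Y) where
  carrier := {c | Cen W c}
  mul_mem' := by
    intro a b ha hb Z f
    rw [W.map_mul']
    exact Subalgebra.mul_mem _ (ha Z f) (hb Z f)
  add_mem' := fun ha hb => Cen.add ha hb
  algebraMap_mem' := by
    intro r Z f
    rw [AlgHom.commutes]
    exact Subalgebra.algebraMap_mem _ r

lemma mem_cenAlg {c : W.H Y} : c ∈ cenAlg W Y ↔ Cen W c := Iff.rfl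

noncomputable instance : CommRing (cenAlg W Y) :=
  { (inferInstance : Ring (cenAlg W Y)) with
    mul_comm := by
      intro a b
      apply Subtype.ext
      exact (Subalgebra.mem_center_iff.1 (Cen.mem_center b.2) a.1) }

/-- Pull-back. -/
noncomputable def mapS (f : Z ⟶ Y) : cenAlg W Y →ₐ[W.K] cenAlg W Z :=
  ((W.map f).comp (cenAlg W Y).val).codRestrict _ fun a => Cen.map a.2 f

@[simp] lemma coe_mapS (f : Z ⟶ Y) (a : cenAlg W Y) : (mapS f a : W.H Z) = W.map f a := rfl

/-- Push-forward along a projection. -/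
noncomputable def pushS (Y X : 𝒱.Obj) : cenAlg W (Y.prod X) →ₗ[W.K] cenAlg W Y :=
  ((W.push (fst Y X)) ∘ₗ (cenAlg W (Y.prod X)).val.toLinearMap).codRestrict
    (Subalgebra.toSubmodule (cenAlg W Y)) fun a => Cen.push a.2

@[simp] lemma coe_pushS (a : cenAlg W (Y.prod X)) :
    (pushS Y X a : W.H Y) = W.push (fst Y X) a := rfl

/-- The cycle class map. -/
noncomputable def clS (W : WeilTheory.{u, v, w} C) (Y : 𝒱.Obj) : C.CH Y →+* cenAlg W Y :=
  (W.cl Y).codRestrict _ cen_cl

@[simp] lemma coe_clS (a : C.CH Y) : (clS W Y a : W.H Y) = W.cl Y a := rfl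

lemma pushS_mul (a : cenAlg W (Y.prod X)) (b : cenAlg W Y) :
    pushS Y X (a * mapS (fst Y X) b) = pushS Y X a * b := by
  apply Subtype.ext
  simp [W.push_mul]

lemma mapS_comp (f : Z ⟶ Y) (g : Y ⟶ X) (a : cenAlg W X) :
    mapS f (mapS g a) = mapS (f ≫ g) a := by
  apply Subtype.ext
  simp [W.map_comp]

lemma clS_pull (f : Z ⟶ Y) (a : C.CH Y) : clS W Z (C.pull f a) = mapS f (clS W Y a) := by
  apply Subtype.ext
  simp [W.cl_pull]

lemma clS_smul (q : ℚ) (a : C.CH Y) : clS W Y (q • a) = (q : W.K) • clS W Y a := by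
  apply Subtype.ext
  simp [W.cl_smul]

/-! ### composition in cohomology -/

/-- The composition of the classes `α` on `X' × X` and `ω` on `X × V`. -/
noncomputable def compH (W : WeilTheory.{u, v, w} C) {X X' V : 𝒱.Obj} (α : W.H (X'.prod X))
    (ω : W.H (X.prod V)) : W.H (X'.prod V) :=
  W.push (fst (X'.prod V) X) (W.map (lift (fst (X'.prod V) X ≫ fst X' V) (snd (X'.prod V) X)) α *
    W.map (lift (snd (X'.prod V) X) (fst (X'.prod V) X ≫ snd X' V)) ω)

lemma push_corr_prod (u : Y ⟶ X') (y : Y ⟶ V) {i j l m : ℕ} {a' : W.H X'} (ha' : a' ∈ W.gr X' i)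
    {a : W.H X} (ha : a ∈ W.gr X j) {c : W.H X} (hc : c ∈ W.gr X l) {d : W.H V}
    (hd : d ∈ W.gr V m) :
    W.push (fst Y X) (W.map (lift (fst Y X ≫ u) (snd Y X))
      (W.map (fst X' X) a' * W.map (snd X' X) a) *
      W.map (lift (snd Y X) (fst Y X ≫ y)) (W.map (fst X V) c * W.map (snd X V) d)) =
      W.tr X (a * c) • (W.map u a' * W.map y d) := by
  rw [W.map_mul', W.map_mul', ← W.map_comp, ← W.map_comp, ← W.map_comp, ← W.map_comp, lift_fst,
    lift_snd, lift_fst, lift_snd, W.map_comp (fst Y X) u, W.map_comp (fst Y X) y]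
  have h1 : W.map (fst Y X) (W.map u a') * W.map (snd Y X) a *
      (W.map (snd Y X) c * W.map (fst Y X) (W.map y d)) =
      W.map (fst Y X) (W.map u a') *
        (((-1 : W.K) ^ ((j + l) * m)) • (W.map (fst Y X) (W.map y d) * W.map (snd Y X) (a * c))) := by
    rw [← W.comm (W.map_mem (snd Y X) (W.mul_mem ha hc)) (W.map_mem (fst Y X) (W.map_mem y hd)),
      W.map_mul' (snd Y X)]
    simp only [mul_assoc]
  have h2 : (-1 : W.K) ^ ((j + l) * m) * W.tr X (a * c) = W.tr X (a * c) := by
    by_cases h : j + l = 2 * X.dim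
    · rw [h, mul_assoc, pow_mul]
      simp
    · rw [W.tr_eq_zero (W.mul_mem ha hc) h]
      simp
  rw [h1, W.map_push_mul _ (W.map_mem u ha'), map_smul, W.push_fst _ (W.mul_mem ha hc), smul_smul,
    h2, mul_smul_comm]

lemma push_corr (u : Y ⟶ X') (y : Y ⟶ V) (α : W.H (X'.prod X)) (ω : W.H (X.prod V)) :
    W.push (fst Y X) (W.map (lift (fst Y X ≫ u) (snd Y X)) α *
      W.map (lift (snd Y X) (fst Y X ≫ y)) ω) = W.map (lift u y) (compH W α ω) := by
  refine W.kunneth_induction (p := fun α => W.push (fst Y X) (W.map (lift (fst Y X ≫ u) (snd Y X)) α *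
      W.map (lift (snd Y X) (fst Y X ≫ y)) ω) = W.map (lift u y) (compH W α ω)) ?_ ?_ α
  · intro a b ha hb
    have : compH W (a + b) ω = compH W a ω + compH W b ω := by
      simp only [compH, map_add, add_mul]
    rw [this, map_add, add_mul, map_add, map_add, ha, hb]
  · intro i j a' ha' a ha
    refine W.kunneth_induction (p := fun ω => W.push (fst Y X) (W.map
      (lift (fst Y X ≫ u) (snd Y X)) (W.map (fst X' X) a' * W.map (snd X' X) a) *
      W.map (lift (snd Y X) (fst Y X ≫ y)) ω) = W.map (lift u y)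
        (compH W (W.map (fst X' X) a' * W.map (snd X' X) a) ω)) ?_ ?_ ω
    · intro b b' hb hb'
      have : ∀ γ : W.H (X'.prod X), compH W γ (b + b') = compH W γ b + compH W γ b' := by
        intro γ
        simp only [compH, map_add, mul_add]
      rw [this, map_add, mul_add, map_add, map_add, hb, hb']
    · intro l m c hc d hd
      rw [push_corr_prod u y ha' ha hc hd, compH, push_corr_prod _ _ ha' ha hc hd, map_smul,
        W.map_mul', ← W.map_comp, ← W.map_comp, lift_fst, lift_snd]

lemma compH_prod {i j l m : ℕ} {a' : W.H X'} (ha' : a' ∈ W.gr X' i)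
    {a : W.H X} (ha : a ∈ W.gr X j) {c : W.H X} (hc : c ∈ W.gr X l) {d : W.H V}
    (hd : d ∈ W.gr V m) :
    compH W (W.map (fst X' X) a' * W.map (snd X' X) a) (W.map (fst X V) c * W.map (snd X V) d) =
      W.tr X (a * c) • (W.map (fst X' V) a' * W.map (snd X' V) d) := by
  rw [compH, push_corr_prod _ _ ha' ha hc hd]

lemma Cen.compH {α : W.H (X'.prod X)} {ω : W.H (X.prod V)} (hα : Cen W α) (hω : Cen W ω) :
    Cen W (compH W α ω) := by
  intro Z f
  have h1 : f = lift (f ≫ fst X' V) (f ≫ snd X' V) := by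
    apply hom_ext_prod <;> simp
  rw [h1, ← push_corr]
  exact push_center _ (Subalgebra.mul_mem _ (hα _ _) (hω _ _))

/-- Composition of central classes. -/
noncomputable def compS (α : cenAlg W (X'.prod X)) (ω : cenAlg W (X.prod V)) :
    cenAlg W (X'.prod V) :=
  ⟨compH W α.1 ω.1, Cen.compH (mem_cenAlg.1 α.2) (mem_cenAlg.1 ω.2)⟩

@[simp] lemma coe_compS (α : cenAlg W (X'.prod X)) (ω : cenAlg W (X.prod V)) :
    (compS α ω : W.H (X'.prod V)) = compH W α.1 ω.1 := rfl

lemma pushS_corr (u : Y ⟶ X') (y : Y ⟶ V) (α : cenAlg W (X'.prod X)) (ω : cenAlg W (X.prod V)) :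
    pushS Y X (mapS (lift (fst Y X ≫ u) (snd Y X)) α *
      mapS (lift (snd Y X) (fst Y X ≫ y)) ω) = mapS (lift u y) (compS α ω) := by
  apply Subtype.ext
  simpa using push_corr u y α.1 ω.1

/-! ### relations in cohomology -/

/-- The relation `∑ a(σ) ∏ (x_i, y_{σ(i)})^* ω = 0` in the cohomology, for all morphisms. -/
def RelH (ω : cenAlg W (X.prod V)) (n : ℕ) (a : Equiv.Perm (Fin n) → W.K) : Prop :=
  ∀ (Y : 𝒱.Obj) (x : Fin n → (Y ⟶ X)) (y : Fin n → (Y ⟶ V)),
    ∑ σ, a σ • ∏ i, mapS (lift (x i) (y (σ i))) ω = 0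

variable {n : ℕ}

/-- The relation for the class of a correspondence. -/
lemma relH_of_permRel {ω : C.CH (X.prod X)} {a : Equiv.Perm (Fin n) → ℚ} (h : C.PermRel ω n a) :
    RelH (clS W _ ω) n fun σ => (a σ : W.K) := by
  intro Y x y
  have h1 := congrArg (clS W Y) (h Y x y)
  rw [map_zero, map_sum] at h1
  rw [← h1]
  refine Finset.sum_congr rfl fun σ _ => ?_
  rw [clS_smul, map_prod]
  simp only [clS_pull]

/-- Composition on the side of the rows. -/
lemma RelH.comp {ω : cenAlg W (X.prod V)} {a : Equiv.Perm (Fin n) → W.K}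
    (h : RelH ω n a) (α : cenAlg W (X.prod X)) : RelH (compS α ω) n a := by
  classical
  have key : ∀ S : Finset (Fin n), ∀ (Y : 𝒱.Obj) (x : Fin n → (Y ⟶ X)) (u : Fin n → (Y ⟶ X))
      (y : Fin n → (Y ⟶ V)), ∑ σ, a σ • ∏ i, (if i ∈ S then
        mapS (lift (u i) (y (σ i))) (compS α ω) else mapS (lift (x i) (y (σ i))) ω) = 0 := by
    intro S
    induction S using Finset.induction_on with
    | empty =>
      intro Y x u y
      simpa using h Y x y
    | insert j s hj ih =>
      intro Y x u y
      have h1 := ih (Y.prod X) (fun i => if i = j then snd Y X else fst Y X ≫ x i)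
        (fun i => fst Y X ≫ u i) (fun i => fst Y X ≫ y i)
      have h2 := congrArg (fun z => pushS Y X (mapS (lift (fst Y X ≫ u j) (snd Y X)) α * z)) h1
      simp only [mul_zero, map_zero, Finset.mul_sum, map_sum, mul_smul_comm, map_smul] at h2
      rw [← h2]
      refine Finset.sum_congr rfl fun σ _ => ?_
      congr 1
      rw [← Finset.mul_prod_erase Finset.univ _ (Finset.mem_univ j),
        ← Finset.mul_prod_erase Finset.univ (fun i => if i ∈ s then
          mapS (lift (fst Y X ≫ u i) (fst Y X ≫ y (σ i))) (compS α ω) else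
          mapS (lift (if i = j then snd Y X else fst Y X ≫ x i) (fst Y X ≫ y (σ i))) ω)
          (Finset.mem_univ j)]
      have h3 : ∀ i ∈ Finset.univ.erase j, (if i ∈ s then
          mapS (lift (fst Y X ≫ u i) (fst Y X ≫ y (σ i))) (compS α ω) else
          mapS (lift (if i = j then snd Y X else fst Y X ≫ x i) (fst Y X ≫ y (σ i))) ω) =
          mapS (fst Y X) (if i ∈ insert j s then
            mapS (lift (u i) (y (σ i))) (compS α ω) else mapS (lift (x i) (y (σ i))) ω) := by
        intro i hi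
        have hij := (Finset.mem_erase.1 hi).1
        by_cases his : i ∈ s
        · rw [if_pos his, if_pos (Finset.mem_insert_of_mem his), mapS_comp, comp_lift]
        · have : i ∉ insert j s := by simp [hij, his]
          rw [if_neg his, if_neg this, if_neg hij, mapS_comp, comp_lift]
      rw [Finset.prod_congr rfl h3, ← map_prod, ← mul_assoc, pushS_mul]
      congr 1
      rw [if_pos (Finset.mem_insert_self j s), if_neg hj, if_pos rfl, pushS_corr]
  intro Y u y
  simpa using key Finset.univ Y u u y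

/-- Composition on the side of the columns. -/
lemma RelH.comp_right {ω : cenAlg W (V.prod X)} {a : Equiv.Perm (Fin n) → W.K}
    (h : RelH ω n a) (α : cenAlg W (X.prod X)) : RelH (compS ω α) n a := by
  classical
  have key : ∀ S : Finset (Fin n), ∀ (Y : 𝒱.Obj) (x : Fin n → (Y ⟶ V)) (u : Fin n → (Y ⟶ X))
      (y : Fin n → (Y ⟶ X)), ∑ σ, a σ • ∏ i, (if σ i ∈ S then
        mapS (lift (x i) (u (σ i))) (compS ω α) else mapS (lift (x i) (y (σ i))) ω) = 0 := by
    intro S
    induction S using Finset.induction_on with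
    | empty =>
      intro Y x u y
      simpa using h Y x y
    | insert j s hj ih =>
      intro Y x u y
      have h1 := ih (Y.prod X) (fun i => fst Y X ≫ x i) (fun i => fst Y X ≫ u i)
        (fun i => if i = j then snd Y X else fst Y X ≫ y i)
      have h2 := congrArg (fun z => pushS Y X (mapS (lift (snd Y X) (fst Y X ≫ u j)) α * z)) h1
      simp only [mul_zero, map_zero, Finset.mul_sum, map_sum, mul_smul_comm, map_smul] at h2
      rw [← h2]
      refine Finset.sum_congr rfl fun σ _ => ?_
      congr 1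
      set i₀ := σ⁻¹ j with hi₀
      have hσ : σ i₀ = j := by simp [hi₀]
      rw [← Finset.mul_prod_erase Finset.univ _ (Finset.mem_univ i₀),
        ← Finset.mul_prod_erase Finset.univ (fun i => if σ i ∈ s then
          mapS (lift (fst Y X ≫ x i) (fst Y X ≫ u (σ i))) (compS ω α) else
          mapS (lift (fst Y X ≫ x i) (if σ i = j then snd Y X else fst Y X ≫ y (σ i))) ω)
          (Finset.mem_univ i₀)]
      have h3 : ∀ i ∈ Finset.univ.erase i₀, (if σ i ∈ s then
          mapS (lift (fst Y X ≫ x i) (fst Y X ≫ u (σ i))) (compS ω α) else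
          mapS (lift (fst Y X ≫ x i) (if σ i = j then snd Y X else fst Y X ≫ y (σ i))) ω) =
          mapS (fst Y X) (if σ i ∈ insert j s then
            mapS (lift (x i) (u (σ i))) (compS ω α) else mapS (lift (x i) (y (σ i))) ω) := by
        intro i hi
        have hij : σ i ≠ j := by
          intro h
          apply (Finset.mem_erase.1 hi).1
          rw [hi₀, ← h]; simp
        by_cases his : σ i ∈ s
        · rw [if_pos his, if_pos (Finset.mem_insert_of_mem his), mapS_comp, comp_lift]
        · have : σ i ∉ insert j s := by simp [hij, his]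
          rw [if_neg his, if_neg this, if_neg hij, mapS_comp, comp_lift]
      rw [Finset.prod_congr rfl h3, ← map_prod, ← mul_assoc, pushS_mul, hσ]
      congr 1
      rw [if_pos (Finset.mem_insert_self j s), if_neg hj, if_pos rfl, mul_comm, pushS_corr]
  intro Y x u
  simpa using key Finset.univ Y x u u

end Pool.Agent.H836
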