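import Pool.Agent.H836.Parity
import Pool.Graph.R_pool_sql_team_seeded_b0a926ef.R903.PermMain

/-!
# Evenly finite-dimensional motives have no odd cohomology, and vice versa
-/

open CategoryTheory CategoryTheory.Limits AlgebraicGeometry
open Pool.Agent.H914 Pool.Agent.H914.VarClass Pool.Agent.H914.VarClass.Obj
open Pool.Agent.R903 Equiv Equiv.Perm Pool.Agent.R903.PermCore

universe u v w

namespace Pool.Agent.H836

variable {k : Type u} [Field k] {𝒱 : VarClass k} {C : ChowTheory.{u, v} 𝒱}
variable {W : WeilTheory.{u, v, w} C} {X X' V V' Y Z : 𝒱.Obj}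

/-! ### rank one -/

/-- Families which are symmetric or antisymmetric under exchanges. -/
lemma prod_perm_of_exchange {R : Type*} [CommRing R] {n : ℕ} (G : Fin n → Fin n → R) (s : ℤˣ)
    (hG : ∀ i j l m, i ≠ j → l ≠ m → G i l * G j m = ((s : ℤ) : R) * (G i m * G j l))
    (σ : Equiv.Perm (Fin n)) :
    ∏ i, G i (σ i) = (if s = -1 then ((sign σ : ℤ) : R) else 1) * ∏ i, G i i := by
  induction σ using Equiv.Perm.swap_induction_on' with
  | one => simp
  | mul_swap σ a b hab ih =>
    have h1 : ∏ i, G i ((σ * Equiv.swap a b) i) = ((s : ℤ) : R) * ∏ i, G i (σ i) := by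
      rw [← Finset.mul_prod_erase Finset.univ _ (Finset.mem_univ a),
        ← Finset.mul_prod_erase (Finset.univ.erase a) _ (Finset.mem_erase.2
          ⟨hab.symm, Finset.mem_univ b⟩),
        ← Finset.mul_prod_erase Finset.univ (fun i => G i (σ i)) (Finset.mem_univ a),
        ← Finset.mul_prod_erase (Finset.univ.erase a) (fun i => G i (σ i)) (Finset.mem_erase.2
          ⟨hab.symm, Finset.mem_univ b⟩)]
      have h2 : ∏ i ∈ (Finset.univ.erase a).erase b, G i ((σ * Equiv.swap a b) i) =
          ∏ i ∈ (Finset.univ.erase a).erase b, G i (σ i) := by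
        refine Finset.prod_congr rfl fun i hi => ?_
        rw [Equiv.Perm.mul_apply, Equiv.swap_apply_of_ne_of_ne]
        · exact (Finset.mem_erase.1 (Finset.mem_erase.1 hi).2).1
        · exact (Finset.mem_erase.1 hi).1
      rw [h2, Equiv.Perm.mul_apply, Equiv.Perm.mul_apply, Equiv.swap_apply_left,
        Equiv.swap_apply_right, ← mul_assoc, ← mul_assoc, ← mul_assoc,
        hG a b (σ b) (σ a) hab (fun h => hab (σ.injective h).symm), mul_assoc]
      ring
    rw [h1, ih, ← mul_assoc]
    congr 1
    rw [Equiv.Perm.sign_mul, Equiv.Perm.sign_swap hab]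
    rcases Int.units_eq_one_or s with rfl | rfl
    · simp
    · simp

/-- The class `a × b` of two classes of the same parity. -/
noncomputable def extS {j l : ℕ} {a : W.H X} (ha : a ∈ W.gr X j) {b : W.H V} (hb : b ∈ W.gr V l)
    (h : Even (j + l)) : cenAlg W (X.prod V) :=
  ⟨W.map (fst X V) a * W.map (snd X V) b, by
    obtain ⟨r, hr⟩ := h
    have h1 := W.mul_mem (W.map_mem (fst X V) ha) (W.map_mem (snd X V) hb)
    rw [hr, ← two_mul] at h1
    exact cen_of_even h1⟩

lemma mapS_extS {j l : ℕ} {a : W.H X} (ha : a ∈ W.gr X j) {b : W.H V} (hb : b ∈ W.gr V l)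
    (h : Even (j + l)) (x : Y ⟶ X) (y : Y ⟶ V) :
    (mapS (lift x y) (extS ha hb h) : W.H Y) = W.map x a * W.map y b := by
  rw [coe_mapS, extS, W.map_mul', ← W.map_comp, ← W.map_comp, lift_fst, lift_snd]

lemma extS_exchange {j l : ℕ} {a : W.H X} (ha : a ∈ W.gr X j) {b : W.H V} (hb : b ∈ W.gr V l)
    (h : Even (j + l)) (x x' : Y ⟶ X) (y y' : Y ⟶ V) :
    mapS (lift x y) (extS ha hb h) * mapS (lift x' y') (extS ha hb h) =
      (((-1 : ℤˣ) ^ j : ℤˣ) : ℤ) * (mapS (lift x y') (extS ha hb h) *
        mapS (lift x' y) (extS ha hb h)) := by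
  apply Subtype.ext
  push_cast
  rw [mapS_extS, mapS_extS, mapS_extS, mapS_extS]
  have hx := W.map_mem x ha
  have hx' := W.map_mem x' ha
  have hy := W.map_mem y hb
  have hy' := W.map_mem y' hb
  set A := W.map x a
  set A' := W.map x' a
  set B := W.map y b
  set B' := W.map y' b
  have h1 : B * A' * B' = (-1 : W.K) ^ (l * (j + l)) • (A' * B' * B) := by
    rw [mul_assoc, W.comm hy (W.mul_mem hx' hy')]
  have h2 : A' * B' = (-1 : W.K) ^ (j * l) • (B' * A') := W.comm hx' hy'
  have h3 : A * B * (A' * B') = A * (B * A' * B') := by simp only [mul_assoc]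
  have h4 : A * B' * (A' * B) = A * (B' * A' * B) := by simp only [mul_assoc]
  rw [h3, h4, h1, h2, smul_mul_assoc, smul_smul, ← pow_add]
  have h5 : (-1 : W.K) ^ (l * (j + l) + j * l) = (-1 : W.K) ^ j := by
    have e1 : (-1 : W.K) ^ (l * (j + l)) = 1 := (h.mul_left l).neg_one_pow
    rw [pow_add, e1, one_mul]
    rcases Nat.even_or_odd j with h6 | h6
    · rw [(h6.mul_right l).neg_one_pow, h6.neg_one_pow]
    · have h7 : Odd l := by
        rcases Nat.even_or_odd l with h8 | h8
        · exact absurd (Nat.even_add.1 h |>.2 h8) (Nat.not_even_iff_odd.2 h6)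
        · exact h8
      rw [(h6.mul h7).neg_one_pow, h6.neg_one_pow]
  rw [h5, mul_smul_comm]
  rcases Nat.even_or_odd j with h6 | h6
  · rw [h6.neg_one_pow, h6.neg_one_pow]; simp
  · rw [h6.neg_one_pow, h6.neg_one_pow]; simp

/-- Composition with classes of rank one on both sides. -/
lemma compH_two {i j l m : ℕ} {a' : W.H X'} (ha' : a' ∈ W.gr X' i) {a : W.H X} (ha : a ∈ W.gr X j)
    {b : W.H V} (hb : b ∈ W.gr V l) {b' : W.H V'} (hb' : b' ∈ W.gr V' m) (c : W.H (X.prod V)) :
    compH W (compH W (W.map (fst X' X) a' * W.map (snd X' X) a) c)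
      (W.map (fst V V') b * W.map (snd V V') b') =
    W.tr (X.prod V) (W.map (fst X V) a * c * W.map (snd X V) b) •
      (W.map (fst X' V') a' * W.map (snd X' V') b') := by
  have hadd : ∀ (α : W.H (X'.prod X)) (b b' : W.H (X.prod V)),
      compH W α (b + b') = compH W α b + compH W α b' := by
    intro γ b b'
    simp only [compH, map_add, mul_add]
  have hadd' : ∀ (a a' : W.H (X'.prod V)) (β : W.H (V.prod V')),
      compH W (a + a') β = compH W a β + compH W a' β := by
    intro γ b b'
    simp only [compH, map_add, add_mul]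
  have hsmul : ∀ (r : W.K) (a : W.H (X'.prod V)) (β : W.H (V.prod V')),
      compH W (r • a) β = r • compH W a β := by
    intro r a β
    simp only [compH, map_smul, smul_mul_assoc]
  refine W.kunneth_induction (p := fun c =>
    compH W (compH W (W.map (fst X' X) a' * W.map (snd X' X) a) c)
      (W.map (fst V V') b * W.map (snd V V') b') =
    W.tr (X.prod V) (W.map (fst X V) a * c * W.map (snd X V) b) •
      (W.map (fst X' V') a' * W.map (snd X' V') b')) ?_ ?_ c
  · intro c c' hc hc'
    rw [hadd, hadd', hc, hc', mul_add, add_mul, map_add, add_smul]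
  · intro p q c hc d hd
    rw [compH_prod ha' ha hc hd, hsmul, compH_prod ha' hd hb hb', smul_smul, ← mul_assoc,
      ← W.map_mul' (fst X V), mul_assoc, ← W.map_mul' (snd X V), W.tr_prod]

lemma push_fst_one (z : W.H X) : W.push (fst Y X) (W.map (snd Y X) z) = W.tr X z • 1 := by
  refine gr_induction (W.isInternal X)
    (p := fun z => W.push (fst Y X) (W.map (snd Y X) z) = W.tr X z • 1) ?_ ?_ z
  · intro i a ha
    have := W.push_fst (X := Y) 1 ha
    rwa [map_one, one_mul] at this
  · intro a b ha hb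
    rw [map_add, map_add, map_add, add_smul, ha, hb]

lemma pushS_snd (z : cenAlg W X) : pushS Y X (mapS (snd Y X) z) = algebraMap W.K _ (W.tr X z) := by
  apply Subtype.ext
  rw [coe_pushS, coe_mapS, push_fst_one, Algebra.algebraMap_eq_smul_one]
  rfl

/-- A class whose exterior power vanishes is numerically trivial. -/
lemma tr_eq_zero_of_prod (h1 : (1 : W.H X) ≠ 0) {γ : cenAlg W X} (δ : cenAlg W X) {n : ℕ}
    (h : ∀ (Y : 𝒱.Obj) (w : Fin n → (Y ⟶ X)), ∏ i, mapS (w i) γ = 0) :
    W.tr X (δ.1 * γ.1) = 0 := by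
  by_contra hne
  have key : ∀ m : ℕ, (∀ (Y : 𝒱.Obj) (w : Fin m → (Y ⟶ X)), ∏ i, mapS (w i) γ = 0) → False := by
    intro m
    induction m with
    | zero =>
      intro h
      have h2 := h X Fin.elim0
      rw [Finset.univ_eq_empty, Finset.prod_empty] at h2
      exact h1 (congrArg Subtype.val h2)
    | succ m ih =>
      intro h
      apply ih
      intro Y w
      have h2 := h (Y.prod X) (Fin.cons (snd Y X) fun i => fst Y X ≫ w i)
      rw [Fin.prod_univ_succ] at h2
      simp only [Fin.cons_zero, Fin.cons_succ, ← mapS_comp] at h2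
      have h3 := congrArg (fun z => pushS Y X (mapS (snd Y X) δ * z)) h2
      simp only [mul_zero, map_zero] at h3
      rw [← map_prod, ← mul_assoc, ← map_mul, pushS_mul, pushS_snd] at h3
      have h4 : IsUnit (algebraMap W.K (cenAlg W Y) (W.tr X (δ * γ : cenAlg W X))) :=
        (isUnit_iff_ne_zero.2 hne).map _
      exact (h4.mul_right_eq_zero).1 h3
  exact key n h

/-- **Parity.** If the alternating sum (`ε = 1`) or the sum (`ε = -1`) of the permutations vanishes
for the correspondence `ω`, then `ω` acts as zero on the odd cohomology or on the even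
cohomology, respectively. -/
theorem act_eq_zero_of_permRel (h1 : (1 : W.H X) ≠ 0) {ω : C.CH (X.prod X)} {n : ℕ} {ε : ℤˣ}
    (h : C.PermRel ω n (chi ε)) {j : ℕ} (hj : (-1 : ℤˣ) ^ j = -ε) {a : W.H X}
    (ha : a ∈ W.gr X j) : W.act ω a = 0 := by
  apply W.nondeg
  intro b
  refine gr_induction (W.isInternal X) (p := fun b => W.tr X (W.act ω a * b) = 0) ?_ ?_ b
  swap
  · intro b b' hb hb'
    rw [mul_add, map_add, hb, hb', add_zero]
  intro l b hb
  have e1 : W.tr X (W.act ω a * b) =
      W.tr (X.prod X) (W.map (fst X X) a * W.cl _ ω * W.map (snd X X) b) := by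
    rw [WeilTheory.act_apply, W.tr_push]
    have := (Subalgebra.mem_center_iff.1 (Cen.mem_center (cen_cl (W := W) ω)) (W.map (fst X X) a))
    rw [this]
  by_cases hjl : Even (j + l)
  swap
  · -- the degree is odd
    refine gr_induction (C.isChowRing (X.prod X)).isInternal
      (p := fun ω => W.tr X (W.act ω a * b) = 0) ?_ ?_ ω
    · intro q ω hω
      rw [WeilTheory.act_apply, W.tr_push]
      refine W.tr_eq_zero (W.mul_mem (W.mul_mem (W.cl_mem hω) (W.map_mem _ ha))
        (W.map_mem _ hb)) ?_
      intro h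
      apply hjl
      rw [Nat.even_iff]
      omega
    · intro ω ω' hω hω'
      rw [W.act_add, LinearMap.add_apply, add_mul, map_add, hω, hω', add_zero]
  have hlj : Even (l + j) := by rwa [add_comm]
  by_contra hne
  rw [e1] at hne
  set lam := W.tr (X.prod X) (W.map (fst X X) a * W.cl _ ω * W.map (snd X X) b) with hlam
  have hjj : Even (j + j) := ⟨j, rfl⟩
  have hll : Even (l + l) := ⟨l, rfl⟩
  -- the class of rank one
  set γ : cenAlg W (X.prod X) := extS ha hb hjl with hγ
  have h2 : RelH (compS (compS (extS ha ha hjj) (clS W _ ω)) (extS hb hb hll)) n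
      fun σ => ((chi ε σ : ℚ) : W.K) :=
    ((relH_of_permRel h).comp (extS ha ha hjj)).comp_right (extS hb hb hll)
  have h3 : compS (compS (extS ha ha hjj) (clS W _ ω)) (extS hb hb hll) = lam • γ := by
    apply Subtype.ext
    exact compH_two ha ha hb hb _
  rw [h3] at h2
  have h4 : ∀ (Y : 𝒱.Obj) (w : Fin n → (Y ⟶ X.prod X)), ∏ i, mapS (w i) γ = 0 := by
    intro Y w
    have h5 := h2 Y (fun i => w i ≫ fst X X) (fun i => w i ≫ snd X X)
    have h6 : ∀ σ : Equiv.Perm (Fin n), ∏ i, mapS (lift (w i ≫ fst X X) (w (σ i) ≫ snd X X))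
        (lam • γ) = (lam ^ n * ((chi ε σ : ℚ) : W.K)) • ∏ i, mapS (w i) γ := by
      intro σ
      have h7 := prod_perm_of_exchange
        (fun i i' => mapS (lift (w i ≫ fst X X) (w i' ≫ snd X X)) γ) ((-1) ^ j)
        (fun i i' i₁ i₂ _ _ => extS_exchange ha hb hjl _ _ _ _) σ
      simp only [map_smul]
      rw [Finset.prod_smul, h7, Finset.prod_const, Finset.card_univ, Fintype.card_fin, mul_smul]
      congr 1
      have h8 : ∀ i, lift (w i ≫ fst X X) (w i ≫ snd X X) = w i := by
        intro i
        apply hom_ext_prod <;> simp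
      simp only [h8]
      have hε := Int.units_eq_one_or ε
      rw [Algebra.smul_def]
      congr 1
      rcases hε with rfl | rfl
      · rw [hj, if_pos rfl, chi, if_pos rfl]
        simp
      · rw [hj, neg_neg, if_neg (by decide), chi, if_neg (by decide)]
        simp
    simp only [h6, smul_smul] at h5
    rw [← Finset.sum_smul] at h5
    have h9 : ∀ σ : Equiv.Perm (Fin n), ((chi ε σ : ℚ) : W.K) * (lam ^ n * ((chi ε σ : ℚ) : W.K)) =
        lam ^ n := by
      intro σ
      have : ((chi ε σ : ℚ) : W.K) * ((chi ε σ : ℚ) : W.K) = 1 := by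
        rw [← Rat.cast_mul]
        rcases Int.units_eq_one_or ε with rfl | rfl
        · rw [chi, if_pos rfl]
          rcases Int.units_eq_one_or (sign σ) with h | h <;> simp [h]
        · rw [chi, if_neg (by decide)]; simp
      linear_combination (lam ^ n) * this
    rw [Finset.sum_congr rfl fun σ _ => h9 σ, Finset.sum_const, Finset.card_univ,
      Fintype.card_perm, Fintype.card_fin, nsmul_eq_mul] at h5
    refine (smul_eq_zero.1 h5).resolve_left ?_
    exact mul_ne_zero (Nat.cast_ne_zero.2 n.factorial_ne_zero) (pow_ne_zero _ hne)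
  have h10 : (1 : W.H (X.prod X)) ≠ 0 := by
    intro h
    have h12 := congrArg (W.map (Obj.diag X)) h
    rw [map_one, map_zero] at h12
    exact h1 h12
  have h11 := tr_eq_zero_of_prod h10 (clS W _ ω) h4
  apply hne
  rw [hlam, ← h11]
  congr 1
  have h13 := Subalgebra.mem_center_iff.1 (Cen.mem_center (cen_cl (W := W) ω)) (W.map (fst X X) a)
  rw [h13, mul_assoc]
  rfl

end Pool.Agent.H836
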