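import Pool.Graph.R_pool_sql_team_seeded_b0a926ef.R903.KimDefs

/-!
# Homologically trivial endomorphisms: definitions
-/

open CategoryTheory CategoryTheory.Limits AlgebraicGeometry
open Pool.Agent.H914 Pool.Agent.H914.VarClass Pool.Agent.H914.VarClass.Obj
open Pool.Agent.R903

universe u v w

namespace Pool.Agent.H836.SN

/-- All complex roots of `P` have multiplicity at most `e`. -/
def MultLE (P : Polynomial ℚ) (e : ℕ) : Prop :=
  ∀ z : ℂ, (P.map (algebraMap ℚ ℂ)).rootMultiplicity z ≤ e

/-- The rational number `c` is a simple root of `P`. -/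
def IsSimpleRoot (P : Polynomial ℚ) (c : ℚ) : Prop :=
  P.eval c = 0 ∧ P.derivative.eval c ≠ 0

section gen

variable {K : Type w} [Field K] {V : Type v} [AddCommGroup V] [Module K V]

/-- The linear map `f` is zero. -/
def IsZeroOp (f : V →ₗ[K] V) : Prop :=
  ∀ x, f x = 0

/-- `f x = c x`. -/
def Scales (f : V →ₗ[K] V) (c : K) (x : V) : Prop :=
  f x = c • x

/-- The polynomial `P` with rational coefficients is the characteristic polynomial of the
restriction of `T` to the image of `S`, which is finite-dimensional and stable under `T`. -/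
def IsCharpolyOn [CharZero K] (P : Polynomial ℚ) (T S : V →ₗ[K] V) : Prop :=
  ∃ (h : ∀ x ∈ LinearMap.range S, T x ∈ LinearMap.range S) (_ : Module.Finite K (LinearMap.range S)),
    P.map (algebraMap ℚ K) = (T.restrict h).charpoly

/-- The dimension of the image of `S`. -/
noncomputable def dimImage (S : V →ₗ[K] V) : ℕ :=
  Module.finrank K (LinearMap.range S)

end gen

/-- The element `x` is zero. -/
def IsNull {V : Type v} [Ring V] (x : V) : Prop := x = 0

variable {k : Type u} [Field k] {𝒱 : VarClass k} {C : ChowTheory.{u, v} 𝒱}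

/-- The correspondence `f` is an endomorphism of the motive `(X, ω)`. -/
def IsEndo (C : ChowTheory.{u, v} 𝒱) {X : 𝒱.Obj} (ω f : C.CH (X.prod X)) : Prop :=
  C.comp ω f = f ∧ C.comp f ω = f

/-- The correspondence `f` is a homologically trivial endomorphism of the motive `(X, ω)`. -/
def IsTrivEndo (W : WeilTheory.{u, v, w} C) {X : 𝒱.Obj} (ω f : C.CH (X.prod X)) : Prop :=
  IsEndo C ω f ∧ IsZeroOp (W.act f)

/-- The composition of the endomorphisms in a list; the composition of the empty list is the
identity `ω` of the motive `(X, ω)`. -/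
noncomputable def composite (C : ChowTheory.{u, v} 𝒱) {X : 𝒱.Obj} (ω : C.CH (X.prod X))
    (l : List (C.CH (X.prod X))) : C.CH (X.prod X) :=
  l.foldr (fun f h => C.comp h f) ω

/-- `f^e = 0` for all homologically trivial endomorphisms `f` of `(X, ω)` which commute with `g`. -/
def CommutantNil (W : WeilTheory.{u, v, w} C) {X : 𝒱.Obj} (ω g : C.CH (X.prod X)) (e : ℕ) :
    Prop :=
  ∀ f, IsTrivEndo W ω f → C.comp g f = C.comp f g → IsNull (composite C ω (List.replicate e f))

/-- The composition of any `n` or more homologically trivial endomorphisms of `(X, ω)` is zero. -/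
def ProductsVanish (W : WeilTheory.{u, v, w} C) {X : 𝒱.Obj} (ω : C.CH (X.prod X)) (n : ℕ) :
    Prop :=
  ∀ l, (∀ f ∈ l, IsTrivEndo W ω f) → n ≤ l.length → IsNull (composite C ω l)

/-- `x` is a cycle of the motive `(X, ω)` and `g_* x = c x`. -/
def IsEigenCycle (C : ChowTheory.{u, v} 𝒱) {X : 𝒱.Obj} (ω g : C.CH (X.prod X)) (c : ℚ)
    (x : C.CH X) : Prop :=
  Scales (C.act ω) 1 x ∧ Scales (C.act g) c x

/-- The intersection number of `x` and `y` is not zero. -/
def Meets (C : ChowTheory.{u, v} 𝒱) {X : 𝒱.Obj} (x y : C.CH X) : Prop :=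
  C.deg X (x * y) ≠ 0

/-- If some cycle `x` of `(X, ω)` with `g_* x = c x` is not numerically trivial, then all
homologically trivial cycles `a` of `(X, ω)` with `g_* a = c a` are zero. -/
def EigenInjective (W : WeilTheory.{u, v, w} C) {X : 𝒱.Obj} (ω g : C.CH (X.prod X)) (c : ℚ) :
    Prop :=
  ∀ x y a : C.CH X, IsEigenCycle C ω g c x → Meets C x y → IsEigenCycle C ω g c a →
    IsNull (W.cl X a) → IsNull a

end Pool.Agent.H836.SN
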