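import Pool.Agent.H836.StrongNil
import Pool.Agent.H836.CayMain
import Pool.Agent.H836.Split
import Pool.Agent.H836.SNDefs

/-!
# The homologically trivial endomorphisms of a motive with simple spectrum
-/

open CategoryTheory CategoryTheory.Limits AlgebraicGeometry
open Pool.Agent.H914 Pool.Agent.H914.VarClass Pool.Agent.H914.VarClass.Obj
open Pool.Agent.R903

universe u v w

namespace Pool.Agent.H836.SN

variable {k : Type u} [Field k] {𝒱 : VarClass k} {C : ChowTheory.{u, v} 𝒱}
variable {X Y Z : 𝒱.Obj}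

lemma charpoly_unique {K : Type w} [Field K] [CharZero K] {V : Type w} [AddCommGroup V] [Module K V]
    {P Q : Polynomial ℚ} {T : V →ₗ[K] V} {S : Submodule K V} (hP : IsCharpoly P T S)
    (hQ : IsCharpoly Q T S) : P = Q := by
  obtain ⟨h, i, hP⟩ := hP
  obtain ⟨h', i', hQ⟩ := hQ
  apply Polynomial.map_injective _ (algebraMap ℚ K).injective
  rw [hP, hQ]

lemma charpoly_monic {K : Type w} [Field K] [CharZero K] {V : Type w} [AddCommGroup V]
    [Module K V] {P : Polynomial ℚ} {T : V →ₗ[K] V} {S : Submodule K V} (hP : IsCharpoly P T S) :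
    P.Monic := by
  obtain ⟨h, i, hP⟩ := hP
  apply Polynomial.monic_of_injective (algebraMap ℚ K).injective
  rw [hP]
  exact LinearMap.charpoly_monic _

lemma charpoly_natDegree {K : Type w} [Field K] [CharZero K] {V : Type w} [AddCommGroup V]
    [Module K V] {P : Polynomial ℚ} {T : V →ₗ[K] V} {S : Submodule K V} (hP : IsCharpoly P T S) :
    P.natDegree = Module.finrank K S := by
  obtain ⟨h, i, hP⟩ := hP
  rw [← LinearMap.charpoly_natDegree (T.restrict h), ← hP, Polynomial.natDegree_map]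

lemma trivEndo_act {W : WeilTheory.{u, v, w} C} {ω f : C.CH (X.prod X)} (hf : IsTrivEndo W ω f) :
    W.act f = 0 := LinearMap.ext fun x => hf.2 x

/-- The Cayley–Hamilton identity for `g + s f`, with a homologically trivial `f`. -/
theorem cayley_pert (hP : C.Polarized) (W : WeilTheory.{u, v, w} C) {ω : C.CH (X.prod X)}
    (hX : C.KimuraFinite ω) {g f : C.CH (X.prod X)} (hg : IsEndo C ω g) (hf : IsTrivEndo W ω f)
    {P : Polynomial ℚ} (hPg : IsCharpolyOn P (W.act g) (W.act ω)) (s : ℚ) :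
    Polynomial.aeval (CorrRing.of C X g + s • CorrRing.of C X f) P * CorrRing.of C X ω = 0 := by
  obtain ⟨Q, hQ, hQ'⟩ := cayleyHamilton' hP W hX (g + s • f)
    (by rw [C.comp_add, C.comp_smul, hg.1, hf.1.1]) (by rw [C.add_comp, C.smul_comp, hg.2, hf.1.2])
  rw [W.act_add, W.act_smul, trivEndo_act hf, smul_zero, add_zero] at hQ
  rw [charpoly_unique hPg hQ, ← map_smul, ← map_add, ← of_corrEval, hQ', map_zero]

lemma idem_of_kimura {ω : C.CH (X.prod X)} (hX : C.KimuraFinite ω) : C.comp ω ω = ω := by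
  obtain ⟨e, -, f, -, hee, hff, hef, hfe, h, -⟩ := hX
  rw [← h, C.comp_add, C.add_comp, C.add_comp, hee, hff, hef, hfe, add_zero, zero_add]

variable {W : WeilTheory.{u, v, w} C} {ω g : C.CH (X.prod X)}

lemma actW_all (α : C.CH (X.prod Y)) (β : C.CH (Y.prod Z)) :
    W.act (C.comp α β) = (W.act β).comp (W.act α) :=
  LinearMap.ext fun x => act_comp_all W α β x

lemma trivEndo_zero : IsTrivEndo W ω 0 := by
  refine ⟨⟨C.comp_zero _, C.zero_comp _⟩, fun x => ?_⟩
  have := W.act_smul (0 : ℚ) (0 : C.CH (X.prod X))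
  rw [zero_smul] at this
  rw [this]
  simp

/-- The homologically trivial endomorphisms. -/
noncomputable def trivEndos (W : WeilTheory.{u, v, w} C) {X : 𝒱.Obj} (ω : C.CH (X.prod X)) :
    Submodule ℚ (CorrRing C X) where
  carrier := {F | ∃ f, IsTrivEndo W ω f ∧ CorrRing.of C X f = F}
  add_mem' := by
    rintro _ _ ⟨f, ⟨⟨h1, h2⟩, h3⟩, rfl⟩ ⟨f', ⟨⟨h1', h2'⟩, h3'⟩, rfl⟩
    exact ⟨f + f', ⟨⟨by rw [C.comp_add, h1, h1'], by rw [C.add_comp, h2, h2']⟩,
      fun x => by rw [W.act_add, LinearMap.add_apply, h3, h3', add_zero]⟩, map_add _ _ _⟩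
  zero_mem' := ⟨0, trivEndo_zero, map_zero _⟩
  smul_mem' := by
    rintro c _ ⟨f, ⟨⟨h1, h2⟩, h3⟩, rfl⟩
    exact ⟨c • f, ⟨⟨by rw [C.comp_smul, h1], by rw [C.smul_comp, h2]⟩,
      fun x => by rw [W.act_smul, LinearMap.smul_apply, h3, smul_zero]⟩, map_smul _ _ _⟩

lemma of_composite (l : List (C.CH (X.prod X))) : CorrRing.of C X (composite C ω l) =
    (l.map (CorrRing.of C X)).prod * CorrRing.of C X ω := by
  induction l with
  | nil => rw [composite, List.foldr_nil, List.map_nil, List.prod_nil, one_mul]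
  | cons f l ih =>
    rw [composite, List.foldr_cons, ← composite, CorrRing.of_comp, ih, List.map_cons,
      List.prod_cons, mul_assoc]

lemma endo_comp {f f' : C.CH (X.prod X)} (h : IsEndo C ω f) (h' : IsEndo C ω f') :
    IsEndo C ω (C.comp f f') :=
  ⟨by rw [← C.comp_assoc, h.1], by rw [C.comp_assoc, h'.2]⟩

lemma act_zero_comp {f f' : C.CH (X.prod X)} (h : W.act f = 0) : W.act (C.comp f f') = 0 := by
  rw [actW_all, h, LinearMap.comp_zero]

lemma act_comp_zero {f f' : C.CH (X.prod X)} (h : W.act f' = 0) : W.act (C.comp f f') = 0 := by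
  rw [actW_all, h, LinearMap.zero_comp]

lemma isZeroOp_of {K : Type w} [Field K] {V : Type v} [AddCommGroup V] [Module K V]
    {f : V →ₗ[K] V} (h : f = 0) : IsZeroOp f := fun x => by rw [h, LinearMap.zero_apply]

/-- The linearized identity. -/
lemma linearized (hP : C.Polarized) (hX : C.KimuraFinite ω) (hg : IsEndo C ω g)
    {P : Polynomial ℚ} (hPg : IsCharpolyOn P (W.act g) (W.act ω)) {f : C.CH (X.prod X)}
    (hf : IsTrivEndo W ω f) : wordPoly P (CorrRing.of C X g) (CorrRing.of C X f) 1 = 0 := by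
  have h1 := wordPoly_eq_zero (fun s => cayley_pert hP W hX hg hf hPg s) 1
  rw [← h1, wordPoly, Polynomial.sum_def, Finset.sum_mul]
  refine Finset.sum_congr rfl fun n _ => ?_
  rw [smul_mul_assoc, word_one, Finset.sum_mul]
  congr 1
  refine Finset.sum_congr rfl fun i _ => ?_
  have hgω : CorrRing.of C X g * CorrRing.of C X ω = CorrRing.of C X g := by
    rw [CorrRing.of_mul, hg.1]
  have hfω : CorrRing.of C X f * CorrRing.of C X ω = CorrRing.of C X f := by
    rw [CorrRing.of_mul, hf.1.1]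
  rcases n - 1 - i with _ | j
  · rw [pow_zero, mul_one, mul_assoc, hfω]
  · rw [pow_succ, ← mul_assoc, mul_assoc _ (CorrRing.of C X g) (CorrRing.of C X ω), hgω]

/-- **Endomorphisms which commute with `g`.** -/
theorem commuting (hP : C.Polarized) (hX : C.KimuraFinite ω) (hg : IsEndo C ω g)
    {P : Polynomial ℚ} (hPg : IsCharpolyOn P (W.act g) (W.act ω)) {e : ℕ} (he : MultLE P e)
    {f : C.CH (X.prod X)} (hf : IsTrivEndo W ω f) (hc : C.comp g f = C.comp f g) :
    IsNull (composite C ω (List.replicate e f)) := by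
  have h1 : Commute (CorrRing.of C X g) (CorrRing.of C X f) := by
    rw [Commute, SemiconjBy, CorrRing.of_mul, CorrRing.of_mul, hc]
  have h2 : Commute (CorrRing.of C X f) (CorrRing.of C X ω) := by
    rw [Commute, SemiconjBy, CorrRing.of_mul, CorrRing.of_mul, hf.1.1, hf.1.2]
  have h3 := pow_mul_eq_zero (charpoly_monic hPg).ne_zero
    (fun s => cayley_pert hP W hX hg hf hPg s) h1 h2 he
  apply (CorrRing.of C X).injective
  rw [map_zero, of_composite, List.map_replicate, List.prod_replicate, h3]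

/-- **Strong nilpotence.** -/
theorem strongNil (hP : C.Polarized) (hX : C.KimuraFinite ω) (hg : IsEndo C ω g)
    {P : Polynomial ℚ} (hPg : IsCharpolyOn P (W.act g) (W.act ω)) (hs : P.Separable)
    {l : List (C.CH (X.prod X))} (hl : ∀ f ∈ l, IsTrivEndo W ω f)
    (hn : dimImage (W.act ω) ≤ l.length) : IsNull (composite C ω l) := by
  have hωω := idem_of_kimura hX
  have h0 : Polynomial.aeval (CorrRing.of C X g) P * CorrRing.of C X ω = 0 := by
    have h1 := cayley_pert hP W hX hg (f := 0) trivEndo_zero hPg 0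
    rwa [zero_smul, add_zero] at h1
  have hn' : P.natDegree ≤ l.length := by
    rw [charpoly_natDegree hPg]; exact hn
  apply (CorrRing.of C X).injective
  rw [map_zero, of_composite]
  rcases eq_or_ne l [] with rfl | hne
  · have h1 : P = 1 := (charpoly_monic hPg).natDegree_eq_zero.1 (by simpa using hn')
    rw [h1, map_one, one_mul] at h0
    rw [h0, mul_zero]
  rw [strong (N := trivEndos W ω) (g := CorrRing.of C X g) (ω := CorrRing.of C X ω) ?_ ?_ ?_ ?_ ?_
    ?_ (charpoly_monic hPg) hs h0 ?_ (l := l.map (CorrRing.of C X)) ?_ (by simpa using hne)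
    (by rw [List.length_map]; exact hn'), zero_mul]
  · rintro _ ⟨f, hf, rfl⟩ _ ⟨f', hf', rfl⟩
    exact ⟨C.comp f' f, ⟨endo_comp hf'.1 hf.1, isZeroOp_of (act_zero_comp (trivEndo_act hf'))⟩,
      CorrRing.of_comp _ _⟩
  · rintro _ ⟨f, hf, rfl⟩
    exact ⟨C.comp f g, ⟨endo_comp hf.1 hg, isZeroOp_of (act_zero_comp (trivEndo_act hf))⟩,
      CorrRing.of_comp _ _⟩
  · rintro _ ⟨f, hf, rfl⟩
    exact ⟨C.comp g f, ⟨endo_comp hg hf.1, isZeroOp_of (act_comp_zero (trivEndo_act hf))⟩,
      CorrRing.of_comp _ _⟩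
  · rintro _ ⟨f, hf, rfl⟩
    rw [CorrRing.of_mul, hf.1.2]
  · rintro _ ⟨f, hf, rfl⟩
    rw [CorrRing.of_mul, hf.1.1]
  · rw [Commute, SemiconjBy, CorrRing.of_mul, CorrRing.of_mul, hg.1, hg.2]
  · rintro _ ⟨f, hf, rfl⟩
    exact linearized hP hX hg hPg hf
  · intro x hx
    obtain ⟨f, hf, rfl⟩ := List.mem_map.1 hx
    exact ⟨f, hl f hf, rfl⟩

lemma act_ext_zero {a b : C.CH X} (hb : W.cl X b = 0) : W.act (C.ext a b) = 0 := by
  ext x
  rw [W.act_apply, ChowTheory.ext, W.cl_mul, W.cl_pull, W.cl_pull, hb, map_zero, mul_zero,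
    zero_mul, map_zero, LinearMap.zero_apply]

/-- **Cycles for a simple algebraic eigenvalue.** -/
theorem eigenCycle (hP : C.Polarized) (hX : C.KimuraFinite ω) (hg : IsEndo C ω g)
    {P : Polynomial ℚ} (hPg : IsCharpolyOn P (W.act g) (W.act ω)) {c : ℚ}
    (hc : IsSimpleRoot P c) : EigenInjective W ω g c := by
  intro x y a hx hxy ha hcl
  obtain ⟨hωx, hgx⟩ := hx
  obtain ⟨hωa, hga⟩ := ha
  have hωx : C.act ω x = x := hωx.trans (one_smul ℚ x)
  have hωa : C.act ω a = a := hωa.trans (one_smul ℚ a)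
  have hga : C.act g a = c • a := hga
  have hcl : W.cl X a = 0 := hcl
  have hgx : ∀ z, C.deg X (C.act g x * z) = c * C.deg X (x * z) := fun z => by
    rw [show C.act g x = c • x from hgx, smul_mul_assoc, map_smul, smul_eq_mul]
  have hωω := idem_of_kimura hX
  set y' := coact C ω y with hy'
  have hf : IsTrivEndo W ω (C.ext y' a) := by
    refine ⟨⟨?_, ?_⟩, isZeroOp_of (act_ext_zero hcl)⟩
    · rw [comp_ext, hy', ← coact_comp, hωω]
    · rw [ext_comp, hωa]
  have h1 := linearized hP hX hg hPg hf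
  have h2 := LinearMap.congr_fun (congrArg (CorrRing.actH C X) h1) x
  rw [map_zero, LinearMap.zero_apply, wordPoly, Polynomial.sum_def, map_sum,
    LinearMap.sum_apply] at h2
  -- the powers of `g` on `x` and on `a`
  have hG : CorrRing.actH C X (CorrRing.of C X g) = C.act g := rfl
  have hpa : ∀ i : ℕ, (CorrRing.actH C X (CorrRing.of C X g) ^ i) a = c ^ i • a := by
    intro i
    induction i with
    | zero => simp
    | succ i ih =>
      rw [pow_succ, Module.End.mul_apply, hG, hga, map_smul, ← hG, ih, smul_smul, pow_succ,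
        mul_comm]
  have hpx : ∀ (i : ℕ) (z : C.CH X),
      C.deg X ((CorrRing.actH C X (CorrRing.of C X g) ^ i) x * z) = c ^ i * C.deg X (x * z) := by
    intro i
    induction i with
    | zero => intro z; simp
    | succ i ih =>
      intro z
      rw [pow_succ', Module.End.mul_apply, hG, deg_act hP, ← hG, ih, ← deg_act hP, hgx]
      ring
  have hpω : ∀ i : ℕ, C.act ω ((CorrRing.actH C X (CorrRing.of C X g) ^ i) x) =
      (CorrRing.actH C X (CorrRing.of C X g) ^ i) x := by
    intro i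
    cases i with
    | zero => simp [hωx]
    | succ i => rw [pow_succ', Module.End.mul_apply, hG, ← C.act_comp, hg.2]
  have hdeg : ∀ i : ℕ, C.deg X ((CorrRing.actH C X (CorrRing.of C X g) ^ i) x * y') =
      c ^ i * C.deg X (x * y) := by
    intro i
    rw [hy', ← deg_act hP, hpω, hpx]
  have h5 : ∀ n ∈ P.support, (CorrRing.actH C X) (P.coeff n •
      word (CorrRing.of C X g) (CorrRing.of C X (C.ext y' a)) n 1) x =
      (P.coeff n * (n * c ^ (n - 1)) * C.deg X (x * y)) • a := by
    intro n _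
    rw [map_smul, LinearMap.smul_apply, word_one, map_sum, LinearMap.sum_apply]
    have h6 : ∀ i ∈ Finset.range n, (CorrRing.actH C X) (CorrRing.of C X g ^ i *
        CorrRing.of C X (C.ext y' a) * CorrRing.of C X g ^ (n - 1 - i)) x =
        (c ^ (n - 1) * C.deg X (x * y)) • a := by
      intro i hi
      rw [map_mul, map_mul, map_pow, map_pow, Module.End.mul_apply, Module.End.mul_apply]
      have h7 : CorrRing.actH C X (CorrRing.of C X (C.ext y' a)) = C.act (C.ext y' a) := rfl
      rw [h7, C.act_ext, hdeg, map_smul, hpa, smul_smul]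
      congr 1
      have : c ^ (n - 1) = c ^ (n - 1 - i) * c ^ i := by
        rw [← pow_add]
        congr 1
        rw [Finset.mem_range] at hi
        omega
      rw [this]
      ring
    rw [Finset.sum_congr rfl h6, Finset.sum_const, Finset.card_range, ← Nat.cast_smul_eq_nsmul ℚ,
      smul_smul, smul_smul]
    congr 1
    ring
  rw [Finset.sum_congr rfl h5, ← Finset.sum_smul, ← Finset.sum_mul] at h2
  have h8 : ∑ n ∈ P.support, P.coeff n * (n * c ^ (n - 1)) = P.derivative.eval c := by
    rw [Polynomial.derivative_apply, Polynomial.sum_def, Polynomial.eval_finsetSum]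
    refine Finset.sum_congr rfl fun n _ => ?_
    simp [mul_assoc]
  rw [h8] at h2
  exact (smul_eq_zero.1 h2).resolve_left (mul_ne_zero hc.2 hxy)

end Pool.Agent.H836.SN
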