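import Pool.Agent.H836.LinCH

/-!
# Products of elements of an ideal without diagonal blocks
-/

open Finset Polynomial

namespace Pool.Agent.H836.SN

section blocks

variable {A : Type*} [Ring A] {ι : Type*} [DecidableEq ι]

/-- The product of the `x f`, for `x` in a list. -/
def hprod (f : A) : List A → A
  | [] => 1
  | x :: l => x * f * hprod f l

variable {N : Set A} {e : ι → A} (hN : ∀ x ∈ N, ∀ y ∈ N, x * y ∈ N)
  (hNe : ∀ x ∈ N, ∀ S : Finset ι, x * ∑ i ∈ S, e i ∈ N)
  (hdiag : ∀ x ∈ N, ∀ i, e i * x * e i = 0)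

include hN hNe hdiag

lemma e_mul_hprod' {S : Finset ι} {j : ι} (hj : j ∉ S) {l : List A} (hl : ∀ x ∈ l, x ∈ N) :
    ∀ y ∈ N, e j * y * hprod (∑ i ∈ insert j S, e i) l = e j * y * hprod (∑ i ∈ S, e i) l := by
  induction l with
  | nil => intro y _; rfl
  | cons a l ih =>
    intro y hy
    have ha : a ∈ N := hl a (List.mem_cons_self)
    have hl' : ∀ x ∈ l, x ∈ N := fun x hx => hl x (List.mem_cons_of_mem _ hx)
    have h1 : e j * y * (a * (∑ i ∈ insert j S, e i) * hprod (∑ i ∈ insert j S, e i) l) =
        e j * (y * a) * e j * hprod (∑ i ∈ insert j S, e i) l +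
        e j * (y * a * ∑ i ∈ S, e i) * hprod (∑ i ∈ insert j S, e i) l := by
      rw [Finset.sum_insert hj]
      noncomm_ring
    rw [hprod, h1, hdiag _ (hN y hy a ha), zero_mul, zero_add,
      ih hl' _ (hNe _ (hN y hy a ha) S), hprod]
    noncomm_ring

lemma e_mul_hprod {S : Finset ι} {j : ι} (hj : j ∉ S) {l : List A} (hl : ∀ x ∈ l, x ∈ N) :
    e j * hprod (∑ i ∈ insert j S, e i) l = e j * hprod (∑ i ∈ S, e i) l := by
  cases l with
  | nil => rfl
  | cons a l =>
    have ha : a ∈ N := hl a (List.mem_cons_self)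
    have hl' : ∀ x ∈ l, x ∈ N := fun x hx => hl x (List.mem_cons_of_mem _ hx)
    have h1 : e j * (a * (∑ i ∈ insert j S, e i) * hprod (∑ i ∈ insert j S, e i) l) =
        e j * a * e j * hprod (∑ i ∈ insert j S, e i) l +
        e j * (a * ∑ i ∈ S, e i) * hprod (∑ i ∈ insert j S, e i) l := by
      rw [Finset.sum_insert hj]
      noncomm_ring
    rw [hprod, h1, hdiag _ ha, zero_mul, zero_add,
      e_mul_hprod' hN hNe hdiag hj hl' _ (hNe _ ha S), hprod]
    noncomm_ring

lemma hprod_eq_zero (n : ℕ) : ∀ (S : Finset ι), S.card = n → ∀ {l : List A},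
    (∀ x ∈ l, x ∈ N) → n < l.length → hprod (∑ i ∈ S, e i) l = 0 := by
  induction n with
  | zero =>
    intro S hS l _ hn
    rw [Finset.card_eq_zero.1 hS]
    cases l with
    | nil => simp at hn
    | cons a l => rw [hprod, Finset.sum_empty, mul_zero, zero_mul]
  | succ n ih =>
    intro S hS l hl hn
    cases l with
    | nil => simp at hn
    | cons a l =>
      have hl' : ∀ x ∈ l, x ∈ N := fun x hx => hl x (List.mem_cons_of_mem _ hx)
      rw [hprod, mul_assoc, Finset.sum_mul, Finset.sum_eq_zero, mul_zero]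
      intro j hj
      have h1 := e_mul_hprod hN hNe hdiag (Finset.notMem_erase j S) hl'
      rw [Finset.insert_erase hj] at h1
      rw [h1, ih (S.erase j) (by rw [Finset.card_erase_of_mem hj, hS]; rfl) hl'
        (by simpa using hn), mul_zero]

/-- If `N` has no diagonal blocks for a decomposition of the unit element into `r` elements, then
all products of `r` elements of `N` vanish. -/
theorem prod_eq_zero {S : Finset ι} {ω : A} (hω : ∀ x ∈ N, ω * x = x)
    (hS : ω * (∑ i ∈ S, e i) = ω) (hS' : ∀ x ∈ N, x * (∑ i ∈ S, e i) = x)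
    {l : List A} (hl : ∀ x ∈ l, x ∈ N) (hne : l ≠ []) (hn : S.card ≤ l.length) : l.prod = 0 := by
  have h1 : ∀ l : List A, (∀ x ∈ l, x ∈ N) → hprod (∑ i ∈ S, e i) l = l.prod := by
    intro l
    induction l with
    | nil => intro _; rfl
    | cons a l ih =>
      intro hl
      rw [hprod, ih (fun x hx => hl x (List.mem_cons_of_mem _ hx)),
        hS' a (hl a List.mem_cons_self), List.prod_cons]
  have h2 : ω * l.prod = l.prod := by
    cases l with
    | nil => exact absurd rfl hne
    | cons a l => rw [List.prod_cons, ← mul_assoc, hω a (hl a List.mem_cons_self)]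
  rw [← h2, ← hS, mul_assoc, Finset.sum_mul, Finset.sum_eq_zero, mul_zero]
  intro j hj
  have h3 := e_mul_hprod hN hNe hdiag (Finset.notMem_erase j S) hl
  rw [Finset.insert_erase hj, h1 l hl] at h3
  rw [h3]
  rw [hprod_eq_zero hN hNe hdiag (S.erase j).card _ rfl hl ?_, mul_zero]
  rw [Finset.card_erase_of_mem hj]
  have : 0 < S.card := Finset.card_pos.2 ⟨j, hj⟩
  omega

end blocks

section spectral

open Lagrange

variable {A : Type*} [Ring A] [Algebra ℂ A] {N : Submodule ℂ A} {G Ω : A} {s : Finset ℂ}

lemma aeval_mul_mem (hG : ∀ x ∈ N, G * x ∈ N) (q : ℂ[X]) : ∀ x ∈ N, aeval G q * x ∈ N := by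
  induction q using Polynomial.induction_on' with
  | add p q hp hq => intro x hx; rw [map_add, add_mul]; exact N.add_mem (hp x hx) (hq x hx)
  | monomial n c =>
    induction n with
    | zero =>
      intro x hx
      rw [aeval_monomial, pow_zero, mul_one, ← Algebra.smul_def]
      exact N.smul_mem c hx
    | succ n ih =>
      intro x hx
      rw [aeval_monomial, pow_succ, ← mul_assoc, mul_assoc]
      have := ih _ (hG x hx)
      rwa [aeval_monomial] at this

lemma mul_aeval_mem (hG : ∀ x ∈ N, x * G ∈ N) (q : ℂ[X]) : ∀ x ∈ N, x * aeval G q ∈ N := by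
  induction q using Polynomial.induction_on' with
  | add p q hp hq => intro x hx; rw [map_add, mul_add]; exact N.add_mem (hp x hx) (hq x hx)
  | monomial n c =>
    induction n with
    | zero =>
      intro x hx
      rw [aeval_monomial, pow_zero, mul_one, ← Algebra.commutes, ← Algebra.smul_def]
      exact N.smul_mem c hx
    | succ n ih =>
      intro x hx
      rw [← X_mul_monomial, map_mul, aeval_X, ← mul_assoc]
      exact ih _ (hG x hx)

/-- The spectral idempotents. -/
noncomputable def idem (G : A) (s : Finset ℂ) (z : ℂ) : A := aeval G (Lagrange.basis s id z)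

lemma basis_mul_sub {z : ℂ} (hz : z ∈ s) :
    (X - C z) * Lagrange.basis s id z = C (nodalWeight s id z) * nodal s id := by
  rw [basis_eq_prod_sub_inv_mul_nodal_div hz, ← nodal_erase_eq_nodal_div hz,
    nodal_eq_mul_nodal_erase hz, id]
  ring

lemma G_mul_idem (h0 : aeval G (nodal s (id : ℂ → ℂ)) * Ω = 0) {z : ℂ} (hz : z ∈ s) {x : A}
    (hx : Ω * x = x) : G * (idem G s z * x) = z • (idem G s z * x) := by
  have h1 : aeval G ((X - C z) * Lagrange.basis s id z) * x = 0 := by
    rw [basis_mul_sub hz, map_mul, ← hx, ← mul_assoc, mul_assoc (aeval G (C _)), h0, mul_zero,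
      zero_mul]
  rw [map_mul, map_sub, aeval_X, aeval_C, mul_assoc, sub_mul, sub_eq_zero,
    ← Algebra.smul_def] at h1
  exact h1

lemma idem_mul_G (hc : Commute G Ω) (h0 : aeval G (nodal s (id : ℂ → ℂ)) * Ω = 0) {z : ℂ}
    (hz : z ∈ s) {x : A} (hx : x * Ω = x) : x * idem G s z * G = z • (x * idem G s z) := by
  have h0' : Ω * aeval G (nodal s (id : ℂ → ℂ)) = 0 := by
    have h2 : Commute (aeval G (nodal s (id : ℂ → ℂ))) Ω := by
      rw [aeval_eq_sum_range]
      exact Commute.sum_left _ _ _ fun i _ => (hc.pow_left i).smul_left _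
    rw [← h2.eq, h0]
  have h1 : x * aeval G (Lagrange.basis s id z * (X - C z)) = 0 := by
    rw [mul_comm (Lagrange.basis s id z), basis_mul_sub hz, mul_comm, map_mul, ← hx, mul_assoc,
      ← mul_assoc Ω, h0', zero_mul, mul_zero]
  rw [map_mul, map_sub, aeval_X, aeval_C, ← mul_assoc, mul_sub, sub_eq_zero,
    ← Algebra.commutes, ← Algebra.smul_def] at h1
  exact h1

lemma idem_commute (z : ℂ) : Commute G (idem G s z) := by
  have : idem G s z = aeval G (Lagrange.basis s id z) := rfl
  rw [this, aeval_eq_sum_range]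
  exact Commute.sum_right _ _ _ fun i _ => ((Commute.refl G).pow_right i).smul_right _

lemma idem_word (hc : Commute G Ω) (h0 : aeval G (nodal s (id : ℂ → ℂ)) * Ω = 0)
    {z : ℂ} (hz : z ∈ s) {x : A} (hx : Ω * x = x) (hx' : x * Ω = x) (i j : ℕ) :
    idem G s z * (G ^ i * x * G ^ j) * idem G s z = z ^ (i + j) • (idem G s z * x * idem G s z) := by
  have h1 : ∀ i, idem G s z * (G ^ i * x) = z ^ i • (idem G s z * x) := by
    intro i
    induction i with
    | zero => simp
    | succ i ih =>
      have h2 : idem G s z * (G ^ (i + 1) * x) = G * (idem G s z * (G ^ i * x)) := by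
        rw [pow_succ', mul_assoc, ← mul_assoc, ← (idem_commute z).eq, mul_assoc]
      rw [h2, ih, mul_smul_comm, G_mul_idem h0 hz hx, smul_smul, pow_succ]
  have h3 : ∀ j, x * G ^ j * idem G s z = z ^ j • (x * idem G s z) := by
    intro j
    induction j with
    | zero => simp
    | succ j ih =>
      have h2 : x * G ^ (j + 1) * idem G s z = x * G ^ j * idem G s z * G := by
        rw [pow_succ, ← mul_assoc, mul_assoc (x * G ^ j), (idem_commute z).eq, mul_assoc,
          mul_assoc, mul_assoc]
      rw [h2, ih, smul_mul_assoc, idem_mul_G hc h0 hz hx', smul_smul, pow_succ]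
  calc idem G s z * (G ^ i * x * G ^ j) * idem G s z
      = idem G s z * G ^ i * (x * G ^ j * idem G s z) := by noncomm_ring
    _ = z ^ j • (idem G s z * (G ^ i * x) * idem G s z) := by
        rw [h3, mul_smul_comm]; noncomm_ring
    _ = z ^ (i + j) • (idem G s z * x * idem G s z) := by
        rw [h1, smul_mul_assoc, smul_smul, add_comm, pow_add]

end spectral

section main

open Lagrange TensorProduct

variable {R : Type*} [Ring R] [Algebra ℚ R]

/-- The map to the algebra with complex coefficients. -/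
noncomputable abbrev inc (R : Type*) [Ring R] [Algebra ℚ R] : R →ₐ[ℚ] ℂ ⊗[ℚ] R :=
  Algebra.TensorProduct.includeRight

lemma inc_injective : Function.Injective (inc R) :=
  Algebra.TensorProduct.includeRight_injective (algebraMap ℚ ℂ).injective

/-- The linearized identity with complex coefficients. -/
lemma wordSum_eq_zero {N : Submodule ℚ R} {P : ℚ[X]} {g : R}
    (hD : ∀ x ∈ N, wordPoly P g x 1 = 0) {x : ℂ ⊗[ℚ] R}
    (hx : x ∈ Submodule.span ℂ (inc R '' (N : Set R))) :
    ∑ n ∈ P.support, P.coeff n • ∑ i ∈ range n, inc R g ^ i * x * inc R g ^ (n - 1 - i) = 0 := by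
  induction hx using Submodule.span_induction with
  | mem x hx =>
    obtain ⟨y, hy, rfl⟩ := hx
    have h1 := congrArg (inc R) (hD y hy)
    rw [map_zero, wordPoly, Polynomial.sum_def, map_sum] at h1
    rw [← h1]
    refine Finset.sum_congr rfl fun n _ => ?_
    rw [map_smul, word_one, map_sum]
    congr 1
    refine Finset.sum_congr rfl fun i _ => ?_
    rw [map_mul, map_mul, map_pow, map_pow]
  | zero => simp
  | add x y _ _ hx hy =>
    rw [← add_zero (0 : ℂ ⊗[ℚ] R)]
    nth_rewrite 1 [← hx]
    rw [← hy, ← Finset.sum_add_distrib]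
    refine Finset.sum_congr rfl fun n _ => ?_
    rw [← smul_add, ← Finset.sum_add_distrib]
    congr 1
    exact Finset.sum_congr rfl fun i _ => by rw [mul_add, add_mul]
  | smul c x _ hx =>
    rw [← smul_zero c, ← hx, Finset.smul_sum]
    refine Finset.sum_congr rfl fun n _ => ?_
    rw [smul_comm c]
    congr 1
    rw [Finset.smul_sum]
    exact Finset.sum_congr rfl fun i _ => by rw [mul_smul_comm, smul_mul_assoc]

/-- **Strong nilpotence.** Let `N` be closed under products and under multiplication by `g`, and let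
`P` be a separable polynomial of degree `r` with `P(g) = 0` (on `N`) such that the linearization of
`P` at `g` vanishes on `N`. Then the product of any `r` elements of `N` is zero. -/
theorem strong {N : Submodule ℚ R} {g ω : R} (hmul : ∀ x ∈ N, ∀ y ∈ N, x * y ∈ N)
    (hgl : ∀ x ∈ N, g * x ∈ N) (hgr : ∀ x ∈ N, x * g ∈ N) (hω : ∀ x ∈ N, ω * x = x)
    (hω' : ∀ x ∈ N, x * ω = x) (hgω : Commute g ω) {P : ℚ[X]} (hP : P.Monic)
    (hsep : P.Separable) (h0 : aeval g P * ω = 0) (hD : ∀ x ∈ N, wordPoly P g x 1 = 0)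
    {l : List R} (hl : ∀ x ∈ l, x ∈ N) (hne : l ≠ []) (hn : P.natDegree ≤ l.length) :
    l.prod = 0 := by
  classical
  -- the roots
  set Q : ℂ[X] := P.map (algebraMap ℚ ℂ) with hQ
  have hQm : Q.Monic := hP.map _
  have hQs : Q.Separable := hsep.map
  have hsplit : Q.Splits := IsAlgClosed.splits Q
  set s : Finset ℂ := Q.roots.toFinset with hs
  have hnod : nodal s (id : ℂ → ℂ) = Q := by
    rw [nodal_eq, hs, Finset.prod, Multiset.toFinset_val,
      Multiset.dedup_eq_self.2 (nodup_roots hQs)]
    exact (hsplit.eq_prod_roots_of_monic hQm).symm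
  have hcard : s.card = P.natDegree := by
    rw [← natDegree_map (algebraMap ℚ ℂ), ← hQ, ← hnod, natDegree_nodal]
  rcases s.eq_empty_or_nonempty with hs0 | hs0
  · have h1 : P = 1 := by
      exact hP.natDegree_eq_zero.1 (by rw [← hcard, hs0, Finset.card_empty])
    rw [h1, map_one, one_mul] at h0
    cases l with
    | nil => exact absurd rfl hne
    | cons a l =>
      rw [List.prod_cons, ← hω a (hl a List.mem_cons_self), h0, zero_mul, zero_mul]
  -- complex coefficients
  set N' : Submodule ℂ (ℂ ⊗[ℚ] R) := Submodule.span ℂ (inc R '' (N : Set R)) with hN'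
  set G := inc R g with hG
  set Ω := inc R ω with hΩ
  have hinc : ∀ x ∈ N, inc R x ∈ N' := fun x hx => Submodule.subset_span ⟨x, hx, rfl⟩
  have hmul' : ∀ x ∈ N', ∀ y ∈ N', x * y ∈ N' := by
    intro x hx y hy
    induction hx using Submodule.span_induction with
    | mem x hx =>
      obtain ⟨a, ha, rfl⟩ := hx
      induction hy using Submodule.span_induction with
      | mem y hy =>
        obtain ⟨b, hb, rfl⟩ := hy
        rw [← map_mul]
        exact hinc _ (hmul a ha b hb)
      | zero => rw [mul_zero]; exact N'.zero_mem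
      | add y z _ _ hy hz => rw [mul_add]; exact N'.add_mem hy hz
      | smul c y _ hy => rw [mul_smul_comm]; exact N'.smul_mem c hy
    | zero => rw [zero_mul]; exact N'.zero_mem
    | add y z _ _ hy hz => rw [add_mul]; exact N'.add_mem hy hz
    | smul c y _ hy => rw [smul_mul_assoc]; exact N'.smul_mem c hy
  have hlin : ∀ (L : (ℂ ⊗[ℚ] R) →ₗ[ℂ] (ℂ ⊗[ℚ] R)), (∀ x ∈ N, L (inc R x) ∈ N') →
      ∀ x ∈ N', L x ∈ N' := by
    intro L hL x hx
    induction hx using Submodule.span_induction with
    | mem x hx => obtain ⟨a, ha, rfl⟩ := hx; exact hL a ha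
    | zero => rw [map_zero]; exact N'.zero_mem
    | add y z _ _ hy hz => rw [map_add]; exact N'.add_mem hy hz
    | smul c y _ hy => rw [map_smul]; exact N'.smul_mem c hy
  have hGl : ∀ x ∈ N', G * x ∈ N' := hlin (LinearMap.mulLeft ℂ G) fun x hx => by
    rw [LinearMap.mulLeft_apply, hG, ← map_mul]; exact hinc _ (hgl x hx)
  have hGr : ∀ x ∈ N', x * G ∈ N' := hlin (LinearMap.mulRight ℂ G) fun x hx => by
    rw [LinearMap.mulRight_apply, hG, ← map_mul]; exact hinc _ (hgr x hx)
  have hΩl : ∀ x ∈ N', Ω * x = x := by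
    intro x hx
    induction hx using Submodule.span_induction with
    | mem x hx => obtain ⟨a, ha, rfl⟩ := hx; rw [hΩ, ← map_mul, hω a ha]
    | zero => rw [mul_zero]
    | add y z _ _ hy hz => rw [mul_add, hy, hz]
    | smul c y _ hy => rw [mul_smul_comm, hy]
  have hΩr : ∀ x ∈ N', x * Ω = x := by
    intro x hx
    induction hx using Submodule.span_induction with
    | mem x hx => obtain ⟨a, ha, rfl⟩ := hx; rw [hΩ, ← map_mul, hω' a ha]
    | zero => rw [zero_mul]
    | add y z _ _ hy hz => rw [add_mul, hy, hz]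
    | smul c y _ hy => rw [smul_mul_assoc, hy]
  have hc : Commute G Ω := hgω.map (inc R)
  have haev : aeval G (nodal s (id : ℂ → ℂ)) = inc R (aeval g P) := by
    rw [hnod, hQ, aeval_map_algebraMap, hG, aeval_algHom_apply]
  have h0' : aeval G (nodal s (id : ℂ → ℂ)) * Ω = 0 := by
    rw [haev, hΩ, ← map_mul, h0, map_zero]
  have hdiag : ∀ x ∈ N', ∀ z ∈ s, idem G s z * x * idem G s z = 0 := by
    intro x hx z hz
    have h1 := congrArg (fun t => idem G s z * t * idem G s z) (wordSum_eq_zero hD hx)
    simp only [mul_zero, zero_mul, Finset.mul_sum, Finset.sum_mul, mul_smul_comm,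
      smul_mul_assoc] at h1
    have h2 : ∀ n ∈ P.support, P.coeff n • ∑ i ∈ range n,
        (idem G s z * (G ^ i * x * G ^ (n - 1 - i)) * idem G s z) =
        (algebraMap ℚ ℂ (P.coeff n) * (n * z ^ (n - 1))) • (idem G s z * x * idem G s z) := by
      intro n _
      have h3 : ∀ i ∈ range n, idem G s z * (G ^ i * x * G ^ (n - 1 - i)) * idem G s z =
          z ^ (n - 1) • (idem G s z * x * idem G s z) := by
        intro i hi
        rw [idem_word hc h0' hz (hΩl x hx) (hΩr x hx)]
        congr 2
        rw [mem_range] at hi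
        omega
      rw [Finset.sum_congr rfl h3, Finset.sum_const, card_range, ← Nat.cast_smul_eq_nsmul ℂ,
        ← algebraMap_smul ℂ (P.coeff n), smul_smul, smul_smul, mul_assoc]
    rw [Finset.sum_congr rfl h2, ← Finset.sum_smul] at h1
    have h4 : ∑ n ∈ P.support, algebraMap ℚ ℂ (P.coeff n) * (n * z ^ (n - 1)) =
        (derivative Q).eval z := by
      rw [hQ, derivative_map, eval_map, derivative_apply, Polynomial.sum_def, eval₂_finsetSum]
      refine Finset.sum_congr rfl fun n _ => ?_
      rw [eval₂_mul, eval₂_C, eval₂_X_pow, map_mul, map_natCast, mul_assoc]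
    rw [h4] at h1
    have h5 : (derivative Q).eval z ≠ 0 := by
      have h6 : Q.IsRoot z := isRoot_of_mem_roots (Multiset.mem_toFinset.1 hz)
      intro h7
      obtain ⟨a, b, hab⟩ := hQs
      have h8 := congrArg (eval z) hab
      rw [eval_add, eval_mul, eval_mul, h6.eq_zero, h7] at h8
      simp at h8
    exact (smul_eq_zero.1 h1).resolve_left h5
  have hsum : ∀ T : Finset s, ∑ i ∈ T, idem G s i.1 = aeval G (∑ i ∈ T, Lagrange.basis s id i.1) :=
    fun T => by rw [map_sum]; rfl
  have hone : ∑ i : s, idem G s i.1 = 1 := by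
    rw [hsum, Finset.sum_coe_sort s fun i => Lagrange.basis s id i,
      sum_basis (Set.injOn_id _) hs0, map_one]
  have hfin := prod_eq_zero (N := (N' : Set (ℂ ⊗[ℚ] R))) (e := fun i : s => idem G s i.1) hmul'
    (fun x hx T => by rw [hsum]; exact mul_aeval_mem hGr _ x hx) (fun x hx i => hdiag x hx i i.2)
    (S := Finset.univ) (ω := Ω) hΩl (by rw [hone, mul_one]) (fun x _ => by rw [hone, mul_one])
    (l := l.map (inc R)) (by
      intro x hx
      obtain ⟨a, ha, rfl⟩ := List.mem_map.1 hx
      exact hinc _ (hl a ha)) (by simpa using hne) (by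
      rw [List.length_map, Finset.card_univ, Fintype.card_coe, hcard]; exact hn)
  rw [← map_list_prod] at hfin
  exact inc_injective (hfin.trans (map_zero _).symm)

end main

end Pool.Agent.H836.SN
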