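import Pool.Graph.R_pool_sql_team_seeded_b0a926ef.R903.MatMain

/-!
# Inserting cycles into relations between permutations and matchings

A relation between the products of the classes `(x_i, y_{σ(i)})^* ω` (or between the classes of the
matchings) holds for all morphisms `x_i`, `y_j`. We show that some of the morphisms can be replaced
by cycles `a_i`, `b_j`: then `(x_i, y_j)^* ω` is replaced by `y_j^* (ω_* a_i)`, and so on.
-/

open CategoryTheory CategoryTheory.Limits AlgebraicGeometry
open Pool.Agent.H914 Pool.Agent.H914.VarClass Pool.Agent.H914.VarClass.Obj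
open Pool.Agent.R903 Equiv Equiv.Perm Pool.Agent.R903.PermCore

universe u v w

namespace Pool.Agent.H836

variable {k : Type u} [Field k] {𝒱 : VarClass k} {C : ChowTheory.{u, v} 𝒱}

section Insert

variable {X W Y : 𝒱.Obj}

/-- The operator `y ↦ p_{1*}(γ · p_2^* y)`, the action of the transpose of `γ`. -/
noncomputable def coact (C : ChowTheory.{u, v} 𝒱) {X W : 𝒱.Obj} (γ : C.CH (X.prod W))
    (b : C.CH W) : C.CH X :=
  C.push (fst X W) (γ * C.pull (snd X W) b)

/-- Insertion of a cycle in the first variable of a correspondence. -/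
lemma push_insert (ω : C.CH (X.prod W)) (a : C.CH X) (z : Y ⟶ W) :
    C.push (fst Y X) (C.pull (snd Y X) a * C.pull (lift (snd Y X) (fst Y X ≫ z)) ω) =
      C.pull z (C.act ω a) := by
  have hg1 : lift (snd Y X) (fst Y X ≫ z) ≫ snd X W = fst Y X ≫ z := Obj.lift_snd _ _
  have hg2 : lift (snd Y X) (fst Y X ≫ z) ≫ fst X W = snd Y X := Obj.lift_fst _ _
  rw [C.act_apply, ChowTheory.pull_push_proj (snd X W) (fst X W) isIso_swap z
    (lift (snd Y X) (fst Y X ≫ z)) hg1 hg2, C.pull_mul, ← C.pull_comp, hg2, mul_comm]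

/-- Insertion of a cycle in the second variable of a correspondence. -/
lemma push_insert_snd (ω : C.CH (X.prod W)) (b : C.CH W) (x : Y ⟶ X) :
    C.push (fst Y W) (C.pull (snd Y W) b * C.pull (lift (fst Y W ≫ x) (snd Y W)) ω) =
      C.pull x (coact C ω b) := by
  have hg1 : lift (fst Y W ≫ x) (snd Y W) ≫ fst X W = fst Y W ≫ x := Obj.lift_fst _ _
  have hg2 : lift (fst Y W ≫ x) (snd Y W) ≫ snd X W = snd Y W := Obj.lift_snd _ _
  rw [coact, ChowTheory.pull_push_proj (fst X W) (snd X W) isIso_lift_fst_snd x
    (lift (fst Y W ≫ x) (snd Y W)) hg1 hg2, C.pull_mul, ← C.pull_comp, hg2, mul_comm]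

/-- Insertion of a cycle in a cycle. -/
lemma push_insert_deg (a b : C.CH X) :
    C.push (fst Y X) (C.pull (snd Y X) a * C.pull (snd Y X) b) =
      algebraMap ℚ (C.CH Y) (C.deg X (b * a)) := by
  rw [← C.pull_mul, ChowTheory.push_fst_pull_snd, mul_comm]

end Insert

/-! ### permutations -/

section Perm

variable {X Y : 𝒱.Obj} {ω : C.CH (X.prod X)} {n : ℕ}

/-- The entries after the insertion of the cycles `a i` in the rows in `S` and of the cycles `b j`
in the columns in `T`. -/
noncomputable def entry (ω : C.CH (X.prod X)) (S T : Finset (Fin n)) (a b : Fin n → C.CH X)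
    (x y : Fin n → (Y ⟶ X)) (i j : Fin n) : C.CH Y :=
  if i ∈ S then
    (if j ∈ T then algebraMap ℚ (C.CH Y) (C.deg X (C.act ω (a i) * b j))
      else C.pull (y j) (C.act ω (a i)))
  else (if j ∈ T then C.pull (x i) (coact C ω (b j)) else C.pull (lift (x i) (y j)) ω)

theorem permRel_rows {c : Equiv.Perm (Fin n) → ℚ} (h : C.PermRel ω n c) (a b : Fin n → C.CH X)
    (S : Finset (Fin n)) :
    ∀ (Y : 𝒱.Obj) (x y : Fin n → (Y ⟶ X)),
      ∑ σ, c σ • ∏ i, entry ω S ∅ a b x y i (σ i) = 0 := by
  classical
  induction S using Finset.induction_on with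
  | empty =>
    intro Y x y
    simpa [entry] using h Y x y
  | insert j s hj ih =>
    intro Y x y
    have h1 := ih (Y.prod X) (fun i => if i = j then snd Y X else fst Y X ≫ x i)
      (fun i => fst Y X ≫ y i)
    have h2 := congrArg (fun z => C.push (fst Y X) (C.pull (snd Y X) (a j) * z)) h1
    simp only [mul_zero, map_zero, Finset.mul_sum, map_sum, mul_smul_comm, map_smul] at h2
    rw [← h2]
    refine Finset.sum_congr rfl fun σ _ => ?_
    congr 1
    rw [← Finset.mul_prod_erase Finset.univ _ (Finset.mem_univ j),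
      ← Finset.mul_prod_erase Finset.univ (fun i => entry ω s ∅ a b _ _ i (σ i))
        (Finset.mem_univ j)]
    have h3 : ∀ i ∈ Finset.univ.erase j, entry ω s ∅ a b
        (fun i => if i = j then snd Y X else fst Y X ≫ x i) (fun i => fst Y X ≫ y i) i (σ i) =
        C.pull (fst Y X) (entry ω (insert j s) ∅ a b x y i (σ i)) := by
      intro i hi
      have hij := (Finset.mem_erase.1 hi).1
      unfold entry
      by_cases his : i ∈ s
      · simp only [if_pos his, if_pos (Finset.mem_insert_of_mem his), Finset.notMem_empty,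
          if_false, C.pull_comp]
      · have : i ∉ insert j s := by simp [hij, his]
        simp only [if_neg his, if_neg this, if_neg hij, Finset.notMem_empty, if_false,
          ← C.pull_comp, comp_lift]
    rw [Finset.prod_congr rfl h3, ← map_prod, ← mul_assoc, C.push_mul]
    congr 1
    simp only [entry, if_pos (Finset.mem_insert_self j s), if_neg hj, Finset.notMem_empty,
      if_false, if_true, push_insert]

theorem permRel_entries {c : Equiv.Perm (Fin n) → ℚ} (h : C.PermRel ω n c)
    (a b : Fin n → C.CH X) (S T : Finset (Fin n)) :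
    ∀ (Y : 𝒱.Obj) (x y : Fin n → (Y ⟶ X)),
      ∑ σ, c σ • ∏ i, entry ω S T a b x y i (σ i) = 0 := by
  classical
  induction T using Finset.induction_on with
  | empty => exact permRel_rows h a b S
  | insert j t hj ih =>
    intro Y x y
    have h1 := ih (Y.prod X) (fun i => fst Y X ≫ x i)
      (fun i => if i = j then snd Y X else fst Y X ≫ y i)
    have h2 := congrArg (fun z => C.push (fst Y X) (C.pull (snd Y X) (b j) * z)) h1
    simp only [mul_zero, map_zero, Finset.mul_sum, map_sum, mul_smul_comm, map_smul] at h2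
    rw [← h2]
    refine Finset.sum_congr rfl fun σ _ => ?_
    congr 1
    set i₀ := σ⁻¹ j with hi₀
    have hσ : σ i₀ = j := by simp [hi₀]
    rw [← Finset.mul_prod_erase Finset.univ _ (Finset.mem_univ i₀),
      ← Finset.mul_prod_erase Finset.univ (fun i => entry ω S t a b _ _ i (σ i))
        (Finset.mem_univ i₀)]
    have h3 : ∀ i ∈ Finset.univ.erase i₀, entry ω S t a b
        (fun i => fst Y X ≫ x i) (fun i => if i = j then snd Y X else fst Y X ≫ y i) i (σ i) =
        C.pull (fst Y X) (entry ω S (insert j t) a b x y i (σ i)) := by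
      intro i hi
      have hij : σ i ≠ j := by
        intro h
        apply (Finset.mem_erase.1 hi).1
        rw [hi₀, ← h]; simp
      have hmem : σ i ∈ insert j t ↔ σ i ∈ t := by simp [hij]
      unfold entry
      by_cases his : i ∈ S
      · by_cases hit : σ i ∈ t
        · simp only [if_pos his, if_pos hit, if_pos (hmem.2 hit), AlgHom.commutes]
        · simp only [if_pos his, if_neg hit, if_neg (fun h => hit (hmem.1 h)), if_neg hij,
            C.pull_comp]
      · by_cases hit : σ i ∈ t
        · simp only [if_neg his, if_pos hit, if_pos (hmem.2 hit), C.pull_comp]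
        · simp only [if_neg his, if_neg hit, if_neg (fun h => hit (hmem.1 h)), if_neg hij,
            ← C.pull_comp, comp_lift]
    rw [Finset.prod_congr rfl h3, ← map_prod, ← mul_assoc, C.push_mul]
    congr 1
    unfold entry
    rw [hσ]
    by_cases his : i₀ ∈ S
    · simp only [if_pos his, if_pos (Finset.mem_insert_self j t), if_neg hj, if_true,
        push_insert_deg]
    · simp only [if_neg his, if_pos (Finset.mem_insert_self j t), if_neg hj, if_true,
        push_insert_snd]

end Perm

/-! ### matchings -/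

section Match

open Pool.Agent.R903.Mat

variable {X Y : 𝒱.Obj} {ω : C.CH (X.prod X)} {α : Type} [Fintype α] [DecidableEq α]

omit [Fintype α] in
/-- The class of a pair after the insertion of the cycles `c i` at the points `i` in `S`. -/
noncomputable def vfam (hs : C.IsSymmetric ω) (S : Finset α) (c : α → C.CH X)
    (z : α → (Y ⟶ X)) : Sym2 α → C.CH Y :=
  Sym2.lift ⟨fun i j =>
    if i ∈ S then (if j ∈ S then 0 else C.pull (z j) (C.act ω (c i)))
    else (if j ∈ S then C.pull (z i) (C.act ω (c j)) else C.pull (lift (z i) (z j)) ω), by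
      intro i j
      by_cases hi : i ∈ S <;> by_cases hj : j ∈ S
      · simp only [if_pos hi, if_pos hj]
      · simp only [if_pos hi, if_neg hj]
      · simp only [if_neg hi, if_pos hj]
      · simp only [if_neg hi, if_neg hj, symm_pull hs (z i) (z j)]⟩

omit [Fintype α] in
lemma vfam_mk (hs : C.IsSymmetric ω) (S : Finset α) (c : α → C.CH X) (z : α → (Y ⟶ X))
    (i j : α) : vfam hs S c z s(i, j) =
    if i ∈ S then (if j ∈ S then 0 else C.pull (z j) (C.act ω (c i)))
    else (if j ∈ S then C.pull (z i) (C.act ω (c j)) else C.pull (lift (z i) (z j)) ω) := rfl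

/-- Insertion of cycles which are orthogonal to each other for the form given by `ω`. -/
theorem rel_insert {hs : C.IsSymmetric ω} {v : Matching α → ℚ} (h : Mat.Rel C hs v)
    (c : α → C.CH X) (S : Finset α)
    (hc : ∀ i ∈ S, ∀ j ∈ S, C.deg X (C.act ω (c i) * c j) = 0) :
    ∀ (Y : 𝒱.Obj) (z : α → (Y ⟶ X)), ∑ m, v m • ∏ e ∈ edges m, vfam hs S c z e = 0 := by
  induction S using Finset.induction_on with
  | empty =>
    intro Y z
    rw [← h Y z]
    refine Finset.sum_congr rfl fun m _ => ?_
    congr 1
  | insert p s hp ih =>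
    intro Y z
    have h1 := ih (fun i hi j hj => hc i (Finset.mem_insert_of_mem hi) j
      (Finset.mem_insert_of_mem hj)) (Y.prod X) (fun i => if i = p then snd Y X else fst Y X ≫ z i)
    have h2 := congrArg (fun z => C.push (fst Y X) (C.pull (snd Y X) (c p) * z)) h1
    simp only [mul_zero, map_zero, Finset.mul_sum, map_sum, mul_smul_comm, map_smul] at h2
    rw [← h2]
    refine Finset.sum_congr rfl fun m _ => ?_
    congr 1
    have hmem : s(p, m.1 p) ∈ edges m := Finset.mem_image.2 ⟨p, Finset.mem_univ p, rfl⟩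
    rw [← Finset.mul_prod_erase (edges m) _ hmem,
      ← Finset.mul_prod_erase (edges m) (fun e => vfam hs s c _ e) hmem]
    have h3 : ∀ e ∈ (edges m).erase s(p, m.1 p), vfam hs s c
        (fun i => if i = p then snd Y X else fst Y X ≫ z i) e =
        C.pull (fst Y X) (vfam hs (insert p s) c z e) := by
      intro e he
      obtain ⟨he1, he2⟩ := Finset.mem_erase.1 he
      obtain ⟨i, -, rfl⟩ := Finset.mem_image.1 he2
      have hi : i ≠ p := by rintro rfl; exact he1 rfl
      have hj : m.1 i ≠ p := by
        rintro h3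
        apply he1
        rw [← h3, m.2.1, Sym2.eq_swap]
      have hi' : i ∈ insert p s ↔ i ∈ s := by simp [hi]
      have hj' : m.1 i ∈ insert p s ↔ m.1 i ∈ s := by simp [hj]
      rw [vfam_mk, vfam_mk]
      by_cases h5 : i ∈ s <;> by_cases h6 : m.1 i ∈ s
      · simp only [if_pos h5, if_pos h6, if_pos (hi'.2 h5), if_pos (hj'.2 h6), map_zero]
      · simp only [if_pos h5, if_neg h6, if_pos (hi'.2 h5), if_neg (fun h => h6 (hj'.1 h)),
          if_neg hj, C.pull_comp]
      · simp only [if_neg h5, if_pos h6, if_neg (fun h => h5 (hi'.1 h)), if_pos (hj'.2 h6),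
          if_neg hi, C.pull_comp]
      · simp only [if_neg h5, if_neg h6, if_neg (fun h => h5 (hi'.1 h)),
          if_neg (fun h => h6 (hj'.1 h)), if_neg hi, if_neg hj, ← C.pull_comp, comp_lift]
    rw [Finset.prod_congr rfl h3, ← map_prod, ← mul_assoc, C.push_mul]
    congr 1
    have hpm : m.1 p ≠ p := m.2.2 p
    have hj' : m.1 p ∈ insert p s ↔ m.1 p ∈ s := by simp [hpm]
    rw [vfam_mk, vfam_mk]
    by_cases h6 : m.1 p ∈ s
    · simp only [if_pos (Finset.mem_insert_self p s), if_pos (hj'.2 h6), if_neg hp, if_pos h6,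
        if_true, push_insert_deg]
      rw [hc _ (Finset.mem_insert_of_mem h6) _ (Finset.mem_insert_self p s), map_zero]
    · simp only [if_pos (Finset.mem_insert_self p s), if_neg (fun h => h6 (hj'.1 h)), if_neg hp,
        if_neg h6, if_true, if_neg hpm, push_insert]

/-- The matching of `β ⊕ β` given by a permutation of `β`. -/
def cross {β : Type} (σ : Equiv.Perm β) : Matching (β ⊕ β) :=
  ⟨⟨Sum.elim (fun i => Sum.inr (σ i)) (fun j => Sum.inl (σ⁻¹ j)),
    Sum.elim (fun i => Sum.inr (σ i)) (fun j => Sum.inl (σ⁻¹ j)),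
    by rintro (i | j) <;> simp, by rintro (i | j) <;> simp⟩,
    by rintro (i | j) <;> simp, by rintro (i | j) <;> simp⟩

lemma cross_inl {β : Type} (σ : Equiv.Perm β) (i : β) :
    (cross σ).1 (Sum.inl i) = Sum.inr (σ i) := rfl

lemma cross_inr {β : Type} (σ : Equiv.Perm β) (j : β) :
    (cross σ).1 (Sum.inr j) = Sum.inl (σ⁻¹ j) := rfl

lemma prod_edges_cross {β : Type} [Fintype β] [DecidableEq β] {R : Type*} [CommRing R]
    (w : Sym2 (β ⊕ β) → R) (σ : Equiv.Perm β) :
    ∏ e ∈ edges (cross σ), w e = ∏ i, w s(Sum.inl i, Sum.inr (σ i)) := by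
  have h1 : edges (cross σ) = Finset.univ.image fun i => s(Sum.inl i, Sum.inr (σ i)) := by
    ext e
    simp only [edges, Finset.mem_image, Finset.mem_univ, true_and]
    constructor
    · rintro ⟨i | j, rfl⟩
      · exact ⟨i, rfl⟩
      · refine ⟨σ⁻¹ j, ?_⟩
        rw [cross_inr, Sym2.eq_swap]
        simp
    · rintro ⟨i, rfl⟩
      exact ⟨Sum.inl i, rfl⟩
  rw [h1, Finset.prod_image]
  intro i _ j _ hij
  rcases Sym2.eq_iff.1 hij with ⟨h, -⟩ | ⟨h, -⟩
  · exact Sum.inl_injective h
  · exact absurd h (by simp)

/-- If the pairs of two elements of the first half do not contribute, then the sum over all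
matchings is a sum over permutations. -/
lemma sum_matchings_eq {β : Type} [Fintype β] [DecidableEq β] {R : Type*} [CommRing R]
    (w : Sym2 (β ⊕ β) → R) (h0 : ∀ i j, w s(Sum.inl i, Sum.inl j) = 0) :
    ∑ m : Matching (β ⊕ β), ∏ e ∈ edges m, w e =
      ∑ σ : Equiv.Perm β, ∏ i, w s(Sum.inl i, Sum.inr (σ i)) := by
  symm
  refine Finset.sum_bij_ne_zero (fun σ _ _ => cross σ) ?_ ?_ ?_ ?_
  · intros; exact Finset.mem_univ _
  · intro σ _ _ τ _ _ h
    ext i
    have := congrArg (fun m : Matching (β ⊕ β) => m.1 (Sum.inl i)) h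
    exact Sum.inr_injective this
  · intro m _ hm
    have hinr : ∀ i, ∃ j, m.1 (Sum.inl i) = Sum.inr j := by
      intro i
      rcases hj : m.1 (Sum.inl i) with j | j
      · exfalso
        apply hm
        refine Finset.prod_eq_zero (i := s(Sum.inl i, Sum.inl j)) ?_ (h0 i j)
        exact Finset.mem_image.2 ⟨Sum.inl i, Finset.mem_univ _, by rw [hj]⟩
      · exact ⟨j, rfl⟩
    choose f hf using hinr
    have hfinj : Function.Injective f := by
      intro i j h
      have h1 : m.1 (Sum.inl i) = m.1 (Sum.inl j) := by rw [hf, hf, h]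
      exact Sum.inl_injective (m.1.injective h1)
    have hfbij : Function.Bijective f := Finite.injective_iff_bijective.1 hfinj
    set σ : Equiv.Perm β := Equiv.ofBijective f hfbij with hσ
    have hσf : ∀ i, σ i = f i := fun i => rfl
    have hm' : cross σ = m := by
      apply Subtype.ext
      ext (i | j)
      · rw [cross_inl, hf]; rfl
      · rw [cross_inr]
        have h1 : m.1 (Sum.inl (σ⁻¹ j)) = Sum.inr j := by
          rw [hf, ← hσf]; simp
        rw [← h1, m.2.1]
    refine ⟨σ, Finset.mem_univ _, ?_, hm'⟩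
    rw [← prod_edges_cross, hm']
    exact hm
  · intro σ _ _
    rw [prod_edges_cross]

end Match

end Pool.Agent.H836
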