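import Pool.Agent.H836.OddCycles

/-!
# Wedge products of isotropic cycles on evenly finite-dimensional motives
-/

open CategoryTheory CategoryTheory.Limits AlgebraicGeometry
open Pool.Agent.H914 Pool.Agent.H914.VarClass Pool.Agent.H914.VarClass.Obj
open Pool.Agent.R903 Equiv Equiv.Perm Pool.Agent.R903.PermCore

universe u v w

namespace Pool.Agent.H836

variable {k : Type u} [Field k] {𝒱 : VarClass k} {C : ChowTheory.{u, v} 𝒱}
variable {X Y : 𝒱.Obj} {ω : C.CH (X.prod X)}

/-! ### relations and determinants -/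

lemma sum_chi_eq_det {R : Type*} [CommRing R] [Algebra ℚ R] {n : ℕ} (G : Fin n → Fin n → R) :
    ∑ σ : Equiv.Perm (Fin n), (chi 1 σ : ℚ) • ∏ i, G i (σ i) = (Matrix.of G).det := by
  rw [← Matrix.det_transpose, Matrix.det_apply]
  refine Finset.sum_congr rfl fun σ _ => ?_
  simp only [chi, if_true, Matrix.transpose_apply, Matrix.of_apply]
  rw [Int.cast_smul_eq_zsmul, Units.smul_def]

lemma permRel_iff_det {n : ℕ} : C.PermRel ω n (chi 1) ↔ ∀ (Y : 𝒱.Obj) (x y : Fin n → (Y ⟶ X)),
    (Matrix.of fun i j => C.pull (lift (x i) (y j)) ω).det = 0 := by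
  unfold ChowTheory.PermRel
  refine forall_congr' fun Y => forall_congr' fun x => forall_congr' fun y => ?_
  rw [← sum_chi_eq_det]

lemma permRel_succ {n : ℕ} (h : C.PermRel ω n (chi 1)) : C.PermRel ω (n + 1) (chi 1) := by
  rw [permRel_iff_det] at h ⊢
  intro Y x y
  rw [Matrix.det_succ_row_zero]
  refine Finset.sum_eq_zero fun j _ => ?_
  have h1 : ((Matrix.of fun i j => C.pull (lift (x i) (y j)) ω).submatrix Fin.succ
      j.succAbove).det = 0 :=
    h Y (fun i => x i.succ) (fun i => y (j.succAbove i))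
  rw [h1, mul_zero]

lemma permRel_mono {m n : ℕ} (hmn : m ≤ n) (h : C.PermRel ω m (chi 1)) :
    C.PermRel ω n (chi 1) := by
  induction n, hmn using Nat.le_induction with
  | base => exact h
  | succ n _ ih => exact permRel_succ ih

/-- If the cycles `a i` and `b j` are orthogonal for the form given by `ω`, then the product of the
two determinants vanishes. -/
theorem det_mul_det {r s : ℕ} (h : C.PermRel ω (r + s) (chi 1)) (a : Fin r → C.CH X)
    (b : Fin s → C.CH X) (hab : ∀ i j, C.deg X (C.act ω (a i) * b j) = 0)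
    (y : Fin r → (Y ⟶ X)) (x : Fin s → (Y ⟶ X)) :
    (Matrix.of fun i j => C.pull (y j) (C.act ω (a i))).det *
      (Matrix.of fun i j => C.pull (x i) (coact C ω (b j))).det = 0 := by
  classical
  set S : Finset (Fin (r + s)) := Finset.univ.image (Fin.castAdd s) with hS
  set T : Finset (Fin (r + s)) := Finset.univ.image (Fin.natAdd r) with hT
  have hS1 : ∀ i, Fin.castAdd s i ∈ S := fun i => Finset.mem_image.2 ⟨i, Finset.mem_univ _, rfl⟩
  have hS2 : ∀ i, Fin.natAdd r i ∉ S := by
    intro i hi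
    obtain ⟨j, -, hj⟩ := Finset.mem_image.1 hi
    have := congrArg Fin.val hj
    simp only [Fin.val_castAdd, Fin.val_natAdd] at this
    omega
  have hT1 : ∀ i, Fin.natAdd r i ∈ T := fun i => Finset.mem_image.2 ⟨i, Finset.mem_univ _, rfl⟩
  have hT2 : ∀ i, Fin.castAdd s i ∉ T := by
    intro i hi
    obtain ⟨j, -, hj⟩ := Finset.mem_image.1 hi
    have := congrArg Fin.val hj
    simp only [Fin.val_castAdd, Fin.val_natAdd] at this
    omega
  have h1 := permRel_entries h (Fin.append a fun _ => 0) (Fin.append (fun _ => 0) b) S T Y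
    (Fin.append y x) (Fin.append y x)
  rw [sum_chi_eq_det (fun i j => entry ω S T (Fin.append a fun _ => 0)
    (Fin.append (fun _ => 0) b) (Fin.append y x) (Fin.append y x) i j),
    ← Matrix.det_submatrix_equiv_self finSumFinEquiv] at h1
  have h2 : (Matrix.of fun i j => entry ω S T (Fin.append a fun _ => 0)
      (Fin.append (fun _ => 0) b) (Fin.append y x) (Fin.append y x) i j).submatrix
        finSumFinEquiv finSumFinEquiv =
      Matrix.fromBlocks (Matrix.of fun i j => C.pull (y j) (C.act ω (a i))) 0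
        (Matrix.of fun i j => C.pull (lift (x i) (y j)) ω)
        (Matrix.of fun i j => C.pull (x i) (coact C ω (b j))) := by
    ext i j
    rcases i with i | i <;> rcases j with j | j
    · simp only [Matrix.submatrix_apply, Matrix.of_apply, finSumFinEquiv_apply_left, entry,
        if_pos (hS1 i), if_neg (hT2 j), Fin.append_left, Matrix.fromBlocks_apply₁₁]
    · simp only [Matrix.submatrix_apply, Matrix.of_apply, finSumFinEquiv_apply_left,
        finSumFinEquiv_apply_right, entry, if_pos (hS1 i), if_pos (hT1 j), Fin.append_left,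
        Fin.append_right, Matrix.fromBlocks_apply₁₂, hab, map_zero, Matrix.zero_apply]
    · simp only [Matrix.submatrix_apply, Matrix.of_apply, finSumFinEquiv_apply_left,
        finSumFinEquiv_apply_right, entry, if_neg (hS2 i), if_neg (hT2 j), Fin.append_left,
        Fin.append_right, Matrix.fromBlocks_apply₂₁]
    · simp only [Matrix.submatrix_apply, Matrix.of_apply,
        finSumFinEquiv_apply_right, entry, if_neg (hS2 i), if_pos (hT1 j),
        Fin.append_right, Matrix.fromBlocks_apply₂₂]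
  rw [h2, Matrix.det_fromBlocks_zero₁₂] at h1
  exact h1

/-! ### cycles of oddly finite-dimensional motives -/

lemma sum_const_prod {n : ℕ} {R : Type*} [CommRing R] [Algebra ℚ R] (f : Fin n → R)
    (h : ∑ σ : Equiv.Perm (Fin n), ∏ i, f (σ i) = 0) : ∏ i, f i = 0 := by
  have h1 : ∀ σ : Equiv.Perm (Fin n), ∏ i, f (σ i) = ∏ i, f i := fun σ => Equiv.prod_comp σ f
  rw [Finset.sum_congr rfl fun σ _ => h1 σ, Finset.sum_const, Finset.card_univ,
    Fintype.card_perm, Fintype.card_fin, ← Nat.cast_smul_eq_nsmul ℚ] at h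
  refine (smul_eq_zero.1 h).resolve_left ?_
  exact_mod_cast n.factorial_ne_zero

lemma powVanishes_act {m : ℕ} (h : C.SymVanishes ω m) (a : C.CH X) :
    PowVanishes C (C.act ω a) m := by
  obtain ⟨hm, h⟩ := ChowTheory.symVanishes_iff.1 h
  refine powVanishes_iff.2 ⟨hm, fun Y z => ?_⟩
  have h1 := permRel_entries h (fun _ => a) (fun _ => a) Finset.univ ∅ Y z z
  simp only [entry, Finset.mem_univ, if_true, Finset.notMem_empty, if_false, chi_neg_one,
    one_smul] at h1
  exact sum_const_prod (fun i => C.pull (z i) (C.act ω a)) h1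

lemma powVanishes_coact {m : ℕ} (h : C.SymVanishes ω m) (a : C.CH X) :
    PowVanishes C (coact C ω a) m := by
  obtain ⟨hm, h⟩ := ChowTheory.symVanishes_iff.1 h
  refine powVanishes_iff.2 ⟨hm, fun Y z => ?_⟩
  have h1 := permRel_entries h (fun _ => a) (fun _ => a) ∅ Finset.univ Y z z
  simp only [entry, Finset.mem_univ, if_true, Finset.notMem_empty, if_false, chi_neg_one,
    one_smul] at h1
  have h2 : ∀ σ : Equiv.Perm (Fin m), ∏ i, C.pull (z i) (coact C ω a) =
      ∏ i, C.pull (z (σ i)) (coact C ω a) :=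
    fun σ => (Equiv.prod_comp σ (fun i => C.pull (z i) (coact C ω a))).symm
  rw [Finset.sum_congr rfl fun σ _ => h2 σ] at h1
  exact sum_const_prod (fun i => C.pull (z i) (coact C ω a)) h1

/-! ### the ideal generated by smash-nilpotent cycles -/

/-- The ideal of `CH(Y)` generated by the pull-backs of the cycles in `G`. -/
def nilIdeal (C : ChowTheory.{u, v} 𝒱) {X : 𝒱.Obj} (G : Set (C.CH X)) (Y : 𝒱.Obj) :
    Ideal (C.CH Y) :=
  Ideal.span {c | ∃ g ∈ G, ∃ z : Y ⟶ X, c = C.pull z g}

lemma pull_mem_nilIdeal {G : Set (C.CH X)} {g : C.CH X} (hg : g ∈ G) (z : Y ⟶ X) :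
    C.pull z g ∈ nilIdeal C G Y := Ideal.subset_span ⟨g, hg, z, rfl⟩

open scoped Pointwise in
/-- The ideal is nilpotent, uniformly in `Y`. -/
lemma nilIdeal_pow (G : Finset (C.CH X)) {m : ℕ} (hG : ∀ g ∈ G, PowVanishes C g m) (Y : 𝒱.Obj) :
    nilIdeal C (G : Set (C.CH X)) Y ^ (G.card * (m - 1) + 1) = ⊥ := by
  classical
  have h1 : nilIdeal C (G : Set (C.CH X)) Y ^ (G.card * (m - 1) + 1) =
      Ideal.span ({c | ∃ g ∈ (G : Set (C.CH X)), ∃ z : Y ⟶ X, c = C.pull z g} ^
        (G.card * (m - 1) + 1)) :=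
    Submodule.span_pow _ _
  rw [h1, Ideal.span_eq_bot]
  intro c hc
  rw [Set.mem_pow_iff_prod] at hc
  obtain ⟨f, hf, rfl⟩ := hc
  choose g hg z hz using hf
  obtain ⟨g₀, hg₀, hcard⟩ := Finset.exists_lt_card_fiber_of_mul_lt_card_of_maps_to
    (s := (Finset.univ : Finset (Fin (G.card * (m - 1) + 1)))) (t := G) (f := g)
    (fun i _ => hg i) (n := m - 1) (by simp)
  have h2 : ∏ i ∈ Finset.univ.filter (fun i => g i = g₀), f i =
      ∏ i ∈ Finset.univ.filter (fun i => g i = g₀), C.pull (z i) g₀ := by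
    refine Finset.prod_congr rfl fun i hi => ?_
    rw [hz, (Finset.mem_filter.1 hi).2]
  rw [← Finset.prod_filter_mul_prod_filter_not Finset.univ (fun i => g i = g₀), h2,
    (hG g₀ hg₀).finset (by omega) z, zero_mul]

end Pool.Agent.H836
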